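import Pool.Agent.H75.UB.Cmp

set_option autoImplicit false
set_option linter.unusedSectionVars false

/-!
# MP_8c6e6e_an, `1 < p < 2`: the exact order.  Definitions and the statements of all modules.
-/

open Finset ComplexConjugate MeasureTheory

open scoped Classical

namespace Pool.Agent.H75.UX

open Pool.Agent.H75.MT (ee ee_add ee_norm ee_conj ee_int ee_zero)
open Pool.Agent.H75.UB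

noncomputable section

local instance : MeasureSpace UnitAddCircle := ⟨AddCircle.haarAddCircle⟩

variable {d : ℕ}

/-! ## Weights -/

/-- distance to the nearest integer -/
def nu (t : ℝ) : ℝ := |t - round t|

/-- decay in the space variable, at the scale `1/q` -/
def kp (q μ : ℕ) (t : ℝ) : ℝ := 1 / (max 1 ((q : ℝ) * nu t)) ^ μ

/-- decay in the aliasing index -/
def pw (Q μ : ℕ) (h : ℤ) : ℝ := 1 / (max 1 (|(h : ℝ)| / Q)) ^ μ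

/-- the nonzero aliasing indices -/
def Hn (q : ℕ) : Finset ℤ := (Hs q).filter (fun h => h ≠ 0)

/-- the cluster of a grid point: its dyadic interval of length `2^-J` -/
def clu (s : Fin d → ℕ) (i0 : Fin d) (J : ℕ) (ζ : Fin d → ℕ) : ℕ := ζ i0 * 2 ^ J / NN s i0

/-- the clusters of a list of grid points -/
def clus (s : Fin d → ℕ) (i0 : Fin d) (J : ℕ) (R : Finset (Fin d → ℕ)) : Finset ℕ :=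
  R.image (clu s i0 J)

/-- the weight of a block at `t`: all aliases of all clusters -/
def wt (μ J g b : ℕ) (U : Finset ℕ) (t : ℝ) : ℝ :=
  ∑ h ∈ Hn (2 ^ J), ∑ u ∈ U, pw (2 ^ g) μ h *
    kp (2 ^ J) μ (t - (u : ℝ) / (2 ^ J : ℕ) + (h : ℝ) * b / (2 ^ J : ℕ))

/-! ## The modules -/

/-- [M3] LocSamp: from the grid with `8 * 2^(s i)` points in direction `i` to all points, with a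
slowly varying weight -/
def LocSampSt (d : ℕ) : Prop := ∃ C : ℝ, 0 < C ∧ ∀ (s : Fin d → ℕ) (i0 : Fin d) (J : ℕ),
  J + 2 ≤ s i0 → ∀ (ι : Type) (T : Finset ι) (c : ι → ℂ) (κ : ι → Fin d → ℤ),
  (∀ j ∈ T, ∀ i, |κ j i| ≤ 2 ^ (s i + 1)) → ∀ (ω : ℝ → ℝ) (A : ℝ), 0 ≤ A → (∀ t, 0 ≤ ω t) →
  (∀ t t' : ℝ, ω t' ≤ (1 + 2 ^ J * nu (t - t')) ^ 4 * ω t) →
  (∀ ξ : Fin d → ℕ, (∀ i, ξ i < 2 ^ (s i + 3)) →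
    ‖∑ j ∈ T, c j * ex (κ j) (gp (fun i => 2 ^ (s i + 3)) ξ)‖
      ≤ A * ω ((ξ i0 : ℝ) / (2 ^ (s i0 + 3) : ℕ))) →
  ∀ x : Fin d → ℝ, ‖∑ j ∈ T, c j * ex (κ j) x‖ ≤ C * A * ω (x i0)

/-- [M4] ThinN: thinning of one block -/
def ThinSt (d : ℕ) : Prop := ∃ C : ℝ, 0 < C ∧ ∀ (s : Fin d → ℕ) (i0 : Fin d) (J g b i : ℕ)
  (R : Finset (Fin d → ℕ)) (a : (Fin d → ℕ) → ℂ) (τ : ℝ), 1 ≤ g → g ≤ J → J + g + 5 ≤ s i0 →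
  Odd b → R ⊆ grid s → #R ≤ 2 ^ i → 0 < τ →
  (∀ u : ℕ, (∑ ζ ∈ R.filter (fun ζ => clu s i0 J ζ = u), ‖a ζ‖ ^ 2) / NT s ≤ τ ^ 2 / 2 ^ J) →
  ∃ (M : ℕ) (G : (Fin d → ℝ) → ℂ), (M : ℝ) ≤ C * 2 ^ (∑ j, s j) / 2 ^ g ∧ TP d M G ∧
    ∀ x, ‖fbox s R a x - G x‖
      ≤ C * ((i : ℝ) + g + 1) ^ 2 * τ * wt 4 J g b (clus s i0 J R) (x i0)

/-- [M5] Sel: the choice of the multipliers -/
def SelSt : Prop := ∃ C : ℕ, 1 ≤ C ∧ ∀ (S : Type) [Fintype S] (J g i : ℕ) (U : S → Finset ℕ),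
  (∀ s, U s ⊆ Finset.range (2 ^ J)) → (∀ s, #(U s) ≤ 2 ^ i) →
  C * (2 ^ g * (g + 1)) * (∑ s, #(U s)) ≤ 2 ^ J → C * (i + g + 1) ≤ J →
  ∃ b : S → ℕ, (∀ s, Odd (b s)) ∧ ∀ t : ℝ,
    ∑ s, wt 4 J g (b s) (U s) t ≤ C * ((i : ℝ) + g + 1)

/-- [M6] Clu: stopping scales and clusters of a list of points -/
def ClusSt (d : ℕ) : Prop := ∀ (s : Fin d → ℕ) (i0 : Fin d) (Z : Finset (Fin d → ℕ))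
  (i J0 J1 : ℕ) (e τ : ℝ), 0 < e → 0 < τ → Z ⊆ grid s → #Z ≤ 2 ^ i → J1 ≤ s i0 →
  2 ^ J0 * 2 ^ i * e ≤ τ ^ 2 → τ ^ 2 < 2 ^ J1 * e →
  ∃ R : ℕ → Finset (Fin d → ℕ), (∀ J, R J ⊆ Z) ∧
    (∀ (a : (Fin d → ℕ) → ℂ) (x : Fin d → ℝ),
      fbox s Z a x = ∑ J ∈ Finset.Ico J0 J1, fbox s (R J) a x) ∧
    (∀ J ∈ Finset.Ico J0 J1, ∀ u : ℕ,
      (#((R J).filter (fun ζ => clu s i0 J ζ = u)) : ℝ) * e ≤ τ ^ 2 / 2 ^ J) ∧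
    ∀ J ∈ Finset.Ico J0 J1, (#(clus s i0 J (R J)) : ℝ) ≤ 2 * 2 ^ J * 2 ^ i * e / τ ^ 2

/-- [M7] Cls: one class of blocks -/
def ClassSt (d : ℕ) : Prop := ∃ C : ℕ, 1 ≤ C ∧ ∀ (l i g B0 : ℕ) (S' : Finset (Fin d → ℕ))
  (Z : (Fin d → ℕ) → Finset (Fin d → ℕ)) (a : (Fin d → ℕ) → (Fin d → ℕ) → ℂ) (e β : ℝ),
  S' ⊆ Sl d l → 1 ≤ g → 0 < e →
  (∀ s ∈ S', Z s ⊆ grid s ∧ #(Z s) ≤ 2 ^ i ∧ ∀ ζ ∈ Z s, ‖a s ζ‖ ^ 2 ≤ e * NT s) →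
  (#S' : ℝ) ≤ β → 2 ^ (C * (i + g + 1)) ≤ β → β ≤ 2 ^ B0 → d * (B0 + C * (i + g + 1)) ≤ l →
  ∃ (M : ℕ) (G : (Fin d → ℝ) → ℂ), (M : ℝ) ≤ C * ((i : ℝ) + g + 1) * (β * 2 ^ l / 2 ^ g) ∧
    TP d M G ∧ ∀ x, ‖∑ s ∈ S', fbox s (Z s) (a s) x - G x‖
      ≤ C * ((i : ℝ) + g + 1) ^ 5 * Real.sqrt (2 ^ g * β * 2 ^ i * e)

/-- [M8] KerW: power sums of the kernel -/
def KerWSt (d : ℕ) (r : ℝ) : Prop := ∀ w : ℝ, 1 < w → ∃ C : ℝ, 0 < C ∧ ∀ (l : ℕ)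
  (s : Fin d → ℕ), s ∈ Sl d l → ∀ y : Fin d → ℝ,
  ∑ ζ ∈ grid s, ‖∑ k ∈ rho s, crp r k * ex k (gp (NN s) ζ - y)‖ ^ w
    ≤ C * (((2 : ℝ) ^ l) ^ (-r) * 2 ^ l) ^ w

/-- [M9] RT: the level sets of the blocks of one layer -/
def RTSt (d : ℕ) (p r : ℝ) : Prop := ∀ ε : ℝ, 0 < ε → ε < 1 → ∃ C : ℝ, 0 < C ∧
  ∀ φ : TT d → ℂ, MemLp φ (ENNReal.ofReal p) volume → ∫ x, ‖φ x‖ ^ p ≤ 1 →
  ∀ (l : ℕ) (Z : (Fin d → ℕ) → Finset (Fin d → ℕ)) (t : ℝ), 0 < t →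
  (∀ s ∈ Sl d l, Z s ⊆ grid s) → (∀ s ∈ Sl d l, ∀ ζ ∈ Z s, t ≤ ‖fa (bc r φ) s ζ‖) →
  (∑ s ∈ Sl d l, (#(Z s) : ℝ) ^ (1 - ε)) * t ^ p ≤ C * 2 ^ l * (((2 : ℝ) ^ l) ^ (-r)) ^ p

/-- [M10] Lossy: one layer, arbitrary parts of the blocks, loss `(log n)^κ` -/
def LossySt (d : ℕ) (p r : ℝ) : Prop := ∀ c1 : ℕ, ∃ (C : ℝ) (κ n0 : ℕ), 0 < C ∧ ∀ n, n0 ≤ n →
  ∀ φ : TT d → ℂ, MemLp φ (ENNReal.ofReal p) volume → ∫ x, ‖φ x‖ ^ p ≤ 1 →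
  ∀ l, n ≤ l → l ≤ n + c1 * lg n → ∀ W : (Fin d → ℕ) → Finset (Fin d → ℕ),
  (∀ s ∈ Sl d l, W s ⊆ grid s) → ∀ B : ℝ,
  ((2 : ℝ) ^ l) ^ (-(r - (1 / p - 1 / 2))) / 2 ^ (c1 * lg n) ≤ B →
  ∑ s ∈ Sl d l, Real.sqrt ((∑ ζ ∈ W s, ‖fa (bc r φ) s ζ‖ ^ 2) / NT s) ≤ B →
  ∀ D : ℝ, 1 ≤ D → D ≤ 2 ^ (c1 * lg n) →
  ∃ (M : ℕ) (G : (Fin d → ℝ) → ℂ), (M : ℝ) ≤ ((n : ℝ) + 1) ^ (d - 1) * 2 ^ n / D ∧ TP d M G ∧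
    ∀ x, ‖∑ s ∈ Sl d l, fbox s (W s) (fa (bc r φ) s) x - G x‖
      ≤ C * (lg n : ℝ) ^ κ * Real.sqrt (D * 2 ^ l / (((n : ℝ) + 1) ^ (d - 1) * 2 ^ n)) * B

/-- [M11] Lay: one layer, exact -/
def LayerSt (d : ℕ) (p r : ℝ) : Prop := ∀ (c2 : ℕ) (ε₁ : ℝ), 0 < ε₁ → ∃ (C : ℝ) (κ n0 : ℕ),
  0 < C ∧ ∀ n, n0 ≤ n →
  ∀ φ : TT d → ℂ, MemLp φ (ENNReal.ofReal p) volume → ∫ x, ‖φ x‖ ^ p ≤ 1 →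
  ∀ j : ℕ, j ≤ c2 * lg (lg n) →
  ∃ (M : ℕ) (G : (Fin d → ℝ) → ℂ),
    (M : ℝ) ≤ C * ((j : ℝ) + 1) ^ κ * (((n : ℝ) + 1) ^ (d - 1) * 2 ^ n) / (2 : ℝ) ^ (ε₁ * j) ∧
    TP d M G ∧ ∀ x, ‖∑ s ∈ Sl d (n + j), fs (bc r φ) s x - G x‖
      ≤ C * ((j : ℝ) + 1) ^ κ * (2 : ℝ) ^ (ε₁ * j / 2) * (2 : ℝ) ^ (-(r - 1 / p) * j)
        * Un d p r n

/-- [M12] All: all layers -/
def PolySt (d : ℕ) (p r : ℝ) : Prop := ∃ (C : ℝ) (CN n0 : ℕ), 0 < C ∧ 1 ≤ CN ∧ ∀ n, n0 ≤ n →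
  ∀ φ : TT d → ℂ, MemLp φ (ENNReal.ofReal p) volume → ∫ x, ‖φ x‖ ^ p ≤ 1 →
  ∃ G, TP d (CN * ((n + 1) ^ (d - 1) * 2 ^ n)) G ∧
    ∃ N0, ∀ N, N0 ≤ N → ∀ x, ‖Fp (bc r φ) N x - G x‖ ≤ C * Un d p r n

/-- [M13] Fin: the upper bound -/
def UpperSt (d : ℕ) (p r : ℝ) : Prop := ∃ C : ℝ, 0 < C ∧ ∀ᶠ m : ℕ in Filter.atTop,
  ∀ f φ : TT d → ℂ, Integrable f volume → MemLp φ (ENNReal.ofReal p) volume →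
  eLpNorm φ (ENNReal.ofReal p) volume ≤ 1 →
  (∀ k : Fin d → ℤ, UnitAddTorus.mFourierCoeff f k =
    (∏ i, Pool.Agent.H75.MT.cr r (k i)) * UnitAddTorus.mFourierCoeff φ k) →
  ∃ (lam : Finset (Fin d → ℤ)) (c : (Fin d → ℤ) → ℂ), lam.card ≤ m ∧
    eLpNorm (fun x => f x - ∑ k ∈ lam, c k * UnitAddTorus.mFourier k x) ⊤ volume
      ≤ ENNReal.ofReal (C * (m : ℝ) ^ (-(r - (1 / p - 1 / 2)))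
        * (Real.log m) ^ (((d : ℝ) - 1) * (r - 2 * (1 / p - 1 / 2))))

end

end Pool.Agent.H75.UX
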