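import Pool.Agent.H75.UX.Defs

set_option autoImplicit false
set_option linter.unusedSectionVars false

/-! [M7] One class of blocks. -/

open Finset

open scoped Classical

namespace Pool.Agent.H75.UX

open Pool.Agent.H75.UB

noncomputable section

variable {d : ℕ}

lemma cls_clu_lt (s : Fin d → ℕ) (i0 : Fin d) (J : ℕ) {ζ : Fin d → ℕ} (h : ζ ∈ grid s) :
    clu s i0 J ζ < 2 ^ J := by
  unfold clu
  rw [Nat.div_lt_iff_lt_mul (NN_pos s i0), mul_comm]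
  exact Nat.mul_lt_mul_of_pos_left (mem_grid.1 h i0) (by positivity)

/-- the stopping scales -/
lemma cls_scale (CS i g B0 C : ℕ) (β : ℝ) (hCS : 1 ≤ CS) (hC : CS + 6 ≤ C) (hg : 1 ≤ g)
    (hβ : (2 : ℝ) ^ (C * (i + g + 1)) ≤ β) (hβ2 : β ≤ 2 ^ B0) (A : ℝ)
    (hA : A = 2 * CS * (2 ^ g * (g + 1)) * β) :
    ∃ J0 : ℕ, (2 : ℝ) ^ J0 ≤ A ∧ A < 2 ^ (J0 + 1) ∧ C * (i + g + 1) ≤ J0 ∧
      J0 + i + g + 5 ≤ B0 + C * (i + g + 1) := by
  have hCS' : (1 : ℝ) ≤ CS := by exact_mod_cast hCS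
  have hβ0 : (1 : ℝ) ≤ β := le_trans (one_le_pow₀ (by norm_num)) hβ
  have h2g : (1 : ℝ) ≤ 2 ^ g := one_le_pow₀ (by norm_num)
  have hg1 : (1 : ℝ) ≤ (g : ℝ) + 1 := by
    have : (0 : ℝ) ≤ g := Nat.cast_nonneg g
    linarith
  have h3 : (1 : ℝ) ≤ CS * (2 ^ g * (g + 1)) :=
    one_le_mul_of_one_le_of_one_le hCS' (one_le_mul_of_one_le_of_one_le h2g hg1)
  have hA1 : 2 * β ≤ A := by
    rw [hA]
    nlinarith
  obtain ⟨J0, h1, h2⟩ := exists_nat_pow_near (show (1 : ℝ) ≤ A by linarith)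
    (by norm_num : (1 : ℝ) < 2)
  refine ⟨J0, h1, h2, ?_, ?_⟩
  · have h4 : (2 : ℝ) ^ (C * (i + g + 1)) < 2 ^ J0 := by
      rw [pow_succ] at h2
      linarith
    exact ((pow_lt_pow_iff_right₀ (by norm_num : (1 : ℝ) < 2)).1 h4).le
  · have hgn : (g : ℝ) + 1 ≤ 2 ^ g := by
      have : g + 1 ≤ 2 ^ g := Nat.lt_two_pow_self
      exact_mod_cast this
    have hcn : (CS : ℝ) ≤ 2 ^ CS := by
      have : CS ≤ 2 ^ CS := Nat.lt_two_pow_self.le
      exact_mod_cast this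
    have h4 : (2 : ℝ) ^ J0 ≤ 2 ^ (1 + CS + (g + g) + B0) := by
      refine h1.trans ?_
      rw [hA, pow_add, pow_add, pow_add, pow_add, pow_one]
      gcongr
    have h5 : J0 ≤ 1 + CS + (g + g) + B0 :=
      (pow_le_pow_iff_right₀ (by norm_num : (1 : ℝ) < 2)).1 h4
    have h6 : (CS + 6) * (i + g + 1) ≤ C * (i + g + 1) := Nat.mul_le_mul_right _ hC
    have h7 : (CS + 6) * (i + g + 1) = CS * (i + g) + CS + 6 * i + 6 * g + 6 := by ring
    omega

theorem cls (d : ℕ) (hd : 0 < d) (hT : ThinSt d) (hS : SelSt) (hK : ClusSt d) : ClassSt d := by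
  obtain ⟨CT, hCT, hT⟩ := hT
  obtain ⟨CS, hCS, hS⟩ := hS
  set C : ℕ := CS + 6 + ⌈CT⌉₊ + ⌈2 * d * CT * CS ^ 2⌉₊ with hC
  refine ⟨C, by omega, ?_⟩
  intro l i g B0 S' Z a e β hSl hg he hZ hSβ hβ hβ2 hl
  have hCS' : (1 : ℝ) ≤ CS := by exact_mod_cast hCS
  have hβ0 : (1 : ℝ) ≤ β := le_trans (one_le_pow₀ (by norm_num)) hβ
  have hg1 : (1 : ℝ) ≤ (g : ℝ) + 1 := by
    have : (0 : ℝ) ≤ g := Nat.cast_nonneg g
    linarith
  have hi0' : (0 : ℝ) ≤ i := Nat.cast_nonneg i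
  have hg0' : (1 : ℝ) ≤ g := by exact_mod_cast hg
  set A : ℝ := 2 * CS * (2 ^ g * (g + 1)) * β with hA
  have hA0 : 0 < A := by rw [hA]; positivity
  obtain ⟨J0, hJ1, hJ2, hJ3, hJ4⟩ := cls_scale CS i g B0 C β hCS (by omega) hg hβ hβ2 A hA
  set τ : ℝ := Real.sqrt (A * 2 ^ i * e) with hτ
  have hτ0 : 0 < τ := Real.sqrt_pos.2 (by positivity)
  have hτ2 : τ ^ 2 = A * 2 ^ i * e := Real.sq_sqrt (by positivity)
  set J1 : ℕ := J0 + 1 + i with hJ1'
  have hlo : (2 : ℝ) ^ J0 * 2 ^ i * e ≤ τ ^ 2 := by rw [hτ2]; gcongr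
  have hhi : τ ^ 2 < 2 ^ J1 * e := by
    rw [hτ2, hJ1', pow_add _ (J0 + 1) i]
    gcongr
  choose i0 hi0 using fun s : (Fin d → ℕ) => exists_big hd s
  have hbig : ∀ s ∈ S', J1 + g + 4 ≤ s (i0 s) := by
    intro s hs
    have h1 := hi0 s
    rw [mem_Sl.1 (hSl hs)] at h1
    have h2 : d * (B0 + C * (i + g + 1)) ≤ d * s (i0 s) := hl.trans h1
    have h3 := Nat.le_of_mul_le_mul_left h2 hd
    omega
  -- the pieces
  have hK' : ∀ s ∈ S', ∃ R : ℕ → Finset (Fin d → ℕ), (∀ J, R J ⊆ Z s) ∧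
      (∀ (x : Fin d → ℝ),
        fbox s (Z s) (a s) x = ∑ J ∈ Finset.Ico J0 J1, fbox s (R J) (a s) x) ∧
      (∀ J ∈ Finset.Ico J0 J1, ∀ u : ℕ,
        (#((R J).filter (fun ζ => clu s (i0 s) J ζ = u)) : ℝ) * e ≤ τ ^ 2 / 2 ^ J) ∧
      ∀ J ∈ Finset.Ico J0 J1,
        (#(clus s (i0 s) J (R J)) : ℝ) ≤ 2 * 2 ^ J * 2 ^ i * e / τ ^ 2 := by
    intro s hs
    obtain ⟨R, h1, h2, h3, h4⟩ := hK s (i0 s) (Z s) i J0 J1 e τ he hτ0 (hZ s hs).1 (hZ s hs).2.1
      (by have := hbig s hs; omega) hlo hhi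
    exact ⟨R, h1, fun x => h2 (a s) x, h3, h4⟩
  choose! R hR1 hR2 hR3 hR4 using hK'
  -- the multipliers
  have hsel : ∀ (J : ℕ), J ∈ Finset.Ico J0 J1 → ∀ i1 : Fin d, ∃ b : (Fin d → ℕ) → ℕ,
      (∀ s ∈ S', i0 s = i1 → Odd (b s)) ∧ ∀ t : ℝ,
      ∑ s ∈ S'.filter (fun s => i0 s = i1),
        wt 4 J g (b s) (clus s (i0 s) J (R s J)) t ≤ CS * ((i : ℝ) + g + 1) := by
    intro J hJ i1
    have hJ' := Finset.mem_Ico.1 hJ
    have hU1 : ∀ s : {s // s ∈ S'.filter (fun s => i0 s = i1)},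
        clus s.1 (i0 s.1) J (R s.1 J) ⊆ Finset.range (2 ^ J) := by
      intro s
      have hs := (Finset.mem_filter.1 s.2).1
      intro u hu
      unfold clus at hu
      obtain ⟨ζ, hζ, rfl⟩ := Finset.mem_image.1 hu
      exact Finset.mem_range.2 (cls_clu_lt _ _ _ ((hZ _ hs).1 (hR1 _ hs J hζ)))
    have hU2 : ∀ s : {s // s ∈ S'.filter (fun s => i0 s = i1)},
        #(clus s.1 (i0 s.1) J (R s.1 J)) ≤ 2 ^ i := by
      intro s
      have hs := (Finset.mem_filter.1 s.2).1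
      exact Finset.card_image_le.trans ((Finset.card_le_card (hR1 _ hs J)).trans (hZ _ hs).2.1)
    have hU3 : CS * (2 ^ g * (g + 1))
        * (∑ s : {s // s ∈ S'.filter (fun s => i0 s = i1)}, #(clus s.1 (i0 s.1) J (R s.1 J)))
        ≤ 2 ^ J := by
      have h1 : ∀ s ∈ S'.filter (fun s => i0 s = i1), (#(clus s (i0 s) J (R s J)) : ℝ)
          ≤ 2 * 2 ^ J * 2 ^ i * e / τ ^ 2 := fun s hs => hR4 s (Finset.mem_filter.1 hs).1 J hJ
      have h2 : ∑ s ∈ S'.filter (fun s => i0 s = i1), (#(clus s (i0 s) J (R s J)) : ℝ)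
          ≤ β * (2 * 2 ^ J * 2 ^ i * e / τ ^ 2) := by
        refine (Finset.sum_le_card_nsmul _ _ _ h1).trans ?_
        rw [nsmul_eq_mul]
        refine mul_le_mul_of_nonneg_right ?_ (by positivity)
        refine le_trans ?_ hSβ
        exact_mod_cast Finset.card_le_card (Finset.filter_subset _ _)
      have h3 : (CS : ℝ) * (2 ^ g * (g + 1)) * (β * (2 * 2 ^ J * 2 ^ i * e / τ ^ 2)) = 2 ^ J := by
        rw [hτ2, hA]
        have : (0 : ℝ) < CS := by linarith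
        have : (0 : ℝ) < (g : ℝ) + 1 := by linarith
        have : (0 : ℝ) < β := by linarith
        field_simp
      have h4 : (CS : ℝ) * (2 ^ g * (g + 1))
          * (∑ s ∈ S'.filter (fun s => i0 s = i1), (#(clus s (i0 s) J (R s J)) : ℝ)) ≤ 2 ^ J := by
        rw [← h3]
        gcongr
      have h5 : CS * (2 ^ g * (g + 1))
          * (∑ s ∈ S'.filter (fun s => i0 s = i1), #(clus s (i0 s) J (R s J))) ≤ 2 ^ J := by
        exact_mod_cast h4
      rw [← Finset.sum_coe_sort (S'.filter (fun s => i0 s = i1))] at h5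
      exact h5
    have hU4 : CS * (i + g + 1) ≤ J := by
      have h6 : CS * (i + g + 1) ≤ C * (i + g + 1) := Nat.mul_le_mul_right _ (by omega)
      omega
    obtain ⟨b, hb1, hb2⟩ := hS {s // s ∈ S'.filter (fun s => i0 s = i1)} J g i
      (fun s => clus s.1 (i0 s.1) J (R s.1 J)) hU1 hU2 hU3 hU4
    refine ⟨fun s => if h : s ∈ S'.filter (fun s => i0 s = i1) then b ⟨s, h⟩ else 1, ?_, ?_⟩
    · intro s hs hsi
      have h : s ∈ S'.filter (fun s => i0 s = i1) := Finset.mem_filter.2 ⟨hs, hsi⟩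
      simp only [h, dif_pos]
      exact hb1 _
    · intro t
      refine le_trans (le_of_eq ?_) (hb2 t)
      rw [← Finset.sum_coe_sort (S'.filter (fun s => i0 s = i1))]
      refine Finset.sum_congr rfl (fun s _ => ?_)
      have h := s.2
      simp only [h, dif_pos]
  choose! b hb1 hb2 using hsel
  -- thinning
  have hthin : ∀ (J : ℕ), J ∈ Finset.Ico J0 J1 → ∀ s ∈ S', ∃ (M : ℕ) (G : (Fin d → ℝ) → ℂ),
      (M : ℝ) ≤ CT * 2 ^ l / 2 ^ g ∧ TP d M G ∧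
      ∀ x, ‖fbox s (R s J) (a s) x - G x‖ ≤ CT * ((i : ℝ) + g + 1) ^ 2 * τ
        * wt 4 J g (b J (i0 s) s) (clus s (i0 s) J (R s J)) (x (i0 s)) := by
    intro J hJ s hs
    have hJ' := Finset.mem_Ico.1 hJ
    have hbs := hbig s hs
    have hN0 : (0 : ℝ) < NT s := by exact_mod_cast NT_pos s
    have hsum : ∑ j, s j = l := mem_Sl.1 (hSl hs)
    obtain ⟨M, G, h1, h2, h3⟩ := hT s (i0 s) J g (b J (i0 s) s) i (R s J) (a s) τ hg
      (by
        have h6 : 1 * (i + g + 1) ≤ C * (i + g + 1) := Nat.mul_le_mul_right _ (by omega)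
        omega) (by omega) (hb1 J hJ (i0 s) s hs rfl) ((hR1 s hs J).trans (hZ s hs).1)
      ((Finset.card_le_card (hR1 s hs J)).trans (hZ s hs).2.1) hτ0 (by
        intro u
        refine le_trans ?_ (hR3 s hs J hJ u)
        rw [div_le_iff₀ hN0]
        refine (Finset.sum_le_card_nsmul _ _ (e * NT s) (fun ζ hζ => ?_)).trans (le_of_eq ?_)
        · exact (hZ s hs).2.2 ζ (hR1 s hs J (Finset.mem_filter.1 hζ).1)
        · rw [nsmul_eq_mul]
          ring)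
    rw [hsum] at h1
    exact ⟨M, G, h1, h2, h3⟩
  choose! M G hM hG hE using hthin
  refine ⟨∑ J ∈ Finset.Ico J0 J1, ∑ s ∈ S', M J s,
    fun x => ∑ J ∈ Finset.Ico J0 J1, ∑ s ∈ S', G J s x, ?_, ?_, ?_⟩
  · push_cast
    have h1 : ∑ J ∈ Finset.Ico J0 J1, ∑ s ∈ S', (M J s : ℝ)
        ≤ ∑ J ∈ Finset.Ico J0 J1, ∑ s ∈ S', CT * 2 ^ l / 2 ^ g :=
      Finset.sum_le_sum (fun J hJ => Finset.sum_le_sum (fun s hs => hM J hJ s hs))
    refine h1.trans ?_
    rw [Finset.sum_const, Finset.sum_const, nsmul_eq_mul, nsmul_eq_mul, Nat.card_Ico]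
    have h2 : ((J1 - J0 : ℕ) : ℝ) ≤ (i : ℝ) + g + 1 := by
      have : J1 - J0 ≤ i + g + 1 := by omega
      exact_mod_cast this
    have h3 : CT ≤ C := by
      refine (Nat.le_ceil CT).trans ?_
      exact_mod_cast (by omega : ⌈CT⌉₊ ≤ C)
    calc ((J1 - J0 : ℕ) : ℝ) * ((#S' : ℝ) * (CT * 2 ^ l / 2 ^ g))
        ≤ ((i : ℝ) + g + 1) * (β * ((C : ℝ) * 2 ^ l / 2 ^ g)) := by gcongr
      _ = C * ((i : ℝ) + g + 1) * (β * 2 ^ l / 2 ^ g) := by ring
  · exact TP.sum _ _ _ (fun J hJ => TP.sum _ _ _ (fun s hs => hG J hJ s hs))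
  · intro x
    have e1 : ∑ s ∈ S', fbox s (Z s) (a s) x
        = ∑ J ∈ Finset.Ico J0 J1, ∑ s ∈ S', fbox s (R s J) (a s) x := by
      rw [Finset.sum_comm]
      exact Finset.sum_congr rfl (fun s hs => hR2 s hs x)
    rw [e1, ← Finset.sum_sub_distrib]
    have h1 : ∀ J ∈ Finset.Ico J0 J1,
        ‖∑ s ∈ S', fbox s (R s J) (a s) x - ∑ s ∈ S', G J s x‖
          ≤ CT * ((i : ℝ) + g + 1) ^ 2 * τ * (d * (CS * ((i : ℝ) + g + 1))) := by
      intro J hJ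
      rw [← Finset.sum_sub_distrib]
      refine (norm_sum_le _ _).trans ((Finset.sum_le_sum (fun s hs => hE J hJ s hs x)).trans ?_)
      rw [← Finset.mul_sum]
      refine mul_le_mul_of_nonneg_left ?_ (by positivity)
      rw [← Finset.sum_fiberwise_of_maps_to (s := S') (t := (univ : Finset (Fin d))) (g := i0)
        (fun s _ => Finset.mem_univ _)]
      have h2 : ∀ i1 ∈ (univ : Finset (Fin d)),
          ∑ s ∈ S'.filter (fun s => i0 s = i1),
            wt 4 J g (b J (i0 s) s) (clus s (i0 s) J (R s J)) (x (i0 s))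
            ≤ CS * ((i : ℝ) + g + 1) := by
        intro i1 _
        refine le_trans (le_of_eq ?_) (hb2 J hJ i1 (x i1))
        refine Finset.sum_congr rfl (fun s hs => ?_)
        rw [(Finset.mem_filter.1 hs).2]
      refine (Finset.sum_le_card_nsmul _ _ _ h2).trans (le_of_eq ?_)
      rw [nsmul_eq_mul, Finset.card_univ, Fintype.card_fin]
    refine (norm_sum_le _ _).trans ((Finset.sum_le_sum h1).trans ?_)
    rw [Finset.sum_const, nsmul_eq_mul, Nat.card_Ico]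
    set D : ℝ := (i : ℝ) + g + 1 with hD
    have hD1 : 1 ≤ D := by linarith
    have h2 : ((J1 - J0 : ℕ) : ℝ) ≤ D := by
      have : J1 - J0 ≤ i + g + 1 := by omega
      rw [hD]
      exact_mod_cast this
    have h3 : τ ≤ 2 * CS * D * Real.sqrt (2 ^ g * β * 2 ^ i * e) := by
      have e2 : A * 2 ^ i * e = (2 * CS * ((g : ℝ) + 1)) * (2 ^ g * β * 2 ^ i * e) := by
        rw [hA]; ring
      rw [hτ, e2, Real.sqrt_mul (by positivity)]
      refine mul_le_mul_of_nonneg_right ?_ (Real.sqrt_nonneg _)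
      have h4 : (1 : ℝ) ≤ 2 * CS * ((g : ℝ) + 1) := by nlinarith
      calc Real.sqrt (2 * CS * ((g : ℝ) + 1)) ≤ 2 * CS * ((g : ℝ) + 1) := by
            rw [Real.sqrt_le_left (by linarith)]
            nlinarith
        _ ≤ 2 * CS * D := by
            refine mul_le_mul_of_nonneg_left ?_ (by positivity)
            linarith
    have h5 : 2 * (d : ℝ) * CT * CS ^ 2 ≤ C := by
      refine (Nat.le_ceil _).trans ?_
      exact_mod_cast (by omega : ⌈2 * (d : ℝ) * CT * CS ^ 2⌉₊ ≤ C)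
    set Q : ℝ := Real.sqrt (2 ^ g * β * 2 ^ i * e) with hQ
    have hQ0 : 0 ≤ Q := Real.sqrt_nonneg _
    calc ((J1 - J0 : ℕ) : ℝ) * (CT * D ^ 2 * τ * (d * (CS * D)))
        ≤ D * (CT * D ^ 2 * (2 * CS * D * Q) * (d * (CS * D))) := by gcongr
      _ = (2 * (d : ℝ) * CT * CS ^ 2) * (D ^ 5 * Q) := by ring
      _ ≤ C * (D ^ 5 * Q) := mul_le_mul_of_nonneg_right h5 (by positivity)
      _ = C * D ^ 5 * Q := by ring

end

end Pool.Agent.H75.UX
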