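import Pool.Agent.H75.UX.Defs

set_option autoImplicit false
set_option linter.unusedSectionVars false

/-! [M6] Stopping scales and clusters of a list of points. -/

open Finset

open scoped Classical

namespace Pool.Agent.H75.UX

open Pool.Agent.H75.UB

noncomputable section

variable {d : ℕ}

lemma clus_half (s : Fin d → ℕ) (i0 : Fin d) (J : ℕ) (ζ : Fin d → ℕ) :
    clu s i0 (J + 1) ζ / 2 = clu s i0 J ζ := by
  unfold clu
  rw [Nat.div_div_eq_div_mul, pow_succ, ← mul_assoc, Nat.mul_div_mul_right _ _ (by norm_num)]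

lemma clus_card_le (s : Fin d → ℕ) (i0 : Fin d) (J : ℕ) (R : Finset (Fin d → ℕ)) :
    #(clus s i0 J R) ≤ #(clus s i0 (J + 1) R) := by
  have : clus s i0 J R = (clus s i0 (J + 1) R).image (fun u => u / 2) := by
    unfold clus
    rw [Finset.image_image]
    refine Finset.image_congr (fun ζ _ => ?_)
    exact (clus_half s i0 J ζ).symm
  rw [this]
  exact Finset.card_image_le

lemma clus_fbox_add (s : Fin d → ℕ) (Z : Finset (Fin d → ℕ)) (a : (Fin d → ℕ) → ℂ)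
    (x : Fin d → ℝ) : fbox s Z a x
      = ∑ ζ ∈ Z, ∑ k ∈ Box s, (a ζ / NT s) * ex k (-gp (NN s) ζ) * ex k x := by
  unfold fbox Ac
  rw [Finset.sum_comm]
  exact Finset.sum_congr rfl (fun k _ => by rw [Finset.sum_mul])

theorem clus_thm (d : ℕ) : ClusSt d := by
  intro s i0 Z i J0 J1 e τ he hτ _ hZ _ h0 h1
  set n : ℕ → (Fin d → ℕ) → ℕ := fun J ζ => #(Z.filter (fun ζ' => clu s i0 J ζ' = clu s i0 J ζ))
    with hn
  set P : (Fin d → ℕ) → ℕ → Prop := fun ζ J => (2 : ℝ) ^ J * n J ζ * e ≤ τ ^ 2 with hP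
  set Js : (Fin d → ℕ) → ℕ := fun ζ => Nat.findGreatest (P ζ) J1 with hJs
  have hJ01 : J0 ≤ J1 := by
    by_contra hc
    have h2 : (2 : ℝ) ^ J1 ≤ 2 ^ J0 := pow_le_pow_right₀ (by norm_num) (by omega)
    have h3 : (1 : ℝ) ≤ 2 ^ i := one_le_pow₀ (by norm_num)
    have h4 : (2 : ℝ) ^ J1 * e ≤ 2 ^ J0 * 2 ^ i * e := by
      refine mul_le_mul_of_nonneg_right ?_ he.le
      calc (2 : ℝ) ^ J1 ≤ 2 ^ J0 := h2
        _ ≤ 2 ^ J0 * 2 ^ i := le_mul_of_one_le_right (by positivity) h3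
    linarith
  have hn_le : ∀ J ζ, (n J ζ : ℝ) ≤ 2 ^ i := by
    intro J ζ
    have : n J ζ ≤ 2 ^ i := (Finset.card_le_card (Finset.filter_subset _ _)).trans hZ
    exact_mod_cast this
  have hn_pos : ∀ J ζ, ζ ∈ Z → 1 ≤ n J ζ := by
    intro J ζ hζ
    exact Finset.card_pos.mpr ⟨ζ, Finset.mem_filter.mpr ⟨hζ, rfl⟩⟩
  have hPJ0 : ∀ ζ, P ζ J0 := by
    intro ζ
    simp only [hP]
    refine le_trans ?_ h0
    have := hn_le J0 ζ
    gcongr
  have hPJ1 : ∀ ζ ∈ Z, ¬ P ζ J1 := by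
    intro ζ hζ hc
    simp only [hP] at hc
    have h2 : (1 : ℝ) ≤ n J1 ζ := by exact_mod_cast hn_pos J1 ζ hζ
    have h3 : (2 : ℝ) ^ J1 * e ≤ 2 ^ J1 * n J1 ζ * e := by
      refine mul_le_mul_of_nonneg_right ?_ he.le
      exact le_mul_of_one_le_right (by positivity) h2
    linarith
  have hspec : ∀ ζ, P ζ (Js ζ) := fun ζ => Nat.findGreatest_spec hJ01 (hPJ0 ζ)
  have hge : ∀ ζ, J0 ≤ Js ζ := fun ζ => Nat.le_findGreatest hJ01 (hPJ0 ζ)
  have hlt : ∀ ζ ∈ Z, Js ζ < J1 := by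
    intro ζ hζ
    refine lt_of_le_of_ne (Nat.findGreatest_le J1) ?_
    intro hc
    exact hPJ1 ζ hζ (hc ▸ hspec ζ)
  have hfail : ∀ ζ ∈ Z, ¬ P ζ (Js ζ + 1) := fun ζ hζ =>
    Nat.findGreatest_is_greatest (Nat.lt_succ_self _) (hlt ζ hζ)
  refine ⟨fun J => Z.filter (fun ζ => Js ζ = J), fun J => Finset.filter_subset _ _, ?_, ?_, ?_⟩
  · intro a x
    rw [clus_fbox_add]
    simp_rw [clus_fbox_add s _ a x]
    rw [← Finset.sum_fiberwise_of_maps_to (s := Z) (t := Finset.Ico J0 J1) (g := Js)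
      (fun ζ hζ => Finset.mem_Ico.mpr ⟨hge ζ, hlt ζ hζ⟩)]
  · intro J _ u
    rcases (((Z.filter (fun ζ => Js ζ = J)).filter (fun ζ => clu s i0 J ζ = u))).eq_empty_or_nonempty
      with h | ⟨ζ, hζ⟩
    · rw [h]
      simp only [Finset.card_empty, Nat.cast_zero, zero_mul]
      positivity
    · rw [Finset.mem_filter, Finset.mem_filter] at hζ
      obtain ⟨⟨hζZ, hζJ⟩, hζu⟩ := hζ
      have h2 := hspec ζ
      rw [hζJ] at h2
      simp only [hP] at h2
      have h3 : #(((Z.filter (fun ζ => Js ζ = J)).filter (fun ζ => clu s i0 J ζ = u))) ≤ n J ζ := by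
        refine Finset.card_le_card (fun ζ' hζ' => ?_)
        rw [Finset.mem_filter, Finset.mem_filter] at hζ'
        exact Finset.mem_filter.mpr ⟨hζ'.1.1, hζ'.2.trans hζu.symm⟩
      have h4 : (#(((Z.filter (fun ζ => Js ζ = J)).filter (fun ζ => clu s i0 J ζ = u))) : ℝ)
          ≤ n J ζ := by exact_mod_cast h3
      rw [le_div_iff₀ (by positivity)]
      calc _ ≤ (n J ζ : ℝ) * e * 2 ^ J := by gcongr
        _ = 2 ^ J * n J ζ * e := by ring
        _ ≤ τ ^ 2 := h2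
  · intro J _
    set R := Z.filter (fun ζ => Js ζ = J) with hR
    set U := clus s i0 (J + 1) R with hU
    have hcard : #(clus s i0 J R) ≤ #U := clus_card_le s i0 J R
    have hbig : ∀ u ∈ U, τ ^ 2 ≤ 2 ^ (J + 1) * (#(Z.filter (fun ζ => clu s i0 (J + 1) ζ = u)) : ℝ) * e := by
      intro u hu
      rw [hU, clus, Finset.mem_image] at hu
      obtain ⟨ζ, hζ, rfl⟩ := hu
      rw [hR, Finset.mem_filter] at hζ
      have h2 := hfail ζ hζ.1
      rw [hζ.2] at h2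
      simp only [hP, not_le] at h2
      exact h2.le
    have hsum : ∑ u ∈ U, #(Z.filter (fun ζ => clu s i0 (J + 1) ζ = u)) ≤ #Z := by
      rw [← Finset.card_biUnion]
      · refine Finset.card_le_card (fun ζ hζ => ?_)
        rw [Finset.mem_biUnion] at hζ
        obtain ⟨u, _, h⟩ := hζ
        exact (Finset.mem_filter.mp h).1
      · intro u _ v _ huv
        rw [Function.onFun, Finset.disjoint_left]
        intro ζ h2 h3
        exact huv ((Finset.mem_filter.mp h2).2.symm.trans (Finset.mem_filter.mp h3).2)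
    have hsumR : ∑ u ∈ U, (#(Z.filter (fun ζ => clu s i0 (J + 1) ζ = u)) : ℝ) ≤ 2 ^ i := by
      have := hsum.trans hZ
      exact_mod_cast this
    have h5 : (#U : ℝ) * τ ^ 2 ≤ 2 ^ (J + 1) * 2 ^ i * e := by
      calc (#U : ℝ) * τ ^ 2 = ∑ u ∈ U, τ ^ 2 := by rw [Finset.sum_const, nsmul_eq_mul]
        _ ≤ ∑ u ∈ U, 2 ^ (J + 1) * (#(Z.filter (fun ζ => clu s i0 (J + 1) ζ = u)) : ℝ) * e :=
            Finset.sum_le_sum hbig
        _ = 2 ^ (J + 1) * (∑ u ∈ U, (#(Z.filter (fun ζ => clu s i0 (J + 1) ζ = u)) : ℝ)) * e := by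
            rw [Finset.mul_sum, Finset.sum_mul]
        _ ≤ 2 ^ (J + 1) * 2 ^ i * e := by gcongr
    rw [le_div_iff₀ (by positivity)]
    have h6 : (#(clus s i0 J R) : ℝ) ≤ #U := by exact_mod_cast hcard
    calc (#(clus s i0 J R) : ℝ) * τ ^ 2 ≤ (#U : ℝ) * τ ^ 2 := by gcongr
      _ ≤ 2 ^ (J + 1) * 2 ^ i * e := h5
      _ = 2 * 2 ^ J * 2 ^ i * e := by rw [pow_succ]; ring

end

end Pool.Agent.H75.UX
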