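import Pool.Agent.H75.UX.Defs

set_option autoImplicit false
set_option linter.unusedSectionVars false

/-! [M13] From all layers to the class, and the choice of `n`. -/

open Finset ComplexConjugate MeasureTheory UnitAddTorus Filter

open scoped Classical Topology NNReal ENNReal

namespace Pool.Agent.H75.UX

open Pool.Agent.H75.MT (ee ee_add ee_norm ee_conj ee_int ee_zero cr cr_neg ee_nat_mul)
open Pool.Agent.H75.UB

noncomputable section

local instance msFin : MeasureSpace UnitAddCircle := ⟨AddCircle.haarAddCircle⟩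

local instance ahFin : Measure.IsAddHaarMeasure (volume : Measure UnitAddCircle) :=
  inferInstanceAs (Measure.IsAddHaarMeasure AddCircle.haarAddCircle)

local instance pmFin : IsProbabilityMeasure (volume : Measure UnitAddCircle) :=
  inferInstanceAs (IsProbabilityMeasure AddCircle.haarAddCircle)

/-- approximation of a function of the class with a number of terms depending on `n` -/
theorem fin_class_n (d : ℕ) (hd : 0 < d) (p r : ℝ) (hp1 : 1 < p) (hp2 : p < 2) (hr : 1 / p < r)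
    (hP : PolySt d p r) :
    ∃ (C : ℝ) (CN n0 : ℕ), 0 < C ∧ 1 ≤ CN ∧ ∀ n, n0 ≤ n →
    ∀ f φ : TT d → ℂ, Integrable f volume → MemLp φ (ENNReal.ofReal p) volume →
    eLpNorm φ (ENNReal.ofReal p) volume ≤ 1 →
    (∀ k : Fin d → ℤ, mFourierCoeff f k = (∏ i, cr r (k i)) * mFourierCoeff φ k) →
    ∃ (lam : Finset (Fin d → ℤ)) (c : (Fin d → ℤ) → ℂ),
      lam.card ≤ CN * ((n + 1) ^ (d - 1) * 2 ^ n) ∧
      eLpNorm (fun x => f x - ∑ k ∈ lam, c k * mFourier k x) ⊤ volume
        ≤ ENNReal.ofReal (C * Un d p r n) := by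
  have hr0 : 0 < r := by
    have : 0 < 1 / p := by positivity
    linarith
  obtain ⟨C, CN, n0, hC, hCN, h⟩ := hP
  obtain ⟨CB, hCB, hE⟩ := energies_b d hd p r hp1 hp2 hr0
  refine ⟨C, CN, n0, hC, hCN, ?_⟩
  intro n hn f φ hf hφ hφn hco
  have hφ1 := norm_one p (by linarith) φ hφ hφn
  obtain ⟨G, ⟨lam, c, hlam, hG⟩, N0, hN0⟩ := h n hn φ hφ hφ1
  have hsum : Summable (fun l => ‖ul (bc r φ) l‖) :=
    Summable.of_nonneg_of_le (fun l => norm_nonneg _)
      (fun l => ul_norm (bc r φ) l _ (Bl_pos d p r CB hCB l).le (hE φ hφ hφ1 l))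
      (al_geo d p r hp1 hr CB hCB)
  obtain ⟨F, hF1, hF2⟩ := series (bc r φ) hsum
  have hfF : f =ᵐ[volume] fun x => F x := by
    have hu : Integrable (fun x => f x - F x) volume := hf.sub (cint F)
    have h0 := ae_zero (fun x => f x - F x) hu (by
      intro k
      have e1 : mFourierCoeff (fun x => f x - F x) k = mFourierCoeff f k - co F k := by
        unfold mFourierCoeff
        rw [co_def, ← integral_sub]
        · congr 1
          funext x
          rw [smul_eq_mul, smul_eq_mul, ContinuousMap.mul_apply]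
          ring
        · simp only [smul_eq_mul]
          exact int_mul _ hf (mFourier (-k))
        · exact cint _
      rw [e1, hco, hF1]
      unfold bc crp cf
      ring)
    filter_upwards [h0] with x hx
    exact sub_eq_zero.1 hx
  refine ⟨lam, c, hlam, ?_⟩
  have hb : ∀ y : TT d, ‖F y - ∑ k ∈ lam, c k * mFourier k y‖ ≤ C * Un d p r n := by
    intro y
    obtain ⟨x, rfl⟩ := exists_real y
    have e1 : ∑ k ∈ lam, c k * mFourier k (fun i => (x i : UnitAddCircle)) = G x := by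
      rw [hG]
      exact Finset.sum_congr rfl (fun k _ => by rw [mF_coe])
    rw [e1]
    have h1 : Tendsto (fun N => ‖Fp (bc r φ) N x - G x‖) atTop (𝓝 ‖F (pt x) - G x‖) :=
      ((hF2 x).sub_const (G x)).norm
    refine le_of_tendsto h1 ?_
    filter_upwards [eventually_ge_atTop N0] with N hN
    exact hN0 N hN x
  have h2 := eLpNorm_le_of_ae_bound (μ := (volume : Measure (TT d))) (p := ⊤)
    (f := fun x => f x - ∑ k ∈ lam, c k * mFourier k x)
    (C := C * Un d p r n) (by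
      filter_upwards [hfF] with x hx
      rw [hx]
      exact hb x)
  refine h2.trans (le_of_eq ?_)
  simp

/-- the number of terms -/
def finPh (d CN n : ℕ) : ℕ := CN * ((n + 1) ^ (d - 1) * 2 ^ n)

lemma finPh_ge (d CN n : ℕ) (hCN : 1 ≤ CN) : 2 ^ n ≤ finPh d CN n := by
  unfold finPh
  have h2 : 1 ≤ (n + 1) ^ (d - 1) := Nat.one_le_pow _ _ (by omega)
  calc 2 ^ n = 1 * (1 * 2 ^ n) := by ring
    _ ≤ _ := by gcongr

lemma finPh_succ (d CN n : ℕ) : finPh d CN (n + 1)
    ≤ (CN * 2 * 2 ^ (d - 1)) * (n + 1) ^ (d - 1) * 2 ^ n := by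
  unfold finPh
  have h2 : n + 1 + 1 ≤ 2 * (n + 1) := by omega
  calc CN * ((n + 1 + 1) ^ (d - 1) * 2 ^ (n + 1))
      ≤ CN * ((2 * (n + 1)) ^ (d - 1) * 2 ^ (n + 1)) := by gcongr
    _ = _ := by
        rw [mul_pow 2 (n + 1) (d - 1), pow_succ 2 n]
        ring

/-- the choice of `n` -/
lemma fin_choose_n (d CN n0 m : ℕ) (hCN : 1 ≤ CN) (hm : finPh d CN n0 ≤ m) :
    ∃ n, n0 ≤ n ∧ finPh d CN n ≤ m ∧ m < finPh d CN (n + 1) := by
  have hex : ∃ n, n0 ≤ n ∧ m < finPh d CN (n + 1) := by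
    refine ⟨max n0 m, le_max_left _ _, ?_⟩
    have h1 := finPh_ge d CN (max n0 m + 1) hCN
    have h2 : max n0 m + 1 < 2 ^ (max n0 m + 1) := Nat.lt_two_pow_self
    have h3 : m ≤ max n0 m := le_max_right _ _
    omega
  classical
  obtain ⟨h1, h2⟩ := Nat.find_spec hex
  refine ⟨Nat.find hex, h1, ?_, h2⟩
  rcases h1.eq_or_lt with h | h
  · rw [← h]
    exact hm
  · have h3 := Nat.find_min hex (m := Nat.find hex - 1) (by omega)
    push Not at h3
    have h4 := h3 (by omega)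
    rwa [Nat.sub_add_cancel (by omega)] at h4

/-- the error in terms of the number of terms -/
lemma fin_err_m (d : ℕ) (hd : 0 < d) (p r : ℝ) (hp1 : 1 < p) (_hp2 : p < 2) (hr : 1 / p < r)
    (C : ℝ) (hC : 0 < C) (CN : ℕ) (hCN : 1 ≤ CN) :
    ∃ C' : ℝ, 0 < C' ∧ ∀ n m : ℕ, finPh d CN n ≤ m → m < finPh d CN (n + 1) →
      1 ≤ Real.log m →
      C * Un d p r n ≤ C' * (m : ℝ) ^ (-(r - (1 / p - 1 / 2)))
        * (Real.log m) ^ (((d : ℝ) - 1) * (r - 2 * (1 / p - 1 / 2))) := by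
  set η := 1 / p - 1 / 2 with hη
  set a := r - η with ha
  have ha0 : 0 < a := by
    rw [ha, hη]
    linarith
  have he0 : 0 < r - 2 * η := by
    have : 1 / p < 1 := by rw [div_lt_one (by linarith)]; exact hp1
    rw [hη]
    linarith
  have hd1 : (0 : ℝ) ≤ (d : ℝ) - 1 := by
    have : (1 : ℝ) ≤ d := by exact_mod_cast hd
    linarith
  set K : ℝ := (CN : ℝ) * 2 * 2 ^ (d - 1) with hK
  have hCN0 : (0 : ℝ) < CN := by exact_mod_cast hCN
  have hK0 : 0 < K := by positivity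
  refine ⟨C * K ^ a * (3 : ℝ) ^ (((d : ℝ) - 1) * (r - 2 * η)), by positivity, ?_⟩
  intro n m h1 h2 hlog1
  set P : ℝ := ((n : ℝ) + 1) ^ (d - 1) with hP
  have hP0 : 0 < P := by positivity
  have hlog0 : 0 < Real.log m := by linarith
  have hm1 : (1 : ℝ) < m := by
    by_contra hc
    have : Real.log m ≤ 0 := Real.log_nonpos (Nat.cast_nonneg _) (not_lt.1 hc)
    linarith
  have hm0 : (0 : ℝ) < m := by linarith
  -- `m ≤ K P 2^n`
  have h3 : (m : ℝ) ≤ K * P * 2 ^ n := by
    have e1 := h2.le.trans (finPh_succ d CN n)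
    have e2 : (m : ℝ) ≤ (((CN * 2 * 2 ^ (d - 1)) * (n + 1) ^ (d - 1) * 2 ^ n : ℕ) : ℝ)
      := by exact_mod_cast e1
    push_cast at e2
    exact e2
  have h4 : ((2 : ℝ) ^ n) ^ (-a) ≤ (m : ℝ) ^ (-a) * (K ^ a * P ^ a) := by
    have e1 : (m : ℝ) / (K * P) ≤ 2 ^ n := by
      rw [div_le_iff₀ (by positivity)]
      linarith
    have e2 := Real.rpow_le_rpow_of_nonpos (by positivity) e1 (by linarith : -a ≤ 0)
    refine e2.trans (le_of_eq ?_)
    rw [Real.div_rpow hm0.le (by positivity), Real.rpow_neg (x := K * P) (by positivity),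
      div_inv_eq_mul, Real.mul_rpow hK0.le hP0.le]
  -- `n + 1 ≤ 3 log m`
  have h5 : (n : ℝ) ≤ 2 * Real.log m := by
    have e1 : (2 : ℝ) ^ n ≤ m := by exact_mod_cast (finPh_ge d CN n hCN).trans h1
    have e2 := Real.log_le_log (by positivity) e1
    rw [Real.log_pow] at e2
    have e3 : 1 / 2 < Real.log 2 := by
      have := Real.log_two_gt_d9
      linarith
    have e4 : (0 : ℝ) ≤ n := Nat.cast_nonneg _
    nlinarith
  have h6 : P ^ (a - η) ≤ (3 : ℝ) ^ (((d : ℝ) - 1) * (r - 2 * η))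
      * (Real.log m) ^ (((d : ℝ) - 1) * (r - 2 * η)) := by
    rw [← Real.mul_rpow (by norm_num) hlog0.le, hP, ← Real.rpow_natCast, ← Real.rpow_mul
      (by positivity), Nat.cast_sub hd, Nat.cast_one]
    have e1 : a - η = r - 2 * η := by
      rw [ha]
      ring
    rw [e1]
    refine Real.rpow_le_rpow (by positivity) (by linarith) (by positivity)
  have h9 : P ^ a * P ^ (-η) = P ^ (a - η) := by
    rw [← Real.rpow_add hP0]
    congr 1
  unfold Un
  rw [← hη, ← ha, ← hP]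
  have hm' : (0 : ℝ) ≤ (m : ℝ) ^ (-a) := by positivity
  calc C * (((2 : ℝ) ^ n) ^ (-a) * P ^ (-η))
      ≤ C * (((m : ℝ) ^ (-a) * (K ^ a * P ^ a)) * P ^ (-η)) := by gcongr
    _ = C * K ^ a * (m : ℝ) ^ (-a) * (P ^ a * P ^ (-η)) := by ring
    _ ≤ C * K ^ a * (m : ℝ) ^ (-a) * ((3 : ℝ) ^ (((d : ℝ) - 1) * (r - 2 * η))
          * (Real.log m) ^ (((d : ℝ) - 1) * (r - 2 * η))) := by
        rw [h9]
        gcongr
    _ = _ := by ring

/-- the upper bound for every function of the class -/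
theorem fin (d : ℕ) (hd : 0 < d) (p r : ℝ) (hp1 : 1 < p) (hp2 : p < 2) (hr : 1 / p < r)
    (hP : PolySt d p r) : UpperSt d p r := by
  obtain ⟨C, CN, n0, hC, hCN, h⟩ := fin_class_n d hd p r hp1 hp2 hr hP
  obtain ⟨C', hC', h'⟩ := fin_err_m d hd p r hp1 hp2 hr C hC CN hCN
  refine ⟨C', hC', ?_⟩
  have hll : Tendsto (fun m : ℕ => Real.log m) atTop atTop :=
    Real.tendsto_log_atTop.comp tendsto_natCast_atTop_atTop
  filter_upwards [eventually_ge_atTop (finPh d CN n0), hll.eventually_ge_atTop 1] with m hm hm2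
  intro f φ hf hφ hφ1 hco
  obtain ⟨n, hn, h1, h2⟩ := fin_choose_n d CN n0 m hCN hm
  obtain ⟨lam, c, h3, h4⟩ := h n hn f φ hf hφ hφ1 hco
  refine ⟨lam, c, h3.trans h1, h4.trans ?_⟩
  exact ENNReal.ofReal_le_ofReal (h' n m h1 h2 hm2)

end

end Pool.Agent.H75.UX
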