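import Pool.Agent.H75.UX.LayA

set_option autoImplicit false
set_option linter.unusedSectionVars false

/-!
# One layer, exact
-/

open Finset ComplexConjugate MeasureTheory

open scoped Classical

namespace Pool.Agent.H75.UX

open Pool.Agent.H75.MT (ee ee_add ee_norm ee_conj ee_int ee_zero)
open Pool.Agent.H75.UB

noncomputable section

local instance msLay : MeasureSpace UnitAddCircle := ⟨AddCircle.haarAddCircle⟩

variable {d : ℕ}

/-- the part with small values -/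
def Wc (b : (Fin d → ℤ) → ℂ) (H : ℝ) (K : ℕ) (s : Fin d → ℕ) : Finset (Fin d → ℕ) :=
  (grid s).filter (fun ζ => ‖fa b s ζ‖ ≤ H / 2 ^ K)

/-- one level -/
def Zc (b : (Fin d → ℤ) → ℂ) (H : ℝ) (a : ℕ) (s : Fin d → ℕ) : Finset (Fin d → ℕ) :=
  (grid s).filter (fun ζ => H / 2 ^ (a + 1) < ‖fa b s ζ‖ ∧ ‖fa b s ζ‖ ≤ H / 2 ^ a)

lemma Wc_succ (b : (Fin d → ℤ) → ℂ) (H : ℝ) (hH : 0 < H) (K : ℕ) (s : Fin d → ℕ)
    (x : Fin d → ℝ) : fbox s (Wc b H K s) (fa b s) x
      = fbox s (Zc b H K s) (fa b s) x + fbox s (Wc b H (K + 1) s) (fa b s) x := by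
  have hle : H / 2 ^ (K + 1) ≤ H / 2 ^ K := by
    rw [pow_succ, ← div_div]
    have : 0 < H / 2 ^ K := by positivity
    linarith
  have h1 : Wc b H (K + 1) s ⊆ Wc b H K s := by
    intro ζ hζ
    unfold Wc at hζ ⊢
    rw [mem_filter] at hζ ⊢
    exact ⟨hζ.1, hζ.2.trans hle⟩
  rw [fbox_split s (Wc b H K s) (Wc b H (K + 1) s) h1]
  congr 2
  ext ζ
  unfold Wc Zc
  simp only [mem_sdiff, mem_filter, not_and, not_le]
  constructor
  · rintro ⟨⟨h2, h3⟩, h4⟩
    exact ⟨h2, h4 h2, h3⟩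
  · rintro ⟨h2, h3, h4⟩
    exact ⟨⟨h2, h4⟩, fun _ => h3⟩

lemma fs_levels (b : (Fin d → ℤ) → ℂ) (H : ℝ) (hH : 0 < H) (s : Fin d → ℕ)
    (hs : ∀ ζ ∈ grid s, ‖fa b s ζ‖ ≤ H) (K : ℕ) (x : Fin d → ℝ) :
    fs b s x = fbox s (Wc b H K s) (fa b s) x
      + ∑ a ∈ Finset.range K, fbox s (Zc b H a s) (fa b s) x := by
  induction K with
  | zero =>
    rw [Finset.range_zero, Finset.sum_empty, add_zero, fs_box]
    congr 1
    unfold Wc
    rw [Finset.filter_true_of_mem]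
    intro ζ hζ
    simpa using hs ζ hζ
  | succ K ih =>
    rw [Finset.sum_range_succ, ih, Wc_succ b H hH K s x]
    ring

/-- exceptional blocks -/
def Exc (b : (Fin d → ℤ) → ℂ) (H : ℝ) (K i0 : ℕ) (s : Fin d → ℕ) : Prop :=
  (∃ ζ ∈ grid s, H < ‖fa b s ζ‖) ∨ ∃ a ∈ Finset.range K, 2 ^ i0 < #(Zc b H a s)

/-- a level is inside a level set -/
lemma Zc_sub (b : (Fin d → ℤ) → ℂ) (H t : ℝ) (a : ℕ) (s : Fin d → ℕ) (ht : t ≤ H / 2 ^ (a + 1)) :
    Zc b H a s ⊆ lev b s t := by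
  intro ζ hζ
  unfold Zc at hζ
  unfold lev
  rw [mem_filter] at hζ ⊢
  exact ⟨hζ.1, ht.trans hζ.2.1.le⟩

lemma pow_zv (H : ℝ) (v0 a : ℕ) :
    (2 ^ v0 * H) / 2 ^ a = (2 : ℝ) ^ (-((a : ℝ) - v0)) * H := by
  have h : (2 : ℝ) ^ (-((a : ℝ) - v0)) = 2 ^ v0 / 2 ^ a := by
    rw [neg_sub, Real.rpow_sub (by norm_num), Real.rpow_natCast, Real.rpow_natCast]
  rw [h]
  ring

/-- the small condition -/
lemma llg_small (A : ℕ) (n : ℕ) (hn : 2 ^ (2 ^ (32 * (A + 3))) ≤ n) :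
    2 ^ (A * lg (lg n)) ≤ n := by
  have hn0 : n ≠ 0 := by
    have : 0 < 2 ^ (2 ^ (32 * (A + 3))) := by positivity
    omega
  have h1 : 2 ^ (32 * (A + 3)) ≤ lg n := by
    have h2 : 2 ^ (32 * (A + 3)) ≤ Nat.log 2 n := by
      have := Nat.log_mono_right (b := 2) hn
      rwa [Nat.log_pow (by norm_num)] at this
    unfold lg
    omega
  have h2 := lg_small (A + 3) (lg n) h1
  have h3 : 1 ≤ lg (lg n) := lg_one _
  have h4 : A * lg (lg n) + 3 ≤ lg n := by
    have : (A + 3) * lg (lg n) = A * lg (lg n) + 3 * lg (lg n) := by ring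
    omega
  have h5 : 2 ^ (A * lg (lg n) + 3) ≤ 8 * n :=
    (Nat.pow_le_pow_right (by norm_num) h4).trans (lg_hi n (by omega))
  rw [pow_add] at h5
  omega


lemma gam_pos {p : ℝ} (hp1 : 1 < p) (hp2 : p < 2) : 0 < gam p := by
  unfold gam
  have h1 : 0 < 1 - eps p := by linarith [eps_lt hp1]
  have h2 : p < 2 * (1 - eps p) := by unfold eps; linarith
  rw [sub_pos, div_lt_one (by linarith)]
  exact h2

lemma gam_le {p : ℝ} (hp1 : 1 < p) : gam p ≤ 1 := by
  unfold gam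
  have h1 : 0 < 1 - eps p := by linarith [eps_lt hp1]
  have : 0 ≤ p / (2 * (1 - eps p)) := by positivity
  linarith

/-- the size of the remainder in terms of the target -/
lemma rem_T (d : ℕ) (p r ε₁ : ℝ) (n j : ℕ) :
    Real.sqrt ((2 : ℝ) ^ (ε₁ * j) * 2 ^ (n + j) / (((n : ℝ) + 1) ^ (d - 1) * 2 ^ n))
      * (((n : ℝ) + 1) ^ (d - 1) * H0 d p r n (n + j) / Real.sqrt (2 ^ (n + j)))
      = TTl d p r ε₁ n j := by
  have hT := TTl_sq d p r ε₁ n j
  have hT0 := TTl_pos d p r ε₁ n j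
  have hH := H0_pos d p r n (n + j)
  have hP : 0 < ((n : ℝ) + 1) ^ (d - 1) := by positivity
  set P : ℝ := ((n : ℝ) + 1) ^ (d - 1)
  set H := H0 d p r n (n + j)
  set T := TTl d p r ε₁ n j
  have h1 : 0 ≤ Real.sqrt ((2 : ℝ) ^ (ε₁ * j) * 2 ^ (n + j) / (P * 2 ^ n))
      * (P * H / Real.sqrt (2 ^ (n + j))) := by positivity
  rw [← Real.sqrt_sq h1, ← Real.sqrt_sq hT0.le, ← hT]
  congr 1
  rw [mul_pow, div_pow, Real.sq_sqrt (by positivity), Real.sq_sqrt (by positivity)]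
  have e1 : (2 : ℝ) ^ ((1 + ε₁) * j) = 2 ^ j * (2 : ℝ) ^ (ε₁ * j) := by
    rw [← Real.rpow_natCast 2 j, ← Real.rpow_add (by norm_num)]
    congr 1
    ring
  rw [e1, pow_add]
  have h2 : (0 : ℝ) < (2 : ℝ) ^ (ε₁ * j) := by positivity
  field_simp

lemma rem_low (d : ℕ) (p r : ℝ) (hp1 : 1 < p) (n l : ℕ) :
    ((2 : ℝ) ^ l) ^ (-(r - (1 / p - 1 / 2)))
      ≤ ((n : ℝ) + 1) ^ (d - 1) * H0 d p r n l / Real.sqrt (2 ^ l) := by
  have hP : 0 < ((n : ℝ) + 1) ^ (d - 1) := by positivity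
  have hP1 : 1 ≤ ((n : ℝ) + 1) ^ (d - 1) := one_le_pow₀ (by
    have : (0 : ℝ) ≤ n := Nat.cast_nonneg _
    linarith)
  unfold H0
  set P : ℝ := ((n : ℝ) + 1) ^ (d - 1)
  set N : ℝ := (2 : ℝ) ^ l with hN
  have hN0 : 0 < N := by positivity
  have e1 : P * (N ^ (-r) * (N / P) ^ (1 / p)) / Real.sqrt N
      = N ^ (-(r - (1 / p - 1 / 2))) * P ^ (1 - 1 / p) := by
    rw [Real.div_rpow hN0.le hP.le, Real.sqrt_eq_rpow, Real.rpow_sub hP, Real.rpow_one]
    have e2 : N ^ (-(r - (1 / p - 1 / 2))) = N ^ (-r) * N ^ (1 / p) / N ^ (1 / 2 : ℝ) := by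
      rw [← Real.rpow_add hN0, ← Real.rpow_sub hN0]
      congr 1
      ring
    rw [e2]
    ring
  rw [e1]
  have h1 : 1 ≤ P ^ (1 - 1 / p) := Real.one_le_rpow hP1 (by
    rw [sub_nonneg, div_le_one (by linarith)]
    exact hp1.le)
  have h2 : 0 ≤ N ^ (-(r - (1 / p - 1 / 2))) := by positivity
  nlinarith

lemma two_max (y : ℝ) (x A B : ℝ) (hA : x ≤ A) (hB : x ≤ B * (2 : ℝ) ^ (-y)) (hA0 : 0 ≤ A)
    (hB0 : 0 ≤ B) : x ≤ (A + B) * (2 : ℝ) ^ (-(max 0 y)) := by
  rcases le_total y 0 with h | h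
  · rw [max_eq_left h, neg_zero, Real.rpow_zero]
    linarith
  · rw [max_eq_right h]
    have : 0 ≤ A * (2 : ℝ) ^ (-y) := by positivity
    linarith

theorem layerX (d : ℕ) (hd : 2 ≤ d) (p r : ℝ) (hp1 : 1 < p) (hp2 : p < 2)
    (hC : ClassSt d) (hRT : RTSt d p r) (hRem : RemSt d p r) (hSum : SumSt) (hExpo : ExpoSt p)
    (hL : LossySt d p r) : LayerSt d p r := by
  intro c2 ε₁ hε₁
  obtain ⟨CL, hCL, hlev⟩ := levcount d p r hp1 hp2 hRT
  obtain ⟨CR, hCR, hrem⟩ := hRem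
  obtain ⟨c, hc, hc1, hexp⟩ := hExpo
  obtain ⟨CS1, hCS1, hsum1⟩ := hSum (c / 2) 1 (by positivity)
  obtain ⟨CS5, hCS5, hsum5⟩ := hSum (c / 4) 5 (by positivity)
  obtain ⟨CY, κL, nL, hCY, hlossy⟩ := hL 1
  set Cb : ℝ := (1 + 2 ^ d) + 4 * CL with hCb
  have hCb1 : 1 ≤ Cb := by
    have : (0 : ℝ) ≤ 2 ^ d := by positivity
    rw [hCb]
    linarith
  obtain ⟨K, A, nK, hK, hA, hclass⟩ :=
    class_one d hd p r hp1 hp2 hC c hc hc1 hexp Cb hCb1 ε₁ hε₁
  have hγ := gam_pos hp1 hp2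
  have hγ1 := gam_le hp1
  obtain ⟨cv, hcv1, hcv2⟩ : ∃ cv : ℕ, (1 + ε₁) * c2 ≤ cv ∧ (κL : ℝ) ≤ gam p * cv := by
    obtain ⟨a, ha⟩ := exists_nat_ge ((1 + ε₁) * c2)
    obtain ⟨b, hb⟩ := exists_nat_ge ((κL : ℝ) / gam p)
    refine ⟨a + b, ?_, ?_⟩
    · push_cast
      have : (0 : ℝ) ≤ b := Nat.cast_nonneg _
      linarith
    · push_cast
      rw [div_le_iff₀ hγ] at hb
      have : (0 : ℝ) ≤ a := Nat.cast_nonneg _
      nlinarith
  obtain ⟨A1, hA1⟩ : ∃ A1 : ℕ, A * (9 * cv + 9 + c2) ≤ A1 := exists_nat_ge _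
  set A2 : ℕ := A1 + c2 + cv + 1 with hA2
  set Cf : ℝ := 2 ^ (d + 1) * CL + 1 + K * CS1 + CY * (CR + 1) + K * CS5 with hCf
  refine ⟨Cf, 5, nK + nL + 2 ^ (2 ^ (32 * (A2 + 3))) + 2 ^ 32, by positivity, ?_⟩
  intro n hn φ hφ hφ1 j hj
  obtain ⟨hnK, hnL, hnA, hlgn, hn1⟩ : nK ≤ n ∧ nL ≤ n ∧ 2 ^ (2 ^ (32 * (A2 + 3))) ≤ n ∧
      lg n ≤ n ∧ 1 ≤ n := by
    have hpow : 0 < 2 ^ (2 ^ (32 * (A2 + 3))) := by positivity
    generalize 2 ^ (2 ^ (32 * (A2 + 3))) = q at hn hpow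
    refine ⟨by omega, by omega, by omega, ?_, by omega⟩
    have := lg_small 1 n (by omega)
    omega
  clear hn
  have hnn' : 2 ^ (A2 * lg (lg n)) ≤ n := llg_small A2 n hnA
  clear hnA
  set Λ := lg (lg n) with hΛ
  have hnn : 2 ^ (A2 * Λ) ≤ n := hnn'
  clear hnn'
  have hΛ1 : 1 ≤ Λ := lg_one _
  have hlg0 : n ≤ 2 ^ (lg n) := by
    have := lg_lo n
    omega
  have hAΛ : A2 * Λ ≤ lg n :=
    (Nat.pow_le_pow_iff_right (by norm_num : 1 < 2)).1 (hnn.trans hlg0)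
  set v0 := cv * Λ with hv0
  set i0 := 8 * v0 + 8 with hi0
  have hjΛ : j ≤ A2 * Λ := hj.trans (Nat.mul_le_mul_right _ (by omega))
  have hjn : j ≤ n := by omega
  set l := n + j with hl
  set P : ℝ := ((n : ℝ) + 1) ^ (d - 1) with hP
  have hP0 : 0 < P := by positivity
  have hH0 := H0_pos d p r n l
  set H : ℝ := 2 ^ v0 * H0 d p r n l with hH
  have hHp : 0 < H := by positivity
  set b := bc r φ with hb
  have hj0 : (0 : ℝ) ≤ j := Nat.cast_nonneg _
  have hT0 := TTl_pos d p r ε₁ n j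
  set W0 : ℝ := (P * 2 ^ n) / (2 : ℝ) ^ (ε₁ * j) with hW0
  have hW0p : 0 < W0 := by positivity
  have hj1 : (1 : ℝ) ≤ (j : ℝ) + 1 := by linarith
  have hj5 : (1 : ℝ) ≤ ((j : ℝ) + 1) ^ 5 := one_le_pow₀ hj1
  -- the number of blocks of the layer
  have hSl : (#(Sl d l) : ℝ) ≤ 2 ^ d * P := by
    have h1 : (#(Sl d l) : ℝ) ≤ ((l : ℝ) + 1) ^ (d - 1) := by exact_mod_cast Sl_card (by omega) l
    have h2 : ((l : ℝ) + 1) ^ (d - 1) ≤ (2 * ((n : ℝ) + 1)) ^ (d - 1) := by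
      refine pow_le_pow_left₀ (by positivity) ?_ _
      rw [hl]
      push_cast
      have : (j : ℝ) ≤ n := by exact_mod_cast hjn
      linarith
    rw [mul_pow] at h2
    refine h1.trans (h2.trans (mul_le_mul_of_nonneg_right ?_ hP0.le))
    exact pow_le_pow_right₀ (by norm_num) (by omega)
  -- exceptional blocks
  set FB := (Sl d l).filter (fun s => Exc b H (2 * v0 + 1) i0 s) with hFB
  have hFBs : FB ⊆ Sl d l := Finset.filter_subset _ _
  have hv0j : (1 + ε₁) * j ≤ v0 := by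
    have h1 : (j : ℝ) ≤ c2 * Λ := by exact_mod_cast hj
    have h2 : (Λ : ℝ) ≥ 0 := Nat.cast_nonneg _
    calc (1 + ε₁) * (j : ℝ) ≤ (1 + ε₁) * (c2 * Λ) := by gcongr
      _ = ((1 + ε₁) * c2) * Λ := by ring
      _ ≤ cv * Λ := by gcongr
      _ = v0 := by
          rw [hv0]
          push_cast
          rfl
  have hHv : ∀ a : ℕ, H / 2 ^ a = (2 : ℝ) ^ (-((a : ℝ) - v0)) * H0 d p r n l := fun a =>
    pow_zv _ v0 a
  have hFBc : (#FB : ℝ) ≤ 2 * CL * P * (2 : ℝ) ^ (-((1 + ε₁) * j)) := by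
    set F1 := (Sl d l).filter
      (fun s => 2 ^ 0 ≤ #(lev b s ((2 : ℝ) ^ (-(-(v0 : ℝ))) * H0 d p r n l))) with hF1
    set F2 : ℕ → Finset (Fin d → ℕ) := fun a => (Sl d l).filter
      (fun s => 2 ^ i0 ≤ #(lev b s ((2 : ℝ) ^ (-((a : ℝ) + 1 - v0)) * H0 d p r n l))) with hF2
    have hsub : FB ⊆ F1 ∪ (Finset.range (2 * v0 + 1)).biUnion F2 := by
      intro s hs
      rw [hFB, mem_filter] at hs
      obtain ⟨hs1, hs2⟩ := hs
      rw [mem_union]
      rcases hs2 with ⟨ζ, hζ, hζ2⟩ | ⟨a, ha, ha2⟩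
      · left
        rw [hF1, mem_filter]
        refine ⟨hs1, ?_⟩
        rw [pow_zero, Nat.one_le_iff_ne_zero, Finset.card_ne_zero]
        refine ⟨ζ, ?_⟩
        unfold lev
        rw [mem_filter]
        refine ⟨hζ, le_of_eq_of_le ?_ hζ2.le⟩
        rw [neg_neg, Real.rpow_natCast]
      · right
        rw [mem_biUnion]
        refine ⟨a, ha, ?_⟩
        rw [hF2]
        simp only
        rw [mem_filter]
        refine ⟨hs1, ha2.le.trans (Finset.card_le_card (Zc_sub b H _ a s (le_of_eq ?_)))⟩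
        rw [hHv (a + 1)]
        push_cast
        rfl
    have hc1 : (#F1 : ℝ) ≤ CL * P * (2 : ℝ) ^ (-((1 + ε₁) * j)) := by
      refine (hlev φ hφ hφ1 n l (-(v0 : ℝ)) 0).trans ?_
      refine mul_le_mul_of_nonneg_left ?_ (by positivity)
      refine Real.rpow_le_rpow_of_exponent_le (by norm_num) ?_
      push_cast
      have : (0 : ℝ) ≤ v0 := Nat.cast_nonneg _
      nlinarith
    have hc2 : ∀ a ∈ Finset.range (2 * v0 + 1),
        (#(F2 a) : ℝ) ≤ CL * P * (2 : ℝ) ^ (-(5 * ((v0 : ℝ) + 1))) := by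
      intro a ha
      refine (hlev φ hφ hφ1 n l ((a : ℝ) + 1 - v0) i0).trans ?_
      refine mul_le_mul_of_nonneg_left ?_ (by positivity)
      refine Real.rpow_le_rpow_of_exponent_le (by norm_num) ?_
      have h1 : (a : ℝ) ≤ 2 * v0 := by
        have := Finset.mem_range.1 ha
        have h2 : a ≤ 2 * v0 := by omega
        exact_mod_cast h2
      have h2 : (i0 : ℝ) = 8 * ((v0 : ℝ) + 1) := by
        rw [hi0]
        push_cast
        ring
      have h3 := eps_lt hp1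
      have h4 : (0 : ℝ) ≤ v0 := Nat.cast_nonneg _
      have h5 : p * ((a : ℝ) + 1 - v0) ≤ 2 * ((v0 : ℝ) + 1) := by
        have h6 : (a : ℝ) + 1 - v0 ≤ v0 + 1 := by linarith
        nlinarith
      rw [h2]
      nlinarith
    have hc3 : ((2 * v0 + 1 : ℕ) : ℝ) * (CL * P * (2 : ℝ) ^ (-(5 * ((v0 : ℝ) + 1))))
        ≤ CL * P * (2 : ℝ) ^ (-((1 + ε₁) * j)) := by
      have h1 : ((2 * v0 + 1 : ℕ) : ℝ) ≤ (2 : ℝ) ^ ((2 * v0 + 1 : ℕ) : ℝ) := by
        rw [Real.rpow_natCast]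
        exact_mod_cast Nat.lt_two_pow_self.le
      calc ((2 * v0 + 1 : ℕ) : ℝ) * (CL * P * (2 : ℝ) ^ (-(5 * ((v0 : ℝ) + 1))))
          ≤ (2 : ℝ) ^ ((2 * v0 + 1 : ℕ) : ℝ) * (CL * P * (2 : ℝ) ^ (-(5 * ((v0 : ℝ) + 1)))) := by
            gcongr
        _ = CL * P * ((2 : ℝ) ^ ((2 * v0 + 1 : ℕ) : ℝ) * (2 : ℝ) ^ (-(5 * ((v0 : ℝ) + 1)))) := by
            ring
        _ ≤ CL * P * (2 : ℝ) ^ (-((1 + ε₁) * j)) := by
            rw [← Real.rpow_add (by norm_num)]
            refine mul_le_mul_of_nonneg_left ?_ (by positivity)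
            refine Real.rpow_le_rpow_of_exponent_le (by norm_num) ?_
            push_cast
            have : (0 : ℝ) ≤ v0 := Nat.cast_nonneg _
            linarith
    calc (#FB : ℝ) ≤ (#(F1 ∪ (Finset.range (2 * v0 + 1)).biUnion F2) : ℝ) := by
          exact_mod_cast Finset.card_le_card hsub
      _ ≤ (#F1 : ℝ) + ∑ a ∈ Finset.range (2 * v0 + 1), (#(F2 a) : ℝ) := by
          have h1 := Finset.card_union_le F1 ((Finset.range (2 * v0 + 1)).biUnion F2)
          have h2 : #((Finset.range (2 * v0 + 1)).biUnion F2)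
              ≤ ∑ a ∈ Finset.range (2 * v0 + 1), #(F2 a) := Finset.card_biUnion_le
          have h3 := h1.trans (Nat.add_le_add_left h2 _)
          exact_mod_cast h3
      _ ≤ CL * P * (2 : ℝ) ^ (-((1 + ε₁) * j))
          + ∑ a ∈ Finset.range (2 * v0 + 1), CL * P * (2 : ℝ) ^ (-(5 * ((v0 : ℝ) + 1))) :=
          add_le_add hc1 (Finset.sum_le_sum hc2)
      _ ≤ CL * P * (2 : ℝ) ^ (-((1 + ε₁) * j)) + CL * P * (2 : ℝ) ^ (-((1 + ε₁) * j)) := by
          rw [Finset.sum_const, nsmul_eq_mul, Finset.card_range]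
          exact add_le_add_right hc3 _
      _ = _ := by ring
  set GB := Sl d l \ FB with hGB
  have hGBs : GB ⊆ Sl d l := Finset.sdiff_subset
  have hgb1 : ∀ s ∈ GB, ∀ ζ ∈ grid s, ‖fa b s ζ‖ ≤ H := by
    intro s hs ζ hζ
    rw [hGB, mem_sdiff, hFB, mem_filter] at hs
    by_contra hcon
    exact hs.2 ⟨hs.1, Or.inl ⟨ζ, hζ, not_le.1 hcon⟩⟩
  have hgb2 : ∀ s ∈ GB, ∀ a ∈ Finset.range (2 * v0 + 1), #(Zc b H a s) ≤ 2 ^ i0 := by
    intro s hs a ha
    rw [hGB, mem_sdiff, hFB, mem_filter] at hs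
    by_contra hcon
    exact hs.2 ⟨hs.1, Or.inr ⟨a, ha, not_le.1 hcon⟩⟩
  -- the remainder
  set W : (Fin d → ℕ) → Finset (Fin d → ℕ) :=
    fun s => if s ∈ FB then ∅ else Wc b H (2 * v0 + 1) s with hW
  set Br : ℝ := (CR + 1) * (2 : ℝ) ^ (-(gam p * ((v0 + 1 : ℕ) : ℝ)))
    * (P * H0 d p r n l / Real.sqrt (2 ^ l)) with hBr
  have hPH : 0 < P * H0 d p r n l / Real.sqrt (2 ^ l) := by positivity
  have hBr0 : 0 < Br := by positivity
  have hv0n : v0 + 1 ≤ lg n := by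
    refine le_trans ?_ hAΛ
    rw [hv0, hA2]
    nlinarith
  obtain ⟨ML, GLy, hML, hGL, hEL⟩ := hlossy n hnL φ hφ hφ1 l (by omega) (by omega) W (by
      intro s _
      rw [hW]
      simp only
      split_ifs
      · exact Finset.empty_subset _
      · exact Finset.filter_subset _ _) Br (by
      have h1 := rem_low d p r hp1 n l
      rw [div_le_iff₀ (by positivity)]
      have h2 : (1 : ℝ) ≤ (2 : ℝ) ^ (-(gam p * ((v0 + 1 : ℕ) : ℝ))) * 2 ^ (1 * lg n) := by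
        rw [one_mul, ← Real.rpow_natCast 2 (lg n), ← Real.rpow_add (by norm_num)]
        refine Real.one_le_rpow (by norm_num) ?_
        have h3 : ((v0 + 1 : ℕ) : ℝ) ≤ (lg n : ℝ) := by exact_mod_cast hv0n
        have h4 : (0 : ℝ) ≤ ((v0 + 1 : ℕ) : ℝ) := Nat.cast_nonneg _
        nlinarith
      rw [← hP] at h1
      calc ((2 : ℝ) ^ l) ^ (-(r - (1 / p - 1 / 2))) ≤ P * H0 d p r n l / Real.sqrt (2 ^ l) := h1
        _ ≤ (CR + 1) * (P * H0 d p r n l / Real.sqrt (2 ^ l))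
            * ((2 : ℝ) ^ (-(gam p * ((v0 + 1 : ℕ) : ℝ))) * 2 ^ (1 * lg n)) := by
            have h5 : P * H0 d p r n l / Real.sqrt (2 ^ l)
                ≤ (CR + 1) * (P * H0 d p r n l / Real.sqrt (2 ^ l)) := by nlinarith
            refine h5.trans ?_
            refine le_mul_of_one_le_right (by positivity) h2
        _ = _ := by
            rw [hBr]
            ring) (by
      have h1 := hrem φ hφ hφ1 n l (v0 + 1) (by omega)
      refine le_trans (Finset.sum_le_sum (fun s _ => ?_)) (h1.trans ?_)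
      · refine Real.sqrt_le_sqrt (div_le_div_of_nonneg_right ?_ (Nat.cast_nonneg _))
        rw [hW]
        simp only
        split_ifs with hs
        · rw [Finset.sum_empty]
          exact Finset.sum_nonneg (fun _ _ => by positivity)
        · refine le_of_eq ?_
          congr 1
          unfold Wc
          rw [hHv]
          congr 1
          funext ζ
          have e1 : (-(((2 * v0 + 1 : ℕ) : ℝ) - v0)) = -((v0 + 1 : ℕ) : ℝ) := by
            push_cast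
            ring
          rw [e1]
      · rw [hBr, ← hP]
        have h6 : 0 ≤ (2 : ℝ) ^ (-(gam p * ((v0 + 1 : ℕ) : ℝ)))
          * (P * H0 d p r n l / Real.sqrt (2 ^ l)) := by positivity
        nlinarith) ((2 : ℝ) ^ (ε₁ * j))
      (Real.one_le_rpow (by norm_num) (by positivity)) (by
      rw [one_mul, ← Real.rpow_natCast 2 (lg n)]
      refine Real.rpow_le_rpow_of_exponent_le (by norm_num) ?_
      have h3 : ((v0 + 1 : ℕ) : ℝ) ≤ (lg n : ℝ) := by exact_mod_cast hv0n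
      push_cast at h3
      nlinarith)
  -- the classes
  set Sc : ℕ → ℕ → Finset (Fin d → ℕ) := fun a i => GB.filter
    (fun s => (Zc b H a s).Nonempty ∧ Nat.log 2 (#(Zc b H a s)) = i) with hSc
  have hX : ∀ a ∈ Finset.range (2 * v0 + 1), ∀ i ∈ Finset.range (i0 + 1),
      ∃ (M : ℕ) (G : (Fin d → ℝ) → ℂ),
      (M : ℝ) ≤ K * ((j : ℝ) + 1) * W0
        * ((|(a : ℝ) - v0| + i + 1) ^ 1 * (2 : ℝ) ^ (-(c / 2 * (|(a : ℝ) - v0| + i)))) ∧
      TP d M G ∧
      ∀ x, ‖∑ s ∈ Sc a i, fbox s (Zc b H a s) (fa b s) x - G x‖ ≤ K * ((j : ℝ) + 1) ^ 5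
        * TTl d p r ε₁ n j
        * ((|(a : ℝ) - v0| + i + 1) ^ 5 * (2 : ℝ) ^ (-(c / 4 * (|(a : ℝ) - v0| + i)))) := by
    intro a ha i hi
    have ha' : a ≤ 2 * v0 := by
      have := Finset.mem_range.1 ha
      omega
    have hi' : i ≤ i0 := by
      have := Finset.mem_range.1 hi
      omega
    refine hclass n hnK j i ((a : ℝ) - v0) ?_ (Sc a i) (Zc b H a) (fun s => fa b s) ?_ ?_ ?_
    · have h1 : A * (|(a : ℝ) - v0| + i + j + 1) ≤ A1 * Λ := by
        have h2 : |(a : ℝ) - v0| ≤ v0 := by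
          rw [abs_le]
          have h3 : (a : ℝ) ≤ 2 * v0 := by exact_mod_cast ha'
          have h4 : (0 : ℝ) ≤ a := Nat.cast_nonneg _
          constructor <;> linarith
        have h3 : (i : ℝ) ≤ 8 * v0 + 8 := by
          have : i ≤ 8 * v0 + 8 := hi'
          exact_mod_cast this
        have h4 : (j : ℝ) ≤ c2 * Λ := by exact_mod_cast hj
        have h5 : (v0 : ℝ) = cv * Λ := by
          rw [hv0]
          push_cast
          rfl
        have h6 : (1 : ℝ) ≤ Λ := by exact_mod_cast hΛ1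
        have h7 : |(a : ℝ) - v0| + i + j + 1 ≤ (9 * cv + 9 + c2) * Λ := by
          have : |(a : ℝ) - v0| + i + j + 1 ≤ 9 * (cv * Λ) + 9 * 1 + c2 * Λ := by
            rw [← h5]
            linarith
          nlinarith
        calc A * (|(a : ℝ) - v0| + i + j + 1) ≤ A * ((9 * cv + 9 + c2) * Λ) := by gcongr
          _ = (A * (9 * cv + 9 + c2)) * Λ := by ring
          _ ≤ A1 * Λ := by gcongr
      calc (2 : ℝ) ^ (A * (|(a : ℝ) - v0| + i + j + 1)) ≤ (2 : ℝ) ^ (((A1 * Λ : ℕ) : ℝ)) := by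
            refine Real.rpow_le_rpow_of_exponent_le (by norm_num) ?_
            push_cast
            exact h1
        _ = ((2 ^ (A1 * Λ) : ℕ) : ℝ) := by
            rw [Real.rpow_natCast]
            push_cast
            rfl
        _ ≤ n := by
            have h2 : 2 ^ (A1 * Λ) ≤ 2 ^ (A2 * Λ) :=
              Nat.pow_le_pow_right (by norm_num) (Nat.mul_le_mul_right _ (by omega))
            exact_mod_cast h2.trans hnn
    · exact (Finset.filter_subset _ _).trans hGBs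
    · intro s hs
      rw [hSc] at hs
      simp only at hs
      rw [mem_filter] at hs
      refine ⟨Finset.filter_subset _ _, ?_, ?_⟩
      · have := Nat.lt_pow_succ_log_self (by norm_num : 1 < 2) (#(Zc b H a s))
        rw [hs.2.2] at this
        exact this.le
      · intro ζ hζ
        unfold Zc at hζ
        rw [mem_filter] at hζ
        rw [← hl, ← hHv]
        exact hζ.2.2
    · have hA3 : (#(Sc a i) : ℝ) ≤ (1 + 2 ^ d) * P := by
        have h1 : (#(Sc a i) : ℝ) ≤ #(Sl d l) := by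
          exact_mod_cast Finset.card_le_card ((Finset.filter_subset _ _).trans hGBs)
        nlinarith
      have hB3 : (#(Sc a i) : ℝ) ≤ (4 * CL * P)
          * (2 : ℝ) ^ (-((1 - eps p) * i - p * ((a : ℝ) - v0))) := by
        have h1 : Sc a i ⊆ (Sl d l).filter
            (fun s => 2 ^ i ≤ #(lev b s ((2 : ℝ) ^ (-((a : ℝ) + 1 - v0)) * H0 d p r n l))) := by
          intro s hs
          rw [hSc] at hs
          simp only at hs
          rw [mem_filter] at hs ⊢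
          refine ⟨hGBs hs.1, ?_⟩
          have h2 : 2 ^ i ≤ #(Zc b H a s) := by
            have := Nat.pow_log_le_self 2 (Finset.card_ne_zero.2 hs.2.1)
            rwa [hs.2.2] at this
          refine h2.trans (Finset.card_le_card (Zc_sub b H _ a s (le_of_eq ?_)))
          rw [hHv (a + 1)]
          push_cast
          rfl
        have h2 := hlev φ hφ hφ1 n l ((a : ℝ) + 1 - v0) i
        have h3 : (#(Sc a i) : ℝ) ≤ CL * P * (2 : ℝ) ^ (p * ((a : ℝ) + 1 - v0)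
            - (1 - eps p) * i) :=
          le_trans (by exact_mod_cast Finset.card_le_card h1) h2
        refine h3.trans ?_
        have h4 : (2 : ℝ) ^ (p * ((a : ℝ) + 1 - v0) - (1 - eps p) * i)
            ≤ 4 * (2 : ℝ) ^ (-((1 - eps p) * i - p * ((a : ℝ) - v0))) := by
          have e1 : (4 : ℝ) = (2 : ℝ) ^ (2 : ℝ) := by norm_num
          rw [e1, ← Real.rpow_add (by norm_num)]
          refine Real.rpow_le_rpow_of_exponent_le (by norm_num) ?_
          nlinarith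
        calc CL * P * (2 : ℝ) ^ (p * ((a : ℝ) + 1 - v0) - (1 - eps p) * i)
            ≤ CL * P * (4 * (2 : ℝ) ^ (-((1 - eps p) * i - p * ((a : ℝ) - v0)))) := by gcongr
          _ = _ := by ring
      have h9 := two_max ((1 - eps p) * i - p * ((a : ℝ) - v0)) _ _ _ hA3 hB3 (by positivity)
        (by positivity)
      refine h9.trans (le_of_eq ?_)
      rw [hCb]
      ring
  choose! Mc Gc hMc hGc hEc using hX
  have hfull : ∀ x, ∑ s ∈ Sl d l, fs b s x = ∑ s ∈ FB, fs b s x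
      + ∑ s ∈ Sl d l, fbox s (W s) (fa b s) x
      + ∑ a ∈ Finset.range (2 * v0 + 1), ∑ i ∈ Finset.range (i0 + 1),
        ∑ s ∈ Sc a i, fbox s (Zc b H a s) (fa b s) x := by
    intro x
    have h1 : ∑ s ∈ Sl d l, fs b s x = ∑ s ∈ GB, fs b s x + ∑ s ∈ FB, fs b s x :=
      (Finset.sum_sdiff hFBs).symm
    have h2 : ∑ s ∈ Sl d l, fbox s (W s) (fa b s) x
        = ∑ s ∈ GB, fbox s (Wc b H (2 * v0 + 1) s) (fa b s) x := by
      rw [← Finset.sum_sdiff hFBs, ← hGB]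
      have e1 : ∑ s ∈ FB, fbox s (W s) (fa b s) x = 0 := by
        refine Finset.sum_eq_zero (fun s hs => ?_)
        rw [hW]
        simp only
        rw [if_pos hs, fbox_empty]
      rw [e1, add_zero]
      refine Finset.sum_congr rfl (fun s hs => ?_)
      rw [hW]
      simp only
      rw [if_neg (Finset.mem_sdiff.1 hs).2]
    have h3 : ∀ a ∈ Finset.range (2 * v0 + 1), ∑ i ∈ Finset.range (i0 + 1),
        ∑ s ∈ Sc a i, fbox s (Zc b H a s) (fa b s) x
        = ∑ s ∈ GB, fbox s (Zc b H a s) (fa b s) x := by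
      intro a ha
      have e1 : ∀ i, Sc a i = (GB.filter (fun s => (Zc b H a s).Nonempty)).filter
          (fun s => Nat.log 2 (#(Zc b H a s)) = i) := by
        intro i
        rw [hSc]
        simp only
        rw [Finset.filter_filter]
      simp only [e1]
      rw [Finset.sum_fiberwise_of_maps_to]
      · rw [Finset.sum_filter]
        refine Finset.sum_congr rfl (fun s _ => ?_)
        split_ifs with hne
        · rfl
        · rw [Finset.not_nonempty_iff_eq_empty.1 hne, fbox_empty]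
      · intro s hs
        rw [mem_filter] at hs
        rw [Finset.mem_range]
        have h4 := hgb2 s hs.1 a ha
        have h5 : Nat.log 2 (#(Zc b H a s)) ≤ i0 := by
          have := Nat.log_mono_right (b := 2) h4
          rwa [Nat.log_pow (by norm_num)] at this
        omega
    rw [h1, h2, Finset.sum_congr rfl h3, Finset.sum_comm]
    have h4 : ∀ s ∈ GB, fs b s x = fbox s (Wc b H (2 * v0 + 1) s) (fa b s) x
        + ∑ a ∈ Finset.range (2 * v0 + 1), fbox s (Zc b H a s) (fa b s) x := fun s hs =>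
      fs_levels b H hHp s (hgb1 s hs) _ x
    rw [Finset.sum_congr rfl h4, Finset.sum_add_distrib]
    ring
  refine ⟨∑ s ∈ FB, #(rho s) + ML + ∑ a ∈ Finset.range (2 * v0 + 1),
    ∑ i ∈ Finset.range (i0 + 1), Mc a i, fun x => ∑ s ∈ FB, fs b s x + GLy x
      + ∑ a ∈ Finset.range (2 * v0 + 1), ∑ i ∈ Finset.range (i0 + 1), Gc a i x, ?_, ?_, ?_⟩
  · -- the number of frequencies
    have h1 : (∑ s ∈ FB, (#(rho s) : ℝ)) ≤ 2 ^ (d + 1) * CL * W0 := by
      have e1 : ∀ s ∈ FB, (#(rho s) : ℝ) ≤ 2 ^ (l + d) := by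
        intro s hs
        have := (Finset.card_le_card (rho_sub s)).trans (Box_card s)
        rw [mem_Sl.1 (hFBs hs)] at this
        exact_mod_cast this
      have e2 : (2 : ℝ) ^ ((1 + ε₁) * j) = 2 ^ j * (2 : ℝ) ^ (ε₁ * j) := by
        rw [← Real.rpow_natCast 2 j, ← Real.rpow_add (by norm_num)]
        congr 1
        ring
      calc (∑ s ∈ FB, (#(rho s) : ℝ)) ≤ ∑ s ∈ FB, (2 : ℝ) ^ (l + d) := Finset.sum_le_sum e1
        _ = #FB * (2 : ℝ) ^ (l + d) := by rw [Finset.sum_const, nsmul_eq_mul]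
        _ ≤ (2 * CL * P * (2 : ℝ) ^ (-((1 + ε₁) * j))) * (2 : ℝ) ^ (l + d) := by gcongr
        _ = 2 ^ (d + 1) * CL * W0 := by
            rw [Real.rpow_neg (by norm_num), e2, hW0, hl, pow_add, pow_add, pow_succ]
            have h3 : (0 : ℝ) < (2 : ℝ) ^ (ε₁ * j) := by positivity
            field_simp
    have h2 : (∑ a ∈ Finset.range (2 * v0 + 1), ∑ i ∈ Finset.range (i0 + 1), (Mc a i : ℝ))
        ≤ K * ((j : ℝ) + 1) * W0 * CS1 := by
      calc (∑ a ∈ Finset.range (2 * v0 + 1), ∑ i ∈ Finset.range (i0 + 1), (Mc a i : ℝ))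
          ≤ ∑ a ∈ Finset.range (2 * v0 + 1), ∑ i ∈ Finset.range (i0 + 1),
            K * ((j : ℝ) + 1) * W0 * ((|(a : ℝ) - v0| + i + 1) ^ 1
              * (2 : ℝ) ^ (-(c / 2 * (|(a : ℝ) - v0| + i)))) :=
            Finset.sum_le_sum (fun a ha => Finset.sum_le_sum (fun i hi => hMc a ha i hi))
        _ = K * ((j : ℝ) + 1) * W0 * ∑ a ∈ Finset.range (2 * v0 + 1),
            ∑ i ∈ Finset.range (i0 + 1), ((|(a : ℝ) - v0| + i + 1) ^ 1
              * (2 : ℝ) ^ (-(c / 2 * (|(a : ℝ) - v0| + i)))) := by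
            rw [Finset.mul_sum]
            refine Finset.sum_congr rfl (fun a _ => ?_)
            rw [Finset.mul_sum]
        _ ≤ _ := by
            refine mul_le_mul_of_nonneg_left ?_ (by positivity)
            exact hsum1 v0 i0
    have h3 : ((∑ s ∈ FB, #(rho s) + ML + ∑ a ∈ Finset.range (2 * v0 + 1),
        ∑ i ∈ Finset.range (i0 + 1), Mc a i : ℕ) : ℝ)
        ≤ (2 ^ (d + 1) * CL + 1 + K * CS1) * (((j : ℝ) + 1) ^ 5 * W0) := by
      push_cast
      have e1 : (ML : ℝ) ≤ W0 := hML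
      have e2 : W0 ≤ ((j : ℝ) + 1) ^ 5 * W0 := le_mul_of_one_le_left hW0p.le hj5
      have e3 : ((j : ℝ) + 1) * W0 ≤ ((j : ℝ) + 1) ^ 5 * W0 := by
        refine mul_le_mul_of_nonneg_right ?_ hW0p.le
        exact le_self_pow₀ hj1 (by norm_num)
      have e4 : 2 ^ (d + 1) * CL * W0 ≤ 2 ^ (d + 1) * CL * (((j : ℝ) + 1) ^ 5 * W0) := by gcongr
      have e5 : K * ((j : ℝ) + 1) * W0 * CS1 ≤ K * CS1 * (((j : ℝ) + 1) ^ 5 * W0) := by
        have : K * ((j : ℝ) + 1) * W0 * CS1 = K * CS1 * (((j : ℝ) + 1) * W0) := by ring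
        rw [this]
        gcongr
      linarith
    refine h3.trans ?_
    have h4 : (2 ^ (d + 1) * CL + 1 + K * CS1) ≤ Cf := by
      rw [hCf]
      have : 0 ≤ CY * (CR + 1) + K * CS5 := by positivity
      linarith
    calc (2 ^ (d + 1) * CL + 1 + K * CS1) * (((j : ℝ) + 1) ^ 5 * W0)
        ≤ Cf * (((j : ℝ) + 1) ^ 5 * W0) := by gcongr
      _ = _ := by
          rw [hW0]
          ring
  · refine TP.add (TP.add ?_ hGL) ?_
    · exact TP.sum FB _ _ (fun s _ => ⟨rho s, b, le_rfl, fun _ => rfl⟩)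
    · exact TP.sum _ _ _ (fun a ha => TP.sum _ _ _ (fun i hi => hGc a ha i hi))
  · intro x
    have h1 : ∑ s ∈ Sl d l, fs b s x - (∑ s ∈ FB, fs b s x + GLy x
        + ∑ a ∈ Finset.range (2 * v0 + 1), ∑ i ∈ Finset.range (i0 + 1), Gc a i x)
        = (∑ s ∈ Sl d l, fbox s (W s) (fa b s) x - GLy x)
        + ∑ a ∈ Finset.range (2 * v0 + 1), ∑ i ∈ Finset.range (i0 + 1),
          (∑ s ∈ Sc a i, fbox s (Zc b H a s) (fa b s) x - Gc a i x) := by
      rw [hfull x]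
      simp only [Finset.sum_sub_distrib]
      ring
    rw [h1]
    have h2 : ‖∑ s ∈ Sl d l, fbox s (W s) (fa b s) x - GLy x‖
        ≤ CY * (CR + 1) * TTl d p r ε₁ n j := by
      refine (hEL x).trans ?_
      have e1 := rem_T d p r ε₁ n j
      rw [← hl, ← hP] at e1
      have e2 : (lg n : ℝ) ^ κL * (2 : ℝ) ^ (-(gam p * ((v0 + 1 : ℕ) : ℝ))) ≤ 1 := by
        have f1 : (lg n : ℝ) ^ κL ≤ (2 : ℝ) ^ ((κL : ℝ) * Λ) := by
          have f2 : (lg n : ℝ) ≤ (2 : ℝ) ^ (Λ : ℝ) := by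
            rw [Real.rpow_natCast]
            have := lg_lo (lg n)
            have f3 : lg n ≤ 2 ^ Λ := by
              rw [hΛ]
              omega
            exact_mod_cast f3
          calc (lg n : ℝ) ^ κL ≤ ((2 : ℝ) ^ (Λ : ℝ)) ^ κL :=
                pow_le_pow_left₀ (Nat.cast_nonneg _) f2 _
            _ = _ := by
                rw [← Real.rpow_natCast, ← Real.rpow_mul (by norm_num), mul_comm]
        calc (lg n : ℝ) ^ κL * (2 : ℝ) ^ (-(gam p * ((v0 + 1 : ℕ) : ℝ)))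
            ≤ (2 : ℝ) ^ ((κL : ℝ) * Λ) * (2 : ℝ) ^ (-(gam p * ((v0 + 1 : ℕ) : ℝ))) := by gcongr
          _ = (2 : ℝ) ^ ((κL : ℝ) * Λ + -(gam p * ((v0 + 1 : ℕ) : ℝ))) := by
              rw [Real.rpow_add (by norm_num)]
          _ ≤ 1 := by
              refine Real.rpow_le_one_of_one_le_of_nonpos (by norm_num) ?_
              have f4 : (κL : ℝ) * Λ ≤ gam p * cv * Λ := by gcongr
              have f5 : (v0 : ℝ) = cv * Λ := by
                rw [hv0]
                push_cast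
                rfl
              push_cast
              rw [f5]
              nlinarith
      calc CY * (lg n : ℝ) ^ κL * Real.sqrt ((2 : ℝ) ^ (ε₁ * j) * 2 ^ l / (P * 2 ^ n)) * Br
          = CY * (CR + 1) * ((lg n : ℝ) ^ κL * (2 : ℝ) ^ (-(gam p * ((v0 + 1 : ℕ) : ℝ))))
            * (Real.sqrt ((2 : ℝ) ^ (ε₁ * j) * 2 ^ l / (P * 2 ^ n))
              * (P * H0 d p r n l / Real.sqrt (2 ^ l))) := by
            rw [hBr]
            ring
        _ ≤ CY * (CR + 1) * 1 * (Real.sqrt ((2 : ℝ) ^ (ε₁ * j) * 2 ^ l / (P * 2 ^ n))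
              * (P * H0 d p r n l / Real.sqrt (2 ^ l))) := by gcongr
        _ = _ := by rw [e1, mul_one]
    have h3 : ‖∑ a ∈ Finset.range (2 * v0 + 1), ∑ i ∈ Finset.range (i0 + 1),
          (∑ s ∈ Sc a i, fbox s (Zc b H a s) (fa b s) x - Gc a i x)‖
        ≤ K * ((j : ℝ) + 1) ^ 5 * TTl d p r ε₁ n j * CS5 := by
      refine (norm_sum_le _ _).trans ?_
      calc ∑ a ∈ Finset.range (2 * v0 + 1), ‖∑ i ∈ Finset.range (i0 + 1),
            (∑ s ∈ Sc a i, fbox s (Zc b H a s) (fa b s) x - Gc a i x)‖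
          ≤ ∑ a ∈ Finset.range (2 * v0 + 1), ∑ i ∈ Finset.range (i0 + 1),
            K * ((j : ℝ) + 1) ^ 5 * TTl d p r ε₁ n j * ((|(a : ℝ) - v0| + i + 1) ^ 5
              * (2 : ℝ) ^ (-(c / 4 * (|(a : ℝ) - v0| + i)))) := by
            refine Finset.sum_le_sum (fun a ha => (norm_sum_le _ _).trans ?_)
            exact Finset.sum_le_sum (fun i hi => hEc a ha i hi x)
        _ = K * ((j : ℝ) + 1) ^ 5 * TTl d p r ε₁ n j * ∑ a ∈ Finset.range (2 * v0 + 1),
            ∑ i ∈ Finset.range (i0 + 1), ((|(a : ℝ) - v0| + i + 1) ^ 5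
              * (2 : ℝ) ^ (-(c / 4 * (|(a : ℝ) - v0| + i)))) := by
            rw [Finset.mul_sum]
            refine Finset.sum_congr rfl (fun a _ => ?_)
            rw [Finset.mul_sum]
        _ ≤ _ := by
            refine mul_le_mul_of_nonneg_left ?_ (by positivity)
            exact hsum5 v0 i0
    refine (norm_add_le _ _).trans ((add_le_add h2 h3).trans ?_)
    have h4 : CY * (CR + 1) * TTl d p r ε₁ n j + K * ((j : ℝ) + 1) ^ 5 * TTl d p r ε₁ n j * CS5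
        ≤ (CY * (CR + 1) + K * CS5) * (((j : ℝ) + 1) ^ 5 * TTl d p r ε₁ n j) := by
      have e1 : TTl d p r ε₁ n j ≤ ((j : ℝ) + 1) ^ 5 * TTl d p r ε₁ n j :=
        le_mul_of_one_le_left hT0.le hj5
      have e2 : CY * (CR + 1) * TTl d p r ε₁ n j
          ≤ CY * (CR + 1) * (((j : ℝ) + 1) ^ 5 * TTl d p r ε₁ n j) := by gcongr
      linarith
    refine h4.trans ?_
    have h5 : CY * (CR + 1) + K * CS5 ≤ Cf := by
      rw [hCf]
      have : 0 ≤ 2 ^ (d + 1) * CL + 1 + K * CS1 := by positivity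
      linarith
    calc (CY * (CR + 1) + K * CS5) * (((j : ℝ) + 1) ^ 5 * TTl d p r ε₁ n j)
        ≤ Cf * (((j : ℝ) + 1) ^ 5 * TTl d p r ε₁ n j) := by gcongr
      _ = _ := by
          unfold TTl
          ring

end

end Pool.Agent.H75.UX
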