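import Pool.Agent.H75.UX.Defs

set_option autoImplicit false
set_option linter.unusedSectionVars false

/-!
# One layer, exact: definitions and statements of the parts of module [M11]
-/

open Finset ComplexConjugate MeasureTheory

open scoped Classical

namespace Pool.Agent.H75.UX

open Pool.Agent.H75.MT (ee ee_add ee_norm ee_conj ee_int ee_zero)
open Pool.Agent.H75.UB

noncomputable section

local instance msLay0 : MeasureSpace UnitAddCircle := ⟨AddCircle.haarAddCircle⟩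

variable {d : ℕ}

/-- the unit of height in the layer `l` -/
def H0 (d : ℕ) (p r : ℝ) (n l : ℕ) : ℝ :=
  ((2 : ℝ) ^ l) ^ (-r) * ((2 : ℝ) ^ l / ((n : ℝ) + 1) ^ (d - 1)) ^ (1 / p)

/-- a small exponent -/
def eps (p : ℝ) : ℝ := (2 - p) / 8

/-- the gain for small heights -/
def gam (p : ℝ) : ℝ := 1 - p / (2 * (1 - eps p))

/-- the level set of a block -/
def lev (b : (Fin d → ℤ) → ℂ) (s : Fin d → ℕ) (t : ℝ) : Finset (Fin d → ℕ) :=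
  (grid s).filter (fun ζ => t ≤ ‖fa b s ζ‖)

/-- the number of blocks with a large level set -/
def LevSt (d : ℕ) (p r : ℝ) : Prop := ∃ C : ℝ, 0 < C ∧
  ∀ φ : TT d → ℂ, MemLp φ (ENNReal.ofReal p) volume → ∫ x, ‖φ x‖ ^ p ≤ 1 →
  ∀ (n l : ℕ) (v : ℝ) (i : ℕ),
    (#((Sl d l).filter (fun s => 2 ^ i ≤ #(lev (bc r φ) s ((2 : ℝ) ^ (-v) * H0 d p r n l)))) : ℝ)
      ≤ C * ((n : ℝ) + 1) ^ (d - 1) * (2 : ℝ) ^ (p * v - (1 - eps p) * i)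

/-- the energies of the parts with small height -/
def RemSt (d : ℕ) (p r : ℝ) : Prop := ∃ C : ℝ, 0 < C ∧
  ∀ φ : TT d → ℂ, MemLp φ (ENNReal.ofReal p) volume → ∫ x, ‖φ x‖ ^ p ≤ 1 →
  ∀ n l v0 : ℕ, l ≤ 2 * n →
    ∑ s ∈ Sl d l, Real.sqrt ((∑ ζ ∈ (grid s).filter (fun ζ => ‖fa (bc r φ) s ζ‖
        ≤ (2 : ℝ) ^ (-(v0 : ℝ)) * H0 d p r n l), ‖fa (bc r φ) s ζ‖ ^ 2) / NT s)
      ≤ C * (2 : ℝ) ^ (-(gam p * v0)) *
        (((n : ℝ) + 1) ^ (d - 1) * H0 d p r n l / Real.sqrt (2 ^ l))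

/-- double geometric sums -/
def SumSt : Prop := ∀ (θ : ℝ) (k : ℕ), 0 < θ → ∃ C : ℝ, 0 < C ∧ ∀ v0 i0 : ℕ,
  ∑ a ∈ Finset.range (2 * v0 + 1), ∑ i ∈ Finset.range (i0 + 1),
    (|(a : ℝ) - v0| + i + 1) ^ k * (2 : ℝ) ^ (-(θ * (|(a : ℝ) - v0| + i))) ≤ C

/-- the exponent inequality -/
def ExpoSt (p : ℝ) : Prop := ∃ c : ℝ, 0 < c ∧ c ≤ 1 ∧ ∀ (v i : ℝ), 0 ≤ i →
  -2 * max 0 ((1 - eps p) * i - p * v) + i - 2 * v ≤ -(c * (|v| + i))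

end

end Pool.Agent.H75.UX
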