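import Pool.Agent.H75.UX.Lev

set_option autoImplicit false
set_option linter.unusedSectionVars false

/-!
# One class of blocks with its own compression factor
-/

open Finset ComplexConjugate MeasureTheory

open scoped Classical

namespace Pool.Agent.H75.UX

open Pool.Agent.H75.MT (ee ee_add ee_norm ee_conj ee_int ee_zero)
open Pool.Agent.H75.UB

noncomputable section

local instance msLayA : MeasureSpace UnitAddCircle := ⟨AddCircle.haarAddCircle⟩

variable {d : ℕ}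

/-- the target of a layer -/
def TTl (d : ℕ) (p r ε₁ : ℝ) (n j : ℕ) : ℝ :=
  (2 : ℝ) ^ (ε₁ * j / 2) * (2 : ℝ) ^ (-(r - 1 / p) * j) * Un d p r n

lemma TTl_pos (d : ℕ) (p r ε₁ : ℝ) (n j : ℕ) : 0 < TTl d p r ε₁ n j := by
  unfold TTl
  have := Un_pos d p r n
  positivity

lemma rpow_sq {b : ℝ} (hb : 0 < b) (x : ℝ) : (b ^ x) ^ 2 = b ^ (2 * x) := by
  rw [mul_comm, Real.rpow_mul hb.le]
  norm_num

lemma two_aux1 (P α β γ δ q : ℝ) (hP : 0 < P) :
    (2 : ℝ) ^ α * P * ((2 : ℝ) ^ β * ((2 : ℝ) ^ γ / P ^ q)) ^ 2 / (2 : ℝ) ^ δ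
      = (2 : ℝ) ^ (α + 2 * β + 2 * γ - δ) * P ^ (1 - 2 * q) := by
  have h2 : (0 : ℝ) < 2 := by norm_num
  rw [Real.rpow_sub h2, Real.rpow_add h2, Real.rpow_add h2, Real.rpow_sub hP, Real.rpow_one,
    mul_pow, div_pow, rpow_sq h2, rpow_sq h2, rpow_sq hP]
  ring

lemma two_aux2 (P α β γ q : ℝ) (hP : 0 < P) :
    ((2 : ℝ) ^ α * (2 : ℝ) ^ β * ((2 : ℝ) ^ γ * P ^ q)) ^ 2
      = (2 : ℝ) ^ (2 * α + 2 * β + 2 * γ) * P ^ (2 * q) := by
  have h2 : (0 : ℝ) < 2 := by norm_num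
  rw [Real.rpow_add h2, Real.rpow_add h2, mul_pow, mul_pow, mul_pow, rpow_sq h2, rpow_sq h2,
    rpow_sq h2, rpow_sq hP]
  ring

lemma TTl_sq (d : ℕ) (p r ε₁ : ℝ) (n j : ℕ) :
    (2 : ℝ) ^ ((1 + ε₁) * j) * ((n : ℝ) + 1) ^ (d - 1) * (H0 d p r n (n + j)) ^ 2 / 2 ^ (n + j)
      = (TTl d p r ε₁ n j) ^ 2 := by
  unfold TTl Un H0
  set P : ℝ := ((n : ℝ) + 1) ^ (d - 1) with hP
  have hP0 : 0 < P := by positivity
  have h2 : (0 : ℝ) < 2 := by norm_num
  have e1 : ((2 : ℝ) ^ (n + j)) = (2 : ℝ) ^ ((n : ℝ) + j) := by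
    rw [← Real.rpow_natCast]
    push_cast
    rfl
  have e2 : ((2 : ℝ) ^ n) = (2 : ℝ) ^ (n : ℝ) := (Real.rpow_natCast _ _).symm
  rw [e1, e2]
  simp only [← Real.rpow_mul h2.le]
  rw [Real.div_rpow (by positivity) hP0.le, ← Real.rpow_mul h2.le, two_aux1 _ _ _ _ _ _ hP0,
    two_aux2 _ _ _ _ _ hP0]
  congr 1
  · congr 1
    ring
  · congr 1
    ring

lemma fbox_TP (s : Fin d → ℕ) (Z : Finset (Fin d → ℕ)) (a : (Fin d → ℕ) → ℂ) :
    TP d (#(Box s)) (fbox s Z a) := ⟨Box s, fun k => Ac s Z a k, le_rfl, fun _ => rfl⟩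

/-- one class of blocks -/
lemma class_one (d : ℕ) (hd : 2 ≤ d) (p r : ℝ) (hp1 : 1 < p) (hp2 : p < 2) (hC : ClassSt d)
    (c : ℝ) (hc : 0 < c) (hc1 : c ≤ 1) (hexp : ∀ (v i : ℝ), 0 ≤ i →
      -2 * max 0 ((1 - eps p) * i - p * v) + i - 2 * v ≤ -(c * (|v| + i)))
    (Cb : ℝ) (hCb : 1 ≤ Cb) (ε₁ : ℝ) (hε₁ : 0 < ε₁) :
    ∃ (K A : ℝ) (n0 : ℕ), 0 < K ∧ 0 < A ∧ ∀ n, n0 ≤ n → ∀ (j i : ℕ) (v : ℝ),
    (2 : ℝ) ^ (A * (|v| + i + j + 1)) ≤ n →
    ∀ (S' : Finset (Fin d → ℕ)) (Z : (Fin d → ℕ) → Finset (Fin d → ℕ))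
      (a : (Fin d → ℕ) → (Fin d → ℕ) → ℂ), S' ⊆ Sl d (n + j) →
    (∀ s ∈ S', Z s ⊆ grid s ∧ #(Z s) ≤ 2 ^ (i + 1) ∧
      ∀ ζ ∈ Z s, ‖a s ζ‖ ≤ (2 : ℝ) ^ (-v) * H0 d p r n (n + j)) →
    (#S' : ℝ) ≤ Cb * ((n : ℝ) + 1) ^ (d - 1) * (2 : ℝ) ^ (-(max 0 ((1 - eps p) * i - p * v))) →
    ∃ (M : ℕ) (G : (Fin d → ℝ) → ℂ),
      (M : ℝ) ≤ K * ((j : ℝ) + 1) * ((((n : ℝ) + 1) ^ (d - 1) * 2 ^ n) / (2 : ℝ) ^ (ε₁ * j))
        * ((|v| + i + 1) ^ 1 * (2 : ℝ) ^ (-(c / 2 * (|v| + i)))) ∧ TP d M G ∧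
      ∀ x, ‖∑ s ∈ S', fbox s (Z s) (a s) x - G x‖ ≤ K * ((j : ℝ) + 1) ^ 5
        * TTl d p r ε₁ n j * ((|v| + i + 1) ^ 5 * (2 : ℝ) ^ (-(c / 4 * (|v| + i)))) := by
  obtain ⟨C0, hC0, hcls⟩ := hC
  have hC0r : (1 : ℝ) ≤ C0 := by exact_mod_cast hC0
  obtain ⟨bC, hbC⟩ : ∃ bC : ℕ, Cb ≤ 2 ^ bC := by
    obtain ⟨n, hn⟩ := pow_unbounded_of_one_lt Cb (by norm_num : (1 : ℝ) < 2)
    exact ⟨n, hn.le⟩
  set E : ℝ := 4 + ε₁ with hE
  have hE0 : 0 < E := by linarith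
  refine ⟨Cb * 2 ^ d + C0 * E * Cb + C0 * E ^ 5 * (2 * Real.sqrt Cb), C0 * E + 2,
    2 ^ (32 * (d * (bC + d))) + 1, by positivity, by positivity, ?_⟩
  intro n hn j i v hsmall S' Z a hS' hZ hcard
  set P : ℝ := ((n : ℝ) + 1) ^ (d - 1) with hP
  have hP0 : 0 < P := by positivity
  set x : ℝ := |v| + i with hx
  have hx0 : 0 ≤ x := by positivity
  have hj0 : (0 : ℝ) ≤ j := Nat.cast_nonneg _
  have hi0 : (0 : ℝ) ≤ i := Nat.cast_nonneg _
  have hv0 : 0 ≤ |v| := abs_nonneg v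
  set m : ℝ := max 0 ((1 - eps p) * i - p * v) with hm
  have hm0 : 0 ≤ m := le_max_left _ _
  set y : ℝ := (2 : ℝ) ^ ((1 + ε₁) * j - m + c / 2 * x) with hy
  have hy0 : 0 < y := by positivity
  have hexp' : -2 * m + i - 2 * v ≤ -(c * x) := hexp v i hi0
  -- the count in terms of `y`
  have hcount : P * (2 : ℝ) ^ (-m) * 2 ^ (n + j) / y
      = (P * 2 ^ n) / (2 : ℝ) ^ (ε₁ * j) * (2 : ℝ) ^ (-(c / 2 * x)) := by
    rw [hy, pow_add]
    have e1 : (2 : ℝ) ^ ((1 + ε₁) * j - m + c / 2 * x)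
        = (2 : ℝ) ^ j * (2 : ℝ) ^ (ε₁ * j) * (2 : ℝ) ^ (-m) / (2 : ℝ) ^ (-(c / 2 * x)) := by
      rw [← Real.rpow_natCast 2 j, ← Real.rpow_add (by norm_num), ← Real.rpow_add (by norm_num),
        ← Real.rpow_sub (by norm_num)]
      congr 1
      ring
    rw [e1]
    have h1 : (0 : ℝ) < (2 : ℝ) ^ (-m) := by positivity
    have h2 : (0 : ℝ) < (2 : ℝ) ^ (ε₁ * j) := by positivity
    have h3 : (0 : ℝ) < (2 : ℝ) ^ (-(c / 2 * x)) := by positivity
    field_simp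
  set W : ℝ := (P * 2 ^ n) / (2 : ℝ) ^ (ε₁ * j) * (2 : ℝ) ^ (-(c / 2 * x)) with hW
  have hW0 : 0 < W := by positivity
  have hT0 := TTl_pos d p r ε₁ n j
  by_cases hy1 : y ≤ 1
  · -- full blocks
    refine ⟨∑ s ∈ S', #(Box s), fun z => ∑ s ∈ S', fbox s (Z s) (a s) z, ?_,
      TP.sum S' _ _ (fun s _ => fbox_TP s (Z s) (a s)), ?_⟩
    · push_cast
      have h1 : ∀ s ∈ S', (#(Box s) : ℝ) ≤ 2 ^ (n + j) * 2 ^ d := by
        intro s hs
        have := Box_card s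
        rw [mem_Sl.1 (hS' hs), pow_add] at this
        exact_mod_cast this
      have h2 : (∑ s ∈ S', (#(Box s) : ℝ)) ≤ #S' * (2 ^ (n + j) * 2 ^ d) := by
        refine (Finset.sum_le_sum h1).trans (le_of_eq ?_)
        rw [Finset.sum_const, nsmul_eq_mul]
      have h3 : P * (2 : ℝ) ^ (-m) * 2 ^ (n + j) ≤ W := by
        rw [← hcount]
        rw [le_div_iff₀ hy0]
        have : 0 ≤ P * (2 : ℝ) ^ (-m) * 2 ^ (n + j) := by positivity
        nlinarith
      have h4 : (1 : ℝ) ≤ ((j : ℝ) + 1) * (x + 1) := by nlinarith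
      calc (∑ s ∈ S', (#(Box s) : ℝ)) ≤ #S' * (2 ^ (n + j) * 2 ^ d) := h2
        _ ≤ (Cb * P * (2 : ℝ) ^ (-m)) * (2 ^ (n + j) * 2 ^ d) := by gcongr
        _ = Cb * 2 ^ d * (P * (2 : ℝ) ^ (-m) * 2 ^ (n + j)) := by ring
        _ ≤ Cb * 2 ^ d * W * 1 := by
            rw [mul_one]
            gcongr
        _ ≤ (Cb * 2 ^ d + C0 * E * Cb + C0 * E ^ 5 * (2 * Real.sqrt Cb)) * W
            * (((j : ℝ) + 1) * (x + 1)) := by
            refine mul_le_mul (mul_le_mul_of_nonneg_right ?_ hW0.le) h4 zero_le_one (by positivity)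
            have : 0 ≤ C0 * E * Cb + C0 * E ^ 5 * (2 * Real.sqrt Cb) := by positivity
            linarith
        _ = _ := by
            rw [hW]
            ring
    · intro z
      rw [sub_self, norm_zero]
      positivity
  · -- thinning
    push Not at hy1
    obtain ⟨g, hg1, hg2⟩ := exists_g y hy1.le
    have hg0 : 1 ≤ g := by
      rcases Nat.eq_zero_or_pos g with h | h
      · rw [h, pow_zero] at hg1
        linarith
      · exact h
    -- the size of `g`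
    have hgr : (g : ℝ) ≤ 1 + (1 + ε₁) * j + c / 2 * x := by
      have h1 : (2 : ℝ) ^ (g : ℝ) ≤ (2 : ℝ) ^ (1 + (1 + ε₁) * j + c / 2 * x) := by
        rw [Real.rpow_natCast]
        refine hg2.trans ?_
        have h2 : 2 * y = (2 : ℝ) ^ (1 + ((1 + ε₁) * j - m + c / 2 * x)) := by
          rw [hy, Real.rpow_add (by norm_num : (0 : ℝ) < 2) 1, Real.rpow_one]
        rw [h2]
        exact Real.rpow_le_rpow_of_exponent_le (by norm_num) (by linarith)
      exact (Real.rpow_le_rpow_left_iff (by norm_num : (1 : ℝ) < 2)).1 h1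
    have hig : (i : ℝ) + 1 + g + 1 ≤ E * (x + j + 1) := by
      have h1 : (i : ℝ) ≤ x := by rw [hx]; linarith
      have h2 : c / 2 * x ≤ x := by nlinarith
      rw [hE]
      nlinarith
    have hig2 : (i : ℝ) + 1 + g + 1 ≤ E * ((x + 1) * ((j : ℝ) + 1)) := by
      refine hig.trans (mul_le_mul_of_nonneg_left ?_ hE0.le)
      nlinarith
    set β : ℝ := Cb * P * (2 : ℝ) ^ (-m) with hβ
    have hβ0 : 0 < β := by positivity
    set e : ℝ := ((2 : ℝ) ^ (-v) * H0 d p r n (n + j)) ^ 2 / 2 ^ (n + j + 2 * d) with he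
    have hH0 := H0_pos d p r n (n + j)
    have he0 : 0 < e := by positivity
    -- smallness
    have hn1 : 1 ≤ n := by
      have : 0 < 2 ^ (32 * (d * (bC + d))) := by positivity
      omega
    have hmx : m ≤ 2 * x := by
      rw [hm]
      refine max_le (by linarith) ?_
      have h1 : -v ≤ |v| := neg_le_abs v
      have h2 : 0 < eps p := eps_pos hp2
      have h3 : (1 - eps p) * i ≤ i := by nlinarith
      have h4 : -(p * v) ≤ 2 * |v| := by
        have : -(p * v) = p * (-v) := by ring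
        rw [this]
        nlinarith
      rw [hx]
      linarith
    have hPn : (n : ℝ) ≤ P := by
      rw [hP]
      obtain ⟨k, hk⟩ : ∃ k, d - 1 = k + 1 := ⟨d - 2, by omega⟩
      rw [hk, pow_succ]
      have h1 : (1 : ℝ) ≤ ((n : ℝ) + 1) ^ k := one_le_pow₀ (by
        have : (0 : ℝ) ≤ n := Nat.cast_nonneg _
        linarith)
      have h2 : (0 : ℝ) ≤ n := Nat.cast_nonneg _
      nlinarith
    have hs1 : (2 : ℝ) ^ (C0 * (i + 1 + g + 1)) ≤ β := by
      have h1 : (2 : ℝ) ^ (C0 * (i + 1 + g + 1)) = (2 : ℝ) ^ ((C0 : ℝ) * ((i : ℝ) + 1 + g + 1)) := by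
        rw [← Real.rpow_natCast]
        push_cast
        rfl
      rw [h1]
      have h2 : (C0 : ℝ) * ((i : ℝ) + 1 + g + 1) ≤ (C0 * E + 2) * (x + j + 1) - 2 * x := by
        have h3 : (C0 : ℝ) * ((i : ℝ) + 1 + g + 1) ≤ C0 * (E * (x + j + 1)) :=
          mul_le_mul_of_nonneg_left hig (by linarith)
        have h4 : (C0 * E + 2) * (x + j + 1) - 2 * x = C0 * (E * (x + j + 1)) + 2 * (j + 1) := by
          ring
        linarith
      calc (2 : ℝ) ^ ((C0 : ℝ) * ((i : ℝ) + 1 + g + 1))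
          ≤ (2 : ℝ) ^ ((C0 * E + 2) * (x + j + 1) - 2 * x) :=
            Real.rpow_le_rpow_of_exponent_le (by norm_num) h2
        _ = (2 : ℝ) ^ ((C0 * E + 2) * (x + j + 1)) * (2 : ℝ) ^ (-(2 * x)) := by
            rw [← Real.rpow_add (by norm_num)]
            congr 1
        _ ≤ n * (2 : ℝ) ^ (-m) := by
            refine mul_le_mul hsmall ?_ (by positivity) (Nat.cast_nonneg _)
            exact Real.rpow_le_rpow_of_exponent_le (by norm_num) (by linarith)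
        _ ≤ Cb * P * (2 : ℝ) ^ (-m) := by
            refine mul_le_mul_of_nonneg_right ?_ (by positivity)
            nlinarith
    have hlgn : n + 1 ≤ 2 ^ (lg n) := by
      have := lg_lo n
      omega
    have hs2 : β ≤ 2 ^ (bC + (d - 1) * lg n) := by
      rw [pow_add, mul_comm (d - 1) (lg n), pow_mul]
      have h1 : P ≤ ((2 : ℝ) ^ lg n) ^ (d - 1) := by
        rw [hP]
        refine pow_le_pow_left₀ (by positivity) ?_ _
        exact_mod_cast hlgn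
      have h2 : (2 : ℝ) ^ (-m) ≤ 1 := Real.rpow_le_one_of_one_le_of_nonpos (by norm_num) (by linarith)
      calc β = Cb * P * (2 : ℝ) ^ (-m) := rfl
        _ ≤ 2 ^ bC * ((2 : ℝ) ^ lg n) ^ (d - 1) * 1 := by gcongr
        _ = _ := mul_one _
    have hs3 : d * (bC + (d - 1) * lg n + C0 * (i + 1 + g + 1)) ≤ n + j := by
      have h1 : C0 * (i + 1 + g + 1) ≤ lg n := by
        have h2 : (2 : ℝ) ^ (C0 * (i + 1 + g + 1)) ≤ (2 : ℝ) ^ (lg n) := by
          have h3 : (2 : ℝ) ^ (C0 * (i + 1 + g + 1))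
              = (2 : ℝ) ^ ((C0 : ℝ) * ((i : ℝ) + 1 + g + 1)) := by
            rw [← Real.rpow_natCast]
            push_cast
            rfl
          rw [h3]
          calc (2 : ℝ) ^ ((C0 : ℝ) * ((i : ℝ) + 1 + g + 1))
              ≤ (2 : ℝ) ^ ((C0 * E + 2) * (x + j + 1)) := by
                refine Real.rpow_le_rpow_of_exponent_le (by norm_num) ?_
                have h4 : (C0 : ℝ) * ((i : ℝ) + 1 + g + 1) ≤ C0 * (E * (x + j + 1)) :=
                  mul_le_mul_of_nonneg_left hig (by linarith)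
                nlinarith
            _ ≤ n := hsmall
            _ ≤ ((2 ^ (lg n) : ℕ) : ℝ) := by exact_mod_cast (by omega : n ≤ 2 ^ (lg n))
            _ = _ := by push_cast; rfl
        exact (Nat.pow_le_pow_iff_right (by norm_num : 1 < 2)).1 (by exact_mod_cast h2)
      have h2 := lg_small (d * (bC + d)) n (by omega)
      have h3 : 1 ≤ lg n := lg_one n
      have h4 : d * (bC + (d - 1) * lg n + C0 * (i + 1 + g + 1)) ≤ d * (bC + d) * lg n := by
        rw [mul_assoc]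
        refine Nat.mul_le_mul_left _ ?_
        have h5 : (d - 1) * lg n + lg n = d * lg n := by
          obtain ⟨k, hk⟩ : ∃ k, d = k + 1 := ⟨d - 1, by omega⟩
          rw [hk]
          simp only [Nat.add_sub_cancel]
          ring
        have h6 : bC ≤ bC * lg n := Nat.le_mul_of_pos_right _ h3
        calc bC + (d - 1) * lg n + C0 * (i + 1 + g + 1) ≤ bC * lg n + (d - 1) * lg n + lg n := by
              omega
          _ = bC * lg n + d * lg n := by rw [add_assoc, h5]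
          _ = _ := (add_mul _ _ _).symm
      omega
    obtain ⟨M, G, hM, hG, hErr⟩ := hcls (n + j) (i + 1) g (bC + (d - 1) * lg n) S' Z a e β hS' hg0
      he0 (by
        intro s hs
        obtain ⟨h1, h2, h3⟩ := hZ s hs
        refine ⟨h1, h2, fun ζ hζ => ?_⟩
        have h4 := h3 ζ hζ
        have h5 : (NT s : ℝ) = 2 ^ (n + j + 2 * d) := by
          rw [NT_eq, mem_Sl.1 (hS' hs)]
          push_cast
          rfl
        rw [h5, he, div_mul_cancel₀ _ (by positivity)]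
        exact pow_le_pow_left₀ (norm_nonneg _) h4 2) hcard hs1 hs2 hs3
    have hcast : (((i + 1 : ℕ) : ℝ) + g + 1) = (i : ℝ) + 1 + g + 1 := by
      push_cast
      ring
    rw [hcast] at hM hErr
    refine ⟨M, G, ?_, hG, ?_⟩
    · have h1 : β * 2 ^ (n + j) / 2 ^ g ≤ Cb * W := by
        rw [← hcount]
        calc β * 2 ^ (n + j) / 2 ^ g ≤ β * 2 ^ (n + j) / y := by gcongr
          _ = _ := by
              rw [hβ]
              ring
      calc (M : ℝ) ≤ C0 * ((i : ℝ) + 1 + g + 1) * (β * 2 ^ (n + j) / 2 ^ g) := hM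
        _ ≤ C0 * (E * ((x + 1) * ((j : ℝ) + 1))) * (Cb * W) := by gcongr
        _ = (C0 * E * Cb) * (W * (((j : ℝ) + 1) * (x + 1))) := by ring
        _ ≤ (Cb * 2 ^ d + C0 * E * Cb + C0 * E ^ 5 * (2 * Real.sqrt Cb))
            * (W * (((j : ℝ) + 1) * (x + 1))) := by
            refine mul_le_mul_of_nonneg_right ?_ (by positivity)
            have h2 : 0 ≤ Cb * 2 ^ d := by positivity
            have h3 : 0 ≤ C0 * E ^ 5 * (2 * Real.sqrt Cb) := by positivity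
            linarith
        _ = _ := by
            rw [hW]
            ring
    · intro z
      have hq : Real.sqrt (2 ^ g * β * 2 ^ (i + 1) * e)
          ≤ 2 * Real.sqrt Cb * (TTl d p r ε₁ n j * (2 : ℝ) ^ (-(c / 4 * x))) := by
        refine Real.sqrt_le_iff.2 ⟨by positivity, ?_⟩
        rw [mul_pow, mul_pow, Real.sq_sqrt (by linarith), mul_pow, ← TTl_sq d p r ε₁]
        have h1 : ((2 : ℝ) ^ (-(c / 4 * x))) ^ 2 = (2 : ℝ) ^ (-(c / 2 * x)) := by
          rw [← Real.rpow_natCast, ← Real.rpow_mul (by norm_num)]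
          congr 1
          push_cast
          ring
        rw [h1, he, pow_add 2 (n + j) (2 * d)]
        set H := H0 d p r n (n + j) with hH
        have h2 : (2 : ℝ) ^ g * β * 2 ^ (i + 1) * (((2 : ℝ) ^ (-v) * H) ^ 2
            / (2 ^ (n + j) * 2 ^ (2 * d)))
            ≤ (2 * y) * β * 2 ^ (i + 1) * (((2 : ℝ) ^ (-v) * H) ^ 2 / (2 ^ (n + j) * 1)) := by
          have : (1 : ℝ) ≤ 2 ^ (2 * d) := one_le_pow₀ (by norm_num)
          gcongr
        refine h2.trans ?_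
        have h3 : (2 * y) * β * 2 ^ (i + 1) * (((2 : ℝ) ^ (-v) * H) ^ 2 / (2 ^ (n + j) * 1))
            = 4 * Cb * (P * H ^ 2 / 2 ^ (n + j))
              * (y * (2 : ℝ) ^ (-m) * 2 ^ i * ((2 : ℝ) ^ (-v)) ^ 2) := by
          rw [hβ, pow_succ]
          ring
        have h4 : y * (2 : ℝ) ^ (-m) * 2 ^ i * ((2 : ℝ) ^ (-v)) ^ 2
            ≤ (2 : ℝ) ^ ((1 + ε₁) * j) * (2 : ℝ) ^ (-(c / 2 * x)) := by
          have e1 : y * (2 : ℝ) ^ (-m) * 2 ^ i * ((2 : ℝ) ^ (-v)) ^ 2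
              = (2 : ℝ) ^ (((1 + ε₁) * j - m + c / 2 * x) + -m + i + (-v) * 2) := by
            rw [Real.rpow_add (by norm_num), Real.rpow_add (by norm_num),
              Real.rpow_add (by norm_num), Real.rpow_mul (by norm_num) (-v) 2,
              Real.rpow_natCast 2 i]
            congr 1
            rw [← Real.rpow_natCast]
            norm_num
          rw [e1, ← Real.rpow_add (by norm_num)]
          refine Real.rpow_le_rpow_of_exponent_le (by norm_num) ?_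
          linarith
        rw [h3]
        calc 4 * Cb * (P * H ^ 2 / 2 ^ (n + j))
              * (y * (2 : ℝ) ^ (-m) * 2 ^ i * ((2 : ℝ) ^ (-v)) ^ 2)
            ≤ 4 * Cb * (P * H ^ 2 / 2 ^ (n + j))
              * ((2 : ℝ) ^ ((1 + ε₁) * j) * (2 : ℝ) ^ (-(c / 2 * x))) := by gcongr
          _ = _ := by ring
      calc ‖∑ s ∈ S', fbox s (Z s) (a s) z - G z‖
          ≤ C0 * ((i : ℝ) + 1 + g + 1) ^ 5 * Real.sqrt (2 ^ g * β * 2 ^ (i + 1) * e) := hErr z
        _ ≤ C0 * (E * ((x + 1) * ((j : ℝ) + 1))) ^ 5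
            * (2 * Real.sqrt Cb * (TTl d p r ε₁ n j * (2 : ℝ) ^ (-(c / 4 * x)))) := by gcongr
        _ = (C0 * E ^ 5 * (2 * Real.sqrt Cb)) * (((j : ℝ) + 1) ^ 5 * TTl d p r ε₁ n j
            * ((x + 1) ^ 5 * (2 : ℝ) ^ (-(c / 4 * x)))) := by ring
        _ ≤ (Cb * 2 ^ d + C0 * E * Cb + C0 * E ^ 5 * (2 * Real.sqrt Cb))
            * (((j : ℝ) + 1) ^ 5 * TTl d p r ε₁ n j
            * ((x + 1) ^ 5 * (2 : ℝ) ^ (-(c / 4 * x)))) := by
            refine mul_le_mul_of_nonneg_right ?_ (by positivity)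
            have h2 : 0 ≤ Cb * 2 ^ d := by positivity
            have h3 : 0 ≤ C0 * E * Cb := by positivity
            linarith
        _ = _ := by ring

end

end Pool.Agent.H75.UX
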