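import Pool.Agent.H75.UX.Lay0

set_option autoImplicit false
set_option linter.unusedSectionVars false

/-!
# The number of blocks with a large level set
-/

open Finset ComplexConjugate MeasureTheory

open scoped Classical

namespace Pool.Agent.H75.UX

open Pool.Agent.H75.MT (ee ee_add ee_norm ee_conj ee_int ee_zero)
open Pool.Agent.H75.UB

noncomputable section

local instance msLev : MeasureSpace UnitAddCircle := ⟨AddCircle.haarAddCircle⟩

variable {d : ℕ}

lemma eps_pos {p : ℝ} (hp2 : p < 2) : 0 < eps p := by unfold eps; linarith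

lemma eps_lt {p : ℝ} (hp1 : 1 < p) : eps p < 1 / 8 := by unfold eps; linarith

lemma H0_pos (d : ℕ) (p r : ℝ) (n l : ℕ) : 0 < H0 d p r n l := by unfold H0; positivity

lemma H0_rpow (d : ℕ) (p r : ℝ) (hp : 0 < p) (n l : ℕ) :
    (H0 d p r n l) ^ p = (((2 : ℝ) ^ l) ^ (-r)) ^ p * (2 ^ l / ((n : ℝ) + 1) ^ (d - 1)) := by
  unfold H0
  rw [Real.mul_rpow (by positivity) (by positivity), ← Real.rpow_mul (by positivity) (1 / p) p,
    one_div, inv_mul_cancel₀ hp.ne', Real.rpow_one]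

theorem levcount (d : ℕ) (p r : ℝ) (hp1 : 1 < p) (hp2 : p < 2) (hRT : RTSt d p r) :
    LevSt d p r := by
  have hp0 : 0 < p := by linarith
  obtain ⟨C, hC, h⟩ := hRT (eps p) (eps_pos hp2) (by linarith [eps_lt hp1])
  refine ⟨C, hC, ?_⟩
  intro φ hφ hφ1 n l v i
  set t : ℝ := (2 : ℝ) ^ (-v) * H0 d p r n l with ht
  have ht0 : 0 < t := mul_pos (by positivity) (H0_pos d p r n l)
  have h1 := h φ hφ hφ1 l (fun s => lev (bc r φ) s t) t ht0
    (fun s _ => Finset.filter_subset _ _) (fun s _ ζ hζ => (mem_filter.1 hζ).2)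
  set F := (Sl d l).filter (fun s => 2 ^ i ≤ #(lev (bc r φ) s t)) with hF
  set P : ℝ := ((n : ℝ) + 1) ^ (d - 1) with hP
  have hP0 : 0 < P := by positivity
  have h2 : (#F : ℝ) * (2 : ℝ) ^ ((1 - eps p) * i)
      ≤ ∑ s ∈ Sl d l, (#(lev (bc r φ) s t) : ℝ) ^ (1 - eps p) := by
    calc (#F : ℝ) * (2 : ℝ) ^ ((1 - eps p) * i) = ∑ s ∈ F, (2 : ℝ) ^ ((1 - eps p) * i) := by
          rw [Finset.sum_const, nsmul_eq_mul]
      _ ≤ ∑ s ∈ F, (#(lev (bc r φ) s t) : ℝ) ^ (1 - eps p) := by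
          refine Finset.sum_le_sum (fun s hs => ?_)
          have e1 : ((2 : ℝ) ^ i) ≤ #(lev (bc r φ) s t) := by exact_mod_cast (mem_filter.1 hs).2
          have e2 : (2 : ℝ) ^ ((1 - eps p) * i) = ((2 : ℝ) ^ i) ^ (1 - eps p) := by
            rw [mul_comm, Real.rpow_mul (by norm_num), Real.rpow_natCast]
          rw [e2]
          exact Real.rpow_le_rpow (by positivity) e1 (by linarith [eps_lt hp1])
      _ ≤ _ := Finset.sum_le_sum_of_subset_of_nonneg (Finset.filter_subset _ _)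
          (fun s _ _ => by positivity)
  have ht1 : t ^ p = (2 : ℝ) ^ (-(p * v)) * ((((2 : ℝ) ^ l) ^ (-r)) ^ p * (2 ^ l / P)) := by
    rw [ht, Real.mul_rpow (by positivity) (H0_pos d p r n l).le, H0_rpow d p r hp0,
      ← Real.rpow_mul (by norm_num)]
    congr 2
    ring
  set R : ℝ := (((2 : ℝ) ^ l) ^ (-r)) ^ p with hR
  have hR0 : 0 < R := by positivity
  have h3 : (#F : ℝ) * (2 : ℝ) ^ ((1 - eps p) * i) * ((2 : ℝ) ^ (-(p * v)) * (R * (2 ^ l / P)))
      ≤ C * 2 ^ l * R := by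
    rw [← ht1]
    exact (mul_le_mul_of_nonneg_right h2 (by positivity)).trans h1
  have e4 : (2 : ℝ) ^ (p * v - (1 - eps p) * i)
      = 1 / ((2 : ℝ) ^ ((1 - eps p) * i) * (2 : ℝ) ^ (-(p * v))) := by
    rw [← Real.rpow_add (by norm_num), one_div, ← Real.rpow_neg (by norm_num)]
    congr 1
    ring
  rw [e4]
  have hA : 0 < (2 : ℝ) ^ ((1 - eps p) * i) := by positivity
  have hB : 0 < (2 : ℝ) ^ (-(p * v)) := by positivity
  set A : ℝ := (2 : ℝ) ^ ((1 - eps p) * (i : ℝ))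
  set B : ℝ := (2 : ℝ) ^ (-(p * v))
  have hN : (0 : ℝ) < 2 ^ l := by positivity
  rw [mul_one_div, le_div_iff₀ (by positivity)]
  have h4 : (#F : ℝ) * (A * B) * (R * 2 ^ l / P) ≤ C * P * (R * 2 ^ l / P) := by
    calc (#F : ℝ) * (A * B) * (R * 2 ^ l / P) = (#F : ℝ) * A * (B * (R * (2 ^ l / P))) := by ring
      _ ≤ C * 2 ^ l * R := h3
      _ = _ := by field_simp
  exact le_of_mul_le_mul_right h4 (by positivity)

end

end Pool.Agent.H75.UX
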