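import Pool.Agent.H75.UX.Defs

set_option autoImplicit false
set_option linter.unusedSectionVars false

/-! [M3] Passing from a grid to all points with a slowly varying weight. -/

open Finset ComplexConjugate

namespace Pool.Agent.H75.UX

open Pool.Agent.H75.MT (ee ee_add ee_norm ee_conj ee_int ee_zero)
open Pool.Agent.H75.UB

noncomputable section

/-- normalised Dirichlet sum -/
def locsamp_dW (w : ℕ) (t : ℝ) : ℂ := (∑ c ∈ range w, ee (c * t)) / w

/-- one-dimensional kernel -/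
def locsamp_V (D w μ : ℕ) (t : ℝ) : ℂ :=
  (∑ c ∈ Finset.Ico (-(2 * D : ℤ)) (2 * D), ee (c * t)) * (locsamp_dW w t) ^ μ

lemma locsamp_dW_le (w : ℕ) (hw : 0 < w) (t : ℝ) : ‖locsamp_dW w t‖ ≤ 1 := by
  unfold locsamp_dW
  rw [norm_div, Complex.norm_natCast, div_le_one (by exact_mod_cast hw)]
  exact dir_le w t

lemma locsamp_nu_nonneg (t : ℝ) : 0 ≤ nu t := abs_nonneg _

lemma locsamp_dW_nu (w : ℕ) (hw : 0 < w) (t : ℝ) : ‖locsamp_dW w t‖ * (1 + w * nu t) ≤ 2 := by
  have hw' : (0 : ℝ) < w := by exact_mod_cast hw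
  have h1 := locsamp_dW_le w hw t
  have h0 : 0 ≤ nu t := locsamp_nu_nonneg t
  by_cases h : w * nu t ≤ 1
  · nlinarith [norm_nonneg (locsamp_dW w t)]
  · rw [not_le] at h
    have hn : 0 < nu t := by
      by_contra h2
      have h3 : nu t = 0 := le_antisymm (not_lt.1 h2) h0
      rw [h3, mul_zero] at h
      linarith
    have h2 := dir_far w t (nu t) hn (fun m => round_le t m)
    have h3 : ‖locsamp_dW w t‖ ≤ 1 / (2 * nu t) / w := by
      unfold locsamp_dW
      rw [norm_div, Complex.norm_natCast]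
      exact div_le_div_of_nonneg_right h2 hw'.le
    have h4 : 1 / (2 * nu t) / w * (1 + w * nu t) ≤ 2 := by
      rw [div_div, div_mul_eq_mul_div, div_le_iff₀ (by positivity)]
      nlinarith
    exact (mul_le_mul_of_nonneg_right h3 (by positivity)).trans h4

lemma locsamp_range (w : ℕ) (f : ℤ → ℂ) :
    ∑ k ∈ Finset.Ico (0 : ℤ) w, f k = ∑ c ∈ range w, f (c : ℤ) := by
  symm
  refine Finset.sum_nbij' (fun c => (c : ℤ)) (fun k => k.toNat) ?_ ?_ ?_ ?_ ?_
  · intro c hc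
    rw [mem_range] at hc
    rw [mem_Ico]
    omega
  · intro k hk
    rw [mem_Ico] at hk
    rw [mem_range]
    omega
  · intro c _
    simp
  · intro k hk
    rw [mem_Ico] at hk
    omega
  · intro c _
    rfl

lemma locsamp_bessel (w M : ℕ) (hw : 0 < w) (hM : w ≤ M) (t : ℝ) :
    ∑ ξ ∈ range M, ‖locsamp_dW w (t - (ξ : ℝ) / M)‖ ^ 2 ≤ M / w := by
  have hw' : (0 : ℝ) < w := by exact_mod_cast hw
  have h := Pool.Agent.H75.MT.bessel_one M (by omega) 0 w 1 (by push_cast; omega) t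
  have e1 : ∀ ξ ∈ range M, ‖locsamp_dW w (t - (ξ : ℝ) / M)‖ ^ 2
      = ‖∑ k ∈ Finset.Ico (0 : ℤ) w, ee (k * (t - (ξ : ℝ) / M))‖ ^ 2 / (w : ℝ) ^ 2 := by
    intro ξ _
    unfold locsamp_dW
    rw [locsamp_range w (fun k => ee (k * (t - (ξ : ℝ) / M))), norm_div, Complex.norm_natCast,
      div_pow]
    simp only [Int.cast_natCast]
  rw [Finset.sum_congr rfl e1, ← Finset.sum_div,
    Finset.sum_range (fun ξ => ‖∑ k ∈ Finset.Ico (0 : ℤ) w, ee (k * (t - (ξ : ℝ) / M))‖ ^ 2)]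
  have e2 : ((((w : ℤ) - 0).toNat : ℕ) : ℝ) = w := by simp
  rw [e2] at h
  rw [div_le_div_iff₀ (by positivity) hw']
  have h3 : (∑ p : Fin M, ‖∑ k ∈ Finset.Ico (0 : ℤ) w, ee (k * (t - ((p : ℕ) : ℝ) / M))‖ ^ 2) * w
      ≤ (M * (1 : ℕ) * w) * w := mul_le_mul_of_nonneg_right h hw'.le
  refine h3.trans (le_of_eq ?_)
  push_cast
  ring

/-- reproducing property in one variable -/
lemma locsamp_repr (D w μ : ℕ) (hD : 0 < D) (hw : 0 < w) (hμ : μ * (w - 1) < D) (k : ℤ)
    (hk : |k| ≤ D) (x : ℝ) :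
    ∑ ξ ∈ range (4 * D), ee (k * ((ξ : ℝ) / (4 * D : ℕ)))
      * locsamp_V D w μ (x - (ξ : ℝ) / (4 * D : ℕ)) = ((4 * D : ℕ) : ℂ) * ee (k * x) := by
  have hk' := abs_le.1 hk
  have hwC : (w : ℂ) ≠ 0 := by exact_mod_cast hw.ne'
  have h1 : ∀ t : ℝ, locsamp_V D w μ t
      = (1 / (w : ℂ) ^ μ) * ∑ u : Fin μ → Fin w, ∑ c ∈ Finset.Ico (-(2 * D : ℤ)) (2 * D),
        ee (((c + tot u : ℤ) : ℝ) * t) := by
    intro t
    unfold locsamp_V locsamp_dW
    rw [div_pow, ← sum_tot, Finset.sum_mul]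
    rw [Finset.sum_comm, Finset.mul_sum]
    refine Finset.sum_congr rfl (fun c _ => ?_)
    rw [mul_div_assoc', Finset.mul_sum, Finset.mul_sum, Finset.sum_div]
    refine Finset.sum_congr rfl (fun u _ => ?_)
    rw [← ee_add]
    have : (c : ℝ) * t + (tot u : ℝ) * t = ((c + tot u : ℤ) : ℝ) * t := by
      push_cast
      ring
    rw [this]
    ring
  have h2 : ∀ ξ ∈ range (4 * D), ee (k * ((ξ : ℝ) / (4 * D : ℕ)))
      * locsamp_V D w μ (x - (ξ : ℝ) / (4 * D : ℕ))
      = (1 / (w : ℂ) ^ μ) * ∑ u : Fin μ → Fin w, ∑ c ∈ Finset.Ico (-(2 * D : ℤ)) (2 * D),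
        ee (((c + tot u : ℤ) : ℝ) * x) * ee (((k - (c + tot u) : ℤ) : ℝ)
          * ((ξ : ℝ) / (4 * D : ℕ))) := by
    intro ξ _
    rw [h1, mul_left_comm, Finset.mul_sum]
    congr 1
    refine Finset.sum_congr rfl (fun u _ => ?_)
    rw [Finset.mul_sum]
    refine Finset.sum_congr rfl (fun c _ => ?_)
    rw [← ee_add, ← ee_add]
    congr 1
    push_cast
    ring
  rw [Finset.sum_congr rfl h2, ← Finset.mul_sum, Finset.sum_comm]
  have h3 : ∀ u : Fin μ → Fin w, ∑ ξ ∈ range (4 * D), ∑ c ∈ Finset.Ico (-(2 * D : ℤ)) (2 * D),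
        ee (((c + tot u : ℤ) : ℝ) * x) * ee (((k - (c + tot u) : ℤ) : ℝ)
          * ((ξ : ℝ) / (4 * D : ℕ))) = ((4 * D : ℕ) : ℂ) * ee (k * x) := by
    intro u
    have hu := tot_le hw u
    rw [Finset.sum_comm]
    have h4 : ∀ c ∈ Finset.Ico (-(2 * D : ℤ)) (2 * D), ∑ ξ ∈ range (4 * D),
        ee (((c + tot u : ℤ) : ℝ) * x) * ee (((k - (c + tot u) : ℤ) : ℝ)
          * ((ξ : ℝ) / (4 * D : ℕ)))
        = if c = k - tot u then ((4 * D : ℕ) : ℂ) * ee (k * x) else 0 := by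
      intro c hc
      rw [mem_Ico] at hc
      rw [← Finset.mul_sum, sum_ee' (4 * D) (by omega)]
      by_cases hck : c = k - tot u
      · have h5 : k - (c + tot u) = 0 := by omega
        rw [if_pos hck, h5, if_pos (dvd_zero _)]
        have h6 : ((c + tot u : ℤ) : ℝ) = k := by
          rw [hck]
          push_cast
          ring
        rw [h6]
        ring
      · rw [if_neg hck, if_neg, mul_zero]
        intro h5
        have h6 : k - (c + tot u) = 0 := by
          refine Int.eq_zero_of_abs_lt_dvd h5 ?_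
          rw [abs_lt]
          push_cast
          constructor <;> omega
        exact hck (by omega)
    rw [Finset.sum_congr rfl h4, Finset.sum_ite_eq', if_pos]
    rw [mem_Ico]
    constructor <;> omega
  rw [Finset.sum_congr rfl (fun u _ => h3 u), Finset.sum_const, Finset.card_univ,
    Fintype.card_fun, Fintype.card_fin, Fintype.card_fin, nsmul_eq_mul]
  push_cast
  field_simp

/-- `L₁` bound in one variable -/
lemma locsamp_l1 (D w n : ℕ) (hD : 0 < D) (hw : 0 < w) (hM : w ≤ 4 * D) (x : ℝ) :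
    ∑ ξ ∈ range (4 * D), ‖locsamp_V D w (2 + n) (x - (ξ : ℝ) / (4 * D : ℕ))‖
      * (1 + w * nu (x - (ξ : ℝ) / (4 * D : ℕ))) ^ n
      ≤ ((4 * D : ℕ) : ℝ) * (2 ^ n * (((4 * D : ℕ) : ℝ) / w)) := by
  have hb := locsamp_bessel w (4 * D) hw hM x
  have h1 : ∀ t : ℝ, ‖locsamp_V D w (2 + n) t‖ * (1 + w * nu t) ^ n
      ≤ ((4 * D : ℕ) : ℝ) * (2 ^ n * ‖locsamp_dW w t‖ ^ 2) := by
    intro t
    unfold locsamp_V
    rw [norm_mul, norm_pow, pow_add]
    have a1 : ‖∑ c ∈ Finset.Ico (-(2 * D : ℤ)) (2 * D), ee (c * t)‖ ≤ ((4 * D : ℕ) : ℝ) := by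
      refine (norm_sum_le _ _).trans ?_
      simp only [ee_norm, Finset.sum_const, Int.card_Ico, nsmul_eq_mul, mul_one]
      have : ((2 * (D : ℤ)) - -(2 * (D : ℤ))).toNat = 4 * D := by omega
      rw [this]
    have a2 : (‖locsamp_dW w t‖ * (1 + w * nu t)) ^ n ≤ 2 ^ n := by
      refine pow_le_pow_left₀ ?_ (locsamp_dW_nu w hw t) n
      exact mul_nonneg (norm_nonneg _) (by
        have := locsamp_nu_nonneg t
        positivity)
    have a3 : 0 ≤ ‖locsamp_dW w t‖ ^ 2 := by positivity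
    have a4 : 0 ≤ (‖locsamp_dW w t‖ * (1 + w * nu t)) ^ n := by
      apply pow_nonneg
      exact mul_nonneg (norm_nonneg _) (by
        have := locsamp_nu_nonneg t
        positivity)
    calc ‖∑ c ∈ Finset.Ico (-(2 * D : ℤ)) (2 * D), ee (c * t)‖
          * (‖locsamp_dW w t‖ ^ 2 * ‖locsamp_dW w t‖ ^ n) * (1 + w * nu t) ^ n
        = ‖∑ c ∈ Finset.Ico (-(2 * D : ℤ)) (2 * D), ee (c * t)‖
          * ((‖locsamp_dW w t‖ * (1 + w * nu t)) ^ n * ‖locsamp_dW w t‖ ^ 2) := by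
          rw [mul_pow]
          ring
      _ ≤ ((4 * D : ℕ) : ℝ) * (2 ^ n * ‖locsamp_dW w t‖ ^ 2) :=
          mul_le_mul a1 (mul_le_mul_of_nonneg_right a2 a3) (mul_nonneg a4 a3) (by positivity)
  refine (Finset.sum_le_sum (fun ξ _ => h1 _)).trans ?_
  rw [← Finset.mul_sum, ← Finset.mul_sum]
  exact mul_le_mul_of_nonneg_left (mul_le_mul_of_nonneg_left hb (by positivity)) (by positivity)

/-- from the grid to all points -/
theorem locsamp (d : ℕ) : LocSampSt d := by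
  refine ⟨512 * 8 ^ d, by positivity, ?_⟩
  intro s i0 J hJ ι T c κ hκ ω A hA hω hslow hgrid x
  -- parameters of the kernels
  set D : Fin d → ℕ := fun i => 2 ^ (s i + 1) with hDdef
  set w : Fin d → ℕ := fun i => if i = i0 then 2 ^ (s i0 - 2) else 2 ^ (s i) with hwdef
  set n : Fin d → ℕ := fun i => if i = i0 then 4 else 0 with hndef
  have hMD : ∀ i, 2 ^ (s i + 3) = 4 * D i := by
    intro i
    simp only [hDdef]
    rw [pow_add, pow_add]
    norm_num
    ring
  have hDpos : ∀ i, 0 < D i := fun i => by simp only [hDdef]; positivity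
  have hwpos : ∀ i, 0 < w i := fun i => by
    simp only [hwdef]
    split_ifs <;> positivity
  have hw0 : w i0 = 2 ^ (s i0 - 2) := by simp [hwdef]
  have hn0 : n i0 = 4 := by simp [hndef]
  have hD0 : D i0 = 8 * w i0 := by
    rw [hw0]
    simp only [hDdef]
    obtain ⟨m, hm⟩ : ∃ m, s i0 = m + 2 := ⟨s i0 - 2, by omega⟩
    rw [hm]
    simp only [Nat.add_sub_cancel]
    rw [pow_add, pow_add]
    ring
  have hw1 : ∀ i, i ≠ i0 → D i = 2 * w i ∧ n i = 0 := by
    intro i hi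
    simp only [hDdef, hwdef, hndef, if_neg hi]
    rw [pow_succ]
    exact ⟨by ring, trivial⟩
  have hcond : ∀ i, (2 + n i) * (w i - 1) < D i := by
    intro i
    have hw' := hwpos i
    by_cases hi : i = i0
    · subst hi
      rw [hn0, hD0]
      omega
    · obtain ⟨e1, e2⟩ := hw1 i hi
      rw [e2, e1]
      omega
  have hwM : ∀ i, w i ≤ 4 * D i := by
    intro i
    by_cases hi : i = i0
    · subst hi
      rw [hD0]
      omega
    · rw [(hw1 i hi).1]
      omega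
  set V : Fin d → ℕ → ℂ := fun i ξ =>
    locsamp_V (D i) (w i) (2 + n i) (x i - (ξ : ℝ) / (4 * D i : ℕ)) with hV
  set G : Finset (Fin d → ℕ) := Fintype.piFinset (fun i => range (4 * D i)) with hG
  set Mp : ℝ := ∏ i, ((4 * D i : ℕ) : ℝ) with hMp
  have hMpos : 0 < Mp := Finset.prod_pos (fun i _ => by have := hDpos i; positivity)
  -- reproducing formula
  have hrep : ∀ j ∈ T, (∑ ξ ∈ G, ex (κ j) (gp (fun i => 4 * D i) ξ) * ∏ i, V i (ξ i))
      = (Mp : ℂ) * ex (κ j) x := by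
    intro j hj
    have h1 : ∀ y : Fin d → ℝ, ex (κ j) y = ∏ i, ee ((κ j i : ℝ) * y i) := by
      intro y
      unfold ex
      have h2 : ∀ S : Finset (Fin d), ee (∑ i ∈ S, (κ j i : ℝ) * y i)
          = ∏ i ∈ S, ee ((κ j i : ℝ) * y i) := by
        intro S
        induction S using Finset.induction_on with
        | empty => simp [ee_zero]
        | insert a S ha ih => rw [Finset.sum_insert ha, Finset.prod_insert ha, ee_add, ih]
      exact h2 univ
    have h3 : ∀ ξ ∈ G, ex (κ j) (gp (fun i => 4 * D i) ξ) * ∏ i, V i (ξ i)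
        = ∏ i, (ee ((κ j i : ℝ) * ((ξ i : ℝ) / (4 * D i : ℕ))) * V i (ξ i)) := by
      intro ξ _
      rw [h1, ← Finset.prod_mul_distrib]
      rfl
    rw [Finset.sum_congr rfl h3, hG,
      ← Finset.prod_univ_sum (fun i => range (4 * D i))
        (fun i a => ee ((κ j i : ℝ) * ((a : ℝ) / (4 * D i : ℕ))) * V i a)]
    rw [h1 x, hMp]
    push_cast
    rw [← Finset.prod_mul_distrib]
    refine Finset.prod_congr rfl (fun i _ => ?_)
    have := locsamp_repr (D i) (w i) (2 + n i) (hDpos i) (hwpos i) (hcond i) (κ j i)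
      (by
        have := hκ j hj i
        simp only [hDdef]
        push_cast
        exact this) (x i)
    simp only [hV]
    push_cast at this ⊢
    exact this
  have hsum : (Mp : ℂ) * ∑ j ∈ T, c j * ex (κ j) x
      = ∑ ξ ∈ G, (∑ j ∈ T, c j * ex (κ j) (gp (fun i => 4 * D i) ξ)) * ∏ i, V i (ξ i) := by
    have h1 : ∀ ξ ∈ G, (∑ j ∈ T, c j * ex (κ j) (gp (fun i => 4 * D i) ξ)) * ∏ i, V i (ξ i)
        = ∑ j ∈ T, c j * (ex (κ j) (gp (fun i => 4 * D i) ξ) * ∏ i, V i (ξ i)) := by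
      intro ξ _
      rw [Finset.sum_mul]
      exact Finset.sum_congr rfl (fun j _ => by ring)
    rw [Finset.sum_congr rfl h1, Finset.sum_comm, Finset.mul_sum]
    refine Finset.sum_congr rfl (fun j hj => ?_)
    rw [← Finset.mul_sum, hrep j hj]
    ring
  -- bound of one term
  have hgp : (fun i => 2 ^ (s i + 3)) = fun i => 4 * D i := funext hMD
  have hterm : ∀ ξ ∈ G, ‖(∑ j ∈ T, c j * ex (κ j) (gp (fun i => 4 * D i) ξ)) * ∏ i, V i (ξ i)‖
      ≤ A * ω (x i0) * ∏ i, (‖V i (ξ i)‖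
        * (1 + w i * nu (x i - (ξ i : ℝ) / (4 * D i : ℕ))) ^ (n i)) := by
    intro ξ hξ
    rw [hG, Fintype.mem_piFinset] at hξ
    have h1 := hgrid ξ (fun i => by
      have := hξ i
      rw [mem_range] at this
      rw [hMD]
      exact this)
    rw [hgp, hMD i0] at h1
    have h2 := hslow (x i0) ((ξ i0 : ℝ) / (4 * D i0 : ℕ))
    have h3 : (1 + 2 ^ J * nu (x i0 - (ξ i0 : ℝ) / (4 * D i0 : ℕ))) ^ 4
        ≤ ∏ i, (1 + w i * nu (x i - (ξ i : ℝ) / (4 * D i : ℕ))) ^ (n i) := by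
      have h4 : ∏ i, (1 + w i * nu (x i - (ξ i : ℝ) / (4 * D i : ℕ))) ^ (n i)
          = (1 + w i0 * nu (x i0 - (ξ i0 : ℝ) / (4 * D i0 : ℕ))) ^ (n i0) := by
        refine Finset.prod_eq_single i0 ?_ ?_
        · intro i _ hi
          rw [(hw1 i hi).2, pow_zero]
        · intro h
          exact absurd (mem_univ i0) h
      rw [h4, hn0]
      have h5 := locsamp_nu_nonneg (x i0 - (ξ i0 : ℝ) / (4 * D i0 : ℕ))
      have h6 : ((2 : ℝ) ^ J) ≤ w i0 := by
        rw [hw0]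
        push_cast
        exact pow_le_pow_right₀ (by norm_num) (by omega)
      refine pow_le_pow_left₀ (by positivity) ?_ 4
      have := mul_le_mul_of_nonneg_right h6 h5
      linarith
    rw [norm_mul, norm_prod, Finset.prod_mul_distrib]
    have h7 : ω ((ξ i0 : ℝ) / (4 * D i0 : ℕ))
        ≤ (∏ i, (1 + w i * nu (x i - (ξ i : ℝ) / (4 * D i : ℕ))) ^ (n i)) * ω (x i0) :=
      h2.trans (mul_le_mul_of_nonneg_right h3 (hω _))
    have h8 : 0 ≤ ∏ i, ‖V i (ξ i)‖ := Finset.prod_nonneg (fun i _ => norm_nonneg _)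
    calc ‖∑ j ∈ T, c j * ex (κ j) (gp (fun i => 4 * D i) ξ)‖ * ∏ i, ‖V i (ξ i)‖
        ≤ (A * ((∏ i, (1 + w i * nu (x i - (ξ i : ℝ) / (4 * D i : ℕ))) ^ (n i)) * ω (x i0)))
          * ∏ i, ‖V i (ξ i)‖ :=
          mul_le_mul_of_nonneg_right (h1.trans (mul_le_mul_of_nonneg_left h7 hA)) h8
      _ = _ := by ring
  -- summation
  have hnorm : Mp * ‖∑ j ∈ T, c j * ex (κ j) x‖
      ≤ A * ω (x i0) * ∏ i, (((4 * D i : ℕ) : ℝ) * (2 ^ (n i) * (((4 * D i : ℕ) : ℝ) / w i))) := by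
    have h1 : Mp * ‖∑ j ∈ T, c j * ex (κ j) x‖ = ‖(Mp : ℂ) * ∑ j ∈ T, c j * ex (κ j) x‖ := by
      rw [norm_mul, Complex.norm_real, Real.norm_of_nonneg hMpos.le]
    rw [h1, hsum]
    refine (norm_sum_le _ _).trans ((Finset.sum_le_sum hterm).trans ?_)
    rw [← Finset.mul_sum, hG, ← Finset.prod_univ_sum (fun i => range (4 * D i))
      (fun i a => ‖V i a‖ * (1 + w i * nu (x i - (a : ℝ) / (4 * D i : ℕ))) ^ (n i))]
    refine mul_le_mul_of_nonneg_left ?_ (mul_nonneg hA (hω _))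
    refine Finset.prod_le_prod (fun i _ => ?_) (fun i _ => ?_)
    · refine Finset.sum_nonneg (fun a _ => mul_nonneg (norm_nonneg _) (pow_nonneg ?_ _))
      have := locsamp_nu_nonneg (x i - (a : ℝ) / (4 * D i : ℕ))
      positivity
    · exact locsamp_l1 (D i) (w i) (n i) (hDpos i) (hwpos i) (hwM i) (x i)
  rw [Finset.prod_mul_distrib, ← hMp] at hnorm
  have hprod : ∏ i, (2 ^ (n i) * (((4 * D i : ℕ) : ℝ) / w i)) ≤ 512 * 8 ^ d := by
    have h1 : ∀ i ∈ (univ : Finset (Fin d)), (2 : ℝ) ^ (n i) * (((4 * D i : ℕ) : ℝ) / w i)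
        ≤ (if i = i0 then 512 else 1) * 8 := by
      intro i _
      have hw' : (0 : ℝ) < w i := by exact_mod_cast hwpos i
      by_cases hi : i = i0
      · subst hi
        rw [if_pos rfl, hn0, hD0]
        push_cast
        have : (4 * (8 * (w i : ℝ))) / w i = 32 := by
          field_simp
          norm_num
        rw [this]
        norm_num
      · rw [if_neg hi, (hw1 i hi).2, (hw1 i hi).1]
        push_cast
        have : (4 * (2 * (w i : ℝ))) / w i = 8 := by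
          field_simp
          norm_num
        rw [this]
        norm_num
    refine (Finset.prod_le_prod (fun i _ => by positivity) h1).trans ?_
    rw [Finset.prod_mul_distrib, Finset.prod_const, Finset.card_univ, Fintype.card_fin]
    refine mul_le_mul_of_nonneg_right (le_of_eq ?_) (by positivity)
    rw [Finset.prod_ite_eq']
    simp
  have hfin : Mp * ‖∑ j ∈ T, c j * ex (κ j) x‖ ≤ Mp * (512 * 8 ^ d * A * ω (x i0)) := by
    refine hnorm.trans ?_
    have h1 : A * ω (x i0) * (Mp * ∏ i, ((2 : ℝ) ^ (n i) * (((4 * D i : ℕ) : ℝ) / w i)))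
        ≤ A * ω (x i0) * (Mp * (512 * 8 ^ d)) :=
      mul_le_mul_of_nonneg_left (mul_le_mul_of_nonneg_left hprod hMpos.le)
        (mul_nonneg hA (hω _))
    refine h1.trans (le_of_eq ?_)
    ring
  exact le_of_mul_le_mul_left hfin hMpos

end

end Pool.Agent.H75.UX
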