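import Pool.Agent.H75.UX.Defs

set_option autoImplicit false
set_option linter.unusedSectionVars false

/-! One layer of blocks, arbitrary parts of the blocks (module [M10]). -/

open Finset ComplexConjugate MeasureTheory UnitAddTorus

open scoped Classical

namespace Pool.Agent.H75.UX

open Pool.Agent.H75.MT (ee ee_add ee_norm ee_conj ee_int ee_zero)
open Pool.Agent.H75.UB

noncomputable section

local instance msLossy : MeasureSpace UnitAddCircle := ⟨AddCircle.haarAddCircle⟩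

local instance ahLossy : Measure.IsAddHaarMeasure (volume : Measure UnitAddCircle) :=
  inferInstanceAs (Measure.IsAddHaarMeasure AddCircle.haarAddCircle)

local instance pmLossy : IsProbabilityMeasure (volume : Measure UnitAddCircle) :=
  inferInstanceAs (IsProbabilityMeasure AddCircle.haarAddCircle)

variable {d : ℕ}

/-- the energy of a part of a block -/
def lossy_ew (b : (Fin d → ℤ) → ℂ) (W : (Fin d → ℕ) → Finset (Fin d → ℕ)) (s : Fin d → ℕ) : ℝ :=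
  Real.sqrt ((∑ ζ ∈ W s, ‖fa b s ζ‖ ^ 2) / NT s)

lemma lossy_ew_nonneg (b : (Fin d → ℤ) → ℂ) (W : (Fin d → ℕ) → Finset (Fin d → ℕ))
    (s : Fin d → ℕ) : 0 ≤ lossy_ew b W s := Real.sqrt_nonneg _

lemma lossy_ew_sq (b : (Fin d → ℤ) → ℂ) (W : (Fin d → ℕ) → Finset (Fin d → ℕ))
    (s : Fin d → ℕ) : (∑ ζ ∈ W s, ‖fa b s ζ‖ ^ 2) / NT s = lossy_ew b W s ^ 2 := by
  unfold lossy_ew
  rw [Real.sq_sqrt]
  exact div_nonneg (Finset.sum_nonneg (fun _ _ => by positivity)) (Nat.cast_nonneg _)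

lemma lossy_full (l : ℕ) (b : (Fin d → ℤ) → ℂ) (W : (Fin d → ℕ) → Finset (Fin d → ℕ))
    (B ρ : ℝ) (hB : 0 < B) (hρ : 0 < ρ)
    (H : Finset (Fin d → ℕ)) (hH : H ⊆ Sl d l) (hsum : ∑ s ∈ H, lossy_ew b W s ≤ B)
    (hy : ∀ s ∈ H, ρ * B < lossy_ew b W s) :
    ∃ N : ℕ, (N : ℝ) ≤ 2 ^ d * (2 ^ l / ρ) ∧
      TP d N (fun x => ∑ s ∈ H, fbox s (W s) (fa b s) x) := by
  refine ⟨∑ s ∈ H, #(Box s), ?_, TP.sum H (fun s => #(Box s)) _ (fun s _ => ?_)⟩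
  · have h1 : ((∑ s ∈ H, #(Box s) : ℕ) : ℝ)
        ≤ ∑ s ∈ H, (2 : ℝ) ^ (l + d) * (lossy_ew b W s / (ρ * B)) := by
      push_cast
      refine Finset.sum_le_sum (fun s hs => ?_)
      have e1 := Box_card s
      rw [mem_Sl.1 (hH hs)] at e1
      have e2 : ((#(Box s) : ℕ) : ℝ) ≤ 2 ^ (l + d) := by exact_mod_cast e1
      have e3 : 1 ≤ lossy_ew b W s / (ρ * B) := by
        rw [le_div_iff₀ (by positivity), one_mul]
        exact (hy s hs).le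
      have e4 : (0 : ℝ) < 2 ^ (l + d) := by positivity
      nlinarith
    refine h1.trans ?_
    rw [← Finset.mul_sum, ← Finset.sum_div]
    calc (2 : ℝ) ^ (l + d) * ((∑ s ∈ H, lossy_ew b W s) / (ρ * B))
        ≤ 2 ^ (l + d) * (B / (ρ * B)) := by
          gcongr
      _ = _ := by
          rw [pow_add]
          field_simp
  · exact ⟨Box s, Ac s (W s) (fa b s), le_rfl, fun x => rfl⟩

/-- the concentrated part of the heavy blocks of a layer -/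
lemma lossy_heavy (hd : 0 < d) (l : ℕ) (b : (Fin d → ℤ) → ℂ)
    (W : (Fin d → ℕ) → Finset (Fin d → ℕ)) (B ρ : ℝ) (hB : 0 < B) (hρ : 0 < ρ)
    (L0 L1 L3 Lp : ℕ) (H : Finset (Fin d → ℕ)) (hH : H ⊆ Sl d l) (hsum : ∑ s ∈ H, lossy_ew b W s ≤ B)
    (hheavy : ∀ s ∈ H, B / 2 ^ L1 ≤ lossy_ew b W s) (hy : ∀ s ∈ H, lossy_ew b W s ≤ ρ * B)
    (Z : (Fin d → ℕ) → Finset (Fin d → ℕ)) (hZ : ∀ s ∈ H, Z s ⊆ W s)
    (hW : ∀ s ∈ H, W s ⊆ grid s)
    (hZc : ∀ s ∈ H, #(Z s) ≤ 2 ^ L3) (hρ2 : ρ ≤ 2 ^ L0) (hcard : #(Sl d l) ≤ 2 ^ Lp)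
    (hbig : d * (pm L0 L1 L3 Lp + pJ L0 L1 L3) ≤ l) :
    ∃ (N : ℕ) (G : (Fin d → ℝ) → ℂ), (N : ℝ) ≤ ((pJ L0 L1 L3 : ℝ) + 1) * (((L3 : ℝ) + 1)
        * (2 * ((pm L0 L1 L3 Lp : ℝ) + 1) ^ 2 * 2 ^ (d + 1) * (2 ^ l / ρ))) ∧ TP d N G ∧
      ∀ x, ‖∑ s ∈ H, fbox s (Z s) (fa b s) x - G x‖ ≤ ((pJ L0 L1 L3 : ℝ) + 1)
        * (((L3 : ℝ) + 1) * E1 d (Real.sqrt (512 * ((pJ L0 L1 L3 : ℝ) + 9) * ρ) * B)
          (pJ L0 L1 L3) (pL d L0 L1 L3 Lp)) := by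
  set Jm := pJ L0 L1 L3 with hJm
  set m := pm L0 L1 L3 Lp with hm
  set L := pL d L0 L1 L3 Lp with hL
  set x0 := L3 + 2 * L1 + L0 + 9 with hx0
  set τ := Real.sqrt (512 * ((Jm : ℝ) + 9) * ρ) * B with hτd
  have hJ9 : ((Jm : ℝ) + 9) < 2 ^ (x0 + 10) := by
    have := pJ_lt L0 L1 L3
    rw [← hJm, ← hx0] at this
    exact_mod_cast this
  have hJp : (2 : ℝ) ^ Jm = 2 ^ x0 * 2 ^ (x0 + 10) := by
    have := pJ_pow L0 L1 L3
    rw [← hJm, ← hx0] at this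
    exact_mod_cast this
  have hτ : 0 < τ := by
    rw [hτd]
    positivity
  have hτ2 : τ ^ 2 = 512 * ((Jm : ℝ) + 9) * ρ * B ^ 2 := by
    rw [hτd, mul_pow, Real.sq_sqrt (by positivity)]
  have hβ : ∀ s ∈ H, 0 < lossy_ew b W s := by
    intro s hs
    have := hheavy s hs
    have h2 : 0 < B / 2 ^ L1 := by positivity
    linarith
  have hgex : ∀ s : {s // s ∈ H}, ∃ g : ℕ, ρ * B / lossy_ew b W s.1 ≤ 2 ^ g
      ∧ (2 : ℝ) ^ g ≤ 2 * (ρ * B / lossy_ew b W s.1) := by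
    intro s
    refine exists_g _ ?_
    rw [le_div_iff₀ (hβ s.1 s.2), one_mul]
    exact hy s.1 s.2
  choose g hg1 hg2 using hgex
  choose i0 hi0 using fun s : {s // s ∈ H} => exists_big hd s.1
  have hsb : ∀ s : {s // s ∈ H}, m + Jm ≤ s.1 (i0 s) := by
    intro s
    have h1 := hi0 s
    rw [mem_Sl.1 (hH s.2)] at h1
    exact Nat.le_of_mul_le_mul_left (hbig.trans h1) hd
  have hgβ : ∀ s : {s // s ∈ H}, 2 ^ (g s) * lossy_ew b W s.1 ^ 2 ≤ 2 * ρ * B * lossy_ew b W s.1 := by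
    intro s
    have h1 := hβ s.1 s.2
    have h2 := hg2 s
    calc 2 ^ (g s) * lossy_ew b W s.1 ^ 2 ≤ (2 * (ρ * B / lossy_ew b W s.1)) * lossy_ew b W s.1 ^ 2 := by gcongr
      _ = 2 * ρ * B * lossy_ew b W s.1 := by field_simp
  have hsing : ∀ s : {s // s ∈ H}, lossy_ew b W s.1 ≤ B := fun s =>
    (Finset.single_le_sum (f := fun s => lossy_ew b W s) (fun s _ => lossy_ew_nonneg b W s) s.2).trans hsum
  have hgup : ∀ s : {s // s ∈ H}, (2 : ℝ) ^ (g s) ≤ 2 ^ (L0 + L1 + 1) := by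
    intro s
    refine (hg2 s).trans ?_
    have h1 := hβ s.1 s.2
    have h2 := hheavy s.1 s.2
    rw [div_le_iff₀ (by positivity)] at h2
    have h3 : ρ * B / lossy_ew b W s.1 ≤ 2 ^ L0 * 2 ^ L1 := by
      rw [div_le_iff₀ h1]
      calc ρ * B ≤ 2 ^ L0 * (lossy_ew b W s.1 * 2 ^ L1) := by gcongr
        _ = _ := by ring
    rw [pow_succ, pow_add]
    linarith
  have hg3 : ∀ s : {s // s ∈ H}, g s ≤ L0 + L1 + 1 := fun s =>
    (pow_le_pow_iff_right₀ (by norm_num : (1 : ℝ) < 2)).1 (hgup s)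
  have hFH : FH (fun s : {s // s ∈ H} => s.1) i0 g (fun s => Z s.1) (fun s => fa b s.1)
      (fun s => lossy_ew b W s.1) τ Jm m L (Lp + d + 7) L3 (Lp + 1) := by
    have hsum2 : 256 * ((Jm : ℝ) + 9) * ∑ i : {s // s ∈ H}, 2 ^ (g i) * (lossy_ew b W i.1) ^ 2
        ≤ τ ^ 2 := by
      have e1 : ∑ i : {s // s ∈ H}, 2 ^ (g i) * (lossy_ew b W i.1) ^ 2 ≤ 2 * ρ * B * B := by
        refine (Finset.sum_le_sum (fun s _ => hgβ s)).trans ?_
        rw [← Finset.mul_sum, Finset.univ_eq_attach, Finset.sum_attach H (fun s => lossy_ew b W s)]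
        gcongr
      rw [hτ2]
      calc _ ≤ 256 * ((Jm : ℝ) + 9) * (2 * ρ * B * B) := by gcongr
        _ = _ := by ring
    have hsing2 : ∀ s : {s // s ∈ H}, 256 * ((Jm : ℝ) + 9) * (2 ^ (g s) * lossy_ew b W s.1 ^ 2)
        ≤ τ ^ 2 := by
      intro s
      refine le_trans ?_ hsum2
      refine mul_le_mul_of_nonneg_left ?_ (by positivity)
      exact Finset.single_le_sum (f := fun s : {s // s ∈ H} => 2 ^ (g s) * lossy_ew b W s.1 ^ 2)
        (fun s _ => by positivity) (mem_univ s)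
    constructor
    · intro s
      constructor
      · intro ζ hζ
        exact mem_grid.1 (hW s.1 s.2 (hZ s.1 s.2 hζ))
      · exact hβ s.1 s.2
      · rw [← lossy_ew_sq]
        have hN0 : (0 : ℝ) < NT s.1 := by exact_mod_cast NT_pos s.1
        exact div_le_div_of_nonneg_right (Finset.sum_le_sum_of_subset_of_nonneg (hZ s.1 s.2)
          (fun _ _ _ => by positivity)) hN0.le
      · exact hZc s.1 s.2
      · exact hτ
      · exact hsing2 s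
      · have h64 : (1 : ℝ) ≤ 64 * 2 ^ (g s) * (Jm + 9) := by
          have : (1 : ℝ) ≤ 2 ^ (g s) := one_le_pow₀ (by norm_num)
          have h9 : (9 : ℝ) ≤ (Jm : ℝ) + 9 := by
            have : (0 : ℝ) ≤ Jm := Nat.cast_nonneg _
            linarith
          nlinarith
        obtain ⟨n, hn1, hn2⟩ := exists_nat_pow_near h64 (by norm_num : (1 : ℝ) < 2)
        refine ⟨n + 1, ?_, ?_, ?_⟩
        · have h1 : (2 : ℝ) ^ n < 2 ^ Jm := by
            refine lt_of_le_of_lt hn1 ?_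
            rw [hJp]
            calc 64 * 2 ^ (g s) * ((Jm : ℝ) + 9) ≤ 64 * 2 ^ (L0 + L1 + 1) * ((Jm : ℝ) + 9) := by
                  have := hgup s
                  gcongr
              _ ≤ 2 ^ x0 * ((Jm : ℝ) + 9) := by
                  have : (64 : ℝ) * 2 ^ (L0 + L1 + 1) ≤ 2 ^ x0 := by
                    have e1 : (64 : ℝ) = 2 ^ 6 := by norm_num
                    rw [e1, ← pow_add]
                    exact pow_le_pow_right₀ (by norm_num) (by omega)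
                  gcongr
              _ < 2 ^ x0 * 2 ^ (x0 + 10) := by
                  have : (0 : ℝ) < 2 ^ x0 := by positivity
                  exact mul_lt_mul_of_pos_left hJ9 this
          have := (pow_lt_pow_iff_right₀ (by norm_num : (1 : ℝ) < 2)).1 h1
          omega
        · exact_mod_cast hn2.le
        · have h1 : (2 : ℝ) ^ (n + 1) ≤ 2 * (64 * 2 ^ (g s) * (Jm + 9)) := by
            rw [pow_succ]
            linarith
          calc (2 : ℝ) ^ (n + 1) * (2 * lossy_ew b W s.1 ^ 2)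
              ≤ (2 * (64 * 2 ^ (g s) * (Jm + 9))) * (2 * lossy_ew b W s.1 ^ 2) := by gcongr
            _ = 256 * ((Jm : ℝ) + 9) * (2 ^ (g s) * lossy_ew b W s.1 ^ 2) := by ring
            _ ≤ τ ^ 2 := hsing2 s
      · rw [hτ2, hJp]
        have h1 := hheavy s.1 s.2
        have h2 := hβ s.1 s.2
        rw [div_le_iff₀ (by positivity)] at h1
        have h3 : B ^ 2 ≤ lossy_ew b W s.1 ^ 2 * (2 ^ L1) ^ 2 := by
          rw [← mul_pow]
          exact pow_le_pow_left₀ hB.le h1 2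
        calc 2 ^ L3 * (512 * ((Jm : ℝ) + 9) * ρ * B ^ 2)
            ≤ 2 ^ L3 * (512 * ((Jm : ℝ) + 9) * 2 ^ L0 * (lossy_ew b W s.1 ^ 2 * (2 ^ L1) ^ 2)) := by
              gcongr
          _ = 2 ^ x0 * ((Jm : ℝ) + 9) * lossy_ew b W s.1 ^ 2 := by
              rw [hx0, pow_add, pow_add, pow_add, mul_comm 2 L1, pow_mul]
              ring
          _ < 2 ^ x0 * 2 ^ (x0 + 10) * lossy_ew b W s.1 ^ 2 := by
              have : (0 : ℝ) < 2 ^ x0 := by positivity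
              have h4 : (0 : ℝ) < lossy_ew b W s.1 ^ 2 := by positivity
              exact mul_lt_mul_of_pos_right (mul_lt_mul_of_pos_left hJ9 this) h4
    · exact hτ
    · exact hsum2
    · intro s
      have h1 : m < 2 ^ m := Nat.lt_two_pow_self
      calc m * 2 ^ Jm ≤ 2 ^ m * 2 ^ Jm := Nat.mul_le_mul_right _ h1.le
        _ = 2 ^ (m + Jm) := (pow_add _ _ _).symm
        _ ≤ 2 ^ (s.1 (i0 s)) := Nat.pow_le_pow_right (by norm_num) (hsb s)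
    · intro s
      have h1 := hsb s
      have h2 := hg3 s
      have h3 : L0 + L1 + 1 ≤ m := by
        rw [hm]
        unfold pm pJ
        omega
      omega
    · rw [hm]
      unfold pm
      omega
    · rw [hL]
      unfold pL
      omega
    · rw [hL]
      unfold pL
      omega
    · have h1 : (d : ℝ) ≤ 2 ^ d := by exact_mod_cast (Nat.lt_two_pow_self (n := d)).le
      have h2 : (1 : ℝ) ≤ 2 ^ Lp := one_le_pow₀ (by norm_num)
      rw [div_le_iff₀ (by positivity), pow_add, pow_add]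
      have h3 : (2 : ℝ) ^ d ≤ 2 ^ Lp * 2 ^ d := by
        have : (0 : ℝ) ≤ 2 ^ d := by positivity
        nlinarith
      have h4 : (2 : ℝ) ^ 7 = 128 := by norm_num
      rw [h4]
      linarith
    · have h1 : (d : ℝ) ≤ 2 ^ d := by exact_mod_cast (Nat.lt_two_pow_self (n := d)).le
      have h2 : (Fintype.card {s // s ∈ H} : ℝ) ≤ 2 ^ Lp := by
        rw [Fintype.card_coe]
        exact_mod_cast (Finset.card_le_card hH).trans hcard
      have h3 : (0 : ℝ) < 2 ^ Lp := by positivity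
      have h4 : (0 : ℝ) < 2 ^ d := by positivity
      calc (Fintype.card {s // s ∈ H} : ℝ) * (1 / 2 ^ (Lp + 1) + 52 * d / 2 ^ (Lp + d + 7))
          ≤ 2 ^ Lp * (1 / 2 ^ (Lp + 1) + 52 * 2 ^ d / 2 ^ (Lp + d + 7)) := by gcongr
        _ = 1 / 2 + 52 / 128 := by
            rw [pow_succ, pow_add, pow_add]
            field_simp
            norm_num
        _ ≤ 1 := by norm_num
  obtain ⟨G, hG1, hG2⟩ := heavy hFH
  refine ⟨_, G, ?_, hG1, ?_⟩
  · have h1 : ∀ s : {s // s ∈ H}, ((MM (fun s : {s // s ∈ H} => s.1) g m s : ℕ) : ℝ)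
        ≤ 2 * ((m : ℝ) + 1) ^ 2 * 2 ^ (d + 1) * (2 ^ l / ρ) * (lossy_ew b W s.1 / B) := by
      intro s
      unfold MM
      rw [mem_Sl.1 (hH s.2)]
      have h2 : g s ≤ l + d + 1 := by
        have e1 := hsb s
        have e2 := hg3 s
        have e3 : s.1 (i0 s) ≤ ∑ i, s.1 i :=
          Finset.single_le_sum (fun _ _ => Nat.zero_le _) (mem_univ _)
        rw [mem_Sl.1 (hH s.2)] at e3
        have e4 : L0 + L1 + 1 ≤ m := by
          rw [hm]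
          unfold pm pJ
          omega
        omega
      have h3 : (2 : ℝ) ^ (l + d + 1 - g s) ≤ 2 ^ (d + 1) * (2 ^ l / ρ) * (lossy_ew b W s.1 / B) := by
        have e1 : (2 : ℝ) ^ (l + d + 1 - g s) * 2 ^ (g s) = 2 ^ (l + d + 1) := by
          rw [← pow_add, Nat.sub_add_cancel h2]
        have e2 := hg1 s
        have e3 := hβ s.1 s.2
        have e4 : (0 : ℝ) < 2 ^ (g s) := by positivity
        have e5 : 1 ≤ (2 : ℝ) ^ (g s) * (lossy_ew b W s.1 / (ρ * B)) := by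
          rw [div_le_iff₀ e3] at e2
          rw [← mul_div_assoc, le_div_iff₀ (by positivity)]
          linarith
        calc (2 : ℝ) ^ (l + d + 1 - g s)
            ≤ (2 : ℝ) ^ (l + d + 1 - g s) * (2 ^ (g s) * (lossy_ew b W s.1 / (ρ * B))) := by
              have : (0 : ℝ) ≤ 2 ^ (l + d + 1 - g s) := by positivity
              nlinarith
          _ = 2 ^ (l + d + 1) * (lossy_ew b W s.1 / (ρ * B)) := by rw [← mul_assoc, e1]
          _ = _ := by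
              rw [show l + d + 1 = l + (d + 1) by ring, pow_add]
              field_simp
      push_cast
      have h4 : (0 : ℝ) ≤ 2 * ((m : ℝ) + 1) ^ 2 := by positivity
      calc _ ≤ 2 * ((m : ℝ) + 1) ^ 2 * (2 ^ (d + 1) * (2 ^ l / ρ) * (lossy_ew b W s.1 / B)) :=
            mul_le_mul_of_nonneg_left h3 h4
        _ = _ := by ring
    have h2 : ((∑ s : {s // s ∈ H}, MM (fun s : {s // s ∈ H} => s.1) g m s : ℕ) : ℝ)
        ≤ 2 * ((m : ℝ) + 1) ^ 2 * 2 ^ (d + 1) * (2 ^ l / ρ) := by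
      push_cast
      refine (Finset.sum_le_sum (fun s _ => h1 s)).trans ?_
      rw [← Finset.mul_sum, ← Finset.sum_div, Finset.univ_eq_attach,
        Finset.sum_attach H (fun s => lossy_ew b W s)]
      have e1 : (∑ s ∈ H, lossy_ew b W s) / B ≤ 1 := (div_le_one hB).2 hsum
      calc _ ≤ 2 * ((m : ℝ) + 1) ^ 2 * 2 ^ (d + 1) * (2 ^ l / ρ) * 1 := by gcongr
        _ = _ := mul_one _
    push_cast
    push_cast at h2
    gcongr
  · intro x
    have h1 : ∑ s ∈ H, fbox s (Z s) (fa b s) x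
        = ∑ s : {s // s ∈ H}, fbox s.1 (Z s.1) (fa b s.1) x := by
      rw [Finset.univ_eq_attach, Finset.sum_attach H (fun s => fbox s (Z s) (fa b s) x)]
    rw [h1]
    exact hG2 x

theorem lossy_layer (hd : 0 < d) (l : ℕ) (b : (Fin d → ℤ) → ℂ)
    (W : (Fin d → ℕ) → Finset (Fin d → ℕ)) (hW : ∀ s ∈ Sl d l, W s ⊆ grid s) (B : ℝ) (hB : 0 < B)
    (hsum : ∑ s ∈ Sl d l, lossy_ew b W s ≤ B) (L0 L1 L3 Lp M : ℕ) (hM : 0 < M)
    (hL0 : (2 : ℝ) ^ l / M ≤ 2 ^ L0) (hLp : #(Sl d l) ≤ 2 ^ Lp)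
    (hZ : ∀ s ∈ Sl d l, ∃ Z ⊆ grid s, #Z ≤ 2 ^ L3
      ∧ (∑ ζ ∈ grid s \ Z, ‖fa b s ζ‖ ^ 2) / NT s ≤ (B / 2 ^ L1) ^ 2)
    (ell : ℝ) (hell : 0 < ell) (hell2 : Real.log (4 * ((26 * d * 2 ^ l : ℕ) : ℝ) ^ d) ≤ ell)
    (hell3 : (2 ^ Lp) ^ 2 * 2 ^ d * ell ≤ (2 ^ L1) ^ 2)
    (hbig : d * (pm L0 L1 L3 Lp + pJ L0 L1 L3) ≤ l) (Y : ℕ)
    (hY : pm L0 L1 L3 Lp + pL d L0 L1 L3 Lp + 1 ≤ Y) :
    ∃ G, TP d (2 ^ (d + 3) * Y ^ 4 * M) G ∧ ∀ x, ‖∑ s ∈ Sl d l, fbox s (W s) (fa b s) x - G x‖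
      ≤ 20000 * (Y : ℝ) ^ 7 * Real.sqrt (2 ^ l / M) * B := by
  have hM0 : (0 : ℝ) < M := by exact_mod_cast hM
  set ρ : ℝ := 2 ^ l / M with hρd
  have hρ : 0 < ρ := by positivity
  have hρM : (2 : ℝ) ^ l / ρ = M := by
    rw [hρd]
    field_simp
  set δ := B / 2 ^ L1 with hδd
  have hδ : 0 ≤ δ := by positivity
  have hZ' : ∀ s : Fin d → ℕ, ∃ Z : Finset (Fin d → ℕ), s ∈ Sl d l → (Z ⊆ W s ∧ #Z ≤ 2 ^ L3
      ∧ (∑ ζ ∈ W s \ Z, ‖fa b s ζ‖ ^ 2) / NT s ≤ δ ^ 2) := by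
    intro s
    by_cases hs : s ∈ Sl d l
    · obtain ⟨Z, h1, h2, h3⟩ := hZ s hs
      refine ⟨Z ∩ W s, fun _ => ⟨Finset.inter_subset_right, ?_, ?_⟩⟩
      · exact (Finset.card_le_card Finset.inter_subset_left).trans h2
      · refine le_trans ?_ h3
        refine div_le_div_of_nonneg_right ?_ (Nat.cast_nonneg _)
        refine Finset.sum_le_sum_of_subset_of_nonneg ?_ (fun _ _ _ => by positivity)
        intro ζ hζ
        rw [Finset.mem_sdiff, Finset.mem_inter] at hζ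
        rw [Finset.mem_sdiff]
        exact ⟨hW s hs hζ.1, fun h => hζ.2 ⟨h, hζ.1⟩⟩
    · exact ⟨∅, fun h => absurd h hs⟩
  choose Z hZZ using hZ'
  set H := (Sl d l).filter (fun s => δ ≤ lossy_ew b W s) with hH
  set Lt := (Sl d l).filter (fun s => ¬ δ ≤ lossy_ew b W s) with hLt
  set H1 := H.filter (fun s => ρ * B < lossy_ew b W s) with hH1
  set H2 := H.filter (fun s => ¬ ρ * B < lossy_ew b W s) with hH2
  have hHsub : H ⊆ Sl d l := Finset.filter_subset _ _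
  have hH1s : H1 ⊆ Sl d l := (Finset.filter_subset _ _).trans hHsub
  have hH2s : H2 ⊆ Sl d l := (Finset.filter_subset _ _).trans hHsub
  have hLts : Lt ⊆ Sl d l := Finset.filter_subset _ _
  have hsub : ∀ S ⊆ Sl d l, ∑ s ∈ S, lossy_ew b W s ≤ B := fun S hS =>
    (Finset.sum_le_sum_of_subset_of_nonneg hS (fun s _ _ => lossy_ew_nonneg b W s)).trans hsum
  obtain ⟨N1, hN1, hT1⟩ := lossy_full l b W B ρ hB hρ H1 hH1s (hsub H1 hH1s)
    (fun s hs => (mem_filter.1 hs).2)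
  obtain ⟨N2, G2, hN2, hT2, hE2⟩ := lossy_heavy hd l b W B ρ hB hρ L0 L1 L3 Lp H2 hH2s
    (hsub H2 hH2s) (fun s hs => (mem_filter.1 (mem_filter.1 hs).1).2)
    (fun s hs => not_lt.1 (mem_filter.1 hs).2) Z (fun s hs => (hZZ s (hH2s hs)).1)
    (fun s hs => hW s (hH2s hs)) (fun s hs => (hZZ s (hH2s hs)).2.1) hL0 hLp hbig
  have hdisj : Disjoint H2 Lt := by
    rw [Finset.disjoint_left]
    intro s h1 h2
    exact (mem_filter.1 h2).2 (mem_filter.1 (mem_filter.1 h1).1).2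
  set Z' : (Fin d → ℕ) → Finset (Fin d → ℕ) := fun s => if s ∈ H2 then Z s else ∅ with hZ'd
  have hZ'1 : ∀ s ∈ H2, Z' s = Z s := fun s hs => by rw [hZ'd]; simp only; rw [if_pos hs]
  have hZ'2 : ∀ s ∈ Lt, Z' s = ∅ := fun s hs => by
    rw [hZ'd]
    simp only
    rw [if_neg (fun h => (Finset.disjoint_left.1 hdisj) h hs)]
  set e : (Fin d → ℕ) → (Fin d → ℤ) → ℂ := fun s k => Ac s (W s \ Z' s) (fa b s) k with he
  have hTsub : H2 ∪ Lt ⊆ Sl d l := Finset.union_subset hH2s hLts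
  have hen : ∀ s ∈ H2 ∪ Lt, ∑ k ∈ Box s, ‖e s k‖ ^ 2 ≤ δ ^ 2 := by
    intro s hs
    rw [he]
    simp only
    refine (Ac_bessel s (W s \ Z' s) (Finset.sdiff_subset.trans (hW s (hTsub hs)))
      (fa b s)).trans ?_
    rcases Finset.mem_union.1 hs with h | h
    · rw [hZ'1 s h]
      exact (hZZ s (hH2s h)).2.2
    · rw [hZ'2 s h, Finset.sdiff_empty, lossy_ew_sq]
      exact pow_le_pow_left₀ (lossy_ew_nonneg b W s) (not_le.1 (mem_filter.1 h).2).le 2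
  have hl1 : ∑ s ∈ H2 ∪ Lt, ∑ k ∈ Box s, ‖e s k‖ ≤ 2 ^ Lp * (Real.sqrt (2 ^ (l + d)) * δ) := by
    have h1 : ∀ s ∈ H2 ∪ Lt, ∑ k ∈ Box s, ‖e s k‖ ≤ Real.sqrt (2 ^ (l + d)) * δ := by
      intro s hs
      have := box_l1 s (e s) δ hδ (hen s hs)
      rwa [mem_Sl.1 (hTsub hs)] at this
    refine (Finset.sum_le_sum h1).trans ?_
    rw [Finset.sum_const, nsmul_eq_mul]
    have h2 : ((#(H2 ∪ Lt) : ℕ) : ℝ) ≤ 2 ^ Lp := by
      exact_mod_cast (Finset.card_le_card hTsub).trans hLp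
    exact mul_le_mul_of_nonneg_right h2 (by positivity)
  obtain ⟨G3, hT3, hE3⟩ := rest hd (H2 ∪ Lt) l (by
    intro s hs i
    rw [← mem_Sl.1 (hTsub hs)]
    exact Finset.single_le_sum (fun _ _ => Nat.zero_le _) (mem_univ i)) e _ hl1 M hM ell hell hell2
  -- the parameters
  have hd1 : (1 : ℝ) ≤ d := by exact_mod_cast hd
  have hYr : ((pm L0 L1 L3 Lp : ℕ) : ℝ) + ((pL d L0 L1 L3 Lp : ℕ) : ℝ) + 1 ≤ Y := by
    exact_mod_cast hY
  have hLn : pL d L0 L1 L3 Lp = d * (Lp + d + 7) + 2 * pJ L0 L1 L3 + L3 + 1 := rfl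
  have hmn : pm L0 L1 L3 Lp = 2 * pJ L0 L1 L3 + L3 + (Lp + 1) := rfl
  have hJn : pJ L0 L1 L3 = 2 * (L3 + 2 * L1 + L0 + 9) + 10 := rfl
  have hdn : d ≤ d * (Lp + d + 7) := Nat.le_mul_of_pos_right d (by omega)
  set Jm := pJ L0 L1 L3 with hJm
  set m := pm L0 L1 L3 Lp with hm
  set L := pL d L0 L1 L3 Lp with hL
  have b1 : Jm + 9 ≤ Y := by omega
  have b2 : m + 1 ≤ Y := by omega
  have b3 : L3 + 1 ≤ Y := by omega
  have b4 : L + 6 ≤ Y := by omega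
  have b5 : d ≤ Y := by omega
  clear_value Jm m L
  have b1r : (Jm : ℝ) + 9 ≤ Y := by exact_mod_cast b1
  have b2r : (m : ℝ) + 1 ≤ Y := by exact_mod_cast b2
  have b3r : (L3 : ℝ) + 1 ≤ Y := by exact_mod_cast b3
  have hJ0 : (0 : ℝ) ≤ Jm := Nat.cast_nonneg _
  have hY9 : (9 : ℝ) ≤ Y := by linarith
  refine ⟨fun x => (∑ s ∈ H1, fbox s (W s) (fa b s) x) + G2 x + G3 x, ?_, ?_⟩
  · refine ((hT1.add hT2).add hT3).mono ?_
    have h1 : ((N1 + N2 + M : ℕ) : ℝ) ≤ ((2 ^ (d + 3) * Y ^ 4 * M : ℕ) : ℝ) := by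
      push_cast
      rw [hρM] at hN1 hN2
      refine count_aux d Y M N1 N2 hY9 hM0.le hN1 (hN2.trans ?_)
      gcongr
      linarith
    exact_mod_cast h1
  · intro x
    have h1 : ∑ s ∈ Sl d l, fbox s (W s) (fa b s) x = (∑ s ∈ H1, fbox s (W s) (fa b s) x)
        + (∑ s ∈ H2, fbox s (Z s) (fa b s) x)
        + ∑ s ∈ H2 ∪ Lt, ∑ k ∈ Box s, e s k * ex k x := by
      rw [← Finset.sum_filter_add_sum_filter_not (Sl d l) (fun s => δ ≤ lossy_ew b W s), ← hH, ← hLt,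
        ← Finset.sum_filter_add_sum_filter_not H (fun s => ρ * B < lossy_ew b W s), ← hH1, ← hH2,
        Finset.sum_union hdisj]
      have e1 : ∀ s ∈ H2, fbox s (W s) (fa b s) x
          = fbox s (Z s) (fa b s) x + ∑ k ∈ Box s, e s k * ex k x := by
        intro s hs
        rw [fbox_split s (W s) (Z s) (hZZ s (hH2s hs)).1, add_comm]
        congr 1
        rw [he]
        simp only [hZ'1 s hs]
        rfl
      have e2 : ∀ s ∈ Lt, fbox s (W s) (fa b s) x = ∑ k ∈ Box s, e s k * ex k x := by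
        intro s hs
        rw [he]
        simp only [hZ'2 s hs, Finset.sdiff_empty]
        rfl
      rw [Finset.sum_congr rfl e1, Finset.sum_congr rfl e2, Finset.sum_add_distrib]
      ring
    have h2 : ∑ s ∈ Sl d l, fbox s (W s) (fa b s) x
          - ((∑ s ∈ H1, fbox s (W s) (fa b s) x) + G2 x + G3 x)
        = (∑ s ∈ H2, fbox s (Z s) (fa b s) x - G2 x)
          + (∑ s ∈ H2 ∪ Lt, ∑ k ∈ Box s, e s k * ex k x - G3 x) := by
      rw [h1]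
      ring
    rw [h2]
    refine (norm_add_le _ _).trans ((add_le_add (hE2 x) (hE3 x)).trans ?_)
    have hsq : 0 ≤ Real.sqrt ρ := Real.sqrt_nonneg _
    have e3 : 16 * (2 ^ Lp * (Real.sqrt (2 ^ (l + d)) * δ)) * Real.sqrt (ell / M)
        ≤ 16 * (Real.sqrt ρ * B) := sample_aux l d M ell B Lp L1 hM0 hell hB hell3
    have e4 : Real.sqrt (512 * ((Jm : ℝ) + 9) * ρ) ≤ 32 * (Y : ℝ) * Real.sqrt ρ := by
      rw [Real.sqrt_mul (by positivity)]
      refine mul_le_mul_of_nonneg_right ?_ hsq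
      refine Real.sqrt_le_iff.2 ⟨by positivity, ?_⟩
      nlinarith
    have e5 : ((Jm : ℝ) + 1) * (((L3 : ℝ) + 1) * E1 d (Real.sqrt (512 * ((Jm : ℝ) + 9) * ρ) * B)
        Jm L) ≤ 15360 * (Y : ℝ) ^ 7 * (Real.sqrt ρ * B) :=
      err_aux d Jm L3 L Y (Real.sqrt ρ) B _ hsq hB.le b1 b3 b4 b5 e4 (Real.sqrt_nonneg _)
    have e6 : (1 : ℝ) ≤ (Y : ℝ) ^ 7 := one_le_pow₀ (by linarith)
    have e7 : 0 ≤ Real.sqrt ρ * B := by positivity
    calc _ ≤ 15360 * (Y : ℝ) ^ 7 * (Real.sqrt ρ * B) + 16 * (Real.sqrt ρ * B) := add_le_add e5 e3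
      _ = (15360 * (Y : ℝ) ^ 7 + 16) * (Real.sqrt ρ * B) := by ring
      _ ≤ (20000 * (Y : ℝ) ^ 7) * (Real.sqrt ρ * B) := by
          refine mul_le_mul_of_nonneg_right ?_ e7
          linarith
      _ = _ := by ring

/-- the sum of the parameters -/
def lossy_pE (d c0 c1 cr' ν Λ : ℕ) : ℕ :=
  let L1 := (d + 1) * Λ + (d + (2 + d * (5 + d)))
  let L3 := 2 * d + 2 * (d * (cr' + Λ) + ν * ((L1 + c1 * Λ) + d * (cr' + Λ)))
  pm (c0 * Λ) L1 L3 (d * Λ) + pL d (c0 * Λ) L1 L3 (d * Λ) + 1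

lemma lossy_pE_le (d c0 c1 cr' ν Λ : ℕ) (hΛ : 1 ≤ Λ) :
    lossy_pE d c0 c1 cr' ν Λ ≤ lossy_pE d c0 c1 cr' ν 1 * Λ := by
  have key : ∃ a b : ℕ, ∀ x, lossy_pE d c0 c1 cr' ν x = a * x + b := by
    refine ⟨10 * (2 * (d + ν * (d + 1 + c1 + d))) + 16 * (d + 1) + 8 * c0 + d + d * d,
      10 * (2 * d + 2 * (d * cr' + ν * ((d + (2 + d * (5 + d))) + d * cr')))
      + 16 * (d + (2 + d * (5 + d))) + 115 + d * (d + 7), ?_⟩
    intro x
    unfold lossy_pE pm pL pJ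
    ring
  obtain ⟨a, b, h⟩ := key
  rw [h, h]
  nlinarith

lemma lossy_M (P Q : ℝ) (hQ : 0 < Q) (hPQ : Q ≤ P) : ∃ M : ℕ, 0 < M ∧ (M : ℝ) ≤ P / Q ∧
    P / Q ≤ 2 * M := by
  have h1 : 1 ≤ P / Q := by rwa [le_div_iff₀ hQ, one_mul]
  refine ⟨⌊P / Q⌋₊, Nat.floor_pos.2 h1, Nat.floor_le (by linarith), ?_⟩
  have h2 := Nat.lt_floor_add_one (P / Q)
  have h3 : (1 : ℝ) ≤ (⌊P / Q⌋₊ : ℝ) := by exact_mod_cast Nat.floor_pos.2 h1
  linarith

theorem lossy (d : ℕ) (hd : 0 < d) (p r : ℝ) (hp1 : 1 < p) (hp2 : p < 2) (hr : 1 / p < r) :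
    LossySt d p r := by
  intro c1
  have hr0 : 0 < r := by
    have : 0 < 1 / p := by positivity
    linarith
  obtain ⟨cr', hcr⟩ : ∃ cr' : ℕ, 6 * (2 : ℝ) ^ r ≤ 2 ^ cr' := by
    obtain ⟨n, hn⟩ := pow_unbounded_of_one_lt (6 * (2 : ℝ) ^ r) (by norm_num : (1 : ℝ) < 2)
    exact ⟨n, hn.le⟩
  obtain ⟨ν, hν⟩ : ∃ ν : ℕ, 2 ≤ (ν : ℝ) * (2 - p) := by
    obtain ⟨n, hn⟩ := exists_nat_ge (2 / (2 - p))
    refine ⟨n, ?_⟩
    rwa [div_le_iff₀ (by linarith)] at hn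
  set c0 := 2 * c1 + d + 13 with hc0
  set CY := lossy_pE d c0 c1 cr' ν 1 with hCY
  have hCY0 : 0 < CY := by
    rw [hCY]
    unfold lossy_pE
    positivity
  refine ⟨20000 * (CY : ℝ) ^ 9 * 2 ^ (d + 4), 9, 2 ^ (32 * (c1 + d * CY + (c1 + d + 13))), ?_, ?_⟩
  · positivity
  intro n hn φ hφ hφ1 l hnl hln W hW B hB hE D hD1 hD2
  have hn1 : 1 ≤ n := le_trans Nat.one_le_two_pow hn
  have hsm := lg_small _ n hn
  set Λ := lg n with hΛ
  have hΛ1 : 1 ≤ Λ := lg_one n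
  have hsm1 : c1 * Λ ≤ n := le_trans (Nat.mul_le_mul_right _ (by omega)) hsm
  have hsm2 : d * (CY * Λ) ≤ n := by
    rw [← mul_assoc]
    exact le_trans (Nat.mul_le_mul_right _ (by omega)) hsm
  have hsm3 : (c1 + d + 13) * Λ ≤ n := le_trans (Nat.mul_le_mul_right _ (by omega)) hsm
  have hl2 : l ≤ 2 * n := by omega
  have h4n := lg_lo n
  rw [← hΛ] at h4n
  have hlΛ : l + 1 ≤ 2 ^ Λ := by omega
  have hYn : CY * Λ ≤ n := le_trans (Nat.le_mul_of_pos_left _ hd) hsm2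
  have hCYΛ : CY ≤ 2 ^ Λ := by
    have := Nat.le_mul_of_pos_right CY hΛ1
    omega
  set Y := CY * Λ with hY
  have hY0 : 0 < Y := Nat.mul_pos hCY0 hΛ1
  have hY4 : (Y : ℝ) ^ 4 ≤ 2 ^ (8 * Λ) := by
    have h1 : Y ≤ 2 ^ Λ * 2 ^ Λ := Nat.mul_le_mul hCYΛ (Nat.lt_two_pow_self).le
    have h2 : (Y : ℝ) ≤ 2 ^ (2 * Λ) := by
      have h3 : (Y : ℝ) ≤ 2 ^ Λ * 2 ^ Λ := by exact_mod_cast h1
      rwa [← pow_add, ← two_mul] at h3
    calc (Y : ℝ) ^ 4 ≤ (2 ^ (2 * Λ)) ^ 4 := pow_le_pow_left₀ (by positivity) h2 4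
      _ = 2 ^ (8 * Λ) := by
          rw [← pow_mul]
          congr 1
          ring
  set B0 : ℝ := ((2 : ℝ) ^ l) ^ (-(r - (1 / p - 1 / 2))) with hB0
  have hB00 : 0 < B0 := by positivity
  have hBpos : 0 < B := lt_of_lt_of_le (by positivity) hB
  set P : ℝ := ((n : ℝ) + 1) ^ (d - 1) * 2 ^ n with hP
  have hP1 : (2 : ℝ) ^ n ≤ P := by
    have h1 : (1 : ℝ) ≤ ((n : ℝ) + 1) ^ (d - 1) := one_le_pow₀ (by
      have : (0 : ℝ) ≤ n := Nat.cast_nonneg _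
      linarith)
    have h2 : (0 : ℝ) < 2 ^ n := by positivity
    rw [hP]
    nlinarith
  have hP0 : 0 < P := lt_of_lt_of_le (by positivity) hP1
  have hD0 : 0 < D := by linarith
  set Q : ℝ := D * 2 ^ (d + 3) * (Y : ℝ) ^ 4 with hQ
  have hYr : (0 : ℝ) < Y := by exact_mod_cast hY0
  have hQ0 : 0 < Q := by positivity
  have hQ1 : Q ≤ 2 ^ (c1 * Λ + (d + 3) + 8 * Λ) := by
    have e1 : (2 : ℝ) ^ (c1 * Λ + (d + 3) + 8 * Λ) = 2 ^ (c1 * Λ) * 2 ^ (d + 3) * 2 ^ (8 * Λ) := by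
      rw [← pow_add, ← pow_add]
    rw [hQ, e1]
    gcongr
  have hQP : Q ≤ P := by
    refine hQ1.trans (le_trans ?_ hP1)
    refine pow_le_pow_right₀ (by norm_num) (le_trans ?_ hsm3)
    have : (c1 + d + 13) * Λ = c1 * Λ + d * Λ + 13 * Λ := by ring
    have h2 : d ≤ d * Λ := Nat.le_mul_of_pos_right _ hΛ1
    omega
  obtain ⟨M, hM0, hM1, hM2⟩ := lossy_M P Q hQ0 hQP
  have hMr : (0 : ℝ) < M := by exact_mod_cast hM0
  have hlM : (2 : ℝ) ^ l / M ≤ 2 * Q * 2 ^ l / P := by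
    rw [div_le_iff₀ hQ0] at hM2
    rw [div_le_div_iff₀ hMr hP0]
    calc (2 : ℝ) ^ l * P ≤ 2 ^ l * (2 * M * Q) := by gcongr
      _ = 2 * Q * 2 ^ l * M := by ring
  set L1 := (d + 1) * Λ + (d + (2 + d * (5 + d))) with hL1
  set L3 := 2 * d + 2 * (d * (cr' + Λ) + ν * ((L1 + c1 * Λ) + d * (cr' + Λ))) with hL3
  have hpE : pm (c0 * Λ) L1 L3 (d * Λ) + pL d (c0 * Λ) L1 L3 (d * Λ) + 1 ≤ CY * Λ :=
    lossy_pE_le d c0 c1 cr' ν Λ hΛ1
  have hlay := lossy_layer hd l (bc r φ) W hW B hBpos hE (c0 * Λ) L1 L3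
    (d * Λ) M hM0 ?_ ?_ ?_ ((2 + d * (5 + d + l) : ℕ) : ℝ) (by positivity) (ell_le d l hd) ?_ ?_
    (CY * Λ) hpE
  · obtain ⟨G, hG1, hG2⟩ := hlay
    refine ⟨_, G, ?_, hG1, fun x => (hG2 x).trans ?_⟩
    · rw [← hY]
      push_cast
      rw [le_div_iff₀ hD0]
      rw [le_div_iff₀ hQ0] at hM1
      calc (2 : ℝ) ^ (d + 3) * (Y : ℝ) ^ 4 * M * D = M * Q := by
            rw [hQ]
            ring
        _ ≤ P := hM1
    · rw [← hY]
      have h1 : Real.sqrt (2 ^ l / (M : ℝ))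
          ≤ 2 ^ (d + 4) * (Y : ℝ) ^ 2 * Real.sqrt (D * 2 ^ l / P) := by
        have h2 : 2 * Q * 2 ^ l / P = 2 ^ (d + 4) * ((Y : ℝ) ^ 2) ^ 2 * (D * 2 ^ l / P) := by
          rw [hQ]
          ring
        have h3 : 2 ^ (d + 4) * ((Y : ℝ) ^ 2) ^ 2 * (D * 2 ^ l / P)
            ≤ (2 ^ (d + 4) * (Y : ℝ) ^ 2) ^ 2 * (D * 2 ^ l / P) := by
          have h4 : (1 : ℝ) ≤ 2 ^ (d + 4) := one_le_pow₀ (by norm_num)
          refine mul_le_mul_of_nonneg_right ?_ (by positivity)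
          rw [mul_pow]
          refine mul_le_mul_of_nonneg_right ?_ (by positivity)
          nlinarith
        refine (Real.sqrt_le_sqrt (hlM.trans (h2.le.trans h3))).trans (le_of_eq ?_)
        rw [Real.sqrt_mul (by positivity), Real.sqrt_sq (by positivity)]
      calc 20000 * (Y : ℝ) ^ 7 * Real.sqrt (2 ^ l / (M : ℝ)) * B
          ≤ 20000 * (Y : ℝ) ^ 7 * (2 ^ (d + 4) * (Y : ℝ) ^ 2 * Real.sqrt (D * 2 ^ l / P)) * B := by
            gcongr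
        _ = _ := by
            rw [hY]
            push_cast
            ring
  · -- `hL0`
    refine hlM.trans ?_
    rw [div_le_iff₀ hP0]
    have h1 : (2 : ℝ) ^ l ≤ 2 ^ (c1 * Λ) * 2 ^ n := by
      rw [← pow_add]
      exact pow_le_pow_right₀ (by norm_num) (by omega)
    have h2 : (2 : ℝ) * 2 ^ (c1 * Λ + (d + 3) + 8 * Λ) * 2 ^ (c1 * Λ) ≤ 2 ^ (c0 * Λ) := by
      have h3 : (2 : ℝ) * 2 ^ (c1 * Λ + (d + 3) + 8 * Λ) * 2 ^ (c1 * Λ)
          = 2 ^ (1 + (c1 * Λ + (d + 3) + 8 * Λ) + c1 * Λ) := by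
        rw [← pow_succ', ← pow_add]
        congr 1
        ring
      rw [h3]
      refine pow_le_pow_right₀ (by norm_num) ?_
      have h4 : c0 * Λ = 2 * (c1 * Λ) + d * Λ + 13 * Λ := by
        rw [hc0]
        ring
      have h5 : d ≤ d * Λ := Nat.le_mul_of_pos_right _ hΛ1
      omega
    calc 2 * Q * 2 ^ l ≤ 2 * 2 ^ (c1 * Λ + (d + 3) + 8 * Λ) * (2 ^ (c1 * Λ) * 2 ^ n) := by
          gcongr
      _ = (2 * 2 ^ (c1 * Λ + (d + 3) + 8 * Λ) * 2 ^ (c1 * Λ)) * 2 ^ n := by ring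
      _ ≤ 2 ^ (c0 * Λ) * P := by gcongr
  · exact par_Lp d l Λ hd hlΛ
  · -- `hZ`
    intro s hs
    obtain ⟨Z, hZ1, hZ2, hZ3⟩ := samples p r hp1 hp2 hr0 cr' ν hcr hν φ hφ hφ1 l Λ (L1 + c1 * Λ)
      hlΛ s hs B0 le_rfl
    refine ⟨Z, hZ1, hZ2, hZ3.trans ?_⟩
    refine pow_le_pow_left₀ (by positivity) ?_ 2
    have h1 : B0 / 2 ^ (L1 + c1 * Λ) = (B0 / 2 ^ (c1 * Λ)) / 2 ^ L1 := by
      rw [pow_add]
      field_simp
    rw [h1]
    exact div_le_div_of_nonneg_right hB (by positivity)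
  · exact_mod_cast par_ell d l Λ L1 hlΛ hL1
  · exact par_big d c0 L1 L3 Λ CY hpE n l hsm2 hnl

end

end Pool.Agent.H75.UX
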