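import Pool.Agent.H75.UX.Defs

set_option autoImplicit false
set_option linter.unusedSectionVars false

/-!
# All layers: module [M12]
-/

open Finset ComplexConjugate MeasureTheory

open scoped Classical

namespace Pool.Agent.H75.UX

open Pool.Agent.H75.MT (ee ee_add ee_norm ee_conj ee_int ee_zero)
open Pool.Agent.H75.UB

noncomputable section

local instance msPoly : MeasureSpace UnitAddCircle := ⟨AddCircle.haarAddCircle⟩

variable {d : ℕ}

/-- the error scale of a layer, with the decay -/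
lemma poly_sqrt_Bl (d : ℕ) (p r CB : ℝ) (hp1 : 1 < p) (hCB : 1 ≤ CB)
    (n j : ℕ) (hj : j ≤ n) :
    Real.sqrt (2 ^ (n + j) / (((n : ℝ) + 1) ^ (d - 1) * 2 ^ n)) * Bl d p r CB (n + j)
      ≤ CB * 2 ^ (d - 1) * (2 : ℝ) ^ (-((r - 1 / p) * j)) * Un d p r n := by
  unfold Bl Un
  set η := 1 / p - 1 / 2 with hη
  set N : ℝ := 2 ^ (n + j) with hN
  set N0 : ℝ := 2 ^ n with hN0
  set P : ℝ := (((n + j : ℕ) : ℝ) + 1) ^ (d - 1) with hP
  set P0 : ℝ := ((n : ℝ) + 1) ^ (d - 1) with hP0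
  have hN' : 0 < N := by positivity
  have hN0' : 0 < N0 := by positivity
  have hP' : 0 < P := by positivity
  have hP0' : 0 < P0 := by positivity
  have hexp : 0 ≤ 1 - 1 / p := by
    have : 1 / p ≤ 1 := by rw [div_le_one (by linarith)]; exact hp1.le
    linarith
  have hexp1 : 1 - 1 / p ≤ 1 := by
    have : 0 < 1 / p := by positivity
    linarith
  have h1 : Real.sqrt (N / (P0 * N0))
      = N ^ (1 / 2 : ℝ) * P0 ^ (-(1 / 2) : ℝ) * N0 ^ (-(1 / 2) : ℝ) := by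
    rw [Real.sqrt_eq_rpow, Real.div_rpow hN'.le (by positivity),
      Real.mul_rpow hP0'.le hN0'.le, Real.rpow_neg hP0'.le, Real.rpow_neg hN0'.le]
    field_simp
  have h2 : N ^ (1 / 2 : ℝ) * N ^ (-(r - η)) = N ^ (-(r - 1 / p)) := by
    rw [← Real.rpow_add hN']
    congr 1
    rw [hη]
    ring
  have h3 : N ^ (-(r - 1 / p)) = N0 ^ (-(r - 1 / p)) * (2 : ℝ) ^ (-((r - 1 / p) * j)) := by
    rw [hN, pow_add, Real.mul_rpow (by positivity) (by positivity), ← hN0,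
      ← Real.rpow_natCast (2 : ℝ) j, ← Real.rpow_mul (by norm_num)]
    congr 2
    ring
  have h4 : N0 ^ (-(1 / 2) : ℝ) * N0 ^ (-(r - 1 / p)) = N0 ^ (-(r - η)) := by
    rw [← Real.rpow_add hN0']
    congr 1
    rw [hη]
    ring
  have h5 : P ^ (1 - 1 / p) ≤ 2 ^ (d - 1) * P0 ^ (1 - 1 / p) := by
    have e1 : P ≤ 2 ^ (d - 1) * P0 := by
      rw [hP, hP0, ← mul_pow]
      refine pow_le_pow_left₀ (by positivity) ?_ _
      push_cast
      have : (j : ℝ) ≤ n := by exact_mod_cast hj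
      linarith
    refine (Real.rpow_le_rpow hP'.le e1 hexp).trans ?_
    rw [Real.mul_rpow (by positivity) hP0'.le]
    have e2 : ((2 : ℝ) ^ (d - 1)) ^ (1 - 1 / p) ≤ (2 ^ (d - 1)) ^ (1 : ℝ) :=
      Real.rpow_le_rpow_of_exponent_le (one_le_pow₀ (by norm_num)) hexp1
    rw [Real.rpow_one] at e2
    gcongr
  have h6 : P0 ^ (-(1 / 2) : ℝ) * P0 ^ (1 - 1 / p) = P0 ^ (-η) := by
    rw [← Real.rpow_add hP0']
    congr 1
    rw [hη]
    ring
  rw [h1]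
  calc N ^ (1 / 2 : ℝ) * P0 ^ (-(1 / 2) : ℝ) * N0 ^ (-(1 / 2) : ℝ)
        * (CB * N ^ (-(r - η)) * P ^ (1 - 1 / p))
      = CB * P0 ^ (-(1 / 2) : ℝ) * N0 ^ (-(1 / 2) : ℝ) * (N ^ (1 / 2 : ℝ) * N ^ (-(r - η)))
        * P ^ (1 - 1 / p) := by ring
    _ ≤ CB * P0 ^ (-(1 / 2) : ℝ) * N0 ^ (-(1 / 2) : ℝ)
        * (N0 ^ (-(r - 1 / p)) * (2 : ℝ) ^ (-((r - 1 / p) * j)))
        * (2 ^ (d - 1) * P0 ^ (1 - 1 / p)) := by
        rw [h2, h3]
        gcongr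
    _ = CB * 2 ^ (d - 1) * (2 : ℝ) ^ (-((r - 1 / p) * j))
        * ((N0 ^ (-(1 / 2) : ℝ) * N0 ^ (-(r - 1 / p)))
        * (P0 ^ (-(1 / 2) : ℝ) * P0 ^ (1 - 1 / p))) := by ring
    _ = _ := by rw [h4, h6]

/-- powers of the logarithm -/
lemma poly_lg (κ c2 : ℕ) (t : ℝ) (ht : 0 < t) (hc2 : (κ : ℝ) ≤ c2 * t) (n j : ℕ)
    (hj : c2 * lg (lg n) ≤ j) : (lg n : ℝ) ^ κ ≤ (2 : ℝ) ^ (t * j) := by
  have h1 : (lg n : ℝ) ≤ 2 ^ (lg (lg n)) := by
    have := lg_lo (lg n)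
    have h2 : lg n ≤ 2 ^ (lg (lg n)) := by omega
    exact_mod_cast h2
  calc (lg n : ℝ) ^ κ ≤ ((2 : ℝ) ^ (lg (lg n))) ^ κ := pow_le_pow_left₀ (Nat.cast_nonneg _) h1 κ
    _ = (2 : ℝ) ^ ((lg (lg n) : ℝ) * κ) := by
        rw [← pow_mul, ← Real.rpow_natCast]
        push_cast
        rfl
    _ ≤ _ := by
        refine Real.rpow_le_rpow_of_exponent_le (by norm_num) ?_
        have h3 : (c2 : ℝ) * lg (lg n) ≤ j := by exact_mod_cast hj
        have h4 : (0 : ℝ) ≤ lg (lg n) := Nat.cast_nonneg _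
        calc (lg (lg n) : ℝ) * κ ≤ lg (lg n) * (c2 * t) := by gcongr
          _ = t * (c2 * lg (lg n)) := by ring
          _ ≤ _ := by gcongr

/-- one layer, both ranges together -/
lemma poly_layer (d : ℕ) (p r : ℝ) (hp1 : 1 < p) (hr : 1 / p < r)
    (hX : LayerSt d p r) (hL : LossySt d p r) (CB : ℝ) (hCB : 1 ≤ CB) (c1 : ℕ) :
    ∃ (K w : ℝ) (n0 : ℕ), 0 < K ∧ 0 < w ∧ w < 1 ∧ ∀ n, n0 ≤ n →
    ∀ φ : TT d → ℂ, MemLp φ (ENNReal.ofReal p) volume → ∫ x, ‖φ x‖ ^ p ≤ 1 →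
    (∀ l : ℕ, ∑ s ∈ Sl d l, en (bc r φ) s ≤ Bl d p r CB l) →
    ∀ j, j ≤ c1 * lg n → ∃ (M : ℕ) (G : (Fin d → ℝ) → ℂ),
      (M : ℝ) ≤ K * w ^ j * (((n : ℝ) + 1) ^ (d - 1) * 2 ^ n) ∧ TP d M G ∧
      ∀ x, ‖∑ s ∈ Sl d (n + j), fs (bc r φ) s x - G x‖ ≤ K * w ^ j * Un d p r n := by
  set θ := r - 1 / p with hθ
  have hθ0 : 0 < θ := by linarith
  set δ := min 1 θ with hδ
  have hδ0 : 0 < δ := lt_min one_pos hθ0
  have hδ1 : δ ≤ 1 := min_le_left _ _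
  have hδθ : δ ≤ θ := min_le_right _ _
  obtain ⟨CL, κL, nL, hCL, hlossy⟩ := hL c1
  obtain ⟨c2, hc2⟩ := exists_nat_ge ((κL : ℝ) / (θ / 4))
  rw [div_le_iff₀ (by positivity)] at hc2
  obtain ⟨CX, κX, nX, hCX, hlay⟩ := hX c2 θ hθ0
  have hy1 : (1 : ℝ) < 2 ^ (δ / 8) := Real.one_lt_rpow (by norm_num) (by positivity)
  obtain ⟨K2, hK2, hexp⟩ := poly_exp κX ((2 : ℝ) ^ (δ / 8)) hy1
  set w : ℝ := (2 : ℝ) ^ (-(δ / 8)) with hw
  have hw0 : 0 < w := by positivity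
  have hw1 : w < 1 := Real.rpow_lt_one_of_one_lt_of_neg (by norm_num) (by linarith)
  have hwj : ∀ j : ℕ, w ^ j = (2 : ℝ) ^ (-(δ / 8) * j) := by
    intro j
    rw [hw, ← Real.rpow_natCast, ← Real.rpow_mul (by norm_num)]
  have hyj : ∀ j : ℕ, ((2 : ℝ) ^ (δ / 8)) ^ j = (2 : ℝ) ^ ((δ / 8) * j) := by
    intro j
    rw [← Real.rpow_natCast, ← Real.rpow_mul (by norm_num)]
  refine ⟨CX * K2 + (CL * (CB * 2 ^ (d - 1)) + 1), w, max (max nL nX) (2 ^ (32 * c1)),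
    by positivity, hw0, hw1, ?_⟩
  intro n hn φ hφ hφ1 hE j hj
  have hnL : nL ≤ n := (le_max_left _ _).trans ((le_max_left _ _).trans hn)
  have hnX : nX ≤ n := (le_max_right _ _).trans ((le_max_left _ _).trans hn)
  have hsm := lg_small c1 n ((le_max_right _ _).trans hn)
  have hjn : j ≤ n := hj.trans hsm
  have hj0 : (0 : ℝ) ≤ j := Nat.cast_nonneg _
  set Q : ℝ := ((n : ℝ) + 1) ^ (d - 1) * 2 ^ n with hQ
  have hQ0 : 0 < Q := by positivity
  have hU := Un_pos d p r n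
  have hKX : 0 ≤ CX * K2 := by positivity
  have hKL : 0 ≤ CL * (CB * 2 ^ (d - 1)) := by positivity
  by_cases hjc : j ≤ c2 * lg (lg n)
  · obtain ⟨M, G, h1, h2, h3⟩ := hlay n hnX φ hφ hφ1 j hjc
    have hp := hexp j
    rw [hyj] at hp
    refine ⟨M, G, ?_, h2, fun x => ?_⟩
    · refine h1.trans ?_
      have e1 : (2 : ℝ) ^ ((δ / 8) * j) / (2 : ℝ) ^ (θ * j) ≤ w ^ j := by
        rw [← Real.rpow_sub (by norm_num), hwj]
        refine Real.rpow_le_rpow_of_exponent_le (by norm_num) ?_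
        nlinarith
      calc CX * ((j : ℝ) + 1) ^ κX * Q / (2 : ℝ) ^ (θ * j)
          ≤ CX * (K2 * (2 : ℝ) ^ ((δ / 8) * j)) * Q / (2 : ℝ) ^ (θ * j) := by gcongr
        _ = CX * K2 * ((2 : ℝ) ^ ((δ / 8) * j) / (2 : ℝ) ^ (θ * j)) * Q := by ring
        _ ≤ CX * K2 * w ^ j * Q := by gcongr
        _ ≤ _ := by
            have : 0 ≤ w ^ j := by positivity
            gcongr
            linarith
    · refine (h3 x).trans ?_
      have e1 : (2 : ℝ) ^ ((δ / 8) * j) * (2 : ℝ) ^ (θ * j / 2) * (2 : ℝ) ^ (-θ * j) ≤ w ^ j := by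
        rw [← Real.rpow_add (by norm_num), ← Real.rpow_add (by norm_num), hwj]
        refine Real.rpow_le_rpow_of_exponent_le (by norm_num) ?_
        nlinarith
      calc CX * ((j : ℝ) + 1) ^ κX * (2 : ℝ) ^ (θ * j / 2) * (2 : ℝ) ^ (-(r - 1 / p) * j)
            * Un d p r n
          ≤ CX * (K2 * (2 : ℝ) ^ ((δ / 8) * j)) * (2 : ℝ) ^ (θ * j / 2)
            * (2 : ℝ) ^ (-(r - 1 / p) * j) * Un d p r n := by gcongr
        _ = CX * K2 * ((2 : ℝ) ^ ((δ / 8) * j) * (2 : ℝ) ^ (θ * j / 2) * (2 : ℝ) ^ (-θ * j))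
            * Un d p r n := by rw [hθ]; ring
        _ ≤ CX * K2 * w ^ j * Un d p r n := by gcongr
        _ ≤ _ := by
            have : 0 ≤ w ^ j := by positivity
            gcongr
            linarith
  · push Not at hjc
    set D : ℝ := (2 : ℝ) ^ (δ * j) with hD
    have hD0 : 0 < D := by positivity
    have hD1 : 1 ≤ D := Real.one_le_rpow (by norm_num) (by positivity)
    have hD2 : D ≤ 2 ^ (c1 * lg n) := by
      rw [hD, ← Real.rpow_natCast (2 : ℝ) (c1 * lg n)]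
      refine Real.rpow_le_rpow_of_exponent_le (by norm_num) ?_
      have h1 : (j : ℝ) ≤ ((c1 * lg n : ℕ) : ℝ) := by exact_mod_cast hj
      nlinarith
    obtain ⟨M, G, h1, h2, h3⟩ := hlossy n hnL φ hφ hφ1 (n + j) (Nat.le_add_right _ _)
      (by omega) (fun s => grid s) (fun _ _ => Finset.Subset.refl _) (Bl d p r CB (n + j))
      ((div_le_self (by positivity) (one_le_pow₀ (by norm_num))).trans
        (Bl_low d p r CB hp1 hCB (n + j))) (by
          refine le_trans (le_of_eq ?_) (hE (n + j))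
          refine Finset.sum_congr rfl (fun s _ => ?_)
          rw [fa_energy, Real.sqrt_sq (en_nonneg _ _)]) D hD1 hD2
    refine ⟨M, G, ?_, h2, fun x => ?_⟩
    · refine h1.trans ?_
      have e1 : 1 / D ≤ w ^ j := by
        rw [hD, hwj, one_div, ← Real.rpow_neg (by norm_num)]
        refine Real.rpow_le_rpow_of_exponent_le (by norm_num) ?_
        nlinarith
      calc Q / D = 1 * (1 / D) * Q := by ring
        _ ≤ (CX * K2 + (CL * (CB * 2 ^ (d - 1)) + 1)) * w ^ j * Q := by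
            gcongr
            linarith
    · have hfs : ∑ s ∈ Sl d (n + j), fs (bc r φ) s x
          = ∑ s ∈ Sl d (n + j), fbox s (grid s) (fa (bc r φ) s) x :=
        Finset.sum_congr rfl (fun s _ => fs_box _ _ _)
      rw [hfs]
      refine (h3 x).trans ?_
      have e1 : Real.sqrt (D * 2 ^ (n + j) / (((n : ℝ) + 1) ^ (d - 1) * 2 ^ n))
          = (2 : ℝ) ^ (δ * j / 2)
            * Real.sqrt (2 ^ (n + j) / (((n : ℝ) + 1) ^ (d - 1) * 2 ^ n)) := by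
        rw [mul_div_assoc, Real.sqrt_mul hD0.le]
        congr 1
        rw [hD, Real.sqrt_eq_rpow, ← Real.rpow_mul (by norm_num)]
        congr 1
        ring
      have e2 := poly_sqrt_Bl d p r CB hp1 hCB n j hjn
      have e0 : 0 ≤ Real.sqrt (2 ^ (n + j) / (((n : ℝ) + 1) ^ (d - 1) * 2 ^ n))
          * Bl d p r CB (n + j) :=
        mul_nonneg (Real.sqrt_nonneg _) (Bl_pos d p r CB hCB (n + j)).le
      have e3 := poly_lg κL c2 (θ / 4) (by positivity) hc2 n j hjc.le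
      have e4 : (2 : ℝ) ^ (θ / 4 * j) * (2 : ℝ) ^ (δ * j / 2) * (2 : ℝ) ^ (-(θ * j)) ≤ w ^ j := by
        rw [← Real.rpow_add (by norm_num), ← Real.rpow_add (by norm_num), hwj]
        refine Real.rpow_le_rpow_of_exponent_le (by norm_num) ?_
        nlinarith
      rw [e1]
      calc CL * (lg n : ℝ) ^ κL * ((2 : ℝ) ^ (δ * j / 2)
            * Real.sqrt (2 ^ (n + j) / (((n : ℝ) + 1) ^ (d - 1) * 2 ^ n))) * Bl d p r CB (n + j)
          = CL * (lg n : ℝ) ^ κL * (2 : ℝ) ^ (δ * j / 2)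
            * (Real.sqrt (2 ^ (n + j) / (((n : ℝ) + 1) ^ (d - 1) * 2 ^ n))
              * Bl d p r CB (n + j)) := by ring
        _ ≤ CL * (2 : ℝ) ^ (θ / 4 * j) * (2 : ℝ) ^ (δ * j / 2)
            * (CB * 2 ^ (d - 1) * (2 : ℝ) ^ (-((r - 1 / p) * j)) * Un d p r n) := by gcongr
        _ = CL * (CB * 2 ^ (d - 1)) * ((2 : ℝ) ^ (θ / 4 * j) * (2 : ℝ) ^ (δ * j / 2)
            * (2 : ℝ) ^ (-(θ * j))) * Un d p r n := by rw [hθ]; ring
        _ ≤ CL * (CB * 2 ^ (d - 1)) * w ^ j * Un d p r n := by gcongr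
        _ ≤ _ := by
            have : 0 ≤ w ^ j := by positivity
            gcongr
            linarith

/-- the layers of the middle range together -/
lemma poly_mid (d : ℕ) (p r : ℝ) (hp1 : 1 < p) (hr : 1 / p < r)
    (hX : LayerSt d p r) (hL : LossySt d p r) (CB : ℝ) (hCB : 1 ≤ CB) (c1 : ℕ) :
    ∃ (C : ℝ) (CN n0 : ℕ), 0 < C ∧ ∀ n, n0 ≤ n →
    ∀ φ : TT d → ℂ, MemLp φ (ENNReal.ofReal p) volume → ∫ x, ‖φ x‖ ^ p ≤ 1 →
    (∀ l : ℕ, ∑ s ∈ Sl d l, en (bc r φ) s ≤ Bl d p r CB l) →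
    ∃ G, TP d (CN * ((n + 1) ^ (d - 1) * 2 ^ n)) G ∧
      ∀ x, ‖∑ l ∈ Finset.Ico n (n + c1 * lg n), ∑ s ∈ Sl d l, fs (bc r φ) s x - G x‖
        ≤ C * Un d p r n := by
  obtain ⟨K, w, n0, hK, hw0, hw1, h⟩ := poly_layer d p r hp1 hr hX hL CB hCB c1
  have h1w : 0 < 1 - w := by linarith
  obtain ⟨CN, hCN⟩ := exists_nat_ge (K / (1 - w))
  refine ⟨K / (1 - w), CN, n0, by positivity, ?_⟩
  intro n hn φ hφ hφ1 hE
  have hgeo : ∀ J : ℕ, ∑ j ∈ range J, w ^ j ≤ 1 / (1 - w) := by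
    intro J
    rw [geom_sum_eq hw1.ne, show (w ^ J - 1) / (w - 1) = (1 - w ^ J) / (1 - w) by
      rw [← neg_div_neg_eq]
      congr 1 <;> ring]
    have : 0 ≤ w ^ J := by positivity
    exact div_le_div_of_nonneg_right (by linarith) h1w.le
  have hl : ∀ j, ∃ (M : ℕ) (G : (Fin d → ℝ) → ℂ), TP d M G ∧
      (j ∈ range (c1 * lg n) → (M : ℝ) ≤ K * w ^ j * (((n : ℝ) + 1) ^ (d - 1) * 2 ^ n) ∧
        ∀ x, ‖∑ s ∈ Sl d (n + j), fs (bc r φ) s x - G x‖ ≤ K * w ^ j * Un d p r n) := by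
    intro j
    by_cases hj : j ∈ range (c1 * lg n)
    · obtain ⟨M, G, h1, h2, h3⟩ := h n hn φ hφ hφ1 hE j (Finset.mem_range.1 hj).le
      exact ⟨M, G, h2, fun _ => ⟨h1, h3⟩⟩
    · exact ⟨0, fun _ => 0, TP_zero d _, fun h => absurd h hj⟩
  choose M G hG1 hG2 using hl
  refine ⟨fun x => ∑ j ∈ range (c1 * lg n), G j x, ?_, ?_⟩
  · refine (TP.sum (range (c1 * lg n)) M G (fun j _ => hG1 j)).mono ?_
    have h1 : ((∑ j ∈ range (c1 * lg n), M j : ℕ) : ℝ)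
        ≤ ((CN * ((n + 1) ^ (d - 1) * 2 ^ n) : ℕ) : ℝ) := by
      push_cast
      refine (Finset.sum_le_sum (fun j hj => (hG2 j hj).1)).trans ?_
      rw [← Finset.sum_mul, ← Finset.mul_sum]
      have h2 := hgeo (c1 * lg n)
      refine mul_le_mul_of_nonneg_right ?_ (by positivity)
      refine le_trans ?_ hCN
      calc K * ∑ j ∈ range (c1 * lg n), w ^ j ≤ K * (1 / (1 - w)) := by gcongr
        _ = _ := by ring
    exact_mod_cast h1
  · intro x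
    rw [Finset.sum_Ico_eq_sum_range, Nat.add_sub_cancel_left, ← Finset.sum_sub_distrib]
    refine (norm_sum_le _ _).trans ((Finset.sum_le_sum (fun j hj => (hG2 j hj).2 x)).trans ?_)
    rw [← Finset.sum_mul, ← Finset.mul_sum]
    have hU := Un_pos d p r n
    have h2 := hgeo (c1 * lg n)
    refine mul_le_mul_of_nonneg_right ?_ hU.le
    calc K * ∑ j ∈ range (c1 * lg n), w ^ j ≤ K * (1 / (1 - w)) := by gcongr
      _ = _ := by ring

/-- [M12] approximation of the sums of layers -/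
theorem poly (d : ℕ) (hd : 2 ≤ d) (p r : ℝ) (hp1 : 1 < p) (hp2 : p < 2) (hr : 1 / p < r)
    (hX : LayerSt d p r) (hL : LossySt d p r) : PolySt d p r := by
  unfold PolySt
  have hd0 : 0 < d := by omega
  set θ := r - 1 / p with hθ
  have hθ0 : 0 < θ := by linarith
  have hr0 : 0 < r := by
    have : 0 < 1 / p := by positivity
    linarith
  obtain ⟨CB, hCB, hE⟩ := energies_b d hd0 p r hp1 hp2 hr0
  obtain ⟨c1, hc1⟩ := exists_nat_ge ((2 * (d : ℝ) + 2) / θ)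
  rw [div_le_iff₀ hθ0] at hc1
  obtain ⟨C2, hC2⟩ := exists_nat_ge (max 2 ((r - (1 / p - 1 / 2) + 1) / (θ / 2)))
  have hC2a : 2 ≤ C2 := by
    have := (le_max_left _ _).trans hC2
    exact_mod_cast this
  have hC2b := (le_max_right _ _).trans hC2
  rw [div_le_iff₀ (by positivity)] at hC2b
  obtain ⟨Cm, CN, nm, hCm, hmid⟩ := poly_mid d p r hp1 hr hX hL CB hCB c1
  obtain ⟨Ch, hCh, hhigh⟩ := high_part d hd0 p r hp1 hp2 hr CB hCB c1 C2 hc1
  obtain ⟨Ct, hCt, htail⟩ := tail_part d p r hp1 hp2 hr CB hCB C2 hC2b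
  refine ⟨Cm + Ch + Ct, 2 ^ d + CN + 1, max nm (2 ^ (32 * c1)), by positivity,
    Nat.le_add_left _ _, ?_⟩
  intro n hn φ hφ hφ1
  have hn1 : 1 ≤ n := le_trans Nat.one_le_two_pow ((le_max_right _ _).trans hn)
  have hsm := lg_small c1 n ((le_max_right _ _).trans hn)
  have hEφ := hE φ hφ hφ1
  obtain ⟨G2, hT2, hE2⟩ := hmid n ((le_max_left _ _).trans hn) φ hφ hφ1 hEφ
  set b := bc r φ with hb
  obtain ⟨G3, hT3, hE3⟩ := hhigh n hn1 b hEφ
  have hT1 := low_part hd0 b n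
  set M := (n + 1) ^ (d - 1) * 2 ^ n with hM
  refine ⟨fun x => Fp b n x + G2 x + G3 x, ?_, C2 * n, ?_⟩
  · refine ((hT1.add hT2).add hT3).mono ?_
    exact le_of_eq (by ring)
  · intro N hN x
    have e1 : Fp b (C2 * n) x = Fp b n x
        + (∑ l ∈ Finset.Ico n (n + c1 * lg n), ∑ s ∈ Sl d l, fs b s x)
        + ∑ l ∈ Finset.Ico (n + c1 * lg n) (C2 * n), ∑ s ∈ Sl d l, fs b s x := by
      unfold Fp
      rw [Finset.sum_range_add_sum_Ico (fun l => ∑ s ∈ Sl d l, fs b s x) (Nat.le_add_right _ _),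
        Finset.sum_range_add_sum_Ico (fun l => ∑ s ∈ Sl d l, fs b s x) (by nlinarith)]
    have e2 : Fp b N x - (Fp b n x + G2 x + G3 x) = (Fp b N x - Fp b (C2 * n) x)
        + (∑ l ∈ Finset.Ico n (n + c1 * lg n), ∑ s ∈ Sl d l, fs b s x - G2 x)
        + (∑ l ∈ Finset.Ico (n + c1 * lg n) (C2 * n), ∑ s ∈ Sl d l, fs b s x - G3 x) := by
      rw [e1]
      ring
    rw [e2]
    have f1 := htail n b hEφ N hN x
    have f2 := hE2 x
    have f3 := hE3 x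
    calc _ ≤ ‖Fp b N x - Fp b (C2 * n) x‖
        + ‖∑ l ∈ Finset.Ico n (n + c1 * lg n), ∑ s ∈ Sl d l, fs b s x - G2 x‖
        + ‖∑ l ∈ Finset.Ico (n + c1 * lg n) (C2 * n), ∑ s ∈ Sl d l, fs b s x - G3 x‖ :=
          (norm_add_le _ _).trans (add_le_add_left (norm_add_le _ _) _)
      _ ≤ Ct * Un d p r n + Cm * Un d p r n + Ch * Un d p r n := by linarith
      _ = _ := by ring

end

end Pool.Agent.H75.UX
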