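import Pool.Agent.H75.UX.Defs
import Pool.Agent.H50.UBX.Level

set_option autoImplicit false
set_option linter.unusedSectionVars false

/-! The level sets of the blocks of one layer. -/

open Finset ComplexConjugate MeasureTheory

open scoped Classical

namespace Pool.Agent.H75.UX

open Pool.Agent.H75.UB

noncomputable section

local instance msRT : MeasureSpace UnitAddCircle := ⟨AddCircle.haarAddCircle⟩

theorem rt (d : ℕ) (p r : ℝ) (hp1 : 1 < p) (hp2 : p < 2) (hr : 0 < r) : RTSt d p r := by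
  intro ε hε hε1
  obtain ⟨C, hC, h⟩ := Pool.Agent.H50.UBX.level d p r (ε / 2) hp1 hp2 hr (by linarith)
  set q : ℝ := (2 : ℝ) ^ (-(ε / 2)) with hq
  have hq0 : 0 < q := by positivity
  have hq1 : q < 1 := Real.rpow_lt_one_of_one_lt_of_neg (by norm_num) (by linarith)
  have hq2 : 0 < 1 - q := by linarith
  refine ⟨2 ^ ε * C * (1 - q)⁻¹, by positivity, ?_⟩
  intro φ hφ hφ1 l Z t ht hZ hZt
  set N : ℝ := (2 : ℝ) ^ l with hN
  have hN0 : 0 < N := by positivity
  have hNe : N ^ (1 - r * p) = N * (N ^ (-r)) ^ p := by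
    rw [← Real.rpow_mul hN0.le, show (1 - r * p) = 1 + (-r * p) by ring, Real.rpow_add hN0,
      Real.rpow_one]
  set T := (Sl d l).image (fun s => Nat.size #(Z s)) with hT
  have hfib : ∑ s ∈ Sl d l, (#(Z s) : ℝ) ^ (1 - ε)
      = ∑ k ∈ T, ∑ s ∈ (Sl d l).filter (fun s => Nat.size #(Z s) = k), (#(Z s) : ℝ) ^ (1 - ε) :=
    (Finset.sum_fiberwise_of_maps_to (fun s hs => Finset.mem_image_of_mem _ hs) _).symm
  have hk : ∀ k ∈ T, (∑ s ∈ (Sl d l).filter (fun s => Nat.size #(Z s) = k),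
      (#(Z s) : ℝ) ^ (1 - ε)) * t ^ p ≤ 2 ^ ε * C * (N * (N ^ (-r)) ^ p) * q ^ k := by
    intro k _
    have h1 := h φ hφ hφ1 l ((Sl d l).filter (fun s => Nat.size #(Z s) = k)) Z (2 ^ k) t
      (Finset.filter_subset _ _) (Nat.one_le_two_pow) ht (by
        intro s hs
        rw [mem_filter] at hs
        refine ⟨hZ s hs.1, ?_, hZt s hs.1⟩
        rw [← hs.2]
        exact (Nat.lt_size_self _).le)
    rw [hNe] at h1
    have h2 : ∀ s ∈ (Sl d l).filter (fun s => Nat.size #(Z s) = k),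
        (#(Z s) : ℝ) ^ (1 - ε) ≤ (2 ^ ε * (q ^ 2) ^ k) * #(Z s) := by
      intro s hs
      rw [mem_filter] at hs
      rcases Nat.eq_zero_or_pos #(Z s) with h0 | h0
      · rw [h0]
        rw [Nat.cast_zero, Real.zero_rpow (by linarith), mul_zero]
      · have h0' : (0 : ℝ) < #(Z s) := by exact_mod_cast h0
        have e1 : 2 ^ k ≤ 2 * #(Z s) := by
          have hk0 : 0 < k := by
            rw [← hs.2]
            exact Nat.size_pos.2 h0
          have := (Nat.lt_size (m := k - 1) (n := #(Z s))).1 (by omega)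
          calc 2 ^ k = 2 * 2 ^ (k - 1) := by
                rw [← pow_succ']
                congr 1
                omega
            _ ≤ _ := by omega
        have e2 : ((2 : ℝ) ^ k) ≤ 2 * #(Z s) := by exact_mod_cast e1
        have e3 : (#(Z s) : ℝ) ^ (1 - ε) = #(Z s) * (#(Z s) : ℝ) ^ (-ε) := by
          rw [show (1 - ε) = 1 + (-ε) by ring, Real.rpow_add h0', Real.rpow_one]
        have e4 : (#(Z s) : ℝ) ^ (-ε) ≤ (2 ^ k / 2) ^ (-ε) := by
          refine Real.rpow_le_rpow_of_nonpos (by positivity) (by linarith) (by linarith)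
        have e5 : ((2 : ℝ) ^ k / 2) ^ (-ε) = 2 ^ ε * (q ^ 2) ^ k := by
          rw [Real.div_rpow (by positivity) (by norm_num), ← Real.rpow_natCast 2 k,
            ← Real.rpow_mul (by norm_num), hq, ← Real.rpow_natCast _ 2, ← Real.rpow_natCast _ k,
            ← Real.rpow_mul (by positivity), ← Real.rpow_mul (by positivity),
            Real.rpow_neg (by norm_num) ε, div_inv_eq_mul, mul_comm]
          congr 2
          push_cast
          ring
        rw [e3, ← e5, mul_comm]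
        gcongr
    have h3 : ((2 ^ k : ℕ) : ℝ) ^ (ε / 2) * q ^ k = 1 := by
      push_cast
      rw [← Real.rpow_natCast 2 k, ← Real.rpow_mul (by norm_num), hq, ← Real.rpow_natCast _ k,
        ← Real.rpow_mul (by norm_num), ← Real.rpow_add (by norm_num)]
      rw [show (k : ℝ) * (ε / 2) + -(ε / 2) * k = 0 by ring, Real.rpow_zero]
    calc _ ≤ (∑ s ∈ (Sl d l).filter (fun s => Nat.size #(Z s) = k),
          (2 ^ ε * (q ^ 2) ^ k) * (#(Z s) : ℝ)) * t ^ p :=
          mul_le_mul_of_nonneg_right (Finset.sum_le_sum h2) (by positivity)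
      _ = (2 ^ ε * (q ^ 2) ^ k) * ((∑ s ∈ (Sl d l).filter (fun s => Nat.size #(Z s) = k),
          (#(Z s) : ℝ)) * t ^ p) := by
          rw [← Finset.mul_sum]
          ring
      _ ≤ (2 ^ ε * (q ^ 2) ^ k) * (C * ((2 ^ k : ℕ) : ℝ) ^ (ε / 2) * (N * (N ^ (-r)) ^ p)) :=
          mul_le_mul_of_nonneg_left h1 (by positivity)
      _ = 2 ^ ε * C * (N * (N ^ (-r)) ^ p) * q ^ k * (((2 ^ k : ℕ) : ℝ) ^ (ε / 2) * q ^ k) := by
          ring
      _ = _ := by rw [h3, mul_one]
  rw [hfib, Finset.sum_mul]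
  refine (Finset.sum_le_sum hk).trans ?_
  rw [← Finset.mul_sum]
  have h4 : ∑ k ∈ T, q ^ k ≤ (1 - q)⁻¹ := by
    rw [← tsum_geometric_of_lt_one hq0.le hq1]
    exact (summable_geometric_of_lt_one hq0.le hq1).sum_le_tsum T (fun _ _ => by positivity)
  calc 2 ^ ε * C * (N * (N ^ (-r)) ^ p) * ∑ k ∈ T, q ^ k
      ≤ 2 ^ ε * C * (N * (N ^ (-r)) ^ p) * (1 - q)⁻¹ :=
        mul_le_mul_of_nonneg_left h4 (by positivity)
    _ = _ := by ring

end

end Pool.Agent.H75.UX
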