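import Pool.Agent.H75.UX.Lay0

set_option autoImplicit false
set_option linter.unusedSectionVars false
set_option linter.unusedVariables false

/-!
# The energies of the parts with small height
-/

open Finset ComplexConjugate MeasureTheory

open scoped Classical

namespace Pool.Agent.H75.UX

open Pool.Agent.H75.MT (ee ee_add ee_norm ee_conj ee_int ee_zero)
open Pool.Agent.H75.UB

noncomputable section

local instance msRem : MeasureSpace UnitAddCircle := ⟨AddCircle.haarAddCircle⟩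

variable {d : ℕ}

/-- the square root against a smaller power -/
lemma rem_sqrt_le {ε x Y : ℝ} (hε : ε < 1 / 2) (hx : 0 ≤ x) (hY : 0 < Y) :
    Real.sqrt x ≤ Y ^ (1 / 2 : ℝ) + x ^ (1 - ε) * Y ^ (ε - 1 / 2) := by
  rw [Real.sqrt_eq_rpow]
  rcases le_or_gt x Y with h | h
  · have h1 : x ^ (1 / 2 : ℝ) ≤ Y ^ (1 / 2 : ℝ) := Real.rpow_le_rpow hx h (by norm_num)
    have h2 : 0 ≤ x ^ (1 - ε) * Y ^ (ε - 1 / 2) := by positivity
    linarith
  · have hx0 : 0 < x := hY.trans h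
    have h1 : x ^ (1 / 2 : ℝ) = x ^ (1 - ε) * x ^ (ε - 1 / 2) := by
      rw [← Real.rpow_add hx0]
      congr 1
      ring
    have h2 : x ^ (ε - 1 / 2) ≤ Y ^ (ε - 1 / 2) :=
      Real.rpow_le_rpow_of_nonpos hY h.le (by linarith)
    have h3 : x ^ (1 - ε) * x ^ (ε - 1 / 2) ≤ x ^ (1 - ε) * Y ^ (ε - 1 / 2) :=
      mul_le_mul_of_nonneg_left h2 (by positivity)
    have h4 : 0 < Y ^ (1 / 2 : ℝ) := by positivity
    linarith

/-- the sum of the square roots at one level -/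
lemma rem_level {ι : Type*} (S : Finset ι) (x : ι → ℝ) (hx : ∀ s ∈ S, 0 ≤ x s)
    {p ε C cd P v : ℝ} (hε : ε < 1 / 2) (hP : 0 < P) (hS : (#S : ℝ) ≤ cd * P)
    (hL : ∑ s ∈ S, x s ^ (1 - ε) ≤ C * P * (2 : ℝ) ^ (p * v)) :
    ∑ s ∈ S, Real.sqrt (x s) ≤ (cd + C) * P * (2 : ℝ) ^ (p * v / (2 * (1 - ε))) := by
  have hε1 : 0 < 1 - ε := by linarith
  set Y : ℝ := (2 : ℝ) ^ (p * v / (1 - ε)) with hY
  have hY0 : 0 < Y := by positivity
  have e1 : Y ^ (1 / 2 : ℝ) = (2 : ℝ) ^ (p * v / (2 * (1 - ε))) := by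
    rw [hY, ← Real.rpow_mul (by norm_num)]
    congr 1
    field_simp
  have e2 : (2 : ℝ) ^ (p * v) * Y ^ (ε - 1 / 2) = (2 : ℝ) ^ (p * v / (2 * (1 - ε))) := by
    rw [hY, ← Real.rpow_mul (by norm_num), ← Real.rpow_add (by norm_num)]
    congr 1
    field_simp
    ring
  calc ∑ s ∈ S, Real.sqrt (x s)
      ≤ ∑ s ∈ S, (Y ^ (1 / 2 : ℝ) + x s ^ (1 - ε) * Y ^ (ε - 1 / 2)) :=
        Finset.sum_le_sum fun s hs => rem_sqrt_le hε (hx s hs) hY0
    _ = #S * Y ^ (1 / 2 : ℝ) + (∑ s ∈ S, x s ^ (1 - ε)) * Y ^ (ε - 1 / 2) := by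
        rw [Finset.sum_add_distrib, Finset.sum_const, nsmul_eq_mul, Finset.sum_mul]
    _ ≤ cd * P * Y ^ (1 / 2 : ℝ) + (C * P * (2 : ℝ) ^ (p * v)) * Y ^ (ε - 1 / 2) := by
        gcongr
    _ = (cd + C) * P * (2 : ℝ) ^ (p * v / (2 * (1 - ε))) := by
        rw [mul_assoc (C * P), e2, e1]
        ring

/-- square root of a finite sum -/
lemma rem_sqrt_sum {κ : Type*} (T : Finset κ) (f : κ → ℝ) (hf : ∀ k ∈ T, 0 ≤ f k) :
    Real.sqrt (∑ k ∈ T, f k) ≤ ∑ k ∈ T, Real.sqrt (f k) := by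
  rw [Real.sqrt_le_left (Finset.sum_nonneg fun k _ => Real.sqrt_nonneg _)]
  calc ∑ k ∈ T, f k = ∑ k ∈ T, (Real.sqrt (f k)) ^ 2 :=
        Finset.sum_congr rfl fun k hk => (Real.sq_sqrt (hf k hk)).symm
    _ ≤ (∑ k ∈ T, Real.sqrt (f k)) ^ 2 :=
        Finset.sum_sq_le_sq_sum_of_nonneg fun k _ => Real.sqrt_nonneg _

/-- abstract form -/
lemma rem_core {ι κ : Type*} (S : Finset ι) (Gd : ι → Finset κ) (w : ι → κ → ℝ)
    (hw : ∀ s ζ, 0 ≤ w s ζ) {p ε C cd P H : ℝ} (hp : 0 < p) (hε : ε < 1 / 2)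
    (hpε : p < 2 * (1 - ε)) (hP : 0 < P) (hH : 0 < H) (hC : 0 ≤ C) (hcd : 0 ≤ cd)
    (hS : (#S : ℝ) ≤ cd * P)
    (hL : ∀ v : ℝ, ∑ s ∈ S, (#((Gd s).filter (fun ζ => (2 : ℝ) ^ (-v) * H ≤ w s ζ)) : ℝ) ^ (1 - ε)
      ≤ C * P * (2 : ℝ) ^ (p * v)) (v0 : ℕ) :
    ∑ s ∈ S, Real.sqrt (∑ ζ ∈ (Gd s).filter (fun ζ => w s ζ ≤ (2 : ℝ) ^ (-(v0 : ℝ)) * H), w s ζ ^ 2)
      ≤ (2 * (cd + C) / (1 - (2 : ℝ) ^ (-(1 - p / (2 * (1 - ε)))))) *
        (2 : ℝ) ^ (-((1 - p / (2 * (1 - ε))) * v0)) * (P * H) := by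
  have hε1 : 0 < 1 - ε := by linarith
  set γ : ℝ := 1 - p / (2 * (1 - ε)) with hγdef
  have hγ : 0 < γ := by
    rw [hγdef, sub_pos, div_lt_one (by positivity)]
    exact hpε
  set t0 : ℝ := (2 : ℝ) ^ (-(v0 : ℝ)) * H with ht0
  have ht0pos : 0 < t0 := by positivity
  -- the last level
  have hK : ∃ K : ℕ, ∀ s ∈ S, ∀ ζ ∈ Gd s, 0 < w s ζ → (1 / 2 : ℝ) ^ K * t0 < w s ζ := by
    have h1 : ∀ (q : Σ _ : ι, κ), ∃ K : ℕ, 0 < w q.1 q.2 → (1 / 2 : ℝ) ^ K * t0 < w q.1 q.2 := by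
      intro q
      by_cases hq : 0 < w q.1 q.2
      · obtain ⟨K, hK⟩ := exists_pow_lt_of_lt_one (show 0 < w q.1 q.2 / t0 by positivity)
          (show (1 / 2 : ℝ) < 1 by norm_num)
        exact ⟨K, fun _ => by rwa [lt_div_iff₀ ht0pos] at hK⟩
      · exact ⟨0, fun h => absurd h hq⟩
    choose kk hkk using h1
    refine ⟨(S.sigma Gd).sup kk, fun s hs ζ hζ hpos => ?_⟩
    have h2 : kk ⟨s, ζ⟩ ≤ (S.sigma Gd).sup kk :=
      Finset.le_sup (f := kk) (Finset.mem_sigma.2 ⟨hs, hζ⟩)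
    have h3 := hkk ⟨s, ζ⟩ hpos
    refine lt_of_le_of_lt ?_ h3
    have h4 : (1 / 2 : ℝ) ^ ((S.sigma Gd).sup kk) ≤ (1 / 2 : ℝ) ^ (kk ⟨s, ζ⟩) :=
      pow_le_pow_of_le_one (by norm_num) (by norm_num) h2
    exact mul_le_mul_of_nonneg_right h4 ht0pos.le
  obtain ⟨K, hK⟩ := hK
  -- the levels
  have hlev : ∀ k : ℕ, (2 : ℝ) ^ (-((v0 : ℝ) + k + 1)) * H = (1 / 2 : ℝ) ^ (k + 1) * t0 := by
    intro k
    rw [ht0, ← mul_assoc]
    congr 1
    rw [one_div, inv_pow, ← Real.rpow_natCast, ← Real.rpow_neg (by norm_num),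
      ← Real.rpow_add (by norm_num)]
    congr 1
    push_cast
    ring
  set L : ℕ → ι → Finset κ := fun k s =>
    (Gd s).filter (fun ζ => (2 : ℝ) ^ (-((v0 : ℝ) + k + 1)) * H ≤ w s ζ) with hLdef
  have hstep : ∀ s ∈ S, Real.sqrt (∑ ζ ∈ (Gd s).filter (fun ζ => w s ζ ≤ t0), w s ζ ^ 2)
      ≤ ∑ k ∈ range K, (1 / 2 : ℝ) ^ k * t0 * Real.sqrt (#(L k s)) := by
    intro s hs
    have h1 : ∑ ζ ∈ (Gd s).filter (fun ζ => w s ζ ≤ t0), w s ζ ^ 2
        ≤ ∑ k ∈ range K, (#(L k s) : ℝ) * ((1 / 2 : ℝ) ^ k * t0) ^ 2 := by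
      have h2 : ∀ ζ ∈ (Gd s).filter (fun ζ => w s ζ ≤ t0), w s ζ ^ 2
          ≤ ∑ k ∈ range K, if ζ ∈ L k s then ((1 / 2 : ℝ) ^ k * t0) ^ 2 else 0 := by
        intro ζ hζ
        obtain ⟨hζ1, hζ2⟩ := Finset.mem_filter.1 hζ
        rcases (hw s ζ).eq_or_lt with h0 | h0
        · rw [← h0]
          simp only [ne_eq, OfNat.ofNat_ne_zero, not_false_eq_true, zero_pow]
          refine Finset.sum_nonneg fun k _ => ?_
          split_ifs <;> positivity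
        · obtain ⟨m, hm1, hm2⟩ := exists_nat_pow_near_of_lt_one (x := w s ζ / t0) (y := 1 / 2)
            (by positivity) (by rwa [div_le_one ht0pos]) (by norm_num) (by norm_num)
          have hmK : m < K := by
            by_contra hc
            have hc' : K ≤ m := Nat.le_of_not_lt hc
            have h3 := hK s hs ζ hζ1 h0
            have h4 : (1 / 2 : ℝ) ^ m ≤ (1 / 2 : ℝ) ^ K :=
              pow_le_pow_of_le_one (by norm_num) (by norm_num) hc'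
            rw [← lt_div_iff₀ ht0pos] at h3
            linarith
          have hmem : ζ ∈ L m s := by
            rw [hLdef]
            simp only [Finset.mem_filter]
            refine ⟨hζ1, ?_⟩
            rw [hlev]
            rw [lt_div_iff₀ ht0pos] at hm1
            exact hm1.le
          have h5 : w s ζ ≤ (1 / 2 : ℝ) ^ m * t0 := by
            rwa [div_le_iff₀ ht0pos] at hm2
          calc w s ζ ^ 2 ≤ ((1 / 2 : ℝ) ^ m * t0) ^ 2 := pow_le_pow_left₀ h0.le h5 2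
            _ = if ζ ∈ L m s then ((1 / 2 : ℝ) ^ m * t0) ^ 2 else 0 := by rw [if_pos hmem]
            _ ≤ _ := Finset.single_le_sum
                (f := fun k => if ζ ∈ L k s then ((1 / 2 : ℝ) ^ k * t0) ^ 2 else 0)
                (fun k _ => by split_ifs <;> positivity) (Finset.mem_range.2 hmK)
      calc ∑ ζ ∈ (Gd s).filter (fun ζ => w s ζ ≤ t0), w s ζ ^ 2
          ≤ ∑ ζ ∈ (Gd s).filter (fun ζ => w s ζ ≤ t0),
              ∑ k ∈ range K, (if ζ ∈ L k s then ((1 / 2 : ℝ) ^ k * t0) ^ 2 else 0) :=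
            Finset.sum_le_sum h2
        _ ≤ ∑ ζ ∈ Gd s, ∑ k ∈ range K, (if ζ ∈ L k s then ((1 / 2 : ℝ) ^ k * t0) ^ 2 else 0) := by
            refine Finset.sum_le_sum_of_subset_of_nonneg (Finset.filter_subset _ _) ?_
            intro ζ _ _
            refine Finset.sum_nonneg fun k _ => ?_
            split_ifs <;> positivity
        _ = ∑ k ∈ range K, (#(L k s) : ℝ) * ((1 / 2 : ℝ) ^ k * t0) ^ 2 := by
            rw [Finset.sum_comm]
            refine Finset.sum_congr rfl fun k _ => ?_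
            rw [← Finset.sum_filter, Finset.sum_const, nsmul_eq_mul]
            congr 3
            rw [hLdef]
            ext ζ
            simp
    refine (Real.sqrt_le_sqrt h1).trans ((rem_sqrt_sum _ _ fun k _ => by positivity).trans ?_)
    refine Finset.sum_le_sum fun k _ => ?_
    rw [Real.sqrt_mul (by positivity), Real.sqrt_sq (by positivity)]
    exact le_of_eq (mul_comm _ _)
  -- the sum over the levels
  have hlevel : ∀ k : ℕ, ∑ s ∈ S, Real.sqrt (#(L k s)) ≤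
      (cd + C) * P * (2 : ℝ) ^ (p * ((v0 : ℝ) + k + 1) / (2 * (1 - ε))) := by
    intro k
    exact rem_level S (fun s => (#(L k s) : ℝ)) (fun s _ => by positivity) hε hP hS
      (hL ((v0 : ℝ) + k + 1))
  set ρ : ℝ := (2 : ℝ) ^ (-γ) with hρ
  have hρ0 : 0 < ρ := by positivity
  have hρ1 : ρ < 1 := Real.rpow_lt_one_of_one_lt_of_neg (by norm_num) (by linarith)
  have hterm : ∀ k : ℕ, (1 / 2 : ℝ) ^ k * t0 *
      ((cd + C) * P * (2 : ℝ) ^ (p * ((v0 : ℝ) + k + 1) / (2 * (1 - ε))))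
      = 2 * (cd + C) * (P * H) * (2 : ℝ) ^ (-(γ * v0)) * (ρ * ρ ^ k) := by
    intro k
    have e1 : (1 / 2 : ℝ) ^ k * t0 = 2 * ((2 : ℝ) ^ (-((v0 : ℝ) + k + 1)) * H) := by
      rw [hlev, pow_succ]; ring
    have e2 : (2 : ℝ) ^ (-((v0 : ℝ) + k + 1)) * (2 : ℝ) ^ (p * ((v0 : ℝ) + k + 1) / (2 * (1 - ε)))
        = (2 : ℝ) ^ (-(γ * v0)) * (ρ * ρ ^ k) := by
      rw [hρ, ← Real.rpow_natCast, ← Real.rpow_mul (by norm_num), ← Real.rpow_add (by norm_num),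
        ← Real.rpow_add (by norm_num), ← Real.rpow_add (by norm_num)]
      congr 1
      rw [hγdef]
      field_simp
      ring
    calc (1 / 2 : ℝ) ^ k * t0 * ((cd + C) * P * (2 : ℝ) ^ (p * ((v0 : ℝ) + k + 1) / (2 * (1 - ε))))
        = 2 * (cd + C) * (P * H) * ((2 : ℝ) ^ (-((v0 : ℝ) + k + 1)) *
            (2 : ℝ) ^ (p * ((v0 : ℝ) + k + 1) / (2 * (1 - ε)))) := by rw [e1]; ring
      _ = _ := by rw [e2]; ring
  have hgeo : ∑ k ∈ range K, ρ * ρ ^ k ≤ 1 / (1 - ρ) := by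
    rw [← Finset.mul_sum]
    have h1 : ∑ k ∈ range K, ρ ^ k ≤ 1 / (1 - ρ) := by
      have h2 := (summable_geometric_of_lt_one hρ0.le hρ1).sum_le_tsum (range K)
        (fun k _ => by positivity)
      rwa [tsum_geometric_of_lt_one hρ0.le hρ1, inv_eq_one_div] at h2
    have h3 : 0 ≤ ∑ k ∈ range K, ρ ^ k := Finset.sum_nonneg fun k _ => by positivity
    nlinarith
  have hfin : ∑ s ∈ S, ∑ k ∈ range K, (1 / 2 : ℝ) ^ k * t0 * Real.sqrt (#(L k s))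
      ≤ ∑ k ∈ range K, 2 * (cd + C) * (P * H) * (2 : ℝ) ^ (-(γ * v0)) * (ρ * ρ ^ k) := by
    rw [Finset.sum_comm]
    refine Finset.sum_le_sum fun k _ => ?_
    rw [← Finset.mul_sum, ← hterm k]
    exact mul_le_mul_of_nonneg_left (hlevel k) (by positivity)
  refine (Finset.sum_le_sum hstep).trans (hfin.trans ?_)
  rw [← Finset.mul_sum]
  calc 2 * (cd + C) * (P * H) * (2 : ℝ) ^ (-(γ * v0)) * ∑ k ∈ range K, ρ * ρ ^ k
      ≤ 2 * (cd + C) * (P * H) * (2 : ℝ) ^ (-(γ * v0)) * (1 / (1 - ρ)) :=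
        mul_le_mul_of_nonneg_left hgeo (by positivity)
    _ = _ := by ring

/-- [Rem] the energies of the parts with small height -/
theorem rem (d : ℕ) (p r : ℝ) (hd : 0 < d) (hp1 : 1 < p) (hp2 : p < 2) (hr : 0 < r)
    (hRT : RTSt d p r) : RemSt d p r := by
  have he0 : 0 < eps p := by unfold eps; linarith
  have he1 : eps p < 1 / 2 := by unfold eps; linarith
  have hpe : p < 2 * (1 - eps p) := by unfold eps; linarith
  obtain ⟨C, hC, hRT⟩ := hRT (eps p) he0 (by linarith)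
  have hγ : 0 < 1 - p / (2 * (1 - eps p)) := by
    rw [sub_pos, div_lt_one (by linarith)]
    exact hpe
  have hρ1 : (2 : ℝ) ^ (-(1 - p / (2 * (1 - eps p)))) < 1 :=
    Real.rpow_lt_one_of_one_lt_of_neg (by norm_num) (by linarith)
  refine ⟨2 * ((2 : ℝ) ^ (d - 1) + C) / (1 - (2 : ℝ) ^ (-(1 - p / (2 * (1 - eps p))))), ?_, ?_⟩
  · apply div_pos (by positivity)
    linarith
  intro φ hφ hφ1 n l v0 hl
  have hP : (0 : ℝ) < ((n : ℝ) + 1) ^ (d - 1) := by positivity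
  have hH : 0 < H0 d p r n l := by unfold H0; positivity
  have hS : (#(Sl d l) : ℝ) ≤ (2 : ℝ) ^ (d - 1) * ((n : ℝ) + 1) ^ (d - 1) := by
    have h1 : (#(Sl d l) : ℝ) ≤ ((l : ℝ) + 1) ^ (d - 1) := by exact_mod_cast Sl_card hd l
    refine h1.trans ?_
    rw [← mul_pow]
    apply pow_le_pow_left₀ (by positivity)
    have h2 : (l : ℝ) ≤ 2 * n := by exact_mod_cast hl
    linarith
  have hL : ∀ v : ℝ, ∑ s ∈ Sl d l, (#((grid s).filter (fun ζ =>
      (2 : ℝ) ^ (-v) * H0 d p r n l ≤ ‖fa (bc r φ) s ζ‖)) : ℝ) ^ (1 - eps p)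
      ≤ C * ((n : ℝ) + 1) ^ (d - 1) * (2 : ℝ) ^ (p * v) := by
    intro v
    have ht : 0 < (2 : ℝ) ^ (-v) * H0 d p r n l := by positivity
    have h1 := hRT φ hφ hφ1 l (fun s => (grid s).filter (fun ζ =>
      (2 : ℝ) ^ (-v) * H0 d p r n l ≤ ‖fa (bc r φ) s ζ‖)) _ ht
      (fun s _ => Finset.filter_subset _ _) (fun s _ ζ hζ => (Finset.mem_filter.1 hζ).2)
    have h2 : ((2 : ℝ) ^ (-v) * H0 d p r n l) ^ p = (2 : ℝ) ^ (-(p * v)) *
        ((((2 : ℝ) ^ l) ^ (-r)) ^ p * ((2 : ℝ) ^ l / ((n : ℝ) + 1) ^ (d - 1))) := by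
      rw [Real.mul_rpow (by positivity) hH.le]
      congr 1
      · rw [← Real.rpow_mul (by norm_num)]
        congr 1
        ring
      · unfold H0
        rw [Real.mul_rpow (by positivity) (by positivity)]
        congr 1
        rw [← Real.rpow_mul (by positivity), one_div, inv_mul_cancel₀ (by linarith),
          Real.rpow_one]
    rw [h2] at h1
    set X : ℝ := (((2 : ℝ) ^ l) ^ (-r)) ^ p with hX
    have hX0 : 0 < X := by positivity
    set P : ℝ := ((n : ℝ) + 1) ^ (d - 1) with hPdef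
    have h3 : (2 : ℝ) ^ (-(p * v)) * (2 : ℝ) ^ (p * v) = 1 := by
      rw [← Real.rpow_add (by norm_num)]; simp
    have h4 : 0 < (2 : ℝ) ^ (-(p * v)) * (X * ((2 : ℝ) ^ l / P)) := by positivity
    rw [← le_div_iff₀ h4] at h1
    refine h1.trans (le_of_eq ?_)
    rw [div_eq_iff h4.ne']
    have h5 : P ≠ 0 := hP.ne'
    calc C * 2 ^ l * X = C * 2 ^ l * X * ((2 : ℝ) ^ (-(p * v)) * (2 : ℝ) ^ (p * v)) := by
          rw [h3, mul_one]
      _ = _ := by field_simp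
  have key := rem_core (Sl d l) (fun s => grid s) (fun s ζ => ‖fa (bc r φ) s ζ‖)
    (fun s ζ => norm_nonneg _) (by linarith) he1 hpe hP hH hC.le (by positivity) hS hL v0
  have hNT : ∀ s ∈ Sl d l, Real.sqrt ((∑ ζ ∈ (grid s).filter (fun ζ => ‖fa (bc r φ) s ζ‖
        ≤ (2 : ℝ) ^ (-(v0 : ℝ)) * H0 d p r n l), ‖fa (bc r φ) s ζ‖ ^ 2) / NT s)
      ≤ Real.sqrt (∑ ζ ∈ (grid s).filter (fun ζ => ‖fa (bc r φ) s ζ‖
        ≤ (2 : ℝ) ^ (-(v0 : ℝ)) * H0 d p r n l), ‖fa (bc r φ) s ζ‖ ^ 2) / Real.sqrt (2 ^ l) := by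
    intro s hs
    rw [Real.sqrt_div (Finset.sum_nonneg fun ζ _ => by positivity)]
    apply div_le_div_of_nonneg_left (Real.sqrt_nonneg _) (by positivity)
    apply Real.sqrt_le_sqrt
    rw [NT_eq, mem_Sl.1 hs]
    push_cast
    exact pow_le_pow_right₀ (by norm_num) (by omega)
  refine (Finset.sum_le_sum hNT).trans ?_
  rw [← Finset.sum_div]
  calc (∑ s ∈ Sl d l, Real.sqrt (∑ ζ ∈ (grid s).filter (fun ζ => ‖fa (bc r φ) s ζ‖
        ≤ (2 : ℝ) ^ (-(v0 : ℝ)) * H0 d p r n l), ‖fa (bc r φ) s ζ‖ ^ 2)) / Real.sqrt (2 ^ l)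
      ≤ ((2 * ((2 : ℝ) ^ (d - 1) + C) / (1 - (2 : ℝ) ^ (-(1 - p / (2 * (1 - eps p)))))) *
        (2 : ℝ) ^ (-((1 - p / (2 * (1 - eps p))) * v0)) *
        (((n : ℝ) + 1) ^ (d - 1) * H0 d p r n l)) / Real.sqrt (2 ^ l) := by
        apply div_le_div_of_nonneg_right key (by positivity)
    _ = _ := by
        unfold gam
        ring

end

end Pool.Agent.H75.UX
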