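import Pool.Agent.H75.UX.Defs
import Pool.Agent.H12.UBX.SelB

set_option autoImplicit false
set_option linter.unusedSectionVars false

/-! [M5] the choice of the multipliers. -/

open Finset

open scoped Classical

namespace Pool.Agent.H75.UX

open Pool.Agent.H75.UB Pool.Agent.H12.UBX

lemma sel_cn_le (J : ℕ) (z : ℤ) : cn (z : ZMod (2 ^ J)) ≤ z.natAbs := by
  unfold cn
  refine ZMod.natAbs_min_of_le_div_two (2 ^ J) _ z ?_ ?_
  · rw [ZMod.coe_valMinAbs]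
  · exact ZMod.natAbs_valMinAbs_le _

lemma sel_jd (J g : ℕ) (h : ZMod (2 ^ J)) : (2 : ℝ) ^ (jd g h) ≤ max 1 ((cn h : ℝ) / 2 ^ g) := by
  unfold jd
  rcases Nat.eq_zero_or_pos (cn h / 2 ^ g) with h0 | h0
  · rw [h0]
    simp
  · refine le_max_of_le_right ?_
    have h1 : 2 ^ (Nat.log 2 (cn h / 2 ^ g)) ≤ cn h / 2 ^ g := Nat.pow_log_le_self 2 (by omega)
    have h2 : 2 ^ (Nat.log 2 (cn h / 2 ^ g)) * 2 ^ g ≤ cn h :=
      (Nat.mul_le_mul_right _ h1).trans (Nat.div_mul_le_self _ _)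
    rw [le_div_iff₀ (by positivity)]
    exact_mod_cast h2

lemma sel_pw (J g : ℕ) (h : ℤ) : pw (2 ^ g) 4 h ≤ om g (h : ZMod (2 ^ J)) ^ 2 := by
  unfold pw om
  have h1 := sel_jd J g (h : ZMod (2 ^ J))
  have h2 : max 1 ((cn (h : ZMod (2 ^ J)) : ℝ) / 2 ^ g) ≤ max 1 (|(h : ℝ)| / (2 ^ g : ℕ)) := by
    refine max_le_max le_rfl ?_
    push_cast
    refine div_le_div_of_nonneg_right ?_ (by positivity)
    have h3 := sel_cn_le J h
    have h4 : ((cn (h : ZMod (2 ^ J)) : ℕ) : ℝ) ≤ ((h.natAbs : ℕ) : ℝ) := by exact_mod_cast h3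
    refine h4.trans (le_of_eq ?_)
    rw [Nat.cast_natAbs]
    push_cast
    rfl
  have h3 : (((1 : ℝ) / 4) ^ (jd g (h : ZMod (2 ^ J)))) ^ 2
      = 1 / (2 ^ (jd g (h : ZMod (2 ^ J)))) ^ 4 := by
    rw [← pow_mul, ← pow_mul, one_div, one_div, inv_pow]
    congr 1
    rw [show (4 : ℝ) = 2 ^ 2 by norm_num, ← pow_mul]
    congr 1
    ring
  rw [h3]
  refine one_div_le_one_div_of_le (by positivity) ?_
  exact pow_le_pow_left₀ (by positivity) (h1.trans h2) 4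

lemma sel_kp (J : ℕ) (t : ℝ) (m : ℤ) : kp (2 ^ J) 4 (t - (m : ℝ) / (2 ^ J : ℕ))
    ≤ 16 * (1 / 4 : ℝ) ^ (kd (cn (((round ((2 ^ J : ℕ) * t) : ℤ) : ZMod (2 ^ J))
      - (m : ZMod (2 ^ J))))) := by
  set q : ℝ := ((2 ^ J : ℕ) : ℝ) with hq
  have hq0 : 0 < q := by rw [hq]; positivity
  set n0 : ℤ := round (q * t) with hn0
  set c : ℕ := cn (((n0 : ℤ) : ZMod (2 ^ J)) - (m : ZMod (2 ^ J))) with hc
  set r : ℤ := round (t - (m : ℝ) / q) with hr
  have h1 : (c : ℝ) - 1 / 2 ≤ q * nu (t - (m : ℝ) / q) := by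
    have h2 : c ≤ (n0 - m - (2 ^ J : ℕ) * r).natAbs := by
      have h3 := sel_cn_le J (n0 - m - (2 ^ J : ℕ) * r)
      have h4 : (((n0 - m - (2 ^ J : ℕ) * r : ℤ)) : ZMod (2 ^ J))
          = (n0 : ZMod (2 ^ J)) - (m : ZMod (2 ^ J)) := by
        push_cast
        have : ((2 : ZMod (2 ^ J)) ^ J) = 0 := by
          have h5 := ZMod.natCast_self (2 ^ J)
          push_cast at h5
          exact h5
        rw [this, zero_mul, sub_zero]
      rw [h4] at h3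
      exact h3
    have h3 : (c : ℝ) ≤ |(n0 : ℝ) - m - q * r| := by
      have h4 : ((c : ℕ) : ℝ) ≤ (((n0 - m - (2 ^ J : ℕ) * r).natAbs : ℕ) : ℝ) := by exact_mod_cast h2
      refine h4.trans (le_of_eq ?_)
      rw [Nat.cast_natAbs]
      push_cast
      rw [hq]
      push_cast
      rfl
    have h4 : |q * t - n0| ≤ 1 / 2 := abs_sub_round (q * t)
    have h5 : q * nu (t - (m : ℝ) / q) = |q * t - m - q * r| := by
      unfold nu
      rw [← abs_of_pos hq0, ← abs_mul, abs_of_pos hq0]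
      congr 1
      rw [← hr]
      field_simp
    rw [h5]
    have h6 : |(n0 : ℝ) - m - q * r| ≤ |q * t - m - q * r| + |q * t - n0| := by
      have : (n0 : ℝ) - m - q * r = (q * t - m - q * r) - (q * t - n0) := by ring
      rw [this]
      exact abs_sub _ _
    linarith
  have h2 : ((2 : ℝ) ^ (kd c)) / 2 ≤ max 1 (q * nu (t - (m : ℝ) / q)) := by
    have h3 : 2 ^ (kd c) ≤ c + 1 := Nat.pow_log_le_self 2 (by omega)
    have h4 : (2 : ℝ) ^ (kd c) ≤ c + 1 := by exact_mod_cast h3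
    rcases le_or_gt ((2 : ℝ) ^ (kd c) / 2) 1 with h5 | h5
    · exact le_max_of_le_left h5
    · refine le_max_of_le_right ?_
      have h6 : (2 : ℝ) < c + 1 := by linarith
      have h7 : (2 : ℝ) ≤ c := by
        have : (2 : ℕ) < c + 1 := by exact_mod_cast h6
        exact_mod_cast (by omega : 2 ≤ c)
      linarith
  unfold kp
  have h3 : 1 / (max 1 (q * nu (t - (m : ℝ) / q))) ^ 4 ≤ 1 / (((2 : ℝ) ^ (kd c)) / 2) ^ 4 :=
    one_div_le_one_div_of_le (by positivity) (pow_le_pow_left₀ (by positivity) h2 4)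
  refine h3.trans ?_
  have h4 : (1 : ℝ) / (((2 : ℝ) ^ (kd c)) / 2) ^ 4 = 16 * (1 / 16) ^ (kd c) := by
    rw [div_pow, ← pow_mul, one_div_div, one_div, inv_pow]
    have : (16 : ℝ) ^ (kd c) = 2 ^ (kd c * 4) := by
      rw [show (16 : ℝ) = 2 ^ 4 by norm_num, ← pow_mul]
      congr 1
      ring
    rw [this]
    norm_num
    ring
  rw [h4]
  have h5 : ((1 : ℝ) / 16) ^ (kd c) ≤ (1 / 4) ^ (kd c) :=
    pow_le_pow_left₀ (by norm_num) (by norm_num) _
  linarith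

lemma sel_inj (J : ℕ) (hJ : 1 ≤ J) : ∀ h ∈ Hs (2 ^ J), ∀ h' ∈ Hs (2 ^ J),
    ((h : ℤ) : ZMod (2 ^ J)) = h' → h = h' := by
  intro h hh h' hh' he
  unfold Hs at hh hh'
  rw [mem_Ico] at hh hh'
  have h1 : ((h - h' : ℤ) : ZMod (2 ^ J)) = 0 := by
    push_cast
    rw [he, sub_self]
  rw [ZMod.intCast_zmod_eq_zero_iff_dvd] at h1
  have e0 : 2 ^ J = 2 * 2 ^ (J - 1) := by
    rw [← pow_succ']
    congr 1
    omega
  have h2 : (h - h').natAbs < 2 ^ J := by omega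
  have h3 : h - h' = 0 := by
    refine Int.eq_zero_of_abs_lt_dvd h1 ?_
    have : |h - h'| = ((h - h').natAbs : ℤ) := Int.abs_eq_natAbs _
    rw [this]
    exact_mod_cast h2
  omega

lemma sel_zero_mem (J : ℕ) (hJ : 1 ≤ J) : (0 : ℤ) ∈ Hs (2 ^ J) := by
  unfold Hs
  rw [mem_Ico]
  have e0 : 2 ^ J = 2 * 2 ^ (J - 1) := by
    rw [← pow_succ']
    congr 1
    omega
  have : 0 < 2 ^ (J - 1) := by positivity
  omega

/-- the weight of a block, in the cyclic group -/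
lemma sel_wt (J g b : ℕ) (hJ : 1 ≤ J) (U : Finset ℕ) (hU : U ⊆ Finset.range (2 ^ J)) (t : ℝ) :
    wt 4 J g b U t ≤ ∑ h ∈ (univ : Finset (ZMod (2 ^ J))).filter (fun h => h ≠ 0),
      ∑ u ∈ U.image (fun u : ℕ => (u : ZMod (2 ^ J))), om g h ^ 2 * (16 * (1 / 4 : ℝ) ^ (kd (cn
        (((round ((2 ^ J : ℕ) * t) : ℤ) : ZMod (2 ^ J)) - (u - h * (b : ZMod (2 ^ J))))))) := by
  set y0 : ZMod (2 ^ J) := ((round ((2 ^ J : ℕ) * t) : ℤ) : ZMod (2 ^ J)) with hy0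
  set F : ZMod (2 ^ J) → ZMod (2 ^ J) → ℝ := fun h u => om g h ^ 2 * (16 * (1 / 4 : ℝ) ^ (kd (cn
        (y0 - (u - h * (b : ZMod (2 ^ J))))))) with hF
  have hF0 : ∀ h u, 0 ≤ F h u := fun h u => by
    rw [hF]
    positivity
  have h1 : wt 4 J g b U t ≤ ∑ h ∈ Hn (2 ^ J), ∑ u ∈ U, F (h : ZMod (2 ^ J)) (u : ZMod (2 ^ J)) := by
    unfold wt
    refine Finset.sum_le_sum (fun h _ => Finset.sum_le_sum (fun u _ => ?_))
    have h2 := sel_pw J g h
    have h3 := sel_kp J t ((u : ℤ) - h * b)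
    have e1 : t - (((u : ℤ) - h * b : ℤ) : ℝ) / (2 ^ J : ℕ)
        = t - (u : ℝ) / (2 ^ J : ℕ) + (h : ℝ) * b / (2 ^ J : ℕ) := by
      push_cast
      ring
    have e2 : (((u : ℤ) - h * b : ℤ) : ZMod (2 ^ J))
        = (u : ZMod (2 ^ J)) - (h : ZMod (2 ^ J)) * (b : ZMod (2 ^ J)) := by
      push_cast
      rfl
    rw [e1, e2] at h3
    refine mul_le_mul h2 h3 ?_ (by positivity)
    unfold kp
    positivity
  refine h1.trans ?_
  have h2 : ∀ h : ZMod (2 ^ J), ∑ u ∈ U, F h (u : ZMod (2 ^ J))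
      = ∑ u ∈ U.image (fun u : ℕ => (u : ZMod (2 ^ J))), F h u := by
    intro h
    rw [Finset.sum_image]
    intro u hu u' hu' he
    have hu1 := Finset.mem_range.1 (hU hu)
    have hu2 := Finset.mem_range.1 (hU hu')
    simp only at he
    rw [ZMod.natCast_eq_natCast_iff'] at he
    rw [Nat.mod_eq_of_lt hu1, Nat.mod_eq_of_lt hu2] at he
    exact he
  simp only [h2]
  have h3 : ∑ h ∈ Hn (2 ^ J), ∑ u ∈ U.image (fun u : ℕ => (u : ZMod (2 ^ J))),
      F (h : ZMod (2 ^ J)) u = ∑ h ∈ (Hn (2 ^ J)).image (fun h : ℤ => (h : ZMod (2 ^ J))),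
        ∑ u ∈ U.image (fun u : ℕ => (u : ZMod (2 ^ J))), F h u := by
    rw [Finset.sum_image]
    intro h hh h' hh' he
    unfold Hn at hh hh'
    simp only [coe_filter, Set.mem_ofPred_eq] at hh hh'
    exact sel_inj J hJ h hh.1 h' hh'.1 he
  rw [h3]
  refine Finset.sum_le_sum_of_subset_of_nonneg ?_ (fun h _ _ => Finset.sum_nonneg
    (fun u _ => hF0 h u))
  intro x hx
  rw [mem_image] at hx
  obtain ⟨h, hh, rfl⟩ := hx
  unfold Hn at hh
  rw [mem_filter] at hh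
  rw [mem_filter]
  refine ⟨mem_univ _, fun h0 => hh.2 ?_⟩
  refine sel_inj J hJ h hh.1 0 (sel_zero_mem J hJ) ?_
  rw [h0]
  simp

/-- near and far frequencies -/
lemma sel_split {J : ℕ} (g K : ℕ) (U : Finset (ZMod (2 ^ J))) {b : ZMod (2 ^ J)} (hb : Odd b.val)
    (y0 : ZMod (2 ^ J)) :
    ∑ h ∈ (univ : Finset (ZMod (2 ^ J))).filter (fun h => h ≠ 0), ∑ u ∈ U,
      om g h ^ 2 * (16 * (1 / 4 : ℝ) ^ (kd (cn (y0 - (u - h * b)))))
      ≤ 16 * ∑ y, (1 / 4 : ℝ) ^ (kd (cn (y0 - y))) *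
        (ep g K U b y + #U * (1 / 16) ^ (K + 1)) := by
  set P : Finset (ZMod (2 ^ J) × ZMod (2 ^ J)) :=
    ((univ : Finset (ZMod (2 ^ J))).filter (fun h => h ≠ 0)) ×ˢ U with hP
  have h1 : ∑ h ∈ (univ : Finset (ZMod (2 ^ J))).filter (fun h => h ≠ 0), ∑ u ∈ U,
      om g h ^ 2 * (16 * (1 / 4 : ℝ) ^ (kd (cn (y0 - (u - h * b)))))
      = ∑ p ∈ P, om g p.1 ^ 2 * (16 * (1 / 4 : ℝ) ^ (kd (cn (y0 - (p.2 - p.1 * b))))) := by
    rw [hP, Finset.sum_product]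
  rw [h1, ← Finset.sum_fiberwise_of_maps_to (g := fun p : ZMod (2 ^ J) × ZMod (2 ^ J) =>
    p.2 - p.1 * b) (fun p _ => mem_univ _), Finset.mul_sum]
  refine Finset.sum_le_sum (fun y _ => ?_)
  have h2 : ∑ p ∈ P.filter (fun p => p.2 - p.1 * b = y),
      om g p.1 ^ 2 * (16 * (1 / 4 : ℝ) ^ (kd (cn (y0 - (p.2 - p.1 * b)))))
      = (∑ p ∈ P.filter (fun p => p.2 - p.1 * b = y), om g p.1 ^ 2)
        * (16 * (1 / 4 : ℝ) ^ (kd (cn (y0 - y)))) := by
    rw [Finset.sum_mul]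
    refine Finset.sum_congr rfl (fun p hp => ?_)
    rw [mem_filter] at hp
    rw [hp.2]
  rw [h2]
  have h3 : ∑ p ∈ P.filter (fun p => p.2 - p.1 * b = y), om g p.1 ^ 2
      ≤ ep g K U b y + #U * (1 / 16) ^ (K + 1) := by
    rw [← Finset.sum_filter_add_sum_filter_not (P.filter (fun p => p.2 - p.1 * b = y))
      (fun p => jd g p.1 ≤ K)]
    refine add_le_add ?_ ?_
    · unfold ep
      refine Finset.sum_le_sum_of_subset_of_nonneg ?_ (fun _ _ _ => by positivity)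
      intro p hp
      rw [mem_filter, mem_filter, hP, mem_product, mem_filter] at hp
      unfold hit Nr
      rw [mem_filter, mem_product, mem_filter]
      exact ⟨⟨⟨mem_univ _, hp.1.1.1.2, hp.2⟩, hp.1.1.2⟩, hp.1.2⟩
    · set Q := (P.filter (fun p => p.2 - p.1 * b = y)).filter (fun p => ¬ jd g p.1 ≤ K) with hQ
      have h4 : ∀ p ∈ Q, om g p.1 ^ 2 ≤ (1 / 16 : ℝ) ^ (K + 1) := by
        intro p hp
        rw [hQ, mem_filter] at hp
        have h5 : K + 1 ≤ jd g p.1 := by omega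
        unfold om
        rw [← pow_mul, mul_comm, pow_mul]
        norm_num only
        exact pow_le_pow_of_le_one (by norm_num) (by norm_num) h5
      have h5 : #Q ≤ #U := by
        refine Finset.card_le_card_of_injOn (fun p => p.2) ?_ ?_
        · intro p hp
          rw [mem_coe, hQ, mem_filter, mem_filter, hP, mem_product] at hp
          exact hp.1.1.2
        · intro p hp p' hp' he
          rw [mem_coe, hQ, mem_filter, mem_filter] at hp hp'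
          simp only at he
          have h6 : p.2 - p.1 * b = p'.2 - p'.1 * b := hp.1.2.trans hp'.1.2.symm
          rw [he] at h6
          have h7 : (p.1 - p'.1) * b = 0 := by
            rw [sub_mul]
            linear_combination -h6
          exact Prod.ext (sub_eq_zero.1 (odd_cancel hb h7)) he
      calc ∑ p ∈ Q, om g p.1 ^ 2 ≤ ∑ p ∈ Q, (1 / 16 : ℝ) ^ (K + 1) := Finset.sum_le_sum h4
        _ = #Q * (1 / 16 : ℝ) ^ (K + 1) := by rw [Finset.sum_const, nsmul_eq_mul]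
        _ ≤ #U * (1 / 16 : ℝ) ^ (K + 1) := by
            refine mul_le_mul_of_nonneg_right ?_ (by positivity)
            exact_mod_cast h5
  calc (∑ p ∈ P.filter (fun p => p.2 - p.1 * b = y), om g p.1 ^ 2)
        * (16 * (1 / 4 : ℝ) ^ (kd (cn (y0 - y))))
      ≤ (ep g K U b y + #U * (1 / 16) ^ (K + 1)) * (16 * (1 / 4 : ℝ) ^ (kd (cn (y0 - y)))) :=
        mul_le_mul_of_nonneg_right h3 (by positivity)
    _ = _ := by ring

lemma sel_log (i g : ℕ) : Real.log (576 * (2 ^ i : ℕ) * (g + 1) * 2 ^ g) ≤ 7 * ((i : ℝ) + g + 1) := by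
  have hl2 : Real.log 2 ≤ 1 := by
    have := Real.log_two_lt_d9
    linarith
  have hi : (0 : ℝ) ≤ i := by positivity
  have hg : (0 : ℝ) ≤ g := by positivity
  have h1 : Real.log 576 ≤ 7 := by
    rw [Real.log_le_iff_le_exp (by norm_num)]
    have h2 : (2.7 : ℝ) ≤ Real.exp 1 := by
      have := Real.exp_one_gt_d9
      linarith
    have h3 : Real.exp 7 = (Real.exp 1) ^ 7 := by
      rw [← Real.exp_nat_mul]
      norm_num
    rw [h3]
    have h4 : (2.7 : ℝ) ^ 7 ≤ (Real.exp 1) ^ 7 := pow_le_pow_left₀ (by norm_num) h2 7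
    refine le_trans ?_ h4
    norm_num
  have h2 : Real.log ((2 ^ i : ℕ) : ℝ) ≤ i := by
    push_cast
    rw [Real.log_pow]
    nlinarith
  have h3 : Real.log ((g : ℝ) + 1) ≤ g := by
    have := Real.log_le_sub_one_of_pos (by positivity : (0 : ℝ) < (g : ℝ) + 1)
    linarith
  have h4 : Real.log ((2 : ℝ) ^ g) ≤ g := by
    rw [Real.log_pow]
    nlinarith
  rw [Real.log_mul (by positivity) (by positivity), Real.log_mul (by positivity) (by positivity),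
    Real.log_mul (by positivity) (by positivity)]
  linarith

theorem sel : SelSt := by
  refine ⟨4000, by norm_num, ?_⟩
  intro S _ J g i U hU1 hU2 hsum hJ
  have hJ1 : 1 ≤ J := by omega
  set K := J / 4 with hK
  set U' : S → Finset (ZMod (2 ^ J)) := fun s => (U s).image (fun u : ℕ => (u : ZMod (2 ^ J)))
    with hU'
  have hcard : ∀ s, #(U' s) ≤ #(U s) := fun s => Finset.card_image_le
  have hcard2 : ∀ s, #(U' s) ≤ 2 ^ i := fun s => (hcard s).trans (hU2 s)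
  have hq : 4 * ((2 ^ i) ^ 2 * (4 * 2 ^ g * 2 ^ (K + 2) * (K + g + 3))) ≤ 2 ^ J := by
    have h1 : K + g + 3 ≤ 2 ^ (K + g + 3) := (Nat.lt_two_pow_self).le
    calc 4 * ((2 ^ i) ^ 2 * (4 * 2 ^ g * 2 ^ (K + 2) * (K + g + 3)))
        ≤ 4 * ((2 ^ i) ^ 2 * (4 * 2 ^ g * 2 ^ (K + 2) * 2 ^ (K + g + 3))) := by gcongr
      _ = 2 ^ (2 * i + 2 * g + 2 * K + 9) := by
          rw [← pow_mul]
          ring
      _ ≤ 2 ^ J := Nat.pow_le_pow_right (by norm_num) (by omega)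
  have hsumN : (∑ s, #(U' s)) ≤ ∑ s, #(U s) := Finset.sum_le_sum (fun s _ => hcard s)
  have hsumR : (∑ s, (#(U' s) : ℝ)) ≤ ∑ s, (#(U s) : ℝ) := by exact_mod_cast hsumN
  have hsum' : (4000 : ℝ) * (2 ^ g * (g + 1)) * ∑ s, (#(U s) : ℝ) ≤ 2 ^ J := by
    exact_mod_cast hsum
  have hS0 : 0 ≤ ∑ s, (#(U' s) : ℝ) := Finset.sum_nonneg (fun s _ => by positivity)
  have h2g : (1 : ℝ) ≤ 2 ^ g := one_le_pow₀ (by norm_num)
  have hg0 : (0 : ℝ) ≤ g := by positivity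
  have hA : 192 * ((g : ℝ) + 1) * 2 ^ g * ∑ s, (#(U' s) : ℝ) ≤ 2 ^ J := by
    have h1 : 192 * ((g : ℝ) + 1) * 2 ^ g * ∑ s, (#(U' s) : ℝ)
        ≤ 4000 * (2 ^ g * (g + 1)) * ∑ s, (#(U s) : ℝ) := by
      have h3 : 192 * ((g : ℝ) + 1) * 2 ^ g ≤ 4000 * (2 ^ g * (g + 1)) := by
        have : 0 ≤ ((g : ℝ) + 1) * 2 ^ g := by positivity
        nlinarith
      exact mul_le_mul h3 hsumR hS0 (by positivity)
    exact h1.trans hsum'
  obtain ⟨b, hb1, hb2⟩ := sel_core (g := g) (K := K) hJ1 (Nat.one_le_two_pow) U' hcard2 hq hA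
  refine ⟨fun s => (b s).val, hb1, fun t => ?_⟩
  set y0 : ZMod (2 ^ J) := ((round ((2 ^ J : ℕ) * t) : ℤ) : ZMod (2 ^ J)) with hy0
  have hfar : (∑ s, (#(U' s) : ℝ)) * (1 / 16) ^ (K + 1) ≤ 1 := by
    have h1 : (∑ s, (#(U' s) : ℝ)) ≤ 2 ^ J := by
      refine le_trans ?_ hA
      have h3 : (1 : ℝ) ≤ 192 * ((g : ℝ) + 1) * 2 ^ g := by nlinarith
      nlinarith
    have h2 : (2 : ℝ) ^ J ≤ 16 ^ (K + 1) := by
      rw [show (16 : ℝ) = 2 ^ 4 by norm_num, ← pow_mul]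
      exact pow_le_pow_right₀ (by norm_num) (by omega)
    rw [one_div, inv_pow, ← div_eq_mul_inv, div_le_one (by positivity)]
    exact h1.trans h2
  have h1 : ∀ s, wt 4 J g (b s).val (U s) t
      ≤ 16 * ∑ y, (1 / 4 : ℝ) ^ (kd (cn (y0 - y))) *
        (ep g K (U' s) (b s) y + #(U' s) * (1 / 16) ^ (K + 1)) := by
    intro s
    refine (sel_wt J g (b s).val hJ1 (U s) (hU1 s) t).trans ?_
    have e1 : (((b s).val : ℕ) : ZMod (2 ^ J)) = b s := ZMod.natCast_zmod_val (b s)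
    rw [e1]
    exact sel_split g K (U' s) (hb1 s) y0
  refine (Finset.sum_le_sum (fun s _ => h1 s)).trans ?_
  rw [← Finset.mul_sum, Finset.sum_comm]
  have h2 : ∀ y, ∑ s, (1 / 4 : ℝ) ^ (kd (cn (y0 - y))) *
        (ep g K (U' s) (b s) y + #(U' s) * (1 / 16) ^ (K + 1))
      ≤ (1 / 4 : ℝ) ^ (kd (cn (y0 - y))) * (28 * ((i : ℝ) + g + 1) + 1) := by
    intro y
    rw [← Finset.mul_sum]
    refine mul_le_mul_of_nonneg_left ?_ (by positivity)
    rw [Finset.sum_add_distrib, ← Finset.sum_mul]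
    have h3 := hb2 y
    have h4 := sel_log i g
    linarith
  have h3 : ∑ y, (1 / 4 : ℝ) ^ (kd (cn (y0 - y))) ≤ 8 := by
    have h4 : ∑ y, (1 / 4 : ℝ) ^ (kd (cn (y0 - y))) = ∑ z : ZMod (2 ^ J), (1 / 4 : ℝ) ^ (kd (cn z)) :=
      Fintype.sum_equiv (Equiv.subLeft y0) _ _ (fun y => rfl)
    rw [h4]
    exact sum_kd
  have hi0 : (0 : ℝ) ≤ i := by positivity
  calc 16 * ∑ y, ∑ s, (1 / 4 : ℝ) ^ (kd (cn (y0 - y))) *
        (ep g K (U' s) (b s) y + #(U' s) * (1 / 16) ^ (K + 1))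
      ≤ 16 * ∑ y, (1 / 4 : ℝ) ^ (kd (cn (y0 - y))) * (28 * ((i : ℝ) + g + 1) + 1) := by
        refine mul_le_mul_of_nonneg_left (Finset.sum_le_sum (fun y _ => h2 y)) (by norm_num)
    _ = 16 * ((∑ y, (1 / 4 : ℝ) ^ (kd (cn (y0 - y)))) * (28 * ((i : ℝ) + g + 1) + 1)) := by
        rw [Finset.sum_mul]
    _ ≤ 16 * (8 * (28 * ((i : ℝ) + g + 1) + 1)) := by
        refine mul_le_mul_of_nonneg_left (mul_le_mul_of_nonneg_right h3 (by positivity))
          (by norm_num)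
    _ ≤ ((4000 : ℕ) : ℝ) * ((i : ℝ) + g + 1) := by
        push_cast
        linarith

end Pool.Agent.H75.UX
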