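import Pool.Agent.H75.UX.Lay0

set_option autoImplicit false
set_option linter.unusedSectionVars false

/-!
# Double geometric sums and the exponent inequality
-/

open Finset

namespace Pool.Agent.H75.UX

noncomputable section

lemma sums_summable (θ : ℝ) (k : ℕ) (hθ : 0 < θ) :
    Summable (fun m : ℕ => ((m : ℝ) + 1) ^ k * (2 : ℝ) ^ (-(θ * m))) := by
  have hr : ‖(2 : ℝ) ^ (-θ)‖ < 1 := by
    rw [Real.norm_of_nonneg (by positivity)]
    exact Real.rpow_lt_one_of_one_lt_of_neg (by norm_num) (by linarith)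
  have h0 : Summable (fun n : ℕ => (n : ℝ) ^ k * ((2 : ℝ) ^ (-θ)) ^ n) :=
    summable_pow_mul_geometric_of_norm_lt_one k hr
  have h1 : Summable (fun n : ℕ => ((n + 1 : ℕ) : ℝ) ^ k * ((2 : ℝ) ^ (-θ)) ^ (n + 1)) :=
    (summable_nat_add_iff (f := fun n : ℕ => (n : ℝ) ^ k * ((2 : ℝ) ^ (-θ)) ^ n) 1).2 h0
  have h2 := h1.mul_left ((2 : ℝ) ^ θ)
  refine h2.congr (fun m => ?_)
  push_cast
  have e1 : (2 : ℝ) ^ (-(θ * m)) = (2 : ℝ) ^ θ * ((2 : ℝ) ^ (-θ)) ^ (m + 1) := by
    rw [← Real.rpow_natCast ((2 : ℝ) ^ (-θ)), ← Real.rpow_mul (by norm_num),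
      ← Real.rpow_add (by norm_num)]
    congr 1
    push_cast
    ring
  rw [e1]
  ring

theorem sums : SumSt := by
  intro θ k hθ
  have hs := sums_summable θ k hθ
  set f : ℕ → ℝ := fun m => ((m : ℝ) + 1) ^ k * (2 : ℝ) ^ (-(θ * m)) with hf
  have hf0 : ∀ m, 0 ≤ f m := fun m => by rw [hf]; positivity
  have hF : ∀ n, ∑ m ∈ range n, f m ≤ ∑' m, f m := fun n =>
    hs.sum_le_tsum _ (fun m _ => hf0 m)
  have hF0 : 0 ≤ ∑' m, f m := tsum_nonneg hf0
  set F := ∑' m, f m with hFd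
  refine ⟨2 * F * F + 1, by positivity, ?_⟩
  intro v0 i0
  have habs : ∀ a : ℕ, |(a : ℝ) - v0| = (((a - v0) + (v0 - a) : ℕ) : ℝ) := by
    intro a
    rcases le_total a v0 with h | h
    · rw [abs_of_nonpos (by
        have : (a : ℝ) ≤ v0 := by exact_mod_cast h
        linarith), Nat.sub_eq_zero_of_le h, zero_add, Nat.cast_sub h]
      ring
    · rw [abs_of_nonneg (by
        have : (v0 : ℝ) ≤ a := by exact_mod_cast h
        linarith), Nat.sub_eq_zero_of_le h, add_zero, Nat.cast_sub h]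
  have hterm : ∀ a i : ℕ, (|(a : ℝ) - v0| + i + 1) ^ k * (2 : ℝ) ^ (-(θ * (|(a : ℝ) - v0| + i)))
      ≤ f ((a - v0) + (v0 - a)) * f i := by
    intro a i
    rw [habs a]
    set m := (a - v0) + (v0 - a)
    rw [hf]
    simp only
    have e1 : (2 : ℝ) ^ (-(θ * ((m : ℝ) + i))) = (2 : ℝ) ^ (-(θ * m)) * (2 : ℝ) ^ (-(θ * i)) := by
      rw [← Real.rpow_add (by norm_num)]
      congr 1
      ring
    have e2 : ((m : ℝ) + i + 1) ^ k ≤ ((m : ℝ) + 1) ^ k * ((i : ℝ) + 1) ^ k := by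
      rw [← mul_pow]
      refine pow_le_pow_left₀ (by positivity) ?_ _
      have h1 : (0 : ℝ) ≤ m := Nat.cast_nonneg _
      have h2 : (0 : ℝ) ≤ i := Nat.cast_nonneg _
      nlinarith
    rw [e1]
    calc ((m : ℝ) + i + 1) ^ k * ((2 : ℝ) ^ (-(θ * m)) * (2 : ℝ) ^ (-(θ * i)))
        ≤ (((m : ℝ) + 1) ^ k * ((i : ℝ) + 1) ^ k)
          * ((2 : ℝ) ^ (-(θ * m)) * (2 : ℝ) ^ (-(θ * i))) := by gcongr
      _ = _ := by ring
  have hA : ∑ a ∈ range (2 * v0 + 1), f ((a - v0) + (v0 - a)) ≤ 2 * F := by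
    have e0 : 2 * v0 + 1 = v0 + (v0 + 1) := by ring
    rw [e0, Finset.sum_range_add]
    have h1 : ∑ x ∈ range v0, f ((x - v0) + (v0 - x)) ≤ F := by
      have h2 : ∑ x ∈ range v0, f ((x - v0) + (v0 - x)) = ∑ x ∈ range v0, f (x + 1) := by
        rw [← Finset.sum_range_reflect (fun x => f (x + 1)) v0]
        refine Finset.sum_congr rfl (fun x hx => ?_)
        have := Finset.mem_range.1 hx
        congr 1
        omega
      rw [h2]
      have h3 := Finset.sum_range_succ' f v0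
      have h4 := hF (v0 + 1)
      have h5 := hf0 0
      linarith
    have h2 : ∑ x ∈ range (v0 + 1), f ((v0 + x - v0) + (v0 - (v0 + x))) ≤ F := by
      have h3 : ∀ x ∈ range (v0 + 1), f ((v0 + x - v0) + (v0 - (v0 + x))) = f x := by
        intro x _
        congr 1
        omega
      rw [Finset.sum_congr rfl h3]
      exact hF _
    linarith
  calc ∑ a ∈ range (2 * v0 + 1), ∑ i ∈ range (i0 + 1),
        (|(a : ℝ) - v0| + i + 1) ^ k * (2 : ℝ) ^ (-(θ * (|(a : ℝ) - v0| + i)))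
      ≤ ∑ a ∈ range (2 * v0 + 1), ∑ i ∈ range (i0 + 1), f ((a - v0) + (v0 - a)) * f i :=
        Finset.sum_le_sum (fun a _ => Finset.sum_le_sum (fun i _ => hterm a i))
    _ = (∑ a ∈ range (2 * v0 + 1), f ((a - v0) + (v0 - a))) * ∑ i ∈ range (i0 + 1), f i := by
        rw [Finset.sum_mul_sum]
    _ ≤ (2 * F) * F := mul_le_mul hA (hF _) (Finset.sum_nonneg (fun i _ => hf0 i))
        (by positivity)
    _ ≤ _ := by linarith

theorem expo (p : ℝ) (hp1 : 1 < p) (hp2 : p < 2) : ExpoSt p := by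
  set σ : ℝ := 2 - p with hσ
  have hσ0 : 0 < σ := by linarith
  have hσ1 : σ < 1 := by linarith
  have hp : p = 2 - σ := by linarith
  have he : eps p = σ / 8 := by
    unfold eps
    rw [hσ]
  refine ⟨min (3 * σ / 32) (min (2 * (p - 1)) 1), ?_, ?_, ?_⟩
  · refine lt_min (by linarith) (lt_min (by linarith) one_pos)
  · exact (min_le_right _ _).trans (min_le_right _ _)
  intro v i hi
  set c := min (3 * σ / 32) (min (2 * (p - 1)) 1) with hc
  have hc1 : c ≤ 3 * σ / 32 := min_le_left _ _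
  have hc2 : c ≤ 2 * (p - 1) := (min_le_right _ _).trans (min_le_left _ _)
  have hc0 : 0 < c := lt_min (by linarith) (lt_min (by linarith) one_pos)
  rw [he]
  set y := (1 - σ / 8) * i - p * v with hy
  have hm0 : 0 ≤ max 0 y := le_max_left _ _
  have hmy : y ≤ max 0 y := le_max_right _ _
  rcases le_total 0 v with hv | hv
  · rw [abs_of_nonneg hv]
    have hlam : (1 / 2 + σ / 8) * y ≤ max 0 y := by
      rcases le_total 0 y with h | h
      · have : (1 / 2 + σ / 8) * y ≤ 1 * y := mul_le_mul_of_nonneg_right (by linarith) h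
        linarith
      · have : (1 / 2 + σ / 8) * y ≤ 0 := mul_nonpos_of_nonneg_of_nonpos (by linarith) h
        linarith
    have h1 : -2 * max 0 y + i - 2 * v ≤ -2 * ((1 / 2 + σ / 8) * y) + i - 2 * v := by linarith
    refine h1.trans ?_
    have h2 : -2 * ((1 / 2 + σ / 8) * y) + i - 2 * v
        = -(σ / 8 - σ ^ 2 / 32) * i - (σ / 2 + σ ^ 2 / 4) * v := by
      rw [hy, hp]
      ring
    rw [h2]
    have h3 : c * i ≤ (σ / 8 - σ ^ 2 / 32) * i := by
      refine mul_le_mul_of_nonneg_right ?_ hi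
      nlinarith
    have h4 : c * v ≤ (σ / 2 + σ ^ 2 / 4) * v := by
      refine mul_le_mul_of_nonneg_right ?_ hv
      nlinarith
    linarith
  · rw [abs_of_nonpos hv]
    have h1 : -2 * max 0 y + i - 2 * v ≤ -2 * y + i - 2 * v := by linarith
    refine h1.trans ?_
    rw [hy]
    have h2 : -2 * ((1 - σ / 8) * i - p * v) + i - 2 * v
        = -(1 - σ / 4) * i - (2 * (p - 1)) * (-v) := by ring
    rw [h2]
    have h3 : c * i ≤ (1 - σ / 4) * i := mul_le_mul_of_nonneg_right (by linarith) hi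
    have h4 : c * (-v) ≤ (2 * (p - 1)) * (-v) := mul_le_mul_of_nonneg_right hc2 (by linarith)
    linarith

end

end Pool.Agent.H75.UX
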