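import Pool.Agent.H75.UX.ThinB

set_option autoImplicit false
set_option linter.unusedSectionVars false

/-!
# Thinning of one block
-/

open Finset ComplexConjugate

open scoped Classical

namespace Pool.Agent.H75.UX

open Pool.Agent.H75.MT (ee ee_add ee_norm ee_conj ee_int ee_zero)
open Pool.Agent.H75.UB

noncomputable section

variable {d : ℕ}

/-- the additional bits of the constraints -/
def c0T (d : ℕ) : ℕ := 3 * d + 9

/-- hypotheses -/
structure HypN (s : Fin d → ℕ) (i0 : Fin d) (J g b i : ℕ) (R : Finset (Fin d → ℕ))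
    (a : (Fin d → ℕ) → ℂ) (τ : ℝ) : Prop where
  hg1 : 1 ≤ g
  hg : g ≤ J
  hJ : J + g + 5 ≤ s i0
  hb : Odd b
  hR : R ⊆ grid s
  hRi : #R ≤ 2 ^ i
  hRn : R.Nonempty
  hτ : 0 < τ
  hE : ∀ u : ℕ, (∑ ζ ∈ R.filter (fun ζ => clu s i0 J ζ = u), ‖a ζ‖ ^ 2) / NT s ≤ τ ^ 2 / 2 ^ J

variable {s : Fin d → ℕ} {i0 : Fin d} {J g b i : ℕ} {R : Finset (Fin d → ℕ)}
  {a : (Fin d → ℕ) → ℂ} {τ : ℝ}

lemma HypN.card_clus (H : HypN s i0 J g b i R a τ) : #(clus s i0 J R) ≤ 2 ^ i :=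
  Finset.card_image_le.trans H.hRi

lemma HypN.wpos (H : HypN s i0 J g b i R a τ) (t : ℝ) : 0 < wt 8 J g b (clus s i0 J R) t :=
  th_pos J g b (H.hg1.trans H.hg) _ (H.hRn.image _) t

lemma HypN.sq (H : HypN s i0 J g b i R a τ) (x : Fin d → ℝ) :
    ∑ C ∈ KK s i0 J 7, (thF s i0 J g b R a x C) ^ 2
      ≤ (2 ^ 9 * τ * wt 8 J g b (clus s i0 J R) (x i0)) ^ 2 := by
  have hJ := H.hJ
  have h1 := thF_gen s i0 J g b R a x (KK s i0 J 7) (3 * (2 ^ 8) ^ 2 * τ ^ 2)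
    (fun h u => thT_sq s i0 J b (by omega) R H.hR a x h u τ (H.hE u))
  refine h1.trans ?_
  have h2 : 0 ≤ τ ^ 2 * (wt 8 J g b (clus s i0 J R) (x i0)) ^ 2 := by positivity
  nlinarith

lemma HypN.sup (H : HypN s i0 J g b i R a τ) (x : Fin d → ℝ) (C : Fin d → ℤ) :
    (thF s i0 J g b R a x C) ^ 2 * #(KK s i0 J 7)
      ≤ 2 ^ i * (2 ^ 9 * τ * wt 8 J g b (clus s i0 J R) (x i0)) ^ 2 := by
  have hJ := H.hJ
  have hNT : (0 : ℝ) < NT s := by exact_mod_cast NT_pos s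
  have h1 := thF_gen s i0 J g b R a x {C} ((2 ^ 8) ^ 2 * (2 ^ J * 2 ^ i * τ ^ 2 / NT s))
    (fun h u => by
      rw [Finset.sum_singleton]
      exact thT_sup s i0 J b i R H.hRi a x C h u τ (H.hE u))
  rw [Finset.sum_singleton] at h1
  have hm : 7 ≤ 2 ^ (s i0 - J + 1) := by
    calc 7 ≤ 2 ^ 3 := by norm_num
      _ ≤ 2 ^ (s i0 - J + 1) := Nat.pow_le_pow_right (by norm_num) (by omega)
  have hK := KK_upper s i0 J 7 (by omega) hm
  have hd : 1 ≤ d := by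
    have := i0.2
    omega
  have hK2 : (#(KK s i0 J 7) : ℝ) * 2 ^ J ≤ NT s := by
    have h2 : 2 ^ (∑ i, s i + d + 1) ≤ 2 ^ (∑ i, s i + 2 * d) :=
      Nat.pow_le_pow_right (by norm_num) (by omega)
    have h3 := hK.trans h2
    rw [← Pool.Agent.H75.UB.NT_eq] at h3
    exact_mod_cast h3
  set W := wt 8 J g b (clus s i0 J R) (x i0) with hW
  have hKK0 : (0 : ℝ) ≤ #(KK s i0 J 7) := Nat.cast_nonneg _
  calc (thF s i0 J g b R a x C) ^ 2 * #(KK s i0 J 7)
      ≤ ((2 ^ 8) ^ 2 * (2 ^ J * 2 ^ i * τ ^ 2 / NT s) * W ^ 2) * #(KK s i0 J 7) :=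
        mul_le_mul_of_nonneg_right h1 hKK0
    _ = (2 ^ 8) ^ 2 * (2 ^ i * τ ^ 2 / NT s) * W ^ 2 * (#(KK s i0 J 7) * 2 ^ J) := by ring
    _ ≤ (2 ^ 8) ^ 2 * (2 ^ i * τ ^ 2 / NT s) * W ^ 2 * NT s :=
        mul_le_mul_of_nonneg_left hK2 (by positivity)
    _ = (2 ^ 8) ^ 2 * (2 ^ i * τ ^ 2) * W ^ 2 := by field_simp
    _ ≤ _ := by
        have h2 : 0 ≤ 2 ^ i * τ ^ 2 * W ^ 2 := by positivity
        nlinarith

/-- the grid of the constraints -/
def Gd (s : Fin d → ℕ) : Fin d → ℕ := fun i => 2 ^ (s i + 3)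

/-- the bits of a constraint -/
def LL (s : Fin d → ℕ) (i0 : Fin d) (J g b i : ℕ) (R : Finset (Fin d → ℕ)) (y : ℕ) : ℕ :=
  c0T d + i + g + 2 * kk (wt 8 J g b (clus s i0 J R) ((y : ℝ) / Gd s i0))

lemma HypN.count (H : HypN s i0 J g b i R a τ) :
    ∑ t : ((i : Fin d) → Fin (Gd s i)) × Bool, (1 / 2 : ℝ) ^ (LL s i0 J g b i R (t.1 i0))
      ≤ #(KK s i0 J 7) := by
  have hJ := H.hJ
  rw [Fintype.sum_prod_type]
  simp only [Finset.sum_const, Finset.card_univ, Fintype.card_bool, nsmul_eq_mul]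
  rw [← Finset.mul_sum, sum_pi_one (Gd s) i0 (fun y => (1 / 2 : ℝ) ^ (LL s i0 J g b i R y))]
  have hM : 2 ^ J ≤ Gd s i0 := by
    unfold Gd
    exact Nat.pow_le_pow_right (by norm_num) (by omega)
  have h1 := th_sum J g b (Gd s i0) hM (clus s i0 J R) i H.card_clus
  have h2 : ∑ y ∈ range (Gd s i0), (1 / 2 : ℝ) ^ (LL s i0 J g b i R y)
      ≤ (1 / 2) ^ (c0T d + i + g) * (160 * 2 ^ g * 2 ^ i * (Gd s i0 : ℕ) / 2 ^ J) := by
    refine le_trans ?_ (mul_le_mul_of_nonneg_left h1 (by positivity))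
    rw [Finset.mul_sum]
    refine Finset.sum_le_sum (fun y _ => ?_)
    unfold LL
    rw [pow_add]
    exact mul_le_mul_of_nonneg_left (kk_one _ (H.wpos _)) (by positivity)
  have h3 : (∏ i ∈ univ.erase i0, (Gd s i : ℝ)) * (Gd s i0 : ℕ) = 2 ^ (∑ i, s i) * 2 ^ (3 * d) := by
    rw [mul_comm, Finset.mul_prod_erase univ (fun i => (Gd s i : ℝ)) (mem_univ i0)]
    unfold Gd
    push_cast
    rw [Finset.prod_pow_eq_pow_sum, Finset.sum_add_distrib, pow_add]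
    congr 2
    simp [mul_comm]
  have h4 : (2 : ℝ) ^ (∑ i, s i) ≤ #(KK s i0 J 7) * 2 ^ J := by
    exact_mod_cast KK_lower s i0 J 7 (by omega)
  have h5 : ((1 : ℝ) / 2) ^ (c0T d + i + g) * (2 ^ g * 2 ^ i * 2 ^ (3 * d)) = 1 / 512 := by
    unfold c0T
    rw [one_div, inv_pow, show 3 * d + 9 + i + g = 3 * d + i + g + 9 by ring, pow_add 2 _ 9,
      pow_add 2 (3 * d + i) g, pow_add 2 (3 * d) i]
    field_simp
    norm_num
  calc ((2 : ℕ) : ℝ) * ((∏ i ∈ univ.erase i0, (Gd s i : ℝ))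
        * ∑ y ∈ range (Gd s i0), (1 / 2 : ℝ) ^ (LL s i0 J g b i R y))
      ≤ 2 * ((∏ i ∈ univ.erase i0, (Gd s i : ℝ))
        * ((1 / 2) ^ (c0T d + i + g) * (160 * 2 ^ g * 2 ^ i * (Gd s i0 : ℕ) / 2 ^ J))) := by
        push_cast
        gcongr
    _ = 320 * (((1 : ℝ) / 2) ^ (c0T d + i + g) * (2 ^ g * 2 ^ i))
        * ((∏ i ∈ univ.erase i0, (Gd s i : ℝ)) * (Gd s i0 : ℕ)) / 2 ^ J := by ring
    _ = 320 * (((1 : ℝ) / 2) ^ (c0T d + i + g) * (2 ^ g * 2 ^ i * 2 ^ (3 * d)))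
        * (2 ^ (∑ i, s i) / 2 ^ J) := by
        rw [h3]
        ring
    _ = 320 / 512 * (2 ^ (∑ i, s i) / 2 ^ J) := by
        rw [h5]
        ring
    _ ≤ 1 * #(KK s i0 J 7) := by
        have h6 : (2 : ℝ) ^ (∑ i, s i) / 2 ^ J ≤ #(KK s i0 J 7) := by
          rw [div_le_iff₀ (by positivity)]
          exact h4
        have h7 : (0 : ℝ) ≤ 2 ^ (∑ i, s i) / 2 ^ J := by positivity
        linarith
    _ = _ := one_mul _

/-- constant -/
def cT (d : ℕ) : ℝ := 1056 * 2 ^ 9 * ((c0T d : ℝ) + 6) ^ 2 * 128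

lemma HypN.final (H : HypN s i0 J g b i R a τ) (y : ℕ) :
    1056 * ((LL s i0 J g b i R y : ℝ) + 6) ^ 2
      * (2 ^ 9 * τ * wt 8 J g b (clus s i0 J R) ((y : ℝ) / Gd s i0))
      ≤ cT d * ((i : ℝ) + g + 1) ^ 2 * τ * wt 4 J g b (clus s i0 J R) ((y : ℝ) / Gd s i0) := by
  have hτ := H.hτ
  have hW := H.wpos ((y : ℝ) / Gd s i0)
  have h1 := kk_two _ hW
  have h2 := th_le J g b (clus s i0 J R) ((y : ℝ) / Gd s i0)
  have h3 := th_sqrt J g b (clus s i0 J R) ((y : ℝ) / Gd s i0)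
  unfold LL
  set W := wt 8 J g b (clus s i0 J R) ((y : ℝ) / Gd s i0) with hWd
  set W4 := wt 4 J g b (clus s i0 J R) ((y : ℝ) / Gd s i0) with hW4
  set k : ℝ := (kk W : ℝ) with hk
  have hk0 : 0 ≤ k := Nat.cast_nonneg _
  set c : ℝ := (c0T d : ℝ) with hc
  have hc0 : 0 ≤ c := Nat.cast_nonneg _
  set m : ℝ := (i : ℝ) + g with hm
  have hm0 : 0 ≤ m := by positivity
  have h4 : (((c0T d + i + g + 2 * kk W : ℕ) : ℝ) + 6) ≤ (c + 6) * (m + 1) * (2 * k + 1) := by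
    push_cast
    rw [← hc, ← hk]
    have e1 : 0 ≤ c * m := by positivity
    have e2 : 0 ≤ c * k := by positivity
    have e3 : 0 ≤ m * k := by positivity
    have e4 : 0 ≤ c * m * k := by positivity
    nlinarith
  have h5 : (((c0T d + i + g + 2 * kk W : ℕ) : ℝ) + 6) ^ 2
      ≤ ((c + 6) * (m + 1) * (2 * k + 1)) ^ 2 := pow_le_pow_left₀ (by positivity) h4 2
  have h6 : (2 * k + 1) ^ 2 * W ≤ 128 * W4 := by linarith
  calc 1056 * (((c0T d + i + g + 2 * kk W : ℕ) : ℝ) + 6) ^ 2 * (2 ^ 9 * τ * W)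
      ≤ 1056 * ((c + 6) * (m + 1) * (2 * k + 1)) ^ 2 * (2 ^ 9 * τ * W) := by gcongr
    _ = 1056 * 2 ^ 9 * (c + 6) ^ 2 * (m + 1) ^ 2 * τ * ((2 * k + 1) ^ 2 * W) := by ring
    _ ≤ 1056 * 2 ^ 9 * (c + 6) ^ 2 * (m + 1) ^ 2 * τ * (128 * W4) := by gcongr
    _ = _ := by
        unfold cT
        ring

/-- the thinned block -/
theorem block_thinN {CS : ℝ}
    (hS : ∀ (s : Fin d → ℕ) (i0 : Fin d) (J : ℕ),
      J + 2 ≤ s i0 → ∀ (ι : Type) (T : Finset ι) (c : ι → ℂ) (κ : ι → Fin d → ℤ),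
      (∀ j ∈ T, ∀ i, |κ j i| ≤ 2 ^ (s i + 1)) → ∀ (ω : ℝ → ℝ) (A : ℝ), 0 ≤ A → (∀ t, 0 ≤ ω t) →
      (∀ t t' : ℝ, ω t' ≤ (1 + 2 ^ J * nu (t - t')) ^ 4 * ω t) →
      (∀ ξ : Fin d → ℕ, (∀ i, ξ i < 2 ^ (s i + 3)) →
        ‖∑ j ∈ T, c j * ex (κ j) (gp (fun i => 2 ^ (s i + 3)) ξ)‖
          ≤ A * ω ((ξ i0 : ℝ) / (2 ^ (s i0 + 3) : ℕ))) →
      ∀ x : Fin d → ℝ, ‖∑ j ∈ T, c j * ex (κ j) x‖ ≤ CS * A * ω (x i0))
    (H : HypN s i0 J g b i R a τ) :
    ∃ G, TP d (#(KK s i0 J 7) * ((7 + 1) * ((7 + 1) * 2 ^ (J - g))) + #(Thin s i0 J 7)) G ∧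
      ∀ x, ‖fbox s R a x - G x‖ ≤ CS * (2 * cT d * ((i : ℝ) + g + 1) ^ 2 * τ)
        * wt 4 J g b (clus s i0 J R) (x i0) := by
  have hJ5 := H.hJ
  have hg1 := H.hg1
  have hJ : J ≤ s i0 := by omega
  have hJ1 : 1 ≤ J := H.hg1.trans H.hg
  set q : ℕ := 2 ^ J with hq
  have hq0 : 0 < q := by positivity
  set Gn : Fin d → ℕ := fun i => 2 ^ (s i + 3) with hGn
  have hGd : Gd s = Gn := rfl
  set Tt := ((i : Fin d) → Fin (Gd s i)) × Bool with hTt
  set Φ : Tt → (KK s i0 J 7) → Fin q → ℝ := fun t C α =>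
    if t.2 then (Phi s i0 J g 7 b R a (gp Gn (fun i => t.1 i)) C α).re
    else (Phi s i0 J g 7 b R a (gp Gn (fun i => t.1 i)) C α).im with hΦ
  obtain ⟨f, hf⟩ := Pool.Agent.H12.UBX.optionsN (T := Tt) (K := (KK s i0 J 7))
    (fun t => LL s i0 J g b i R (t.1 i0))
    (by
      rw [Fintype.card_coe]
      exact H.count)
    (fun t C => thF s i0 J g b R a (gp Gn (fun i => t.1 i)) C)
    (fun t => 2 ^ 9 * τ * wt 8 J g b (clus s i0 J R) (((t.1 i0 : ℕ) : ℝ) / Gd s i0))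
    (fun t => by
      have := H.wpos (((t.1 i0 : ℕ) : ℝ) / Gd s i0)
      have := H.hτ
      positivity)
    (by
      intro t
      have := H.sq (gp Gn (fun i => t.1 i))
      rw [Finset.sum_coe_sort (KK s i0 J 7)
        (fun C => (thF s i0 J g b R a (gp Gn (fun i => (t.1 i : ℕ))) C) ^ 2)]
      exact this)
    (by
      intro t C
      rw [Fintype.card_coe]
      have h1 := H.sup (gp Gn (fun i => t.1 i)) C
      refine h1.trans ?_
      refine mul_le_mul_of_nonneg_right ?_ (sq_nonneg _)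
      refine pow_le_pow_right₀ (by norm_num) ?_
      show i ≤ LL s i0 J g b i R (t.1 i0)
      unfold LL
      omega)
    J (Fin q) (by rw [Fintype.card_fin]) Φ
    (by
      intro t C α α'
      have h1 := thF_diff s i0 J g b H.hg hJ1 R a (gp Gn (fun i => (t.1 i : ℕ))) C α α'
      simp only [hΦ]
      split_ifs
      · rw [← Complex.sub_re]
        exact (Complex.abs_re_le_norm _).trans h1
      · rw [← Complex.sub_im]
        exact (Complex.abs_im_le_norm _).trans h1)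
  -- extend the choice to all cells
  set al : (Fin d → ℤ) → ℕ := fun C => if h : C ∈ KK s i0 J 7 then (f ⟨C, h⟩ : ℕ) else 0 with hal
  have hal1 : ∀ C : (KK s i0 J 7), al C = (f C : ℕ) := by
    intro C
    simp only [hal, dif_pos C.2]
  set U := Fin (7 + 1) → Fin q with hU
  set idx : Finset ((Fin d → ℤ) × U) := (KK s i0 J 7) ×ˢ univ with hidx
  set kf : (Fin d → ℤ) × U → Fin d → ℤ := fun p => fr i0 J p.1 (tot p.2) with hkf
  set c1 : (Fin d → ℤ) × U → ℂ := fun p => (1 / (q : ℕ) ^ 7 : ℂ)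
    * psi q (2 ^ (J - g)) (7 + 1) (b * ((tot p.2 : ℕ) : ℤ) + al p.1) * Ac s R a (kf p) with hc1
  set c0 : (Fin d → ℤ) × U → ℂ := fun p => (1 / (q : ℕ) ^ 7 : ℂ) * Ac s R a (kf p) with hc0
  set g1 : (Fin d → ℝ) → ℂ := fun x => ∑ p ∈ idx, c1 p * ex (kf p) x with hg1d
  have hfwin : ∀ x, fwin s i0 J 7 R a x = ∑ p ∈ idx, c0 p * ex (kf p) x := by
    intro x
    unfold fwin
    rw [hidx, Finset.sum_product]
  have hg1eq : ∀ x, g1 x = ∑ C ∈ KK s i0 J 7, Phi s i0 J g 7 b R a x C (al C) := by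
    intro x
    simp only [hg1d]
    rw [hidx, Finset.sum_product]
    refine Finset.sum_congr rfl (fun C _ => ?_)
    unfold Phi
    refine Finset.sum_congr rfl (fun u _ => ?_)
    simp only [hc1, hkf]
    ring
  have havg : ∀ x, fwin s i0 J 7 R a x
      = (1 / 2 ^ J : ℂ) * ∑ C ∈ KK s i0 J 7, ∑ α : Fin q, Phi s i0 J g 7 b R a x C α := by
    intro x
    unfold fwin
    rw [Finset.mul_sum]
    refine Finset.sum_congr rfl (fun C _ => ?_)
    rw [Phi_avg s i0 J g 7 b hJ1 R a x C, ← mul_assoc]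
    push_cast
    field_simp
  set A := 2 * cT d * ((i : ℝ) + g + 1) ^ 2 * τ with hA
  have hcT : 0 < cT d := by unfold cT; positivity
  have hA0 : 0 < A := by
    have := H.hτ
    positivity
  -- the grid bound
  have hgrid : ∀ ξ : Fin d → ℕ, (∀ i, ξ i < Gn i) →
      ‖g1 (gp Gn ξ) - fwin s i0 J 7 R a (gp Gn ξ)‖
        ≤ A * wt 4 J g b (clus s i0 J R) ((ξ i0 : ℝ) / (2 ^ (s i0 + 3) : ℕ)) := by
    intro ξ hξ
    set y := gp Gn ξ with hy
    set t1 : (i : Fin d) → Fin (Gd s i) := fun i => ⟨ξ i, hξ i⟩ with ht1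
    have hy1 : gp Gn (fun i => ((t1 i : ℕ))) = y := rfl
    have hre := hf (t1, true)
    have him := hf (t1, false)
    simp only [hΦ, if_true, Bool.false_eq_true, if_false, hy1] at hre him
    have hh4 := hs_le J
    have hhs0 : 0 ≤ hs J := Finset.sum_nonneg (fun _ _ => by positivity)
    have hfin := H.final (ξ i0)
    have hxi : ((t1 i0 : ℕ)) = ξ i0 := rfl
    rw [hxi] at hre him
    have hWp := H.wpos ((ξ i0 : ℝ) / Gd s i0)
    have hτ := H.hτ
    have hb1 : 132 * ((LL s i0 J g b i R (ξ i0) : ℝ) + 6) ^ 2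
        * (2 ^ 9 * τ * wt 8 J g b (clus s i0 J R) ((ξ i0 : ℝ) / Gd s i0)) * hs J
        ≤ A / 2 * wt 4 J g b (clus s i0 J R) ((ξ i0 : ℝ) / (2 ^ (s i0 + 3) : ℕ)) := by
      have h5 : 0 ≤ 132 * ((LL s i0 J g b i R (ξ i0) : ℝ) + 6) ^ 2
        * (2 ^ 9 * τ * wt 8 J g b (clus s i0 J R) ((ξ i0 : ℝ) / Gd s i0)) := by positivity
      have h6 : 132 * ((LL s i0 J g b i R (ξ i0) : ℝ) + 6) ^ 2
        * (2 ^ 9 * τ * wt 8 J g b (clus s i0 J R) ((ξ i0 : ℝ) / Gd s i0)) * hs J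
        ≤ 132 * ((LL s i0 J g b i R (ξ i0) : ℝ) + 6) ^ 2
        * (2 ^ 9 * τ * wt 8 J g b (clus s i0 J R) ((ξ i0 : ℝ) / Gd s i0)) * 4 :=
        mul_le_mul_of_nonneg_left hh4 h5
      have h7 : 132 * ((LL s i0 J g b i R (ξ i0) : ℝ) + 6) ^ 2
        * (2 ^ 9 * τ * wt 8 J g b (clus s i0 J R) ((ξ i0 : ℝ) / Gd s i0)) * 4
        ≤ 1056 * ((LL s i0 J g b i R (ξ i0) : ℝ) + 6) ^ 2
        * (2 ^ 9 * τ * wt 8 J g b (clus s i0 J R) ((ξ i0 : ℝ) / Gd s i0)) := by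
        linarith
      refine (h6.trans h7).trans (hfin.trans (le_of_eq ?_))
      rw [hA]
      show _ = 2 * cT d * ((i : ℝ) + g + 1) ^ 2 * τ / 2
        * wt 4 J g b (clus s i0 J R) ((ξ i0 : ℝ) / Gd s i0)
      ring
    have hD : g1 y - fwin s i0 J 7 R a y
        = ∑ C : (KK s i0 J 7), Phi s i0 J g 7 b R a y C (f C : ℕ)
          - (1 / 2 ^ J : ℂ) * ∑ C : (KK s i0 J 7), ∑ α : Fin q, Phi s i0 J g 7 b R a y C α := by
      rw [hg1eq, havg]
      congr 1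
      · rw [← Finset.sum_coe_sort (KK s i0 J 7) (fun C => Phi s i0 J g 7 b R a y C (al C))]
        exact Finset.sum_congr rfl (fun C _ => by rw [hal1])
      · rw [← Finset.sum_coe_sort (KK s i0 J 7)
          (fun C => ∑ α : Fin q, Phi s i0 J g 7 b R a y C α)]
    have hcast : (1 / 2 ^ J : ℂ) = ((1 / 2 ^ J : ℝ) : ℂ) := by push_cast; rfl
    have hDre : (g1 y - fwin s i0 J 7 R a y).re
        = ∑ C : (KK s i0 J 7), (Phi s i0 J g 7 b R a y C (f C : ℕ)).re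
          - (1 / 2 ^ J) * ∑ C : (KK s i0 J 7), ∑ α : Fin q, (Phi s i0 J g 7 b R a y C α).re := by
      rw [hD, Complex.sub_re, hcast, Complex.re_ofReal_mul, Complex.re_sum, Complex.re_sum]
      simp only [Complex.re_sum]
    have hDim : (g1 y - fwin s i0 J 7 R a y).im
        = ∑ C : (KK s i0 J 7), (Phi s i0 J g 7 b R a y C (f C : ℕ)).im
          - (1 / 2 ^ J) * ∑ C : (KK s i0 J 7), ∑ α : Fin q, (Phi s i0 J g 7 b R a y C α).im := by
      rw [hD, Complex.sub_im, hcast, Complex.im_ofReal_mul, Complex.im_sum, Complex.im_sum]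
      simp only [Complex.im_sum]
    rw [← hDre] at hre
    rw [← hDim] at him
    refine (Complex.norm_le_abs_re_add_abs_im _).trans ?_
    have := add_le_add (hre.trans hb1) (him.trans hb1)
    linarith
  -- the difference as an indexed sum
  have hdiff : ∀ x, ∑ p ∈ idx, (c1 p - c0 p) * ex (kf p) x = g1 x - fwin s i0 J 7 R a x := by
    intro x
    rw [hfwin, ← Finset.sum_sub_distrib]
    exact Finset.sum_congr rfl (fun p _ => by ring)
  have hrange : ∀ p ∈ idx, ∀ i, |kf p i| ≤ 2 ^ (s i + 1) := by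
    intro p hp i
    rw [hidx, mem_product] at hp
    have h1 := fr_mem_RR hJ hp.1 p.2
    rw [mem_RR] at h1
    have h2 : ((7 : ℕ) : ℤ) * 2 ^ J ≤ 2 ^ (s i0) := by
      have e1 : (2 : ℤ) ^ (J + 3) ≤ 2 ^ (s i0) := pow_le_pow_right₀ (by norm_num) (by omega)
      rw [pow_add] at e1
      have e2 : (0 : ℤ) < 2 ^ J := by positivity
      push_cast
      linarith
    have h3 : (2 : ℤ) ^ (s i + 1) = 2 * 2 ^ (s i) := by
      rw [pow_succ]
      ring
    rw [h3, abs_le]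
    by_cases hi : i = i0
    · rw [hi]
      simp only [hkf]
      constructor <;> linarith [h1.1.1, h1.1.2]
    · have h4 := h1.2 i hi
      have h5 : (0 : ℤ) < 2 ^ (s i) := by positivity
      simp only [hkf]
      constructor <;> linarith [h4.1, h4.2]
  have hloc : ∀ x, ‖g1 x - fwin s i0 J 7 R a x‖ ≤ CS * A * wt 4 J g b (clus s i0 J R) (x i0) := by
    intro x
    have h1 := hS s i0 J (by omega) ((Fin d → ℤ) × U) idx (fun p => c1 p - c0 p) kf hrange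
      (fun t => wt 4 J g b (clus s i0 J R) t) A hA0.le (fun t => wt_nonneg _ _ _ _ _ _)
      (fun t t' => wt_slow _ _ _ _ t t') (by
        intro ξ hξ
        rw [hdiff]
        exact hgrid ξ hξ) x
    rw [hdiff] at h1
    exact h1
  -- the thin part
  have hthin := fwin_sub s i0 J 7 hJ R a
  have hcard : TP d (#(KK s i0 J 7) * ((7 + 1) * ((7 + 1) * 2 ^ (J - g)))) g1 := by
    refine TP_index idx c1 kf ((KK s i0 J 7).biUnion (fun C =>
      ((Finset.range ((7 + 1) * q)).filter (fun y : ℕ =>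
        psi q (2 ^ (J - g)) (7 + 1) (b * (y : ℤ) + al C) ≠ 0)).image
          (fun y : ℕ => fr i0 J C y))) ?_ ?_
    · refine Finset.card_biUnion_le_card_mul _ _ _ (fun C _ => ?_)
      exact Finset.card_image_le.trans (offset_card J g 7 b H.hb hJ1 (al C))
    · intro p hp hne
      rw [hidx, mem_product] at hp
      rw [mem_biUnion]
      refine ⟨p.1, hp.1, ?_⟩
      rw [mem_image]
      refine ⟨tot p.2, ?_, rfl⟩
      rw [mem_filter, mem_range]
      constructor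
      · have h1 := tot_le hq0 p.2
        have h2 : (7 + 1) * (q - 1) < (7 + 1) * q :=
          Nat.mul_lt_mul_of_pos_left (by omega) (by omega)
        omega
      · intro h0
        apply hne
        simp only [hc1]
        rw [h0]
        ring
  refine ⟨fun x => g1 x + (fbox s R a x - fwin s i0 J 7 R a x), hcard.add hthin, ?_⟩
  intro x
  have h1 : fbox s R a x - (g1 x + (fbox s R a x - fwin s i0 J 7 R a x))
      = -(g1 x - fwin s i0 J 7 R a x) := by ring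
  rw [h1, norm_neg]
  exact hloc x

theorem thinN (d : ℕ) (hS : LocSampSt d) : ThinSt d := by
  obtain ⟨CS, hCS, hS⟩ := hS
  have hcT : 0 < cT d := by unfold cT; positivity
  refine ⟨max (130 * 2 ^ d) (CS * (2 * cT d)), lt_max_of_lt_left (by positivity), ?_⟩
  intro s i0 J g b i R a τ hg1 hg hJ hb hR hRi hτ hE
  rcases R.eq_empty_or_nonempty with h0 | hRn
  · refine ⟨0, fun _ => 0, ?_, ⟨∅, fun _ => 0, by simp, fun x => by simp⟩, ?_⟩
    · push_cast
      positivity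
    · intro x
      rw [h0]
      have e1 : fbox s ∅ a x = 0 := by
        unfold fbox Ac
        simp
      rw [e1, sub_zero, norm_zero]
      have := wt_nonneg 4 J g b (clus s i0 J ∅) (x i0)
      positivity
  · have H : HypN s i0 J g b i R a τ := ⟨hg1, hg, hJ, hb, hR, hRi, hRn, hτ, hE⟩
    obtain ⟨G, hG, hG2⟩ := block_thinN hS H
    refine ⟨_, G, ?_, hG, ?_⟩
    · have hm : 7 ≤ 2 ^ (s i0 - J + 1) := by
        calc 7 ≤ 2 ^ 3 := by norm_num
          _ ≤ 2 ^ (s i0 - J + 1) := Nat.pow_le_pow_right (by norm_num) (by omega)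
      have h1 := KK_upper s i0 J 7 (by omega) hm
      have h2 := Thin_card s i0 J 7
      set X : ℝ := 2 ^ (∑ j, s j) with hX
      have hX0 : 0 < X := by positivity
      have h1' : (#(KK s i0 J 7) : ℝ) * 2 ^ J ≤ X * 2 ^ d * 2 := by
        have : (#(KK s i0 J 7) : ℝ) * 2 ^ J ≤ 2 ^ (∑ j, s j + d + 1) := by exact_mod_cast h1
        rwa [pow_add, pow_add, pow_one] at this
      have h2' : (#(Thin s i0 J 7) : ℝ) * 2 ^ (s i0) ≤ 8 * (X * 2 ^ J * 2 ^ d) := by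
        have : (#(Thin s i0 J 7) : ℝ) * 2 ^ (s i0) ≤ (7 + 1) * 2 ^ (∑ j, s j + J + d) := by
          exact_mod_cast h2
        rw [pow_add, pow_add] at this
        linarith
      have e1 : (2 : ℝ) ^ (J - g) = 2 ^ J / 2 ^ g := by
        rw [eq_div_iff (by positivity), ← pow_add, Nat.sub_add_cancel hg]
      have e2 : (2 : ℝ) ^ J * 2 ^ g * 2 ^ 5 ≤ 2 ^ (s i0) := by
        rw [← pow_add, ← pow_add]
        exact pow_le_pow_right₀ (by norm_num) hJ
      have h3 : (#(Thin s i0 J 7) : ℝ) ≤ X * 2 ^ d / 2 ^ g := by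
        rw [le_div_iff₀ (by positivity)]
        have e3 : (0 : ℝ) ≤ #(Thin s i0 J 7) := Nat.cast_nonneg _
        have e4 : (#(Thin s i0 J 7) : ℝ) * (2 ^ J * 2 ^ g * 2 ^ 5) ≤ 8 * (X * 2 ^ J * 2 ^ d) :=
          (mul_le_mul_of_nonneg_left e2 e3).trans h2'
        have e5 : (0 : ℝ) < 2 ^ J := by positivity
        have e6 : (#(Thin s i0 J 7) * 2 ^ g) * (2 ^ J * 2 ^ 5) ≤ (X * 2 ^ d / 4) * (2 ^ J * 2 ^ 5) := by
          calc (#(Thin s i0 J 7) * 2 ^ g) * ((2 : ℝ) ^ J * 2 ^ 5)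
              = #(Thin s i0 J 7) * (2 ^ J * 2 ^ g * 2 ^ 5) := by ring
            _ ≤ 8 * (X * 2 ^ J * 2 ^ d) := e4
            _ = _ := by ring
        have e7 := le_of_mul_le_mul_right e6 (by positivity)
        have e8 : 0 < X * 2 ^ d := by positivity
        linarith
      have h4 : (#(KK s i0 J 7) : ℝ) * ((7 + 1) * ((7 + 1) * 2 ^ (J - g)))
          ≤ 128 * (X * 2 ^ d) / 2 ^ g := by
        rw [e1, le_div_iff₀ (by positivity)]
        calc (#(KK s i0 J 7) : ℝ) * ((7 + 1) * ((7 + 1) * (2 ^ J / 2 ^ g))) * 2 ^ g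
            = 64 * (#(KK s i0 J 7) * 2 ^ J) := by
              field_simp
              ring
          _ ≤ 64 * (X * 2 ^ d * 2) := by gcongr
          _ = _ := by ring
      have h5 : ((#(KK s i0 J 7) * ((7 + 1) * ((7 + 1) * 2 ^ (J - g))) + #(Thin s i0 J 7) : ℕ) : ℝ)
          = (#(KK s i0 J 7) : ℝ) * ((7 + 1) * ((7 + 1) * 2 ^ (J - g))) + #(Thin s i0 J 7) := by
        push_cast
        ring
      rw [h5]
      calc (#(KK s i0 J 7) : ℝ) * ((7 + 1) * ((7 + 1) * 2 ^ (J - g))) + #(Thin s i0 J 7)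
          ≤ 128 * (X * 2 ^ d) / 2 ^ g + X * 2 ^ d / 2 ^ g := add_le_add h4 h3
        _ ≤ (130 * 2 ^ d) * X / 2 ^ g := by
            rw [← add_div]
            refine div_le_div_of_nonneg_right ?_ (by positivity)
            have : 0 < X * 2 ^ d := by positivity
            linarith
        _ ≤ max (130 * 2 ^ d) (CS * (2 * cT d)) * X / 2 ^ g := by
            refine div_le_div_of_nonneg_right ?_ (by positivity)
            exact mul_le_mul_of_nonneg_right (le_max_left _ _) hX0.le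
    · intro x
      refine (hG2 x).trans ?_
      have hw := wt_nonneg 4 J g b (clus s i0 J R) (x i0)
      calc CS * (2 * cT d * ((i : ℝ) + g + 1) ^ 2 * τ) * wt 4 J g b (clus s i0 J R) (x i0)
          = (CS * (2 * cT d)) * ((i : ℝ) + g + 1) ^ 2 * τ * wt 4 J g b (clus s i0 J R) (x i0) := by
            ring
        _ ≤ _ := by
            gcongr
            exact le_max_right _ _

end

end Pool.Agent.H75.UX
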