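import Pool.Agent.H75.UX.Lay
import Pool.Agent.H75.UX.Sums
import Pool.Agent.H75.UX.Rem
import Pool.Agent.H75.UX.RT
import Pool.Agent.H75.UX.Clus
import Pool.Agent.H75.UX.Cls
import Pool.Agent.H75.UX.Sel
import Pool.Agent.H75.UX.LocSamp
import Pool.Agent.H75.UX.ThinN
import Pool.Agent.H75.UX.Lossy
import Pool.Agent.H75.UX.Poly
import Pool.Agent.H75.UX.Fin

set_option autoImplicit false

/-!
# The exact upper bound for `1 < p < 2`
-/

namespace Pool.Agent.H75.UX

/-- for `d ≥ 2`, `1 < p < 2`, `r > 1/p` the best `m`-term approximation of the class is at most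
`C m^(-r+η) (log m)^((d-1)(r-2η))` -/
theorem upperX (d : ℕ) (hd : 2 ≤ d) (p r : ℝ) (hp1 : 1 < p) (hp2 : p < 2) (hr : 1 / p < r) :
    UpperSt d p r := by
  have hd0 : 0 < d := by omega
  have hr0 : 0 < r := lt_trans (by positivity) hr
  have hRT := rt d p r hp1 hp2 hr0
  have hT := thinN d (locsamp d)
  have hC := cls d hd0 hT sel (clus_thm d)
  have hL := lossy d hd0 p r hp1 hp2 hr
  have hX := layerX d hd p r hp1 hp2 hC hRT (rem d p r hd0 hp1 hp2 hr0 hRT) sums
    (expo p hp1 hp2) hL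
  exact fin d hd0 p r hp1 hp2 hr (poly d hd p r hp1 hp2 hr hX hL)

end Pool.Agent.H75.UX
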