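import Pool.Agent.H75.UX.Wgt

set_option autoImplicit false
set_option linter.unusedSectionVars false

/-!
# Thinning of one block: the size of the functional of the options
-/

open Finset ComplexConjugate

open scoped Classical

namespace Pool.Agent.H75.UX

open Pool.Agent.H75.MT (ee ee_add ee_norm ee_conj ee_int ee_zero)
open Pool.Agent.H75.UB

noncomputable section

variable {d : ℕ}

/-- the part of the functional belonging to one alias and one cluster -/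
def thT (s : Fin d → ℕ) (i0 : Fin d) (J b : ℕ) (R : Finset (Fin d → ℕ)) (a : (Fin d → ℕ) → ℂ)
    (x : Fin d → ℝ) (C : Fin d → ℤ) (h : ℤ) (u : ℕ) : ℂ :=
  ∑ ζ ∈ R.filter (fun ζ => clu s i0 J ζ = u), (a ζ / NT s)
    * Wk J 7 b h (x i0 - pos s i0 ζ) * ex (fr i0 J C 0) (x - gp (NN s) ζ)

/-- decay factor of one alias and one cluster -/
def thk (J b : ℕ) (t : ℝ) (h : ℤ) (u : ℕ) : ℝ :=
  kp (2 ^ J) 8 (t - (u : ℝ) / (2 ^ J : ℕ) + (h : ℝ) * b / (2 ^ J : ℕ))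

lemma thk_pos (J b : ℕ) (t : ℝ) (h : ℤ) (u : ℕ) : 0 < thk J b t h u := kp_pos _ _ _

/-- the oscillation of the options -/
def thF (s : Fin d → ℕ) (i0 : Fin d) (J g b : ℕ) (R : Finset (Fin d → ℕ)) (a : (Fin d → ℕ) → ℂ)
    (x : Fin d → ℝ) (C : Fin d → ℤ) : ℝ :=
  ∑ h ∈ Hn (2 ^ J), ∑ u ∈ clus s i0 J R, pw (2 ^ g) 8 h * ‖thT s i0 J b R a x C h u‖

lemma thF_nonneg (s : Fin d → ℕ) (i0 : Fin d) (J g b : ℕ) (R : Finset (Fin d → ℕ))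
    (a : (Fin d → ℕ) → ℂ) (x : Fin d → ℝ) (C : Fin d → ℤ) : 0 ≤ thF s i0 J g b R a x C :=
  Finset.sum_nonneg (fun h _ => Finset.sum_nonneg (fun u _ =>
    mul_nonneg (pw_pos _ _ _).le (norm_nonneg _)))

lemma thF_diff (s : Fin d → ℕ) (i0 : Fin d) (J g b : ℕ) (hg : g ≤ J) (hJ : 1 ≤ J)
    (R : Finset (Fin d → ℕ)) (a : (Fin d → ℕ) → ℂ) (x : Fin d → ℝ) (C : Fin d → ℤ) (α α' : ℕ) :
    ‖Phi s i0 J g 7 b R a x C α - Phi s i0 J g 7 b R a x C α'‖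
      ≤ 2 * thF s i0 J g b R a x C := by
  rw [Phi_expand, Phi_expand, ← Finset.sum_sub_distrib]
  set Tt : ℤ → ℂ := fun h => ∑ ζ ∈ R, (a ζ / NT s)
        * Wk J 7 b h (x i0 - pos s i0 ζ) * ex (fr i0 J C 0) (x - gp (NN s) ζ) with hTt
  have hT : ∀ h, Tt h = ∑ u ∈ clus s i0 J R, thT s i0 J b R a x C h u := by
    intro h
    rw [hTt]
    simp only
    unfold thT clus
    exact (Finset.sum_fiberwise_of_maps_to (fun ζ hζ => Finset.mem_image_of_mem _ hζ) _).symm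
  have h1 : ∀ h ∈ Hs (2 ^ J), ‖psh (2 ^ J) (2 ^ (J - g)) (7 + 1) h * ee (h * ((α : ℝ) / (2 ^ J : ℕ)))
      * Tt h - psh (2 ^ J) (2 ^ (J - g)) (7 + 1) h * ee (h * ((α' : ℝ) / (2 ^ J : ℕ))) * Tt h‖
      ≤ if h ≠ 0 then 2 * ∑ u ∈ clus s i0 J R, pw (2 ^ g) 8 h * ‖thT s i0 J b R a x C h u‖
        else 0 := by
    intro h hh
    by_cases h0 : h = 0
    · rw [if_neg (by simp [h0]), h0]
      simp only [Int.cast_zero, zero_mul, ee_zero, mul_one, sub_self, norm_zero]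
      exact le_rfl
    · rw [if_pos h0]
      have e1 : psh (2 ^ J) (2 ^ (J - g)) (7 + 1) h * ee (h * ((α : ℝ) / (2 ^ J : ℕ))) * Tt h
          - psh (2 ^ J) (2 ^ (J - g)) (7 + 1) h * ee (h * ((α' : ℝ) / (2 ^ J : ℕ))) * Tt h
          = (ee (h * ((α : ℝ) / (2 ^ J : ℕ))) - ee (h * ((α' : ℝ) / (2 ^ J : ℕ))))
            * (psh (2 ^ J) (2 ^ (J - g)) (7 + 1) h * Tt h) := by ring
      rw [e1, norm_mul, norm_mul]
      have e2 : ‖ee (h * ((α : ℝ) / (2 ^ J : ℕ))) - ee (h * ((α' : ℝ) / (2 ^ J : ℕ)))‖ ≤ 2 := by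
        refine (norm_sub_le _ _).trans ?_
        rw [ee_norm, ee_norm]
        norm_num
      have e3 := psh_pw J g (7 + 1) hg hJ h hh
      have e4 : ‖Tt h‖ ≤ ∑ u ∈ clus s i0 J R, ‖thT s i0 J b R a x C h u‖ := by
        rw [hT]
        exact norm_sum_le _ _
      refine mul_le_mul e2 ?_ (by positivity) (by norm_num)
      rw [← Finset.mul_sum]
      exact mul_le_mul e3 e4 (norm_nonneg _) (pw_pos _ _ _).le
  refine (norm_sum_le _ _).trans ((Finset.sum_le_sum h1).trans ?_)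
  rw [← Finset.sum_filter]
  unfold thF Hn
  rw [Finset.mul_sum]

lemma clu_pos (s : Fin d → ℕ) (i0 : Fin d) (J : ℕ) (ζ : Fin d → ℕ) (u : ℕ)
    (h : clu s i0 J ζ = u) : |pos s i0 ζ - (u : ℝ) / (2 ^ J : ℕ)| ≤ 1 / 2 ^ J := by
  unfold clu at h
  have hN := NN_pos s i0
  have h1 : u * NN s i0 ≤ ζ i0 * 2 ^ J := by
    rw [← h]
    exact Nat.div_mul_le_self _ _
  have h2 : ζ i0 * 2 ^ J < (u + 1) * NN s i0 := by
    have e1 := Nat.div_add_mod (ζ i0 * 2 ^ J) (NN s i0)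
    have e2 := Nat.mod_lt (ζ i0 * 2 ^ J) hN
    rw [h] at e1
    rw [add_mul, one_mul, mul_comm u]
    omega
  have hN' : (0 : ℝ) < NN s i0 := by exact_mod_cast hN
  have h1' : (u : ℝ) * NN s i0 ≤ ζ i0 * 2 ^ J := by exact_mod_cast h1
  have h2' : (ζ i0 : ℝ) * 2 ^ J ≤ (u + 1) * NN s i0 := by exact_mod_cast h2.le
  have hq : (0 : ℝ) < 2 ^ J := by positivity
  unfold pos
  push_cast
  rw [abs_le]
  constructor
  · have : (u : ℝ) / 2 ^ J ≤ ζ i0 / NN s i0 := by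
      rw [div_le_div_iff₀ hq hN']
      exact h1'
    have h3 : (0 : ℝ) < 1 / 2 ^ J := by positivity
    linarith
  · have : (ζ i0 : ℝ) / NN s i0 ≤ (u + 1) / 2 ^ J := by
      rw [div_le_div_iff₀ hN' hq]
      exact h2'
    rw [add_div] at this
    linarith

lemma thW (s : Fin d → ℕ) (i0 : Fin d) (J b : ℕ) (ζ : Fin d → ℕ) (u : ℕ)
    (hu : clu s i0 J ζ = u) (h : ℤ) (t : ℝ) :
    ‖Wk J 7 b h (t - pos s i0 ζ)‖ ≤ 2 ^ J * (2 ^ 8 * thk J b t h u) := by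
  refine (Wk_kp J 7 b h _).trans ?_
  refine mul_le_mul_of_nonneg_left ?_ (by positivity)
  have h1 := kp_slow (2 ^ J) 8 (t - (u : ℝ) / (2 ^ J : ℕ) + (h : ℝ) * b / (2 ^ J : ℕ))
    (t - pos s i0 ζ + (h : ℝ) * b / (2 ^ J : ℕ))
  refine h1.trans ?_
  unfold thk
  refine mul_le_mul_of_nonneg_right ?_ (kp_pos _ _ _).le
  have h2 : nu (t - (u : ℝ) / (2 ^ J : ℕ) + (h : ℝ) * b / (2 ^ J : ℕ)
      - (t - pos s i0 ζ + (h : ℝ) * b / (2 ^ J : ℕ))) ≤ 1 / 2 ^ J := by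
    refine (nu_le _ 0).trans ?_
    refine le_trans (le_of_eq ?_) (clu_pos s i0 J ζ u hu)
    congr 1
    push_cast
    ring
  have h3 : (1 : ℝ) + (2 ^ J : ℕ) * nu (t - (u : ℝ) / (2 ^ J : ℕ) + (h : ℝ) * b / (2 ^ J : ℕ)
      - (t - pos s i0 ζ + (h : ℝ) * b / (2 ^ J : ℕ))) ≤ 2 := by
    have hq : (0 : ℝ) < (2 ^ J : ℕ) := by positivity
    have h4 := mul_le_mul_of_nonneg_left h2 hq.le
    have h5 : ((2 ^ J : ℕ) : ℝ) * (1 / 2 ^ J) = 1 := by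
      push_cast
      field_simp
    linarith
  have h0 := nu_nonneg (t - (u : ℝ) / (2 ^ J : ℕ) + (h : ℝ) * b / (2 ^ J : ℕ)
      - (t - pos s i0 ζ + (h : ℝ) * b / (2 ^ J : ℕ)))
  exact pow_le_pow_left₀ (by positivity) h3 8

lemma thT_sq (s : Fin d → ℕ) (i0 : Fin d) (J b : ℕ) (hJ : J + 3 ≤ s i0)
    (R : Finset (Fin d → ℕ)) (hR : R ⊆ grid s) (a : (Fin d → ℕ) → ℂ)
    (x : Fin d → ℝ) (h : ℤ) (u : ℕ) (τ : ℝ)
    (hE : (∑ ζ ∈ R.filter (fun ζ => clu s i0 J ζ = u), ‖a ζ‖ ^ 2) / NT s ≤ τ ^ 2 / 2 ^ J) :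
    ∑ C ∈ KK s i0 J 7, ‖thT s i0 J b R a x C h u‖ ^ 2
      ≤ 3 * (2 ^ 8) ^ 2 * τ ^ 2 * thk J b (x i0) h u ^ 2 := by
  set S := R.filter (fun ζ => clu s i0 J ζ = u) with hS
  set κ := thk J b (x i0) h u with hκ
  have hκ0 : 0 < κ := thk_pos _ _ _ _ _
  set c : (Fin d → ℕ) → ℂ := fun ζ => (a ζ / NT s) * Wk J 7 b h (x i0 - pos s i0 ζ) with hc
  have h1 : ∀ C, ‖thT s i0 J b R a x C h u‖
      = ‖∑ ζ ∈ S, c ζ * ex (fr i0 J C 0) (-gp (NN s) ζ)‖ := by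
    intro C
    unfold thT
    have e1 : ∑ ζ ∈ S, (a ζ / NT s) * Wk J 7 b h (x i0 - pos s i0 ζ)
        * ex (fr i0 J C 0) (x - gp (NN s) ζ)
        = ex (fr i0 J C 0) x * ∑ ζ ∈ S, c ζ * ex (fr i0 J C 0) (-gp (NN s) ζ) := by
      rw [Finset.mul_sum]
      refine Finset.sum_congr rfl (fun ζ _ => ?_)
      rw [ex_sub]
      simp only [hc]
      ring
    rw [e1, norm_mul, ex_norm, one_mul]
  simp only [h1]
  have hJ' : J ≤ s i0 := by omega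
  have hm : 7 ≤ 2 ^ (s i0 - J + 1) := by
    calc 7 ≤ 2 ^ 3 := by norm_num
      _ ≤ 2 ^ (s i0 - J + 1) := Nat.pow_le_pow_right (by norm_num) (by omega)
  have hb := bessel_block s i0 J 7 hJ' hm S
    (fun ζ hζ => mem_grid.1 (hR (Finset.mem_of_mem_filter ζ hζ))) ((u : ℝ) / (2 ^ J : ℕ)) (by
      intro ζ hζ
      have h2 := clu_pos s i0 J ζ u (Finset.mem_filter.1 hζ).2
      refine ⟨0, ?_⟩
      rw [abs_sub_comm] at h2
      unfold pos at h2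
      rw [Int.cast_zero, sub_zero]
      exact h2) c
  refine hb.trans ?_
  have h2 : ∑ ζ ∈ S, ‖c ζ‖ ^ 2
      ≤ (2 ^ J * (2 ^ 8 * κ)) ^ 2 / (NT s : ℝ) ^ 2 * ∑ ζ ∈ S, ‖a ζ‖ ^ 2 := by
    rw [Finset.mul_sum]
    refine Finset.sum_le_sum (fun ζ hζ => ?_)
    simp only [hc]
    rw [norm_mul, norm_div, Complex.norm_natCast, mul_pow, div_pow]
    have h3 := thW s i0 J b ζ u (Finset.mem_filter.1 hζ).2 h (x i0)
    have h4 : ‖Wk J 7 b h (x i0 - pos s i0 ζ)‖ ^ 2 ≤ (2 ^ J * (2 ^ 8 * κ)) ^ 2 :=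
      pow_le_pow_left₀ (norm_nonneg _) h3 2
    calc ‖a ζ‖ ^ 2 / (NT s : ℝ) ^ 2 * ‖Wk J 7 b h (x i0 - pos s i0 ζ)‖ ^ 2
        ≤ ‖a ζ‖ ^ 2 / (NT s : ℝ) ^ 2 * (2 ^ J * (2 ^ 8 * κ)) ^ 2 := by gcongr
      _ = _ := by ring
  have hNT : (0 : ℝ) < NT s := by exact_mod_cast NT_pos s
  have hA : (2 : ℝ) ^ J * ((∏ i, AA s i0 J i : ℕ) : ℝ) = NT s := by
    exact_mod_cast AA_prod s i0 J hJ'
  have hA0 : (0 : ℝ) ≤ ((∏ i, AA s i0 J i : ℕ) : ℝ) := by positivity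
  calc ((∏ i, AA s i0 J i : ℕ) : ℝ) * 3 * ∑ ζ ∈ S, ‖c ζ‖ ^ 2
      ≤ ((∏ i, AA s i0 J i : ℕ) : ℝ) * 3
        * ((2 ^ J * (2 ^ 8 * κ)) ^ 2 / (NT s : ℝ) ^ 2 * ∑ ζ ∈ S, ‖a ζ‖ ^ 2) := by
        refine mul_le_mul_of_nonneg_left h2 (by positivity)
    _ = 3 * (2 ^ 8 * κ) ^ 2 * ((2 : ℝ) ^ J * ((∏ i, AA s i0 J i : ℕ) : ℝ)) * 2 ^ J / (NT s : ℝ)
        * ((∑ ζ ∈ S, ‖a ζ‖ ^ 2) / NT s) := by
        field_simp
    _ = 3 * (2 ^ 8 * κ) ^ 2 * 2 ^ J * ((∑ ζ ∈ S, ‖a ζ‖ ^ 2) / NT s) := by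
        rw [hA]
        field_simp
    _ ≤ 3 * (2 ^ 8 * κ) ^ 2 * 2 ^ J * (τ ^ 2 / 2 ^ J) := by gcongr
    _ = _ := by field_simp

lemma thT_sup (s : Fin d → ℕ) (i0 : Fin d) (J b i : ℕ)
    (R : Finset (Fin d → ℕ)) (hR : #R ≤ 2 ^ i) (a : (Fin d → ℕ) → ℂ)
    (x : Fin d → ℝ) (C : Fin d → ℤ) (h : ℤ) (u : ℕ) (τ : ℝ)
    (hE : (∑ ζ ∈ R.filter (fun ζ => clu s i0 J ζ = u), ‖a ζ‖ ^ 2) / NT s ≤ τ ^ 2 / 2 ^ J) :
    ‖thT s i0 J b R a x C h u‖ ^ 2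
      ≤ (2 ^ 8) ^ 2 * (2 ^ J * 2 ^ i * τ ^ 2 / NT s) * thk J b (x i0) h u ^ 2 := by
  set S := R.filter (fun ζ => clu s i0 J ζ = u) with hS
  set κ := thk J b (x i0) h u with hκ
  have hκ0 : 0 < κ := thk_pos _ _ _ _ _
  have hNT : (0 : ℝ) < NT s := by exact_mod_cast NT_pos s
  have h1 : ‖thT s i0 J b R a x C h u‖ ≤ (2 ^ J * (2 ^ 8 * κ)) / NT s * ∑ ζ ∈ S, ‖a ζ‖ := by
    unfold thT
    rw [Finset.mul_sum]
    refine (norm_sum_le _ _).trans (Finset.sum_le_sum (fun ζ hζ => ?_))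
    rw [norm_mul, norm_mul, ex_norm, mul_one, norm_div, Complex.norm_natCast]
    have h3 := thW s i0 J b ζ u (Finset.mem_filter.1 hζ).2 h (x i0)
    calc ‖a ζ‖ / NT s * ‖Wk J 7 b h (x i0 - pos s i0 ζ)‖
        ≤ ‖a ζ‖ / NT s * (2 ^ J * (2 ^ 8 * κ)) := by gcongr
      _ = _ := by ring
  have h2 : (∑ ζ ∈ S, ‖a ζ‖) ^ 2 ≤ 2 ^ i * ∑ ζ ∈ S, ‖a ζ‖ ^ 2 := by
    refine sq_sum_le_card_mul_sum_sq.trans ?_
    have h3 : (#S : ℝ) ≤ 2 ^ i := by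
      have : #S ≤ 2 ^ i := (Finset.card_le_card (Finset.filter_subset _ _)).trans hR
      exact_mod_cast this
    have h4 : 0 ≤ ∑ ζ ∈ S, ‖a ζ‖ ^ 2 := Finset.sum_nonneg (fun _ _ => by positivity)
    gcongr
  have h5 : ∑ ζ ∈ S, ‖a ζ‖ ^ 2 ≤ τ ^ 2 / 2 ^ J * NT s := by
    rwa [div_le_iff₀ hNT] at hE
  calc ‖thT s i0 J b R a x C h u‖ ^ 2
      ≤ ((2 ^ J * (2 ^ 8 * κ)) / NT s * ∑ ζ ∈ S, ‖a ζ‖) ^ 2 :=
        pow_le_pow_left₀ (norm_nonneg _) h1 2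
    _ = ((2 ^ J * (2 ^ 8 * κ)) / NT s) ^ 2 * (∑ ζ ∈ S, ‖a ζ‖) ^ 2 := by ring
    _ ≤ ((2 ^ J * (2 ^ 8 * κ)) / NT s) ^ 2 * (2 ^ i * (τ ^ 2 / 2 ^ J * NT s)) := by
        refine mul_le_mul_of_nonneg_left (h2.trans ?_) (by positivity)
        gcongr
    _ = _ := by field_simp

/-- Cauchy-Schwarz over the aliases and clusters -/
lemma thF_cs (s : Fin d → ℕ) (i0 : Fin d) (J g b : ℕ) (R : Finset (Fin d → ℕ))
    (a : (Fin d → ℕ) → ℂ) (x : Fin d → ℝ) (C : Fin d → ℤ) :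
    (thF s i0 J g b R a x C) ^ 2 ≤ wt 8 J g b (clus s i0 J R) (x i0) *
      ∑ h ∈ Hn (2 ^ J), ∑ u ∈ clus s i0 J R, pw (2 ^ g) 8 h *
        (‖thT s i0 J b R a x C h u‖ ^ 2 / thk J b (x i0) h u) := by
  unfold thF wt
  rw [← Finset.sum_product', ← Finset.sum_product', ← Finset.sum_product']
  refine Finset.sum_sq_le_sum_mul_sum_of_sq_le_mul _ ?_ ?_ ?_
  · intro j _
    exact mul_nonneg (pw_pos _ _ _).le (kp_pos _ _ _).le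
  · intro j _
    exact mul_nonneg (pw_pos _ _ _).le (div_nonneg (sq_nonneg _) (thk_pos _ _ _ _ _).le)
  · intro j _
    have h1 := thk_pos J b (x i0) j.1 j.2
    refine le_of_eq ?_
    show (pw (2 ^ g) 8 j.1 * ‖thT s i0 J b R a x C j.1 j.2‖) ^ 2
      = pw (2 ^ g) 8 j.1 * thk J b (x i0) j.1 j.2
        * (pw (2 ^ g) 8 j.1 * (‖thT s i0 J b R a x C j.1 j.2‖ ^ 2 / thk J b (x i0) j.1 j.2))
    generalize thk J b (x i0) j.1 j.2 = κ at h1 ⊢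
    field_simp

lemma thF_gen (s : Fin d → ℕ) (i0 : Fin d) (J g b : ℕ) (R : Finset (Fin d → ℕ))
    (a : (Fin d → ℕ) → ℂ) (x : Fin d → ℝ) (T : Finset (Fin d → ℤ)) (B : ℝ)
    (hB : ∀ h u, ∑ C ∈ T, ‖thT s i0 J b R a x C h u‖ ^ 2 ≤ B * thk J b (x i0) h u ^ 2) :
    ∑ C ∈ T, (thF s i0 J g b R a x C) ^ 2 ≤ B * (wt 8 J g b (clus s i0 J R) (x i0)) ^ 2 := by
  have hw := wt_nonneg 8 J g b (clus s i0 J R) (x i0)
  refine (Finset.sum_le_sum (fun C _ => thF_cs s i0 J g b R a x C)).trans ?_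
  rw [← Finset.mul_sum, Finset.sum_comm]
  have h1 : ∑ h ∈ Hn (2 ^ J), ∑ C ∈ T, ∑ u ∈ clus s i0 J R, pw (2 ^ g) 8 h *
        (‖thT s i0 J b R a x C h u‖ ^ 2 / thk J b (x i0) h u)
      ≤ B * wt 8 J g b (clus s i0 J R) (x i0) := by
    unfold wt
    rw [Finset.mul_sum]
    refine Finset.sum_le_sum (fun h _ => ?_)
    rw [Finset.sum_comm, Finset.mul_sum]
    refine Finset.sum_le_sum (fun u _ => ?_)
    rw [← Finset.mul_sum, ← Finset.sum_div]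
    have h2 := thk_pos J b (x i0) h u
    have h3 : (∑ C ∈ T, ‖thT s i0 J b R a x C h u‖ ^ 2) / thk J b (x i0) h u
        ≤ B * thk J b (x i0) h u := by
      rw [div_le_iff₀ h2]
      refine (hB h u).trans (le_of_eq ?_)
      ring
    calc _ ≤ pw (2 ^ g) 8 h * (B * thk J b (x i0) h u) :=
          mul_le_mul_of_nonneg_left h3 (pw_pos _ _ _).le
      _ = _ := by
          unfold thk
          ring
  calc _ ≤ wt 8 J g b (clus s i0 J R) (x i0) * (B * wt 8 J g b (clus s i0 J R) (x i0)) :=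
        mul_le_mul_of_nonneg_left h1 hw
    _ = _ := by ring

end

end Pool.Agent.H75.UX
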