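import Pool.Agent.H75.UX.ThinA
import Pool.Agent.H12.UBX.FullN

set_option autoImplicit false
set_option linter.unusedSectionVars false

/-!
# Thinning of one block: the weights
-/

open Finset ComplexConjugate

open scoped Classical

namespace Pool.Agent.H75.UX

open Pool.Agent.H75.MT (ee ee_add ee_norm ee_conj ee_int ee_zero)
open Pool.Agent.H75.UB

noncomputable section

variable {d : ℕ}

lemma th_term (J g : ℕ) (h : ℤ) (t : ℝ) :
    pw (2 ^ g) 8 h * kp (2 ^ J) 8 t = (pw (2 ^ g) 4 h * kp (2 ^ J) 4 t) ^ 2 := by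
  have h1 : pw (2 ^ g) 8 h = (pw (2 ^ g) 4 h) ^ 2 := by
    rw [← pw_sqrt, Real.sq_sqrt (pw_pos _ _ _).le]
  have h2 : kp (2 ^ J) 8 t = (kp (2 ^ J) 4 t) ^ 2 := by
    rw [← kp_sqrt, Real.sq_sqrt (kp_pos _ _ _).le]
  rw [h1, h2, mul_pow]

lemma th_sq (J g b : ℕ) (U : Finset ℕ) (t : ℝ) : wt 8 J g b U t ≤ (wt 4 J g b U t) ^ 2 := by
  unfold wt
  rw [← Finset.sum_product', ← Finset.sum_product']
  simp only [th_term J g]
  exact Finset.sum_sq_le_sq_sum_of_nonneg (fun j _ => mul_nonneg (pw_pos _ _ _).le (kp_pos _ _ _).le)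

lemma th_le (J g b : ℕ) (U : Finset ℕ) (t : ℝ) : wt 8 J g b U t ≤ wt 4 J g b U t := by
  unfold wt
  refine Finset.sum_le_sum (fun h _ => Finset.sum_le_sum (fun u _ => ?_))
  exact mul_le_mul (pw_84 _ _) (kp_84 _ _) (kp_pos _ _ _).le (pw_pos _ _ _).le

lemma th_sqrt (J g b : ℕ) (U : Finset ℕ) (t : ℝ) :
    Real.sqrt (wt 8 J g b U t) ≤ wt 4 J g b U t := by
  rw [Real.sqrt_le_left (wt_nonneg _ _ _ _ _ _)]
  exact th_sq J g b U t

lemma th_pos (J g b : ℕ) (hJ : 1 ≤ J) (U : Finset ℕ) (hU : U.Nonempty) (t : ℝ) :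
    0 < wt 8 J g b U t := by
  unfold wt
  have hn : (Hn (2 ^ J)).Nonempty := by
    refine ⟨-1, ?_⟩
    unfold Hn Hs
    rw [mem_filter, mem_Ico]
    refine ⟨⟨?_, ?_⟩, by norm_num⟩
    · have : 1 ≤ 2 ^ J / 2 := by
        rw [Nat.le_div_iff_mul_le (by norm_num)]
        calc 1 * 2 = 2 ^ 1 := by norm_num
          _ ≤ 2 ^ J := Nat.pow_le_pow_right (by norm_num) hJ
      omega
    · have : (0 : ℤ) ≤ ((2 ^ J / 2 : ℕ) : ℤ) := Int.natCast_nonneg _
      omega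
  exact Finset.sum_pos (fun h _ => Finset.sum_pos (fun u _ => mul_pos (pw_pos _ _ _)
    (kp_pos _ _ _)) hU) hn

lemma four_pow (n : ℕ) : (2 * n + 3) ^ 4 ≤ 4096 * 2 ^ n := by
  rcases Nat.lt_or_ge n 6 with h | h
  · interval_cases n <;> norm_num
  · induction n, h using Nat.le_induction with
    | base => norm_num
    | succ n hn ih =>
      have h1 : (2 * (n + 1) + 3) ^ 4 ≤ 2 * (2 * n + 3) ^ 4 := by
        have h2 : 15 * (2 * (n + 1) + 3) ≤ 17 * (2 * n + 3) := by omega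
        have h3 := Nat.pow_le_pow_left h2 4
        rw [mul_pow, mul_pow] at h3
        norm_num at h3 ⊢
        omega
      have h4 : 2 ^ (n + 1) = 2 * 2 ^ n := by
        rw [pow_succ]
        ring
      rw [h4]
      omega

lemma exk (W : ℝ) (hW : 0 < W) : ∃ k : ℕ, (1 / 2 : ℝ) ^ (2 * k) ≤ W ∧
    (2 * (k : ℝ) + 1) ^ 2 * W ≤ 64 * (W + Real.sqrt W) := by
  rcases le_total 1 W with h | h
  · refine ⟨0, by simpa using h, ?_⟩
    have := Real.sqrt_nonneg W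
    push_cast
    nlinarith
  · obtain ⟨n, hn1, hn2⟩ := exists_nat_pow_near_of_lt_one hW h (by norm_num : (0 : ℝ) < 1 / 2)
      (by norm_num)
    refine ⟨n + 1, ?_, ?_⟩
    · refine le_trans ?_ hn1.le
      exact pow_le_pow_of_le_one (by norm_num) (by norm_num) (by omega)
    · set S := Real.sqrt W with hS
      have hS0 : 0 < S := Real.sqrt_pos.2 hW
      have hSW : S * S = W := Real.mul_self_sqrt hW.le
      have h4 : ((2 * (n : ℝ) + 3) ^ 2 * S) ^ 2 ≤ 64 ^ 2 := by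
        have e1 : ((2 * (n : ℝ) + 3)) ^ 4 ≤ 4096 * 2 ^ n := by exact_mod_cast four_pow n
        have e2 : (2 : ℝ) ^ n * (1 / 2) ^ n = 1 := by
          rw [← mul_pow]
          norm_num
        calc ((2 * (n : ℝ) + 3) ^ 2 * S) ^ 2 = (2 * (n : ℝ) + 3) ^ 4 * (S * S) := by ring
          _ = (2 * (n : ℝ) + 3) ^ 4 * W := by rw [hSW]
          _ ≤ (4096 * 2 ^ n) * (1 / 2) ^ n := by gcongr
          _ = 4096 * (2 ^ n * (1 / 2) ^ n) := by ring
          _ = 64 ^ 2 := by rw [e2]; norm_num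
      have h5 : (2 * (n : ℝ) + 3) ^ 2 * S ≤ 64 :=
        (pow_le_pow_iff_left₀ (by positivity) (by norm_num) (by norm_num)).1 h4
      have e3 : (2 * ((n + 1 : ℕ) : ℝ) + 1) = 2 * (n : ℝ) + 3 := by
        push_cast
        ring
      rw [e3]
      calc (2 * (n : ℝ) + 3) ^ 2 * W = ((2 * (n : ℝ) + 3) ^ 2 * S) * S := by rw [← hSW]; ring
        _ ≤ 64 * S := by gcongr
        _ ≤ 64 * (W + S) := by linarith

/-- the number of additional bits -/
def kk (W : ℝ) : ℕ := if h : 0 < W then (exk W h).choose else 0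

lemma kk_one (W : ℝ) (hW : 0 < W) : (1 / 2 : ℝ) ^ (2 * kk W) ≤ W := by
  unfold kk
  rw [dif_pos hW]
  exact (exk W hW).choose_spec.1

lemma kk_two (W : ℝ) (hW : 0 < W) :
    (2 * (kk W : ℝ) + 1) ^ 2 * W ≤ 64 * (W + Real.sqrt W) := by
  unfold kk
  rw [dif_pos hW]
  exact (exk W hW).choose_spec.2

lemma sum_pi_one (Gn : Fin d → ℕ) (i0 : Fin d) (F : ℕ → ℝ) :
    ∑ ξ : ((i : Fin d) → Fin (Gn i)), F (ξ i0)
      = (∏ i ∈ univ.erase i0, (Gn i : ℝ)) * ∑ y ∈ range (Gn i0), F y := by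
  have h1 := Finset.prod_univ_sum (fun i : Fin d => (univ : Finset (Fin (Gn i))))
    (fun i y => if i = i0 then F ((y : ℕ)) else 1)
  rw [Fintype.piFinset_univ] at h1
  have h2 : ∀ ξ : ((i : Fin d) → Fin (Gn i)),
      ∏ i, (if i = i0 then F ((ξ i : ℕ)) else 1) = F (ξ i0) := by
    intro ξ
    rw [Finset.prod_ite_eq' univ i0 (fun i => F (ξ i)), if_pos (mem_univ _)]
  simp only [h2] at h1
  rw [← h1, ← Finset.mul_prod_erase univ _ (mem_univ i0), mul_comm]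
  congr 1
  · refine Finset.prod_congr rfl (fun i hi => ?_)
    have hne : i ≠ i0 := Finset.ne_of_mem_erase hi
    simp [hne]
  · simp only [if_true]
    exact Fin.sum_univ_eq_sum_range (fun y => F y) (Gn i0)

lemma th_sum (J g b M : ℕ) (hM : 2 ^ J ≤ M) (U : Finset ℕ) (i : ℕ) (hU : #U ≤ 2 ^ i) :
    ∑ ξ ∈ range M, wt 8 J g b U ((ξ : ℝ) / M) ≤ 160 * 2 ^ g * 2 ^ i * M / 2 ^ J := by
  have hM0 : (0 : ℝ) < M := by
    have : 0 < 2 ^ J := by positivity
    exact_mod_cast lt_of_lt_of_le this hM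
  have h1 : ∀ h ∈ Hn (2 ^ J), ∀ u ∈ U, ∑ ξ ∈ range M, pw (2 ^ g) 8 h *
      kp (2 ^ J) 8 ((ξ : ℝ) / M - (u : ℝ) / (2 ^ J : ℕ) + (h : ℝ) * b / (2 ^ J : ℕ))
      ≤ pw (2 ^ g) 4 h * (20 * M / 2 ^ J) := by
    intro h _ u _
    have h2 := kp_sum (2 ^ J) M (by positivity) hM ((u : ℝ) / (2 ^ J : ℕ) - (h : ℝ) * b / (2 ^ J : ℕ))
    push_cast at h2
    calc _ ≤ ∑ ξ ∈ range M, pw (2 ^ g) 4 h *
          kp (2 ^ J) 4 ((ξ : ℝ) / M - ((u : ℝ) / (2 ^ J) - (h : ℝ) * b / (2 ^ J))) := by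
          refine Finset.sum_le_sum (fun ξ _ => ?_)
          refine mul_le_mul (pw_84 _ _) ?_ (kp_pos _ _ _).le (pw_pos _ _ _).le
          refine (kp_84 _ _).trans (le_of_eq ?_)
          congr 1
          push_cast
          ring
      _ ≤ _ := by
          rw [← Finset.mul_sum]
          exact mul_le_mul_of_nonneg_left h2 (pw_pos _ _ _).le
  unfold wt
  rw [Finset.sum_comm]
  calc _ ≤ ∑ h ∈ Hn (2 ^ J), ∑ _u ∈ U, pw (2 ^ g) 4 h * (20 * M / 2 ^ J) := by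
        refine Finset.sum_le_sum (fun h hh => ?_)
        rw [Finset.sum_comm]
        exact Finset.sum_le_sum (fun u hu => h1 h hh u hu)
    _ = (∑ h ∈ Hn (2 ^ J), pw (2 ^ g) 4 h) * (#U * (20 * M / 2 ^ J)) := by
        simp only [Finset.sum_const, nsmul_eq_mul]
        rw [Finset.sum_mul]
        exact Finset.sum_congr rfl (fun h _ => by ring)
    _ ≤ (8 * (2 ^ g : ℕ)) * (2 ^ i * (20 * M / 2 ^ J)) := by
        have h3 : (#U : ℝ) ≤ 2 ^ i := by exact_mod_cast hU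
        have h4 := pw_sum (2 ^ J) (2 ^ g) (by positivity)
        gcongr
    _ = _ := by
        push_cast
        ring

end

end Pool.Agent.H75.UX
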