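import Pool.Agent.H75.UX.Defs

set_option autoImplicit false
set_option linter.unusedSectionVars false

/-!
# [M2] Wgt: basic lemmas on the weights `nu`, `kp`, `pw`, `wt`
-/

open Finset ComplexConjugate MeasureTheory

open scoped Classical

namespace Pool.Agent.H75.UX

open Pool.Agent.H75.MT (ee ee_add ee_norm ee_conj ee_int ee_zero)
open Pool.Agent.H75.UB

noncomputable section

/-! ## The distance to the nearest integer -/

lemma nu_nonneg (t : ℝ) : 0 ≤ nu t := abs_nonneg _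

lemma nu_le_half (t : ℝ) : nu t ≤ 1 / 2 := abs_sub_round t

lemma nu_le (t : ℝ) (n : ℤ) : nu t ≤ |t - n| := round_le t n

lemma nu_add (t t' : ℝ) : nu (t + t') ≤ nu t + nu t' := by
  refine (nu_le (t + t') (round t + round t')).trans ?_
  have h : t + t' - ((round t + round t' : ℤ) : ℝ) = (t - round t) + (t' - round t') := by
    push_cast
    ring
  rw [h]
  exact abs_add_le _ _

lemma wgt_nu_neg_le (t : ℝ) : nu (-t) ≤ nu t := by
  refine (nu_le (-t) (-round t)).trans (le_of_eq ?_)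
  have h : -t - ((-round t : ℤ) : ℝ) = -(t - round t) := by
    push_cast
    ring
  rw [h, abs_neg, nu]

lemma nu_neg (t : ℝ) : nu (-t) = nu t := by
  apply le_antisymm (wgt_nu_neg_le t)
  have h := wgt_nu_neg_le (-t)
  rwa [neg_neg] at h

lemma nu_add_int (t : ℝ) (n : ℤ) : nu (t + n) = nu t := by
  rw [nu, nu, round_add_intCast]
  congr 1
  push_cast
  ring

lemma nu_sub_comm (t t' : ℝ) : nu (t - t') = nu (t' - t) := by
  rw [← nu_neg (t - t'), neg_sub]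

lemma nu_le_abs (t : ℝ) : nu t ≤ |t| := by
  have h := nu_le t 0
  simpa using h

lemma nu_near (t δ : ℝ) : near t δ ↔ nu t ≤ δ :=
  ⟨fun ⟨m, hm⟩ => (nu_le t m).trans hm, fun h => ⟨round t, h⟩⟩

/-! ## The decay functions -/

lemma kp_pos (q μ : ℕ) (t : ℝ) : 0 < kp q μ t := by
  unfold kp
  have : (0 : ℝ) < max 1 ((q : ℝ) * nu t) := lt_max_of_lt_left one_pos
  positivity

lemma kp_le_one (q μ : ℕ) (t : ℝ) : kp q μ t ≤ 1 := by
  unfold kp
  rw [div_le_one (pow_pos (lt_max_of_lt_left one_pos) _)]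
  exact one_le_pow₀ (le_max_left _ _)

lemma pw_pos (Q μ : ℕ) (h : ℤ) : 0 < pw Q μ h := by
  unfold pw
  have : (0 : ℝ) < max 1 (|(h : ℝ)| / Q) := lt_max_of_lt_left one_pos
  positivity

lemma pw_le_one (Q μ : ℕ) (h : ℤ) : pw Q μ h ≤ 1 := by
  unfold pw
  rw [div_le_one (pow_pos (lt_max_of_lt_left one_pos) _)]
  exact one_le_pow₀ (le_max_left _ _)

lemma wgt_pow_anti {x : ℝ} (hx : 1 ≤ x) {μ μ' : ℕ} (h : μ ≤ μ') : 1 / x ^ μ' ≤ 1 / x ^ μ :=
  one_div_le_one_div_of_le (pow_pos (one_pos.trans_le hx) _) (pow_le_pow_right₀ hx h)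

lemma kp_mono (q : ℕ) (t : ℝ) {μ μ' : ℕ} (h : μ ≤ μ') : kp q μ' t ≤ kp q μ t :=
  wgt_pow_anti (le_max_left _ _) h

lemma pw_mono (Q : ℕ) (k : ℤ) {μ μ' : ℕ} (h : μ ≤ μ') : pw Q μ' k ≤ pw Q μ k :=
  wgt_pow_anti (le_max_left _ _) h

lemma wgt_sqrt {x : ℝ} (hx : 1 ≤ x) : Real.sqrt (1 / x ^ 8) = 1 / x ^ 4 := by
  have h0 : 0 < x := one_pos.trans_le hx
  have h : 1 / x ^ 8 = (1 / x ^ 4) ^ 2 := by
    rw [div_pow, one_pow, ← pow_mul]
  rw [h, Real.sqrt_sq (by positivity)]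

lemma kp_sqrt (q : ℕ) (t : ℝ) : Real.sqrt (kp q 8 t) = kp q 4 t := wgt_sqrt (le_max_left _ _)

lemma pw_sqrt (Q : ℕ) (h : ℤ) : Real.sqrt (pw Q 8 h) = pw Q 4 h := wgt_sqrt (le_max_left _ _)

lemma kp_congr (q μ : ℕ) {t t' : ℝ} (h : nu t = nu t') : kp q μ t = kp q μ t' := by
  unfold kp
  rw [h]

lemma kp_neg (q μ : ℕ) (t : ℝ) : kp q μ (-t) = kp q μ t := kp_congr q μ (nu_neg t)

lemma kp_sub_comm (q μ : ℕ) (t t' : ℝ) : kp q μ (t - t') = kp q μ (t' - t) :=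
  kp_congr q μ (nu_sub_comm t t')

lemma kp_add_int (q μ : ℕ) (t : ℝ) (n : ℤ) : kp q μ (t + n) = kp q μ t :=
  kp_congr q μ (nu_add_int t n)

lemma wgt_max (q : ℕ) (t t' : ℝ) :
    max 1 ((q : ℝ) * nu t) ≤ (1 + q * nu (t - t')) * max 1 ((q : ℝ) * nu t') := by
  have h1 : nu t ≤ nu (t - t') + nu t' := by
    have := nu_add (t - t') t'
    rwa [sub_add_cancel] at this
  have h2 : (0 : ℝ) ≤ q * nu (t - t') := mul_nonneg (Nat.cast_nonneg _) (nu_nonneg _)
  have h3 : (1 : ℝ) ≤ max 1 ((q : ℝ) * nu t') := le_max_left _ _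
  have h4 : (q : ℝ) * nu t' ≤ max 1 ((q : ℝ) * nu t') := le_max_right _ _
  apply max_le
  · nlinarith
  · have h5 : (q : ℝ) * nu t ≤ q * nu (t - t') + q * nu t' := by
      rw [← mul_add]
      exact mul_le_mul_of_nonneg_left h1 (Nat.cast_nonneg _)
    nlinarith

lemma kp_84 (q : ℕ) (t : ℝ) : kp q 8 t ≤ kp q 4 t := kp_mono q t (by norm_num)

lemma pw_84 (Q : ℕ) (h : ℤ) : pw Q 8 h ≤ pw Q 4 h := pw_mono Q h (by norm_num)

/-- slow variation, all exponents -/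
lemma kp_slow (q μ : ℕ) (t t' : ℝ) :
    kp q μ t' ≤ (1 + q * nu (t - t')) ^ μ * kp q μ t := by
  unfold kp
  have h0 : (0 : ℝ) < max 1 ((q : ℝ) * nu t) := lt_max_of_lt_left one_pos
  have h0' : (0 : ℝ) < max 1 ((q : ℝ) * nu t') := lt_max_of_lt_left one_pos
  rw [mul_one_div, div_le_div_iff₀ (pow_pos h0' _) (pow_pos h0 _), one_mul, ← mul_pow]
  exact pow_le_pow_left₀ h0.le (wgt_max q t t') μ

lemma kp_slow_gen (q μ : ℕ) (t t' : ℝ) :
    kp q μ t' ≤ (1 + q * nu (t - t')) ^ μ * kp q μ t := kp_slow q μ t t'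

lemma kp_slow4 (q : ℕ) (t t' : ℝ) : kp q 4 t' ≤ (1 + q * nu (t - t')) ^ 4 * kp q 4 t :=
  kp_slow q 4 t t'

lemma wt_nonneg (μ J g b : ℕ) (U : Finset ℕ) (t : ℝ) : 0 ≤ wt μ J g b U t := by
  unfold wt
  exact Finset.sum_nonneg fun h _ => Finset.sum_nonneg fun u _ =>
    mul_nonneg (pw_pos _ _ _).le (kp_pos _ _ _).le

lemma wt_slow_gen (μ J g b : ℕ) (U : Finset ℕ) (t t' : ℝ) :
    wt μ J g b U t' ≤ (1 + 2 ^ J * nu (t - t')) ^ μ * wt μ J g b U t := by
  unfold wt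
  rw [Finset.mul_sum]
  refine Finset.sum_le_sum fun h _ => ?_
  rw [Finset.mul_sum]
  refine Finset.sum_le_sum fun u _ => ?_
  have h1 := kp_slow_gen (2 ^ J) μ (t - (u : ℝ) / (2 ^ J : ℕ) + (h : ℝ) * b / (2 ^ J : ℕ))
    (t' - (u : ℝ) / (2 ^ J : ℕ) + (h : ℝ) * b / (2 ^ J : ℕ))
  have h2 : t - (u : ℝ) / (2 ^ J : ℕ) + (h : ℝ) * b / (2 ^ J : ℕ)
      - (t' - (u : ℝ) / (2 ^ J : ℕ) + (h : ℝ) * b / (2 ^ J : ℕ)) = t - t' := by ring
  have h3 : (((2 ^ J : ℕ) : ℕ) : ℝ) = 2 ^ J := by push_cast; rfl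
  rw [h2] at h1
  calc pw (2 ^ g) μ h * kp (2 ^ J) μ (t' - (u : ℝ) / (2 ^ J : ℕ) + (h : ℝ) * b / (2 ^ J : ℕ))
      ≤ pw (2 ^ g) μ h * ((1 + ((2 ^ J : ℕ) : ℝ) * nu (t - t')) ^ μ
        * kp (2 ^ J) μ (t - (u : ℝ) / (2 ^ J : ℕ) + (h : ℝ) * b / (2 ^ J : ℕ))) :=
        mul_le_mul_of_nonneg_left h1 (pw_pos _ _ _).le
    _ = (1 + 2 ^ J * nu (t - t')) ^ μ * (pw (2 ^ g) μ h
        * kp (2 ^ J) μ (t - (u : ℝ) / (2 ^ J : ℕ) + (h : ℝ) * b / (2 ^ J : ℕ))) := by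
        rw [h3]
        ring

lemma wt_slow (J g b : ℕ) (U : Finset ℕ) (t t' : ℝ) :
    wt 4 J g b U t' ≤ (1 + 2 ^ J * nu (t - t')) ^ 4 * wt 4 J g b U t :=
  wt_slow_gen 4 J g b U t t'

lemma wt_slow' (J g b : ℕ) (U : Finset ℕ) (t t' : ℝ) :
    wt 4 J g b U t' ≤ (1 + ((2 ^ J : ℕ) : ℝ) * nu (t - t')) ^ 4 * wt 4 J g b U t := by
  have h := wt_slow J g b U t t'
  push_cast
  exact h

lemma wt_mono (J g b : ℕ) (U : Finset ℕ) (t : ℝ) {μ μ' : ℕ} (h : μ ≤ μ') :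
    wt μ' J g b U t ≤ wt μ J g b U t := by
  unfold wt
  refine Finset.sum_le_sum fun k _ => Finset.sum_le_sum fun u _ => ?_
  exact mul_le_mul (pw_mono _ _ h) (kp_mono _ _ h) (kp_pos _ _ _).le (pw_pos _ _ _).le

/-! ## Sums -/

/-- dyadic majorant of the decay -/
lemma wgt_dy {x : ℝ} {K : ℕ} (hx : x ≤ 2 ^ K) :
    1 / (max 1 x) ^ 4 ≤ (if x ≤ 1 then 1 else 0)
      + ∑ k ∈ range K, 16 * (1 / 16 : ℝ) ^ (k + 1) * (if x ≤ 2 ^ (k + 1) then 1 else 0) := by
  have hnn : ∀ k ∈ range K,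
      0 ≤ 16 * (1 / 16 : ℝ) ^ (k + 1) * (if x ≤ 2 ^ (k + 1) then 1 else 0) := by
    intro k _
    split_ifs <;> positivity
  by_cases h1 : x ≤ 1
  · rw [if_pos h1, max_eq_left h1]
    have := Finset.sum_nonneg hnn
    simp only [one_pow, div_one]
    linarith
  · rw [if_neg h1]
    push Not at h1
    rw [max_eq_right h1.le, zero_add]
    have hK : K ≠ 0 := by
      rintro rfl
      simp only [pow_zero] at hx
      linarith
    obtain ⟨K', rfl⟩ := Nat.exists_eq_succ_of_ne_zero hK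
    have hex : ∃ k, x ≤ 2 ^ (k + 1) := ⟨K', hx⟩
    set k := Nat.find hex with hk
    have hk1 : x ≤ 2 ^ (k + 1) := Nat.find_spec hex
    have hk2 : k ≤ K' := Nat.find_min' hex hx
    have hk3 : (2 : ℝ) ^ k < x := by
      rcases Nat.eq_zero_or_pos k with h0 | h0
      · rw [h0, pow_zero]
        exact h1
      · have := Nat.find_min hex (m := k - 1) (by omega)
        push Not at this
        rwa [Nat.sub_add_cancel h0] at this
    have hmem : k ∈ range (K' + 1) := by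
      rw [mem_range]
      omega
    refine le_trans ?_ (Finset.single_le_sum hnn hmem)
    rw [if_pos hk1, mul_one]
    have e1 : 16 * (1 / 16 : ℝ) ^ (k + 1) = 1 / ((2 : ℝ) ^ k) ^ 4 := by
      rw [← pow_mul, mul_comm k 4, pow_mul, pow_succ, div_pow, one_pow]
      norm_num
      ring
    rw [e1]
    exact one_div_le_one_div_of_le (by positivity) (pow_le_pow_left₀ (by positivity) hk3.le 4)

lemma wgt_geom (K : ℕ) : ∑ k ∈ range K, (1 / 8 : ℝ) ^ (k + 1) ≤ 1 / 7 := by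
  have h : ∀ K : ℕ, ∑ k ∈ range K, (1 / 8 : ℝ) ^ (k + 1) = 1 / 7 - 1 / 7 * (1 / 8) ^ K := by
    intro K
    induction K with
    | zero => simp
    | succ K ih =>
      rw [Finset.sum_range_succ, ih, pow_succ]
      ring
  rw [h]
  have : (0 : ℝ) ≤ 1 / 7 * (1 / 8) ^ K := by positivity
  linarith

/-- sum of the decay over a finite set with a linear counting function -/
lemma wgt_sum {ι : Type*} (S : Finset ι) (x : ι → ℝ) (A : ℝ) (K : ℕ)
    (hx : ∀ i ∈ S, x i ≤ 2 ^ K)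
    (hc : ∀ k : ℕ, (#(S.filter (fun i => x i ≤ 2 ^ k)) : ℝ) ≤ A * 2 ^ k) :
    ∑ i ∈ S, 1 / (max 1 (x i)) ^ 4 ≤ 4 * A := by
  have hA : 0 ≤ A := by
    have := hc 0
    rw [pow_zero, mul_one] at this
    exact (Nat.cast_nonneg _).trans this
  have h1 : ∑ i ∈ S, 1 / (max 1 (x i)) ^ 4 ≤ ∑ i ∈ S, ((if x i ≤ 1 then 1 else 0)
      + ∑ k ∈ range K, 16 * (1 / 16 : ℝ) ^ (k + 1) * (if x i ≤ 2 ^ (k + 1) then 1 else 0)) :=
    Finset.sum_le_sum fun i hi => wgt_dy (hx i hi)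
  refine h1.trans ?_
  rw [Finset.sum_add_distrib, Finset.sum_comm]
  have h2 : ∑ i ∈ S, (if x i ≤ 1 then (1 : ℝ) else 0) ≤ A := by
    rw [Finset.sum_boole]
    have := hc 0
    simpa using this
  have h3 : ∑ k ∈ range K, ∑ i ∈ S,
      16 * (1 / 16 : ℝ) ^ (k + 1) * (if x i ≤ 2 ^ (k + 1) then (1 : ℝ) else 0)
      ≤ ∑ k ∈ range K, 16 * A * (1 / 8 : ℝ) ^ (k + 1) := by
    refine Finset.sum_le_sum fun k _ => ?_
    rw [← Finset.mul_sum, Finset.sum_boole]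
    have e1 : (1 / 8 : ℝ) ^ (k + 1) = (1 / 16 : ℝ) ^ (k + 1) * 2 ^ (k + 1) := by
      rw [← mul_pow]
      norm_num
    calc 16 * (1 / 16 : ℝ) ^ (k + 1) * (#(S.filter (fun i => x i ≤ 2 ^ (k + 1))) : ℝ)
        ≤ 16 * (1 / 16 : ℝ) ^ (k + 1) * (A * 2 ^ (k + 1)) :=
          mul_le_mul_of_nonneg_left (hc (k + 1)) (by positivity)
      _ = 16 * A * (1 / 8 : ℝ) ^ (k + 1) := by
          rw [e1]
          ring
  have h4 : ∑ k ∈ range K, 16 * A * (1 / 8 : ℝ) ^ (k + 1) ≤ 16 * A * (1 / 7) := by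
    rw [← Finset.mul_sum]
    exact mul_le_mul_of_nonneg_left (wgt_geom K) (by positivity)
  linarith

lemma wgt_two_pow (q : ℕ) : (q : ℝ) ≤ 2 ^ q := by
  exact_mod_cast Nat.lt_two_pow_self.le

lemma kp_sum (q M : ℕ) (hq : 0 < q) (hqM : q ≤ M) (t : ℝ) :
    ∑ ξ ∈ range M, kp q 4 ((ξ : ℝ) / M - t) ≤ 20 * M / q := by
  have hM : 0 < M := hq.trans_le hqM
  have hqr : (0 : ℝ) < q := by exact_mod_cast hq
  have hMr : (0 : ℝ) < M := by exact_mod_cast hM
  have hqMr : (q : ℝ) ≤ M := by exact_mod_cast hqM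
  have h1 : ∑ ξ ∈ range M, kp q 4 ((ξ : ℝ) / M - t) ≤ 4 * (3 * M / q) := by
    refine wgt_sum (range M) (fun ξ => (q : ℝ) * nu ((ξ : ℝ) / M - t)) (3 * M / q) q ?_ ?_
    · intro ξ _
      have e1 := nu_le_half ((ξ : ℝ) / M - t)
      have e2 := nu_nonneg ((ξ : ℝ) / M - t)
      have e3 := wgt_two_pow q
      nlinarith
    · intro k
      have e1 : (range M).filter (fun ξ : ℕ => (q : ℝ) * nu ((ξ : ℝ) / M - t) ≤ 2 ^ k)
          = (range M).filter (fun ξ : ℕ => near (-t + (ξ : ℝ) / M) (2 ^ k / q)) := by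
        refine Finset.filter_congr fun ξ _ => ?_
        rw [nu_near, le_div_iff₀ hqr, mul_comm, neg_add_eq_sub]
      rw [e1]
      have e2 := arc_count M hM (-t) (2 ^ k / q) (by positivity)
      refine e2.trans ?_
      have e3 : (1 : ℝ) ≤ M / q * 2 ^ k := by
        have e4 : (1 : ℝ) ≤ M / q := by
          rw [one_le_div hqr]
          exact hqMr
        have e5 : (1 : ℝ) ≤ 2 ^ k := one_le_pow₀ (by norm_num)
        nlinarith
      have e6 : 2 * (2 ^ k / (q : ℝ)) * M = 2 * (M / q * 2 ^ k) := by ring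
      have e7 : 3 * (M : ℝ) / q * 2 ^ k = 3 * (M / q * 2 ^ k) := by ring
      rw [e6, e7]
      linarith
  refine h1.trans ?_
  have h2 : (0 : ℝ) ≤ M / q := by positivity
  have e1 : 4 * (3 * (M : ℝ) / q) = 12 * (M / q) := by ring
  have e2 : 20 * (M : ℝ) / q = 20 * (M / q) := by ring
  rw [e1, e2]
  linarith

lemma kp_sum8 (q M : ℕ) (hq : 0 < q) (hqM : q ≤ M) (t : ℝ) :
    ∑ ξ ∈ range M, kp q 8 ((ξ : ℝ) / M - t) ≤ 20 * M / q :=
  (Finset.sum_le_sum fun _ _ => kp_84 q _).trans (kp_sum q M hq hqM t)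

lemma kp_sum' (q : ℕ) (hq : 0 < q) (t : ℝ) : ∑ y ∈ range q, kp q 4 (t - (y : ℝ) / q) ≤ 20 := by
  have hqr : (0 : ℝ) < q := by exact_mod_cast hq
  have h1 := kp_sum q q hq le_rfl t
  rw [mul_div_assoc, div_self hqr.ne', mul_one] at h1
  refine le_trans (le_of_eq ?_) h1
  exact Finset.sum_congr rfl fun y _ => kp_sub_comm q 4 _ _

lemma pw_sum (q Q : ℕ) (hQ : 0 < Q) : ∑ h ∈ Hn q, pw Q 4 h ≤ 8 * Q := by
  have hQr : (0 : ℝ) < Q := by exact_mod_cast hQ
  have h1 : ∑ h ∈ Hn q, pw Q 4 h ≤ 4 * (2 * Q) := by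
    refine wgt_sum (Hn q) (fun h : ℤ => |(h : ℝ)| / Q) (2 * Q) q ?_ ?_
    · intro h hh
      unfold Hn Hs at hh
      rw [Finset.mem_filter, mem_Ico] at hh
      have e1 : |h| ≤ q := by
        rw [abs_le]
        omega
      have e2 : |(h : ℝ)| ≤ q := by
        rw [← Int.cast_abs]
        exact_mod_cast e1
      have e3 := wgt_two_pow q
      rw [div_le_iff₀ hQr]
      have e4 : (1 : ℝ) ≤ Q := by exact_mod_cast hQ
      nlinarith [abs_nonneg (h : ℝ)]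
    · intro k
      have e1 : (Hn q).filter (fun h : ℤ => |(h : ℝ)| / Q ≤ 2 ^ k)
          ⊆ (Finset.Icc (-((Q * 2 ^ k : ℕ) : ℤ)) ((Q * 2 ^ k : ℕ) : ℤ)).erase 0 := by
        intro h hh
        rw [Finset.mem_filter] at hh
        obtain ⟨hh1, hh2⟩ := hh
        unfold Hn at hh1
        rw [Finset.mem_filter] at hh1
        rw [div_le_iff₀ hQr] at hh2
        have e2 : |h| ≤ ((Q * 2 ^ k : ℕ) : ℤ) := by
          have e3 : |(h : ℝ)| ≤ ((Q * 2 ^ k : ℕ) : ℝ) := by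
            push_cast
            linarith
          rw [← Int.cast_abs] at e3
          exact_mod_cast e3
        rw [abs_le] at e2
        rw [Finset.mem_erase, Finset.mem_Icc]
        exact ⟨hh1.2, e2⟩
      have e4 := Finset.card_le_card e1
      have e5 : #((Finset.Icc (-((Q * 2 ^ k : ℕ) : ℤ)) ((Q * 2 ^ k : ℕ) : ℤ)).erase 0)
          = 2 * (Q * 2 ^ k) := by
        rw [Finset.card_erase_of_mem (by rw [Finset.mem_Icc]; constructor <;> omega),
          Int.card_Icc]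
        omega
      rw [e5] at e4
      have e6 : (#((Hn q).filter (fun h : ℤ => |(h : ℝ)| / Q ≤ 2 ^ k)) : ℝ)
          ≤ ((2 * (Q * 2 ^ k) : ℕ) : ℝ) := by exact_mod_cast e4
      push_cast at e6
      linarith
  linarith

/-! ## The bump and the window -/

lemma psh_pw (J g m : ℕ) (hg : g ≤ J) (_hJ : 1 ≤ J) (h : ℤ) (hh : h ∈ Hs (2 ^ J)) :
    ‖psh (2 ^ J) (2 ^ (J - g)) m h‖ ≤ pw (2 ^ g) m h := by
  set q : ℕ := 2 ^ J with hq
  set V : ℕ := 2 ^ (J - g) with hV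
  set Q : ℕ := 2 ^ g with hQ
  have hQV : Q * V = q := by
    rw [hV, hq, hQ, ← pow_add, Nat.add_sub_cancel' hg]
  have hq0 : 0 < q := by positivity
  have hV0 : 0 < V := by positivity
  have hQ0 : 0 < Q := by positivity
  have hqr : (0 : ℝ) < q := by exact_mod_cast hq0
  have hVr : (0 : ℝ) < V := by exact_mod_cast hV0
  have hQr : (0 : ℝ) < Q := by exact_mod_cast hQ0
  have h3 : (q : ℝ) = Q * V := by exact_mod_cast hQV.symm
  unfold psh pw
  rw [norm_pow]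
  have key : ‖(1 / V : ℂ) * ∑ v ∈ range V, ee (v * (-(h : ℝ) / q))‖ ≤ 1 / max 1 (|(h : ℝ)| / Q) := by
    have h2 : ‖(1 / V : ℂ)‖ = 1 / V := by simp
    rw [norm_mul, h2]
    rcases le_total (|(h : ℝ)| / Q) 1 with hle | hge
    · rw [max_eq_left hle, div_one]
      have h1 := dir_le V (-(h : ℝ) / q)
      calc 1 / (V : ℝ) * ‖∑ c ∈ range V, ee (c * (-(h : ℝ) / q))‖ ≤ 1 / V * V := by gcongr
        _ = 1 := by field_simp
    · rw [max_eq_right hge]
      have hh0 : (0 : ℝ) < |(h : ℝ)| := by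
        rw [le_div_iff₀ hQr, one_mul] at hge
        linarith
      have hne : h ≠ 0 := by
        rintro rfl
        simp at hh0
      unfold Hs at hh
      rw [mem_Ico] at hh
      have hfar := dir_far V (-(h : ℝ) / q) (|(h : ℝ)| / q) (by positivity) (by
        intro n
        have e : -(h : ℝ) / q - n = (((-h - n * q : ℤ) : ℝ)) / q := by
          push_cast
          field_simp
        rw [e, abs_div, abs_of_pos hqr, div_le_div_iff_of_pos_right hqr, ← Int.cast_abs,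
          ← Int.cast_abs]
        have : |h| ≤ |(-h - n * q)| := by
          have hq2 : ((q / 2 : ℕ) : ℤ) * 2 ≤ q := by
            have := Nat.div_mul_le_self q 2
            exact_mod_cast this
          rcases eq_or_ne n 0 with rfl | hn
          · simp only [zero_mul, sub_zero, abs_neg, le_refl]
          · have habs : |h| * 2 ≤ q := by
              rcases abs_cases h with ⟨h1, _⟩ | ⟨h1, _⟩ <;> rw [h1] <;> omega
            have hn1 : (1 : ℤ) ≤ |n| := Int.one_le_abs hn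
            have h3 : |n * q| - |h| ≤ |(-h - n * q)| := by
              have := abs_sub_abs_le_abs_sub (n * (q : ℤ)) (-h)
              rw [abs_neg] at this
              rw [abs_sub_comm]
              exact this
            have h4 : (q : ℤ) ≤ |n * q| := by
              rw [abs_mul, Nat.abs_cast]
              have : (0 : ℤ) ≤ q := by positivity
              nlinarith
            omega
        exact_mod_cast this)
      calc 1 / (V : ℝ) * ‖∑ c ∈ range V, ee (c * (-(h : ℝ) / q))‖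
          ≤ 1 / V * (1 / (2 * (|(h : ℝ)| / q))) := by gcongr
        _ = 1 / 2 * (1 / (|(h : ℝ)| / Q)) := by
            rw [h3]
            field_simp
        _ ≤ 1 * (1 / (|(h : ℝ)| / Q)) := by gcongr; norm_num
        _ = 1 / (|(h : ℝ)| / Q) := one_mul _
  calc ‖(1 / V : ℂ) * ∑ v ∈ range V, ee (v * (-(h : ℝ) / q))‖ ^ m
      ≤ (1 / max 1 (|(h : ℝ)| / Q)) ^ m := pow_le_pow_left₀ (norm_nonneg _) key m
    _ = 1 / (max 1 (|(h : ℝ)| / Q)) ^ m := by rw [div_pow, one_pow]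

lemma Wk_kp (J m b : ℕ) (h : ℤ) (t : ℝ) :
    ‖Wk J m b h t‖ ≤ 2 ^ J * kp (2 ^ J) (m + 1) (t + (h : ℝ) * b / (2 ^ J : ℕ)) := by
  unfold Wk kp
  set x : ℝ := t + (h : ℝ) * b / (2 ^ J : ℕ) with hx
  set q : ℝ := ((2 ^ J : ℕ) : ℝ) with hq
  have hqr : 0 < q := by
    rw [hq]
    positivity
  have hq2 : (2 : ℝ) ^ J = q := by
    rw [hq]
    push_cast
    rfl
  have h2 : ‖(1 / (2 ^ J : ℕ) ^ m : ℂ)‖ = 1 / q ^ m := by
    rw [norm_div, NormOneClass.norm_one, norm_pow, Complex.norm_natCast]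
  have key : ‖∑ c ∈ range (2 ^ J), ee (c * x)‖ ≤ q / max 1 (q * nu x) := by
    rcases le_total (q * nu x) 1 with hle | hge
    · rw [max_eq_left hle, div_one]
      exact dir_le (2 ^ J) x
    · rw [max_eq_right hge]
      have hnu : 0 < nu x := by
        by_contra hcon
        push Not at hcon
        have : q * nu x ≤ 0 := mul_nonpos_of_nonneg_of_nonpos hqr.le hcon
        linarith
      have h1 := dir_far (2 ^ J) x (nu x) hnu (nu_le x)
      refine h1.trans ?_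
      rw [div_le_div_iff₀ (by positivity) (by positivity)]
      nlinarith [mul_pos hqr hnu]
  rw [norm_mul, norm_pow, h2, hq2]
  calc 1 / q ^ m * ‖∑ c ∈ range (2 ^ J), ee (c * x)‖ ^ (m + 1)
      ≤ 1 / q ^ m * (q / max 1 (q * nu x)) ^ (m + 1) := by
        apply mul_le_mul_of_nonneg_left _ (by positivity)
        exact pow_le_pow_left₀ (norm_nonneg _) key _
    _ = q * (1 / max 1 (q * nu x) ^ (m + 1)) := by
        rw [div_pow, pow_succ q m]
        field_simp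

end

end Pool.Agent.H75.UX
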